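import Pool.Agent.AreaTri.Vis

/-!
Neighbours in open half planes, and the triangle to the left of a segment of a triangulation.
-/

namespace Pool.Agent.AreaTri

variable {S : Finset Pt} {G : SimpleGraph Pt}

/-- every open half plane bounded by a line through `a` which contains a point of `S` contains a
neighbour of `a` -/
theorem wedge (hG : IsTriangulation S G) {a b p₀ : Pt} (ha : a ∈ S) (hp₀ : p₀ ∈ S)
    (h0 : 0 < orient a b p₀) : ∃ d, G.Adj a d ∧ 0 < orient a b d := by
  classical
  obtain ⟨p, hpC, hmin, hnear⟩ := exists_min_angle (S.filter (fun p => 0 < orient a b p))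
    ⟨p₀, Finset.mem_filter.2 ⟨hp₀, h0⟩⟩ a b (fun p hp => (Finset.mem_filter.1 hp).2)
  obtain ⟨hpS, hpB⟩ := Finset.mem_filter.1 hpC
  have hap : a ≠ p := by rintro rfl; simp at hpB
  have hfree : ∀ r ∈ S, r ∉ openSegment ℝ a p := by
    intro r hr hro
    obtain ⟨t, ht0, ht1, ht⟩ := mem_oseg_on.1 hro
    have e1 := ht.orient a b
    have e2 := ht.orient a p
    simp only [orient_self, orient_self', mul_zero, add_zero, zero_add] at e1 e2
    have hrC : r ∈ S.filter (fun p => 0 < orient a b p) := by
      refine Finset.mem_filter.2 ⟨hr, ?_⟩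
      rw [e1]; positivity
    have := hnear r hrC e2
    rw [e1] at this
    nlinarith
  by_cases hbl : ∃ r s z, G.Adj r s ∧ z ∈ openSegment ℝ r s ∧ z ∈ openSegment ℝ a p ∧
      orient a p s ≠ 0
  · -- blocked: take the nearest blocking point
    -- the parameter of the crossing point of the line `r s` with the ray `a p`
    have hedge : ∀ r s z, G.Adj r s → z ∈ openSegment ℝ r s → z ∈ openSegment ℝ a p →
        orient a p s ≠ 0 → orient a r s ≠ 0 ∧ On (orient a r s / (orient p r s * (-1) +
          orient a r s)) a p z := by
      intro r s z hrs hz hz' hne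
      obtain ⟨t, ht0, ht1, ht⟩ := mem_oseg_on.1 hz
      obtain ⟨ζ, hζ0, hζ1, hζ⟩ := mem_oseg_on.1 hz'
      have e1 := hζ.orient' r s
      have e2 := ht.orient a p
      have e3 := hζ.orient a p
      simp only [orient_self, orient_self', mul_zero, add_zero] at e3
      rw [e3] at e2
      have e4 : orient r z s = 0 := by
        have := ht.orient' r s
        simpa using this
      rw [e4] at e1
      have f1 : orient r a s = - orient a r s := by unfold orient; ring
      have f2 : orient r p s = - orient p r s := by unfold orient; ring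
      rw [f1, f2] at e1
      have hne' : orient a r s ≠ 0 := by
        intro h
        rw [h] at e1
        have h5 : orient p r s = 0 := by
          have : ζ * orient p r s = 0 := by linarith
          rcases mul_eq_zero.1 this with h' | h'
          · linarith
          · exact h'
        -- then a, p, r, s are collinear
        apply hne
        have hrs' : r ≠ s := hrs.ne
        have id : (r.1 - s.1) * orient a p s = (p.1 - s.1) * orient a r s -
            (a.1 - s.1) * orient p r s := by unfold orient; ring
        have id2 : (r.2 - s.2) * orient a p s = (p.2 - s.2) * orient a r s -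
            (a.2 - s.2) * orient p r s := by unfold orient; ring
        rw [h, h5] at id id2
        by_contra hc
        simp only [mul_zero, sub_zero, mul_eq_zero] at id id2
        apply hrs'
        rcases id with h6 | h6
        · rcases id2 with h7 | h7
          · exact Prod.ext (by linarith) (by linarith)
          · exact absurd h7 hc
        · exact absurd h6 hc
      refine ⟨hne', ?_⟩
      have hden : orient p r s * (-1) + orient a r s ≠ 0 := by
        intro h
        have : orient p r s = orient a r s := by linarith
        rw [this] at e1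
        apply hne'
        linarith
      have : ζ = orient a r s / (orient p r s * (-1) + orient a r s) := by
        apply eq_div_of_mul_eq hden
        linarith
      rw [← this]; exact hζ
    -- finite set of blocking pairs
    set K := (S ×ˢ S).filter (fun e => G.Adj e.1 e.2 ∧ orient a p e.2 ≠ 0 ∧
      ∃ z, z ∈ openSegment ℝ e.1 e.2 ∧ z ∈ openSegment ℝ a p) with hK
    have hKne : K.Nonempty := by
      obtain ⟨r, s, z, h1, h2, h3, h4⟩ := hbl
      refine ⟨(r, s), ?_⟩
      rw [hK, Finset.mem_filter]
      exact ⟨Finset.mem_product.2 ⟨hG.1.mem _ _ h1, hG.1.mem _ _ h1.symm⟩, h1, h4, z, h2, h3⟩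
    obtain ⟨⟨r, s⟩, hrsK, hminK⟩ := K.exists_min_image
      (fun e => orient a e.1 e.2 / (orient p e.1 e.2 * (-1) + orient a e.1 e.2)) hKne
    rw [hK, Finset.mem_filter] at hrsK
    obtain ⟨-, hrs, hs0, y, hy, hy'⟩ := hrsK
    simp only at hrs hs0 hy hminK
    obtain ⟨η, hη0, hη1, hη⟩ := mem_oseg_on.1 hy'
    have hηe : η = orient a r s / (orient p r s * (-1) + orient a r s) :=
      On.inj hap hη (hedge r s y hrs hy hy' hs0).2
    rw [← hηe] at hminK
    -- the segment `a y`
    have hsub : ∀ z t, On t a y z → On (t * η) a p z := by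
      intro z t h
      constructor
      · rw [h.1, hη.1]; ring
      · rw [h.2, hη.2]; ring
    have hfree' : ∀ q ∈ S, q ∉ openSegment ℝ a y := by
      intro q hq hqo
      obtain ⟨t, ht0, ht1, ht⟩ := mem_oseg_on.1 hqo
      exact hfree q hq (mem_oseg_on.2 ⟨t * η, by positivity, by nlinarith, hsub q t ht⟩)
    have hcross' : ∀ u w z, G.Adj u w → z ∈ openSegment ℝ u w → z ∉ openSegment ℝ a y := by
      intro u w z huw hz hzo
      obtain ⟨t, ht0, ht1, ht⟩ := mem_oseg_on.1 hzo
      have hz' : z ∈ openSegment ℝ a p :=
        mem_oseg_on.2 ⟨t * η, by positivity, by nlinarith, hsub z t ht⟩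
      by_cases h0 : orient a p w = 0
      · -- collinear: equal to the segment `a p`, which then contains `y`
        obtain ⟨τ, hτ0, hτ1, hτ⟩ := mem_oseg_on.1 hz
        have e := hτ.orient a p
        have e' := (hsub z t ht).orient a p
        simp only [orient_self, orient_self', mul_zero, add_zero] at e'
        rw [e', h0] at e
        have hu0 : orient a p u = 0 := by
          have : (1 - τ) * orient a p u = 0 := by linarith
          rcases mul_eq_zero.1 this with h | h
          · linarith
          · exact h
        have heq := overlap_eq ha hpS (hG.1.mem _ _ huw) (hG.1.mem _ _ huw.symm) hfree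
          (hG.1.free _ _ huw) hz' hz hap hu0 h0
        have hap' : G.Adj a p := by
          rcases Sym2.eq_iff.1 heq with ⟨rfl, rfl⟩ | ⟨rfl, rfl⟩
          · exact huw
          · exact huw.symm
        have hne : s(a, p) ≠ s(r, s) := by
          intro he
          rcases Sym2.eq_iff.1 he with ⟨rfl, rfl⟩ | ⟨rfl, rfl⟩
          · simp at hs0
          · simp at hs0
        exact Set.disjoint_left.1 (hG.1.cross _ _ _ _ hap' hrs hne) hy' hy
      · have hK' : (u, w) ∈ K := by
          rw [hK, Finset.mem_filter]
          exact ⟨Finset.mem_product.2 ⟨hG.1.mem _ _ huw, hG.1.mem _ _ huw.symm⟩, huw, h0, z,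
            hz, hz'⟩
        have := hminK (u, w) hK'
        have e := On.inj hap (hsub z t ht) (hedge u w z huw hz hz' h0).2
        simp only at this
        rw [← e] at this
        nlinarith
    -- orient the blocking edge
    have main : ∀ r s, G.Adj r s → y ∈ openSegment ℝ r s → 0 < orient a p s →
        ∃ d, G.Adj a d ∧ 0 < orient a b d := by
      intro r s hrs hy hs
      have hys : orient a y s = η * orient a p s := by
        have := hη.orient' a s
        simpa using this
      have hD : 0 < orient a y s := by rw [hys]; positivity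
      obtain ⟨d, hd, hA, hB, -⟩ := vis hG ha hrs hy hfree' hcross' hD
      refine ⟨d, hd, ?_⟩
      -- `s` is strictly left of `a b`
      have hby : orient a b y = η * orient a b p := by
        have := hη.orient a b
        simpa using this
      have hsb : 0 < orient a b s := by
        by_contra hc
        push Not at hc
        obtain ⟨t, ht0, ht1, ht⟩ := mem_oseg_on.1 hy
        have e := ht.orient a b
        have hrb : 0 < orient a b r := by
          by_contra hc'
          push Not at hc'
          have h1 : 0 < orient a b y := by rw [hby]; positivity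
          have h2 : (1 - t) * orient a b r ≤ 0 :=
            mul_nonpos_of_nonneg_of_nonpos (by linarith) hc'
          have h3 : t * orient a b s ≤ 0 := mul_nonpos_of_nonneg_of_nonpos ht0.le hc
          linarith
        have hrC := hmin r (Finset.mem_filter.2 ⟨hG.1.mem _ _ hrs, hrb⟩)
        -- but `r` is strictly right of `a p`
        have e2 := ht.orient a p
        have e3 := hη.orient a p
        simp only [orient_self, orient_self', mul_zero, add_zero] at e3
        rw [e3] at e2
        have h4 : 0 < t * orient a p s := by positivity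
        have h5 : 0 ≤ (1 - t) * orient a p r := mul_nonneg (by linarith) hrC
        linarith
      obtain ⟨hx, hy''⟩ := coord (ne_of_gt hD) d
      have e : orient a b d = orient a d s / orient a y s * orient a b y +
          orient a y d / orient a y s * orient a b s := by
        conv_lhs => unfold orient
        rw [hx, hy'']; unfold orient; ring
      rw [e]
      have h1 : 0 < orient a b y := by rw [hby]; positivity
      positivity
    rcases lt_or_gt_of_ne hs0 with h | h
    · have hr : 0 < orient a p r := by
        obtain ⟨t, ht0, ht1, ht⟩ := mem_oseg_on.1 hy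
        have e2 := ht.orient a p
        have e3 := hη.orient a p
        simp only [orient_self, orient_self', mul_zero, add_zero] at e3
        rw [e3] at e2
        by_contra hc
        push Not at hc
        have h4 : t * orient a p s < 0 := mul_neg_of_pos_of_neg ht0 h
        have h5 : (1 - t) * orient a p r ≤ 0 :=
          mul_nonpos_of_nonneg_of_nonpos (by linarith) hc
        linarith
      exact main s r hrs.symm (oseg_symm.1 hy) hr
    · exact main r s hrs hy h
  · refine ⟨p, ?_, hpB⟩
    apply adj_of_free hG ha hpS hap hfree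
    intro r s z hrs hz hz'
    push Not at hbl
    have hs0 := hbl r s z hrs hz hz'
    have hr0 := hbl s r z hrs.symm (oseg_symm.1 hz) hz'
    exact overlap_eq ha hpS (hG.1.mem _ _ hrs) (hG.1.mem _ _ hrs.symm) hfree
      (hG.1.free _ _ hrs) hz' hz hap hr0 hs0

theorem exit_param {f0 f1 g0 g1 : ℝ} (hf0 : 0 < f0) (hg0 : 0 < g0) (h : f1 ≤ 0 ∨ g1 ≤ 0) :
    ∃ τ, 0 < τ ∧ τ ≤ 1 ∧ 0 ≤ (1 - τ) * f0 + τ * f1 ∧ 0 ≤ (1 - τ) * g0 + τ * g1 ∧
      ((1 - τ) * f0 + τ * f1 = 0 ∨ (1 - τ) * g0 + τ * g1 = 0) := by
  have aux : ∀ f0 f1 g0 g1 : ℝ, 0 < f0 → 0 < g0 → f1 ≤ 0 →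
      ∃ τ, 0 < τ ∧ τ ≤ 1 ∧ 0 ≤ (1 - τ) * f0 + τ * f1 ∧ 0 ≤ (1 - τ) * g0 + τ * g1 ∧
      ((1 - τ) * f0 + τ * f1 = 0 ∨ (1 - τ) * g0 + τ * g1 = 0) := by
    intro f0 f1 g0 g1 hf0 hg0 hf1
    have hd : 0 < f0 - f1 := by linarith
    have hτ0 : 0 < f0 / (f0 - f1) := by positivity
    have hτ1 : f0 / (f0 - f1) ≤ 1 := by rw [div_le_one hd]; linarith
    have hz : (1 - f0 / (f0 - f1)) * f0 + f0 / (f0 - f1) * f1 = 0 := by field_simp; ring
    by_cases hg : 0 ≤ (1 - f0 / (f0 - f1)) * g0 + f0 / (f0 - f1) * g1
    · exact ⟨f0 / (f0 - f1), hτ0, hτ1, hz.ge, hg, Or.inl hz⟩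
    · push Not at hg
      have e : ((1 - f0 / (f0 - f1)) * g0 + f0 / (f0 - f1) * g1) * (f0 - f1) =
          -f1 * g0 + f0 * g1 := by field_simp; ring
      have hneg : -f1 * g0 + f0 * g1 < 0 := by
        rw [← e]; exact mul_neg_of_neg_of_pos hg hd
      have hg1 : g1 < 0 := by
        by_contra hc
        push Not at hc
        nlinarith [mul_nonneg hf0.le hc, mul_nonneg (neg_nonneg.2 hf1) hg0.le]
      have hd' : 0 < g0 - g1 := by linarith
      have e2 : (1 - g0 / (g0 - g1)) * f0 + g0 / (g0 - g1) * f1 =
          (-g1 * f0 + g0 * f1) / (g0 - g1) := by field_simp; ring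
      have e3 : (1 - g0 / (g0 - g1)) * g0 + g0 / (g0 - g1) * g1 = 0 := by field_simp; ring
      refine ⟨g0 / (g0 - g1), by positivity, ?_, ?_, e3.ge, Or.inr e3⟩
      · rw [div_le_one hd']; linarith
      · rw [e2]; apply div_nonneg _ hd'.le; nlinarith
  rcases h with h | h
  · exact aux f0 f1 g0 g1 hf0 hg0 h
  · obtain ⟨τ, h1, h2, h3, h4, h5⟩ := aux g0 g1 f0 f1 hg0 hf0 h
    exact ⟨τ, h1, h2, h4, h3, h5.symm⟩

theorem exit_wedge (hpl : IsPlane S G) {a b c : Pt} (hab : G.Adj a b) (hac : G.Adj a c)
    (hD : 0 < orient a b c) (hmin : ∀ d, G.Adj a d → 0 < orient a b d → 0 ≤ orient a c d)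
    {u w z : Pt} (huw : G.Adj u w) (hz : z ∈ openSegment ℝ u w) (hzB : 0 < orient a b z)
    (hzA : 0 < orient a z c) (hzs : orient a z c + orient a b z ≤ orient a b c)
    (hus : orient a u c + orient a b u ≤ orient a z c + orient a b z)
    (hstrict : orient a z c + orient a b z < orient a b c ∨
      orient a u c + orient a b u < orient a z c + orient a b z) :
    0 < orient a u c ∧ 0 < orient a b u := by
  by_contra hcon
  have h : orient a u c ≤ 0 ∨ orient a b u ≤ 0 := by
    by_contra h
    push Not at h
    exact hcon h
  obtain ⟨τ, hτ0, hτ1, hf, hg, h0⟩ := exit_param hzA hzB h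
  set p : Pt := (z.1 + τ * (u.1 - z.1), z.2 + τ * (u.2 - z.2)) with hp
  have hon : On τ z u p := ⟨rfl, rfl⟩
  rw [← hon.orient' a c] at hf h0
  rw [← hon.orient a b] at hg h0
  have hσ : orient a p c + orient a b p < orient a b c := by
    rw [hon.orient' a c, hon.orient a b]
    rcases hstrict with hs | hs
    · have : τ * (orient a u c + orient a b u) ≤ τ * (orient a z c + orient a b z) :=
        mul_le_mul_of_nonneg_left hus hτ0.le
      linarith
    · have : τ * (orient a u c + orient a b u) < τ * (orient a z c + orient a b z) :=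
        mul_lt_mul_of_pos_left hs hτ0
      linarith
  -- an end point or a point of the open segment
  have hcase : p = u ∨ p ∈ openSegment ℝ u w := by
    rcases eq_or_lt_of_le hτ1 with h1 | h1
    · left; rw [h1] at hon; exact On.ext hon On.one
    · right; exact On.toward hz hτ0.le h1 hon
  have haS : a ∈ S := hpl.mem _ _ hab
  have huS : u ∈ S := hpl.mem _ _ huw
  have hcoord := coord (ne_of_gt hD) p
  rcases eq_or_lt_of_le hf with hf0 | hf0
  · rcases eq_or_lt_of_le hg with hg0 | hg0
    · -- p = a
      rw [← hf0, ← hg0] at hcoord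
      have hpa : p = a := by
        apply Prod.ext
        · rw [hcoord.1]; ring
        · rw [hcoord.2]; ring
      rcases hcase with h1 | h1
      · have hua : a = u := by rw [← hpa, h1]
        rw [← hua] at huw hz
        obtain ⟨t, ht0, ht1, ht⟩ := mem_oseg_on.1 hz
        have e1 := ht.orient a b
        have e2 := ht.orient' a c
        simp only [orient_self', orient_self'', mul_zero, zero_add] at e1 e2
        rw [e1] at hzB; rw [e2] at hzA
        have h3 : 0 < orient a b w := by
          by_contra hc; push Not at hc; nlinarith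
        have h4 : 0 < orient a w c := by
          by_contra hc; push Not at hc; nlinarith
        have := hmin w huw h3
        rw [orient_swap] at this
        linarith
      · rw [hpa] at h1
        exact hpl.free _ _ huw a haS h1
    · -- p in the open segment a c
      rw [← hf0] at hcoord hσ
      have hin : p ∈ openSegment ℝ a c := by
        refine mem_oseg_on.2 ⟨orient a b p / orient a b c, by positivity, ?_, ?_, ?_⟩
        · rw [div_lt_one hD]; linarith
        · rw [hcoord.1]; ring
        · rw [hcoord.2]; ring
      rcases hcase with h1 | h1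
      · exact hpl.free _ _ hac u huS (h1 ▸ hin)
      · by_cases he : s(u, w) = s(a, c)
        · have : z ∈ openSegment ℝ a c := by
            rcases Sym2.eq_iff.1 he with ⟨rfl, rfl⟩ | ⟨rfl, rfl⟩
            · exact hz
            · exact oseg_symm.1 hz
          obtain ⟨t, ht0, ht1, ht⟩ := mem_oseg_on.1 this
          have e2 := ht.orient' a c
          simp at e2
          linarith
        · exact Set.disjoint_left.1 (hpl.cross _ _ _ _ huw hac he) h1 hin
  · have hg0 : orient a b p = 0 := by
      rcases h0 with h0 | h0
      · linarith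
      · exact h0
    rw [hg0] at hcoord hσ
    have hin : p ∈ openSegment ℝ a b := by
      refine mem_oseg_on.2 ⟨orient a p c / orient a b c, by positivity, ?_, ?_, ?_⟩
      · rw [div_lt_one hD]; linarith
      · rw [hcoord.1]; ring
      · rw [hcoord.2]; ring
    rcases hcase with h1 | h1
    · exact hpl.free _ _ hab u huS (h1 ▸ hin)
    · by_cases he : s(u, w) = s(a, b)
      · have : z ∈ openSegment ℝ a b := by
          rcases Sym2.eq_iff.1 he with ⟨rfl, rfl⟩ | ⟨rfl, rfl⟩
          · exact hz
          · exact oseg_symm.1 hz
        obtain ⟨t, ht0, ht1, ht⟩ := mem_oseg_on.1 this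
        have e2 := ht.orient a b
        simp at e2
        linarith
      · exact Set.disjoint_left.1 (hpl.cross _ _ _ _ huw hab he) h1 hin

theorem orient_sum (a b c p : Pt) : orient b c p = orient a b c - (orient a p c + orient a b p) := by
  unfold orient; ring

/-- To the left of every segment there is a triangle, as soon as there is a point of `S`
strictly to the left. -/
theorem apex (hG : IsTriangulation S G) {a b p₀ : Pt} (hab : G.Adj a b) (hp₀ : p₀ ∈ S)
    (h0 : 0 < orient a b p₀) : ∃ c, IsFace S G a b c ∧ 0 < orient a b c ∧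
      ∀ d, G.Adj a d → 0 < orient a b d → 0 ≤ orient a c d := by
  classical
  have haS : a ∈ S := hG.1.mem _ _ hab
  have hbS : b ∈ S := hG.1.mem _ _ hab.symm
  obtain ⟨d₀, hd₀, hd₀'⟩ := wedge hG haS hp₀ h0
  obtain ⟨c, hcN, hcmin, -⟩ := exists_min_angle
    (S.filter (fun d => G.Adj a d ∧ 0 < orient a b d))
    ⟨d₀, Finset.mem_filter.2 ⟨hG.1.mem _ _ hd₀.symm, hd₀, hd₀'⟩⟩ a b
    (fun p hp => (Finset.mem_filter.1 hp).2.2)
  obtain ⟨hcS, hac, hD⟩ := Finset.mem_filter.1 hcN
  have hmin : ∀ d, G.Adj a d → 0 < orient a b d → 0 ≤ orient a c d := fun d h1 h2 =>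
    hcmin d (Finset.mem_filter.2 ⟨hG.1.mem _ _ h1.symm, h1, h2⟩)
  -- no point of `S` in the open wedge part
  have hQ : ∀ p ∈ S, 0 < orient a p c → 0 < orient a b p →
      orient a p c + orient a b p ≤ orient a b c → False := by
    intro p hpS hp1 hp2 hp3
    obtain ⟨d, hdQ, hdmin⟩ := (S.filter (fun p => 0 < orient a p c ∧ 0 < orient a b p ∧
      orient a p c + orient a b p ≤ orient a b c)).exists_min_image
      (fun p => orient a p c + orient a b p) ⟨p, Finset.mem_filter.2 ⟨hpS, hp1, hp2, hp3⟩⟩
    obtain ⟨hdS, hd1, hd2, hd3⟩ := Finset.mem_filter.1 hdQ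
    have had : a ≠ d := by rintro rfl; simp at hd2
    have hadj : G.Adj a d := by
      apply adj_of_free hG haS hdS had
      · intro r hr hro
        obtain ⟨t, ht0, ht1, ht⟩ := mem_oseg_on.1 hro
        have e1 := ht.orient a b
        have e2 := ht.orient' a c
        simp only [orient_self', orient_self'', mul_zero, zero_add] at e1 e2
        have hr1 : 0 < orient a r c := by rw [e2]; positivity
        have hr2 : 0 < orient a b r := by rw [e1]; positivity
        have hlt : orient a r c + orient a b r < orient a d c + orient a b d := by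
          rw [e1, e2]; nlinarith
        have := hdmin r (Finset.mem_filter.2 ⟨hr, hr1, hr2, by linarith⟩)
        linarith
      · intro r s z hrs hz hz'
        exfalso
        obtain ⟨t, ht0, ht1, ht⟩ := mem_oseg_on.1 hz'
        have e1 := ht.orient a b
        have e2 := ht.orient' a c
        simp only [orient_self', orient_self'', mul_zero, zero_add] at e1 e2
        have hz1 : 0 < orient a z c := by rw [e2]; positivity
        have hz2 : 0 < orient a b z := by rw [e1]; positivity
        have hlt : orient a z c + orient a b z < orient a d c + orient a b d := by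
          rw [e1, e2]; nlinarith
        have fin : ∀ u w, G.Adj u w → z ∈ openSegment ℝ u w →
            orient a u c + orient a b u ≤ orient a z c + orient a b z → False := by
          intro u w huw hz hle
          obtain ⟨h1, h2⟩ := exit_wedge hG.1 hab hac hD hmin huw hz hz2 hz1 (by linarith) hle
            (Or.inl (by linarith))
          have := hdmin u (Finset.mem_filter.2 ⟨hG.1.mem _ _ huw, h1, h2, by linarith⟩)
          linarith
        obtain ⟨τ, hτ0, hτ1, hτ⟩ := mem_oseg_on.1 hz
        rcases le_total (orient a r c + orient a b r) (orient a z c + orient a b z) with h | h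
        · exact fin r s hrs hz h
        · apply fin s r hrs.symm (oseg_symm.1 hz)
          have f1 := hτ.orient a b
          have f2 := hτ.orient' a c
          by_contra hc
          push Not at hc
          have g1 : (1 - τ) * (orient a z c + orient a b z) ≤
            (1 - τ) * (orient a r c + orient a b r) :=
            mul_le_mul_of_nonneg_left h (by linarith)
          have g2 : τ * (orient a z c + orient a b z) < τ * (orient a s c + orient a b s) :=
            mul_lt_mul_of_pos_left hc hτ0
          linarith
    have := hmin d hadj hd2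
    rw [orient_swap] at this
    linarith
  have hbc : G.Adj b c := by
    have hbc' : b ≠ c := by rintro rfl; simp at hD
    have hon : ∀ z, z ∈ openSegment ℝ b c → 0 < orient a z c ∧ 0 < orient a b z ∧
        orient a z c + orient a b z = orient a b c := by
      intro z hz
      obtain ⟨t, ht0, ht1, ht⟩ := mem_oseg_on.1 hz
      have e1 := ht.orient a b
      have e2 := ht.orient' a c
      simp only [orient_self, mul_zero, zero_add, add_zero] at e1 e2
      refine ⟨?_, ?_, ?_⟩
      · rw [e2]; apply mul_pos _ hD; linarith
      · rw [e1]; positivity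
      · rw [e1, e2]; ring
    have hfr : ∀ r ∈ S, r ∉ openSegment ℝ b c := by
      intro r hr hro
      obtain ⟨h1, h2, h3⟩ := hon r hro
      exact hQ r hr h1 h2 h3.le
    apply adj_of_free hG hbS hcS hbc' hfr
    intro r s z hrs hz hz'
    obtain ⟨h1, h2, h3⟩ := hon z hz'
    have ge : ∀ u w, G.Adj u w → z ∈ openSegment ℝ u w →
        orient a b c ≤ orient a u c + orient a b u := by
      intro u w huw hz
      by_contra hc
      push Not at hc
      obtain ⟨h4, h5⟩ := exit_wedge hG.1 hab hac hD hmin huw hz h2 h1 h3.le (by linarith)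
        (Or.inr (by linarith))
      exact hQ u (hG.1.mem _ _ huw) h4 h5 hc.le
    have gr := ge r s hrs hz
    have gs := ge s r hrs.symm (oseg_symm.1 hz)
    obtain ⟨τ, hτ0, hτ1, hτ⟩ := mem_oseg_on.1 hz
    have f1 := hτ.orient a b
    have f2 := hτ.orient' a c
    have er : orient a r c + orient a b r = orient a b c := by
      apply le_antisymm _ gr
      by_contra hc
      push Not at hc
      have g1 : (1 - τ) * (orient a b c) < (1 - τ) * (orient a r c + orient a b r) :=
        mul_lt_mul_of_pos_left hc (by linarith)
      have g2 : τ * (orient a b c) ≤ τ * (orient a s c + orient a b s) :=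
        mul_le_mul_of_nonneg_left gs hτ0.le
      linarith
    have es : orient a s c + orient a b s = orient a b c := by
      apply le_antisymm _ gs
      by_contra hc
      push Not at hc
      have g1 : (1 - τ) * (orient a b c) ≤ (1 - τ) * (orient a r c + orient a b r) :=
        mul_le_mul_of_nonneg_left gr (by linarith)
      have g2 : τ * (orient a b c) < τ * (orient a s c + orient a b s) :=
        mul_lt_mul_of_pos_left hc hτ0
      linarith
    exact overlap_eq hbS hcS (hG.1.mem _ _ hrs) (hG.1.mem _ _ hrs.symm) hfr (hG.1.free _ _ hrs)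
      hz' hz hbc' (by rw [orient_sum a b c r]; linarith) (by rw [orient_sum a b c s]; linarith)
  refine ⟨c, ⟨hab, hbc, hac.symm, ne_of_gt hD, ?_⟩, hD, hmin⟩
  intro p hp hph
  rw [mem_tri_orient hD] at hph
  obtain ⟨h1, h2, h3⟩ := hph
  have hcoord := coord (ne_of_gt hD) p
  rcases eq_or_lt_of_le h1 with h1' | h1'
  · rcases eq_or_lt_of_le h2 with h2' | h2'
    · left
      rw [← h1', ← h2'] at hcoord
      apply Prod.ext
      · rw [hcoord.1]; ring
      · rw [hcoord.2]; ring
    · rw [← h1'] at hcoord h3
      rw [zero_add] at h3
      rcases eq_or_lt_of_le h3 with h3' | h3'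
      · right; right
        rw [h3', div_self (ne_of_gt hD)] at hcoord
        apply Prod.ext
        · rw [hcoord.1]; ring
        · rw [hcoord.2]; ring
      · exfalso
        apply hG.1.free _ _ hac p hp
        refine mem_oseg_on.2 ⟨orient a b p / orient a b c, by positivity, ?_, ?_, ?_⟩
        · rw [div_lt_one hD]; exact h3'
        · rw [hcoord.1]; ring
        · rw [hcoord.2]; ring
  · rcases eq_or_lt_of_le h2 with h2' | h2'
    · rw [← h2'] at hcoord h3
      rw [add_zero] at h3
      rcases eq_or_lt_of_le h3 with h3' | h3'
      · right; left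
        rw [h3', div_self (ne_of_gt hD)] at hcoord
        apply Prod.ext
        · rw [hcoord.1]; ring
        · rw [hcoord.2]; ring
      · exfalso
        apply hG.1.free _ _ hab p hp
        refine mem_oseg_on.2 ⟨orient a p c / orient a b c, by positivity, ?_, ?_, ?_⟩
        · rw [div_lt_one hD]; exact h3'
        · rw [hcoord.1]; ring
        · rw [hcoord.2]; ring
    · exact (hQ p hp h1' h2' h3).elim

theorem IsFace.rot {a b c : Pt} (h : IsFace S G a b c) : IsFace S G b c a := by
  refine ⟨h.bc, h.ca, h.ab, ?_, ?_⟩
  · rw [orient_cyc]; exact h.ne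
  · intro p hp hph
    have e : ({b, c, a} : Set Pt) = {a, b, c} := by
      ext x; simp only [Set.mem_insert_iff, Set.mem_singleton_iff]; tauto
    rw [e] at hph
    have := h.empty p hp hph
    tauto

theorem no_between (hpl : IsPlane S G) {a b c d : Pt} (hf : IsFace S G a b c)
    (hD : 0 < orient a b c) (had : G.Adj a d) (h1 : 0 < orient a b d) (h2 : 0 < orient a d c) :
    False := by
  have hdS : d ∈ S := hpl.mem _ _ had.symm
  by_cases hle : orient a d c + orient a b d ≤ orient a b c
  · have := hf.empty d hdS ((mem_tri_orient hD d).2 ⟨h2.le, h1.le, hle⟩)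
    rcases this with rfl | rfl | rfl
    · simp at h1
    · simp at h1
    · simp at h2
  · push Not at hle
    set σ := orient a d c + orient a b d with hσ
    have hσ0 : 0 < σ := by positivity
    set t := orient a b c / σ with ht
    have ht0 : 0 < t := by positivity
    have ht1 : t < 1 := by rw [ht, div_lt_one hσ0]; exact hle
    set z : Pt := (a.1 + t * (d.1 - a.1), a.2 + t * (d.2 - a.2)) with hz
    have hon : On t a d z := ⟨rfl, rfl⟩
    have e1 := hon.orient a b
    have e2 := hon.orient' a c
    simp only [orient_self', orient_self'', mul_zero, zero_add] at e1 e2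
    have hsum : orient a z c + orient a b z = orient a b c := by
      rw [e1, e2, ← mul_add, ← hσ, ht]; field_simp
    have hz1 : 0 < orient a b z := by rw [e1]; positivity
    have hz2 : 0 < orient a z c := by rw [e2]; positivity
    have hin : z ∈ openSegment ℝ b c := by
      obtain ⟨hx, hy⟩ := coord (ne_of_gt hD) z
      have e : orient a z c / orient a b c = 1 - orient a b z / orient a b c := by
        field_simp; linarith
      rw [e] at hx hy
      refine mem_oseg_on.2 ⟨orient a b z / orient a b c, by positivity, ?_, ?_, ?_⟩
      · rw [div_lt_one hD]; linarith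
      · rw [hx]; ring
      · rw [hy]; ring
    have hne : s(a, d) ≠ s(b, c) := by
      intro he
      rcases Sym2.eq_iff.1 he with ⟨rfl, rfl⟩ | ⟨rfl, rfl⟩
      · simp at hD
      · simp at hD
    exact Set.disjoint_left.1 (hpl.cross _ _ _ _ had hf.bc hne) (mem_oseg_on.2 ⟨t, ht0, ht1, hon⟩)
      hin

/-- neighbours in the same direction are equal -/
theorem same_dir (hpl : IsPlane S G) {a b c c' : Pt} (hc : G.Adj a c) (hc' : G.Adj a c')
    (h : 0 < orient a b c) (h' : 0 < orient a b c') (h0 : orient a c c' = 0) : c = c' := by
  have hac : a ≠ c := hc.ne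
  obtain ⟨t, ht⟩ := exists_on hac h0
  have e := ht.orient a b
  simp only [orient_self', mul_zero, zero_add] at e
  rw [e] at h'
  have ht0 : 0 < t := by
    by_contra hcon; push Not at hcon; nlinarith
  rcases lt_trichotomy t 1 with h1 | h1 | h1
  · exact (hpl.free _ _ hc c' (hpl.mem _ _ hc'.symm) (mem_oseg_on.2 ⟨t, ht0, h1, ht⟩)).elim
  · rw [h1] at ht; exact (On.ext ht On.one).symm
  · exfalso
    apply hpl.free _ _ hc' c (hpl.mem _ _ hc.symm)
    refine mem_oseg_on.2 ⟨1 / t, by positivity, by rw [div_lt_one ht0]; exact h1, ?_, ?_⟩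
    · rw [ht.1]; field_simp; ring
    · rw [ht.2]; field_simp; ring

theorem face_unique (hpl : IsPlane S G) {a b c c' : Pt} (hf : IsFace S G a b c)
    (hf' : IsFace S G a b c') (h : 0 < orient a b c) (h' : 0 < orient a b c') : c = c' := by
  rcases lt_trichotomy (orient a c c') 0 with h1 | h1 | h1
  · exfalso
    refine no_between hpl hf h hf'.ca.symm h' ?_
    rw [orient_swap]; linarith
  · exact same_dir hpl hf.ca.symm hf'.ca.symm h h' h1
  · exact (no_between hpl hf' h' hf.ca.symm h h1).elim

end Pool.Agent.AreaTri
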