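import Mathlib

/-!
The arithmetic lemma: vectors `A, B` with `A + B = 2τu`, `det(A,B) = -4τ` between far apart
clusters must be (almost) axis parallel.
-/

namespace Pool.Agent.AreaTri

/-- small quantities times a large modulus -/
theorem big_zero {N x g : ℤ} (h : N * x = g) (hg : |g| < N) : x = 0 := by
  by_contra hx
  have h1 : 1 ≤ |x| := Int.one_le_abs hx
  have hN : 0 < N := lt_of_le_of_lt (abs_nonneg _) hg
  have h2 : |N * x| = N * |x| := by rw [abs_mul, abs_of_pos hN]
  rw [h] at h2
  nlinarith

theorem big_le {N x g K r : ℤ} (h : N * x = g) (hN : 0 < N) (hg : |g| ≤ N * K + r)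
    (hr : r < N) : |x| ≤ K := by
  by_contra hx
  push Not at hx
  have h2 : |N * x| = N * |x| := by rw [abs_mul, abs_of_pos hN]
  rw [h] at h2
  have : K + 1 ≤ |x| := hx
  nlinarith

theorem dvd_abs_le {τ x u : ℤ} (h : x = τ * u) (hx : x ≠ 0) : |τ| ≤ |x| := by
  have hu : u ≠ 0 := by rintro rfl; simp at h; exact hx h
  have h1 : 1 ≤ |u| := Int.one_le_abs hu
  rw [h, abs_mul]
  nlinarith [abs_nonneg τ]

theorem abs_mul_le' {x y a b : ℤ} (h1 : |x| ≤ a) (h2 : |y| ≤ b) : |x * y| ≤ a * b := by
  rw [abs_mul]
  exact mul_le_mul h1 h2 (abs_nonneg _) (le_trans (abs_nonneg _) h1)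

/-- the arithmetic lemma -/
theorem arith_main {M N P i1 i2 j1 j2 ax ay bx by' sx sy τ u1 u2 : ℤ} (hM : 1 ≤ M)
    (hP : P = 1000 * M) (hN : N = 1000 * M * P)
    (hi1 : |i1| ≤ M) (hi2 : |i2| ≤ M) (hj1 : |j1| ≤ M) (hj2 : |j2| ≤ M)
    (hax : |ax| ≤ 20) (hay : |ay| ≤ 20) (hbx : |bx| ≤ 20) (hby : |by'| ≤ 20)
    (hsx : ax + bx = 2 * sx) (hsy : ay + by' = 2 * sy) (hs : sx ≠ 0 ∨ sy ≠ 0)
    (h1 : N * P * (i1 + i2) + sx = τ * u1)
    (h2 : N * (j1 + j2) + sy = τ * u2)
    (hdet : (2 * (N * P) * i1 + ax) * (2 * N * j2 + by') -
      (2 * N * j1 + ay) * (2 * (N * P) * i2 + bx) = -4 * τ) :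
    (j1 = 0 ∧ j2 = 0 ∧ (sy ≠ 0 → i1 * by' = i2 * ay)) ∨
    (i1 = 0 ∧ i2 = 0 ∧ (sx ≠ 0 → j1 * bx = j2 * ax)) := by
  have hP0 : 1000 ≤ P := by rw [hP]; linarith
  have hNP : 1000 * P ≤ N := by
    have : P * 1 ≤ P * M := mul_le_mul_of_nonneg_left hM (by linarith)
    rw [hN]; linarith
  have hN0 : 1000000 ≤ N := by linarith
  have hsx' : |sx| ≤ 20 := by
    rw [abs_le] at *; constructor <;> linarith
  have hsy' : |sy| ≤ 20 := by
    rw [abs_le] at *; constructor <;> linarith
  set E := i1 * by' - i2 * ay with hE
  set F := ax * j2 - bx * j1 with hF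
  set D := i1 * j2 - j1 * i2 with hD
  set g := ax * by' - ay * bx with hg
  have bE : |E| ≤ 40 * M := by
    have a1 := abs_mul_le' hi1 hby
    have a2 := abs_mul_le' hi2 hay
    rw [hE]; rw [abs_le] at *; constructor <;> linarith
  have bF : |F| ≤ 40 * M := by
    have a1 := abs_mul_le' hax hj2
    have a2 := abs_mul_le' hbx hj1
    rw [hF]; rw [abs_le] at *; constructor <;> linarith
  have bg : |g| ≤ 800 := by
    have a1 := abs_mul_le' hax hby
    have a2 := abs_mul_le' hay hbx
    rw [hg]; rw [abs_le] at *; constructor <;> linarith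
  have bI : |i1 + i2| ≤ 2 * M := by rw [abs_le] at *; constructor <;> linarith
  have bJ : |j1 + j2| ≤ 2 * M := by rw [abs_le] at *; constructor <;> linarith
  have main : N * (P * (4 * N * D + 2 * E) + 2 * F) = -g - 4 * τ := by
    rw [hE, hF, hD, hg]; linear_combination hdet
  -- small τ
  have small : |τ| ≤ 20 → P * (4 * N * D + 2 * E) + 2 * F = 0 := by
    intro ht
    apply big_zero main
    rw [abs_le] at ht bg
    rw [abs_lt]; constructor <;> linarith
  have smallEF : |τ| ≤ 20 → 4 * N * D + 2 * E = 0 ∧ F = 0 := by
    intro ht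
    have h0 := small ht
    have h3 : 4 * N * D + 2 * E = 0 := by
      apply big_zero (N := P) (g := -(2 * F)) (by linarith)
      rw [abs_neg, abs_lt]
      rw [abs_le] at bF
      constructor <;> linarith
    exact ⟨h3, by rw [h3] at h0; linarith⟩
  have DE : 4 * N * D + 2 * E = 0 → D = 0 ∧ E = 0 := by
    intro h
    have h3 : D = 0 := by
      apply big_zero (N := 4 * N) (g := -(2 * E)) (by linarith)
      rw [abs_neg, abs_lt]
      rw [abs_le] at bE
      have : 1000 * M ≤ N := by linarith
      constructor <;> linarith
    exact ⟨h3, by rw [h3] at h; linarith⟩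
  by_cases hJ : j1 + j2 = 0
  · have hj : j2 = -j1 := by linarith
    rw [hJ] at h2
    by_cases hI : i1 + i2 = 0
    · have hi : i2 = -i1 := by linarith
      rw [hI] at h1
      have ht : |τ| ≤ 20 := by
        rcases hs with h | h
        · exact le_trans (dvd_abs_le (x := sx) (u := u1) (by linarith) h) hsx'
        · exact le_trans (dvd_abs_le (x := sy) (u := u2) (by linarith) h) hsy'
      obtain ⟨h3, h4⟩ := smallEF ht
      obtain ⟨h5, h6⟩ := DE h3
      have h7 : j1 * sx = 0 := by
        rw [hF, hj] at h4
        have : 2 * (j1 * sx) = 0 := by linear_combination (-1) * h4 - j1 * hsx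
        linarith
      have h8 : i1 * sy = 0 := by
        rw [hE, hi] at h6
        have : 2 * (i1 * sy) = 0 := by linear_combination h6 - i1 * hsy
        linarith
      by_cases hi1' : i1 = 0
      · by_cases hj1' : j1 = 0
        · left; refine ⟨hj1', by rw [hj, hj1']; simp, ?_⟩
          intro _; rw [hE] at h6; linarith
        · right
          have hsx0 : sx = 0 := by
            rcases mul_eq_zero.1 h7 with h | h
            · exact absurd h hj1'
            · exact h
          exact ⟨hi1', by rw [hi, hi1']; simp, fun h => absurd hsx0 h⟩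
      · left
        have hsy0 : sy = 0 := by
          rcases mul_eq_zero.1 h8 with h | h
          · exact absurd h hi1'
          · exact h
        have hsx0 : sx ≠ 0 := by
          rcases hs with h | h
          · exact h
          · exact absurd hsy0 h
        have hj0 : j1 = 0 := by
          rcases mul_eq_zero.1 h7 with h | h
          · exact h
          · exact absurd h hsx0
        exact ⟨hj0, by rw [hj, hj0]; simp, fun h => absurd hsy0 h⟩
    · -- I ≠ 0, J = 0
      have hne : N * P * (i1 + i2) + sx ≠ 0 := by
        intro h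
        have : i1 + i2 = 0 := by
          apply big_zero (N := N * P) (g := -sx) (by linarith)
          rw [abs_neg]
          have : N * 1 ≤ N * P := mul_le_mul_of_nonneg_left (by linarith) (by linarith)
          linarith
        exact hI this
      have bτ : |τ| ≤ N * P * (2 * M) + 20 := by
        refine le_trans (dvd_abs_le h1 hne) ?_
        have hNP0 : 0 ≤ N * P := by positivity
        have a1 : |N * P * (i1 + i2)| ≤ N * P * (2 * M) := by
          rw [abs_mul, abs_of_nonneg hNP0]
          exact mul_le_mul_of_nonneg_left bI hNP0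
        exact le_trans (abs_add_le _ _) (by linarith)
      have bX : |P * (4 * N * D + 2 * E) + 2 * F| ≤ 8 * (P * M) := by
        apply big_le main (by linarith) (r := 880) _ (by linarith)
        rw [abs_le] at bτ bg ⊢
        constructor <;> linarith
      have bY : |4 * N * D + 2 * E| ≤ 8 * M := by
        apply big_le (N := P) (g := (P * (4 * N * D + 2 * E) + 2 * F) - 2 * F) (r := 80 * M)
          (by ring) (by linarith) _ (by linarith)
        rw [abs_le] at bX bF ⊢
        constructor <;> linarith
      have hD0 : D = 0 := by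
        apply big_zero (N := 4 * N) (g := (4 * N * D + 2 * E) - 2 * E) (by ring)
        rw [abs_le] at bY bE
        rw [abs_lt]
        constructor <;> linarith
      have hj0 : j1 = 0 := by
        rw [hD, hj] at hD0
        have : j1 * (i1 + i2) = 0 := by linarith
        rcases mul_eq_zero.1 this with h | h
        · exact h
        · exact absurd h hI
      left
      refine ⟨hj0, by rw [hj, hj0]; simp, ?_⟩
      intro hsy0
      have ht : |τ| ≤ 20 :=
        le_trans (dvd_abs_le (x := sy) (u := u2) (by linarith) hsy0) hsy'
      obtain ⟨h3, h4⟩ := smallEF ht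
      obtain ⟨h5, h6⟩ := DE h3
      rw [hE] at h6
      linarith
  · -- J ≠ 0
    have hne : N * (j1 + j2) + sy ≠ 0 := by
      intro h
      have : j1 + j2 = 0 := by
        apply big_zero (N := N) (g := -sy) (by linarith)
        rw [abs_neg]; linarith
      exact hJ this
    have bτ : |τ| ≤ N * (2 * M) + 20 := by
      refine le_trans (dvd_abs_le h2 hne) ?_
      have hN00 : 0 ≤ N := by linarith
      have a1 : |N * (j1 + j2)| ≤ N * (2 * M) := by
        rw [abs_mul, abs_of_nonneg hN00]
        exact mul_le_mul_of_nonneg_left bJ hN00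
      exact le_trans (abs_add_le _ _) (by linarith)
    have bX : |P * (4 * N * D + 2 * E) + 2 * F| ≤ 8 * M := by
      apply big_le main (by linarith) (r := 880) _ (by linarith)
      rw [abs_le] at bτ bg ⊢
      constructor <;> linarith
    have hY : 4 * N * D + 2 * E = 0 := by
      apply big_zero (N := P) (g := (P * (4 * N * D + 2 * E) + 2 * F) - 2 * F) (by ring)
      rw [abs_le] at bX bF
      rw [abs_lt]
      constructor <;> linarith
    obtain ⟨hD0, hE0⟩ := DE hY
    rw [hD0, hE0] at main
    have main' : N * (2 * F) = -g - 4 * τ := by linarith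
    by_cases hI : i1 + i2 = 0
    · have hi : i2 = -i1 := by linarith
      right
      have hi0 : i1 = 0 := by
        rw [hD, hi] at hD0
        have : i1 * (j1 + j2) = 0 := by linarith
        rcases mul_eq_zero.1 this with h | h
        · exact h
        · exact absurd h hJ
      refine ⟨hi0, by rw [hi, hi0]; simp, ?_⟩
      intro hsx0
      rw [hI] at h1
      have ht : |τ| ≤ 20 :=
        le_trans (dvd_abs_le (x := sx) (u := u1) (by linarith) hsx0) hsx'
      obtain ⟨h3, h4⟩ := smallEF ht
      rw [hF] at h4
      linarith
    · exfalso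
      have hdvd : P * (i1 + i2) * sy - (j1 + j2) * sx =
          τ * (P * (i1 + i2) * u2 - (j1 + j2) * u1) := by
        linear_combination P * (i1 + i2) * h2 - (j1 + j2) * h1
      by_cases hF0 : F = 0
      · -- then g = 0
        rw [hF0] at main'
        have hg4 : g = -4 * τ := by linarith
        have e1 : (i1 + i2) * (j1 * by' - j2 * ay) = 0 := by
          rw [hD] at hD0; rw [hE] at hE0
          linear_combination (j1 + j2) * hE0 - (ay + by') * hD0
        have e2 : j1 * by' - j2 * ay = 0 := by
          rcases mul_eq_zero.1 e1 with h | h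
          · exact absurd h hI
          · exact h
        have e3 : (j1 + j2) * g = 0 := by
          rw [hg]; rw [hF] at hF0
          linear_combination (ax + bx) * e2 + (ay + by') * hF0
        have e4 : g = 0 := by
          rcases mul_eq_zero.1 e3 with h | h
          · exact absurd h hJ
          · exact h
        have hτ0 : τ = 0 := by linarith
        rw [hτ0, zero_mul] at h2
        exact hne h2
      · have hτbig : 2 * N - 800 ≤ 4 * |τ| := by
          have hF1 : 1 ≤ |F| := Int.one_le_abs hF0
          have a1 : |N * (2 * F)| = 2 * N * |F| := by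
            rw [abs_mul, abs_mul, abs_of_nonneg (by linarith : (0 : ℤ) ≤ N)]; norm_num; ring
          have a2 : |N * (2 * F)| ≤ 800 + 4 * |τ| := by
            rw [main']
            have := abs_sub (-g) (4 * τ)
            rw [abs_neg, abs_mul] at this
            have h4 : |(4 : ℤ)| = 4 := by norm_num
            rw [h4] at this
            linarith
          rw [a1] at a2
          have := mul_le_mul_of_nonneg_left hF1 (by linarith : (0 : ℤ) ≤ 2 * N)
          linarith
        have hz : P * (i1 + i2) * sy - (j1 + j2) * sx = 0 := by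
          by_contra hnz
          have a1 := dvd_abs_le hdvd hnz
          have a2 : |P * (i1 + i2) * sy - (j1 + j2) * sx| ≤ P * (2 * M) * 20 + 2 * M * 20 := by
            have b1 := abs_mul_le' bI hsy'
            have b2 := abs_mul_le' bJ hsx'
            have b3 : |P * (i1 + i2) * sy| ≤ P * (2 * M) * 20 := by
              rw [mul_assoc, abs_mul, abs_of_nonneg (by linarith : (0 : ℤ) ≤ P)]
              have := mul_le_mul_of_nonneg_left b1 (by linarith : (0 : ℤ) ≤ P)
              linarith
            exact le_trans (abs_sub _ _) (by linarith)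
          have hPM : 1000 * M ≤ P * M := mul_le_mul_of_nonneg_right hP0 (by linarith)
          have hNe : N = 1000 * (P * M) := by rw [hN]; ring
          linarith
        have h3 : (i1 + i2) * sy = 0 := by
          apply big_zero (N := P) (g := (j1 + j2) * sx) (by linarith)
          have b2 := abs_mul_le' bJ hsx'
          linarith
        have hsy0 : sy = 0 := by
          rcases mul_eq_zero.1 h3 with h | h
          · exact absurd h hI
          · exact h
        have h4 : (j1 + j2) * sx = 0 := by
          rw [hsy0] at hz; linarith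
        have hsx0 : sx = 0 := by
          rcases mul_eq_zero.1 h4 with h | h
          · exact absurd h hJ
          · exact h
        rcases hs with h | h
        · exact h hsx0
        · exact h hsy0

end Pool.Agent.AreaTri
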