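import Pool.Agent.AreaTri.Local

/-!
Which missing points an extra point can use.
-/

namespace Pool.Agent.AreaTri

variable {G : SimpleGraph Pt} {L : Layout} {M : ℤ}

theorem SD.detA {z u α v A B : ℤ × ℤ} {σ ρ : ℤ} (h : SD L M G z u α v A B σ ρ) :
    idet u A = 2 := by
  have h1 := h.star.d1
  have h2 := h.a1
  have h3 := h.a2
  unfold idet at h1 ⊢
  have : 2 * (u.1 * A.2 - u.2 * A.1) = 4 := by
    linear_combination u.1 * h3 - u.2 * h2 + h1
  linarith

theorem SD.detB {z u α v A B : ℤ × ℤ} {σ ρ : ℤ} (h : SD L M G z u α v A B σ ρ) :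
    idet u B = -2 := by
  have h1 := h.star.d2
  have h2 := h.b1
  have h3 := h.b2
  unfold idet at h1 ⊢
  have : 2 * (u.1 * B.2 - u.2 * B.1) = -4 := by
    linear_combination u.1 * h3 - u.2 * h2 - h1
  linarith

/-- `A + B = 2 τ u` and `det(A,B) = -4τ` -/
theorem sum_mult {z u A B : ℤ × ℤ} (hz : z.1 % 2 = 1 ∨ z.2 % 2 = 1)
    (pu : u.1 % 2 = z.1 % 2 ∧ u.2 % 2 = z.2 % 2) (pa : A.1 % 2 = z.1 % 2 ∧ A.2 % 2 = z.2 % 2)
    (pb : B.1 % 2 = z.1 % 2 ∧ B.2 % 2 = z.2 % 2) (h1 : idet u A = 2) (h2 : idet u B = -2) :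
    ∃ τ : ℤ, A.1 + B.1 = 2 * (τ * u.1) ∧ A.2 + B.2 = 2 * (τ * u.2) ∧ idet A B = -4 * τ := by
  obtain ⟨s1, hs1⟩ : ∃ s, A.1 + B.1 = 2 * s := ⟨(A.1 + B.1) / 2, by omega⟩
  obtain ⟨s2, hs2⟩ : ∃ s, A.2 + B.2 = 2 * s := ⟨(A.2 + B.2) / 2, by omega⟩
  unfold idet at h1 h2
  have e1 : 4 * s1 = idet B A * u.1 := by
    unfold idet; linear_combination (-2) * hs1 - B.1 * h1 + A.1 * h2
  have e2 : 4 * s2 = idet B A * u.2 := by
    unfold idet; linear_combination (-2) * hs2 - B.2 * h1 + A.2 * h2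
  have h4 : ∃ τ, idet B A = 4 * τ := by
    rcases hz with h | h
    · have hodd : u.1 % 2 = 1 := by omega
      obtain ⟨k1, hk1, hk1'⟩ := odd_half (x := 2 * s1) hodd (by rw [← e1]; ring)
      obtain ⟨k2, hk2, hk2'⟩ := odd_half (x := s1) hodd (by rw [← hk1'])
      exact ⟨k2, by rw [hk1, hk2]; ring⟩
    · have hodd : u.2 % 2 = 1 := by omega
      obtain ⟨k1, hk1, hk1'⟩ := odd_half (x := 2 * s2) hodd (by rw [← e2]; ring)
      obtain ⟨k2, hk2, hk2'⟩ := odd_half (x := s2) hodd (by rw [← hk1'])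
      exact ⟨k2, by rw [hk1, hk2]; ring⟩
  obtain ⟨τ, hτ⟩ := h4
  refine ⟨τ, ?_, ?_, ?_⟩
  · rw [hτ] at e1; linarith
  · rw [hτ] at e2; linarith
  · have : idet A B = - idet B A := by unfold idet; ring
    rw [this, hτ]; ring

theorem no_antipodal : ∀ k0 k1 k2, ∀ o0 ∈ zoff k0, ∀ o1 ∈ woff k1, ∀ o2 ∈ woff k2,
    ¬ (o1.1 + o2.1 = 2 * o0.1 ∧ o1.2 + o2.2 = 2 * o0.2) := by decide

theorem off_diff : ∀ k0 k1, ∀ o0 ∈ zoff k0, ∀ o1 ∈ woff k1,
    |o1.1 - o0.1| ≤ 20 ∧ |o1.2 - o0.2| ≤ 20 := by decide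

/-- row case of the classification -/
theorem row_case (hL : L.WF M) {k0 k1 k2 : Kind} {n0 n1 n2 o0 o1 o2 : ℤ × ℤ}
    (hn0 : n0 ∈ L.get k0) (hn1 : n1 ∈ L.get k1) (hn2 : n2 ∈ L.get k2) (ho0 : o0 ∈ zoff k0)
    (ho1 : o1 ∈ woff k1) (ho2 : o2 ∈ woff k2) (h1 : n1.2 = n0.2) (h2 : n2.2 = n0.2)
    (hs : (o1.2 - o0.2) + (o2.2 - o0.2) ≠ 0 →
      (n1.1 - n0.1) * (o2.2 - o0.2) = (n2.1 - n0.1) * (o1.2 - o0.2)) :
    n1 = n2 ∧ k1 = k2 ∧ ((k1 = .H ∧ n1.2 = n0.2 ∧ (k0 = .R ∨ k0 = .H)) ∨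
      (k1 = .V ∧ n1.1 = n0.1 ∧ (k0 = .R ∨ k0 = .V)) ∨
      (k1 = .T ∧ ((k0 = .R ∧ (n1.1 = n0.1 ∨ n1.2 = n0.2)) ∨ n0 = n1))) := by
  have N0 := get_sub hn0
  have N1 := get_sub hn1
  have N2 := get_sub hn2
  -- a `V` node in the row
  have hV : ∀ {k n k' n'}, n ∈ L.get k → n' ∈ L.get k' → n.2 = n'.2 → k = .V → n' = n := by
    intro k n k' n' hn hn' he hk
    subst hk
    exact hL.rowV n hn n' (get_sub hn') he.symm
  have hT : ∀ {k n k' n'}, n ∈ L.get k → n' ∈ L.get k' → n.2 = n'.2 → k = .T →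
      n' = n ∨ k' = .R := by
    intro k n k' n' hn hn' he hk
    subst hk
    rcases hL.rowT n hn n' (get_sub hn') he.symm with h | h
    · exact Or.inl h
    · exact Or.inr (kind_unique hL hn' (k' := .R) h)
  cases k1 with
  | R => simp [woff] at ho1
  | V =>
    have e2 := hV hn1 hn2 (by rw [h1, h2]) rfl
    have e0 := hV hn1 hn0 h1 rfl
    subst e2; subst e0
    have := kind_unique hL hn1 hn2
    have := kind_unique hL hn1 hn0
    exact ⟨rfl, by assumption, Or.inr (Or.inl ⟨rfl, rfl, Or.inr (by symm; assumption)⟩)⟩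
  | T =>
    have e2 : n2 = n1 := by
      rcases hT hn1 hn2 (by rw [h1, h2]) rfl with h | h
      · exact h
      · subst h; simp [woff] at ho2
    subst e2
    have hk := kind_unique hL hn1 hn2
    refine ⟨rfl, hk, Or.inr (Or.inr ⟨rfl, ?_⟩)⟩
    rcases hT hn1 hn0 h1 rfl with h | h
    · exact Or.inr h
    · exact Or.inl ⟨h, Or.inr h1⟩
  | H =>
    have hk2 : k2 = .H := by
      cases k2 with
      | R => simp [woff] at ho2
      | H => rfl
      | V =>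
        have e := hV hn2 hn1 (by rw [h1, h2]) rfl
        subst e
        exact (kind_unique hL hn1 hn2).symm
      | T =>
        rcases hT hn2 hn1 (by rw [h1, h2]) rfl with h | h
        · subst h; exact (kind_unique hL hn1 hn2).symm
        · exact absurd h (by decide)
    subst hk2
    have hk0 : k0 = .R ∨ k0 = .H := by
      cases k0 with
      | R => exact Or.inl rfl
      | H => exact Or.inr rfl
      | V =>
        have e := hV hn0 hn1 h1.symm rfl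
        subst e
        exact Or.inr (kind_unique hL hn0 hn1)
      | T =>
        rcases hT hn0 hn1 h1.symm rfl with h | h
        · subst h; exact Or.inr (kind_unique hL hn0 hn1)
        · exact absurd h (by decide)
    have hoff1 : o1.2 = 0 := by
      simp only [woff, Finset.mem_insert, Finset.mem_singleton] at ho1
      rcases ho1 with rfl | rfl <;> rfl
    have hoff2 : o2.2 = 0 := by
      simp only [woff, Finset.mem_insert, Finset.mem_singleton] at ho2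
      rcases ho2 with rfl | rfl <;> rfl
    have hoff0 : o0.2 = 1 ∨ o0.2 = -1 := by
      rcases hk0 with rfl | rfl
      · simp only [zoff, Finset.mem_singleton] at ho0
        subst ho0; left; rfl
      · simp only [zoff, Finset.mem_singleton] at ho0
        subst ho0; right; rfl
    have he : n1.1 = n2.1 := by
      have := hs (by rw [hoff1, hoff2]; omega)
      rw [hoff1, hoff2] at this
      rcases hoff0 with h | h
      · rw [h] at this; linarith
      · rw [h] at this; linarith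
    exact ⟨Prod.ext he (by rw [h1, h2]), rfl, Or.inl ⟨rfl, h1, hk0⟩⟩

/-- column case of the classification -/
theorem col_case (hL : L.WF M) {k0 k1 k2 : Kind} {n0 n1 n2 o0 o1 o2 : ℤ × ℤ}
    (hn0 : n0 ∈ L.get k0) (hn1 : n1 ∈ L.get k1) (hn2 : n2 ∈ L.get k2) (ho0 : o0 ∈ zoff k0)
    (ho1 : o1 ∈ woff k1) (ho2 : o2 ∈ woff k2) (h1 : n1.1 = n0.1) (h2 : n2.1 = n0.1)
    (hs : (o1.1 - o0.1) + (o2.1 - o0.1) ≠ 0 →
      (n1.2 - n0.2) * (o2.1 - o0.1) = (n2.2 - n0.2) * (o1.1 - o0.1)) :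
    n1 = n2 ∧ k1 = k2 ∧ ((k1 = .H ∧ n1.2 = n0.2 ∧ (k0 = .R ∨ k0 = .H)) ∨
      (k1 = .V ∧ n1.1 = n0.1 ∧ (k0 = .R ∨ k0 = .V)) ∨
      (k1 = .T ∧ ((k0 = .R ∧ (n1.1 = n0.1 ∨ n1.2 = n0.2)) ∨ n0 = n1))) := by
  have hH : ∀ {k n k' n'}, n ∈ L.get k → n' ∈ L.get k' → n.1 = n'.1 → k = .H → n' = n := by
    intro k n k' n' hn hn' he hk
    subst hk
    exact hL.colH n hn n' (get_sub hn') he.symm
  have hT : ∀ {k n k' n'}, n ∈ L.get k → n' ∈ L.get k' → n.1 = n'.1 → k = .T →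
      n' = n ∨ k' = .R := by
    intro k n k' n' hn hn' he hk
    subst hk
    rcases hL.colT n hn n' (get_sub hn') he.symm with h | h
    · exact Or.inl h
    · exact Or.inr (kind_unique hL hn' (k' := .R) h)
  cases k1 with
  | R => simp [woff] at ho1
  | H =>
    have e2 := hH hn1 hn2 (by rw [h1, h2]) rfl
    have e0 := hH hn1 hn0 h1 rfl
    subst e2; subst e0
    have := kind_unique hL hn1 hn2
    have := kind_unique hL hn1 hn0
    exact ⟨rfl, by assumption, Or.inl ⟨rfl, rfl, Or.inr (by symm; assumption)⟩⟩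
  | T =>
    have e2 : n2 = n1 := by
      rcases hT hn1 hn2 (by rw [h1, h2]) rfl with h | h
      · exact h
      · subst h; simp [woff] at ho2
    subst e2
    have hk := kind_unique hL hn1 hn2
    refine ⟨rfl, hk, Or.inr (Or.inr ⟨rfl, ?_⟩)⟩
    rcases hT hn1 hn0 h1 rfl with h | h
    · exact Or.inr h
    · exact Or.inl ⟨h, Or.inl h1⟩
  | V =>
    have hk2 : k2 = .V := by
      cases k2 with
      | R => simp [woff] at ho2
      | V => rfl
      | H =>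
        have e := hH hn2 hn1 (by rw [h1, h2]) rfl
        subst e
        exact (kind_unique hL hn1 hn2).symm
      | T =>
        rcases hT hn2 hn1 (by rw [h1, h2]) rfl with h | h
        · subst h; exact (kind_unique hL hn1 hn2).symm
        · exact absurd h (by decide)
    subst hk2
    have hk0 : k0 = .R ∨ k0 = .V := by
      cases k0 with
      | R => exact Or.inl rfl
      | V => exact Or.inr rfl
      | H =>
        have e := hH hn0 hn1 h1.symm rfl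
        subst e
        exact Or.inr (kind_unique hL hn0 hn1)
      | T =>
        rcases hT hn0 hn1 h1.symm rfl with h | h
        · subst h; exact Or.inr (kind_unique hL hn0 hn1)
        · exact absurd h (by decide)
    have hoff1 : o1.1 = 0 := by
      simp only [woff, Finset.mem_insert, Finset.mem_singleton] at ho1
      rcases ho1 with rfl | rfl <;> rfl
    have hoff2 : o2.1 = 0 := by
      simp only [woff, Finset.mem_insert, Finset.mem_singleton] at ho2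
      rcases ho2 with rfl | rfl <;> rfl
    have hoff0 : o0.1 = 1 ∨ o0.1 = -1 := by
      rcases hk0 with rfl | rfl
      · simp only [zoff, Finset.mem_singleton] at ho0
        subst ho0; left; rfl
      · simp only [zoff, Finset.mem_singleton] at ho0
        subst ho0; right; rfl
    have he : n1.2 = n2.2 := by
      have := hs (by rw [hoff1, hoff2]; omega)
      rw [hoff1, hoff2] at this
      rcases hoff0 with h | h
      · rw [h] at this; linarith
      · rw [h] at this; linarith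
    exact ⟨Prod.ext (by rw [h1, h2]) he, rfl, Or.inr (Or.inl ⟨rfl, h1, hk0⟩)⟩

theorem abs_diff {M a b : ℤ} (ha : M ≤ a ∧ a ≤ 2 * M) (hb : M ≤ b ∧ b ≤ 2 * M) :
    |a - b| ≤ M := by
  rw [abs_le]; constructor <;> linarith [ha.1, ha.2, hb.1, hb.2]

theorem classify (hL : L.WF M) {z u A B : ℤ × ℤ} {k0 : Kind} {n0 o0 : ℤ × ℤ}
    (hn0 : n0 ∈ L.get k0) (ho0 : o0 ∈ zoff k0) (hz : z = base M n0 + o0)
    (pu : u.1 % 2 = z.1 % 2 ∧ u.2 % 2 = z.2 % 2) (pa : A.1 % 2 = z.1 % 2 ∧ A.2 % 2 = z.2 % 2)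
    (pb : B.1 % 2 = z.1 % 2 ∧ B.2 % 2 = z.2 % 2) (h1 : idet u A = 2) (h2 : idet u B = -2)
    (wA : z + A ∈ wset L M) (wB : z + B ∈ wset L M) :
    ∃ k1, ∃ n1 ∈ L.get k1, ∃ o1 ∈ woff k1, ∃ o2 ∈ woff k1, z + A = base M n1 + o1 ∧
      z + B = base M n1 + o2 ∧ ((k1 = .H ∧ n1.2 = n0.2 ∧ (k0 = .R ∨ k0 = .H)) ∨
      (k1 = .V ∧ n1.1 = n0.1 ∧ (k0 = .R ∨ k0 = .V)) ∨
      (k1 = .T ∧ ((k0 = .R ∧ (n1.1 = n0.1 ∨ n1.2 = n0.2)) ∨ n0 = n1))) := by
  have hM := hL.one_le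
  have hzodd : z.1 % 2 = 1 ∨ z.2 % 2 = 1 := zset_odd (L := L) (M := M)
    (mem_zset.2 ⟨k0, n0, hn0, o0, ho0, hz⟩)
  obtain ⟨k1, n1, hn1, o1, ho1, hw1⟩ := mem_wset.1 wA
  obtain ⟨k2, n2, hn2, o2, ho2, hw2⟩ := mem_wset.1 wB
  obtain ⟨τ, t1, t2, t3⟩ := sum_mult hzodd pu pa pb h1 h2
  have eA1 : A.1 = 2 * (cN M * cP M) * (n1.1 - n0.1) + (o1.1 - o0.1) := by
    have := congrArg Prod.fst hw1
    rw [hz] at this
    simp only [base, Prod.fst_add] at this
    linarith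
  have eA2 : A.2 = 2 * cN M * (n1.2 - n0.2) + (o1.2 - o0.2) := by
    have := congrArg Prod.snd hw1
    rw [hz] at this
    simp only [base, Prod.snd_add] at this
    linarith
  have eB1 : B.1 = 2 * (cN M * cP M) * (n2.1 - n0.1) + (o2.1 - o0.1) := by
    have := congrArg Prod.fst hw2
    rw [hz] at this
    simp only [base, Prod.fst_add] at this
    linarith
  have eB2 : B.2 = 2 * cN M * (n2.2 - n0.2) + (o2.2 - o0.2) := by
    have := congrArg Prod.snd hw2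
    rw [hz] at this
    simp only [base, Prod.snd_add] at this
    linarith
  have d1 := off_diff k0 k1 o0 ho0 o1 ho1
  have d2 := off_diff k0 k2 o0 ho0 o2 ho2
  obtain ⟨b01, b02, b03, b04⟩ := hL.bd n0 (get_sub hn0)
  obtain ⟨b11, b12, b13, b14⟩ := hL.bd n1 (get_sub hn1)
  obtain ⟨b21, b22, b23, b24⟩ := hL.bd n2 (get_sub hn2)
  set sx := τ * u.1 - cN M * cP M * ((n1.1 - n0.1) + (n2.1 - n0.1)) with hsx
  set sy := τ * u.2 - cN M * ((n1.2 - n0.2) + (n2.2 - n0.2)) with hsy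
  have ex : (o1.1 - o0.1) + (o2.1 - o0.1) = 2 * sx := by rw [hsx]; linarith
  have ey : (o1.2 - o0.2) + (o2.2 - o0.2) = 2 * sy := by rw [hsy]; linarith
  have hs : sx ≠ 0 ∨ sy ≠ 0 := by
    by_contra hc
    push Not at hc
    apply no_antipodal k0 k1 k2 o0 ho0 o1 ho1 o2 ho2
    rw [hc.1] at ex; rw [hc.2] at ey
    constructor <;> linarith
  have hfin : n1 = n2 ∧ k1 = k2 ∧ ((k1 = .H ∧ n1.2 = n0.2 ∧ (k0 = .R ∨ k0 = .H)) ∨
      (k1 = .V ∧ n1.1 = n0.1 ∧ (k0 = .R ∨ k0 = .V)) ∨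
      (k1 = .T ∧ ((k0 = .R ∧ (n1.1 = n0.1 ∨ n1.2 = n0.2)) ∨ n0 = n1))) := by
    rcases arith_main (M := M) (N := cN M) (P := cP M) (i1 := n1.1 - n0.1) (i2 := n2.1 - n0.1)
      (j1 := n1.2 - n0.2) (j2 := n2.2 - n0.2) (ax := o1.1 - o0.1) (ay := o1.2 - o0.2)
      (bx := o2.1 - o0.1) (by' := o2.2 - o0.2) (sx := sx) (sy := sy) (τ := τ) (u1 := u.1)
      (u2 := u.2) hM rfl rfl (abs_diff ⟨b11, b12⟩ ⟨b01, b02⟩) (abs_diff ⟨b21, b22⟩ ⟨b01, b02⟩)
      (abs_diff ⟨b13, b14⟩ ⟨b03, b04⟩) (abs_diff ⟨b23, b24⟩ ⟨b03, b04⟩) d1.1 d1.2 d2.1 d2.2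
      ex ey hs (by rw [hsx]; ring) (by rw [hsy]; ring)
      (by
        unfold idet at t3
        rw [eA1, eA2, eB1, eB2] at t3
        linarith) with h | h
    · obtain ⟨g1, g2, g3⟩ := h
      apply row_case hL hn0 hn1 hn2 ho0 ho1 ho2 (by linarith) (by linarith)
      intro hne
      apply g3
      intro h0
      apply hne
      rw [ey, h0]; ring
    · obtain ⟨g1, g2, g3⟩ := h
      apply col_case hL hn0 hn1 hn2 ho0 ho1 ho2 (by linarith) (by linarith)
      intro hne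
      apply g3
      intro h0
      apply hne
      rw [ex, h0]; ring
  obtain ⟨e1, e2, e3⟩ := hfin
  subst e1; subst e2
  exact ⟨k1, n1, hn1, o1, ho1, o2, ho2, hw1, hw2, e3⟩

/-- `z` uses the missing point `w` -/
def Uses (L : Layout) (M : ℤ) (G : SimpleGraph Pt) (z w : ℤ × ℤ) : Prop :=
  ∃ p q, IsFace (inst L M) G (ι z) (ι p) (ι q) ∧ 2 * w.1 = p.1 + q.1 ∧ 2 * w.2 = p.2 + q.2

theorem mid_in {p q w : ℤ × ℤ} (h1 : 2 * w.1 = p.1 + q.1) (h2 : 2 * w.2 = p.2 + q.2) :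
    ι w ∈ openSegment ℝ (ι p) (ι q) := by
  refine mem_oseg.2 ⟨1 / 2, by norm_num, by norm_num, ?_, ?_⟩
  · unfold ι
    simp only
    have : (2 : ℝ) * w.1 = p.1 + q.1 := by exact_mod_cast h1
    linarith
  · unfold ι
    simp only
    have : (2 : ℝ) * w.2 = p.2 + q.2 := by exact_mod_cast h2
    linarith

theorem SD.usesA {z u α v A B : ℤ × ℤ} {σ ρ : ℤ} (h : SD L M G z u α v A B σ ρ) :
    Uses L M G z (z + A) := by
  have h1 := h.a1
  have h2 := h.a2
  rcases h.hσ with rfl | rfl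
  · refine ⟨z + u, z + α, h.star.f1, ?_, ?_⟩
    · simp only [Prod.fst_add]; linarith
    · simp only [Prod.snd_add]; linarith
  · refine ⟨z + α, z + -u, h.star.f2, ?_, ?_⟩
    · simp only [Prod.fst_add, Prod.fst_neg]; linarith
    · simp only [Prod.snd_add, Prod.snd_neg]; linarith

theorem SD.usesB {z u α v A B : ℤ × ℤ} {σ ρ : ℤ} (h : SD L M G z u α v A B σ ρ) :
    Uses L M G z (z + B) := by
  have h1 := h.b1
  have h2 := h.b2
  rcases h.hρ with rfl | rfl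
  · refine ⟨z + v, z + u, h.star.f4, ?_, ?_⟩
    · simp only [Prod.fst_add]; linarith
    · simp only [Prod.snd_add]; linarith
  · refine ⟨z + -u, z + v, h.star.f3, ?_, ?_⟩
    · simp only [Prod.fst_add, Prod.fst_neg]; linarith
    · simp only [Prod.snd_add, Prod.snd_neg]; linarith

theorem SD.ne {z u α v A B : ℤ × ℤ} {σ ρ : ℤ} (h : SD L M G z u α v A B σ ρ) :
    z + A ≠ z + B := by
  intro he
  have : A = B := add_left_cancel he
  have h1 := h.detA
  have h2 := h.detB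
  rw [this, h2] at h1
  norm_num at h1

/-- the segment through a missing point is unique -/
theorem uses_edge (hpl : IsPlane (inst L M) G) {z z' w p q p' q' : ℤ × ℤ}
    (hf : IsFace (inst L M) G (ι z) (ι p) (ι q)) (h1 : 2 * w.1 = p.1 + q.1)
    (h2 : 2 * w.2 = p.2 + q.2) (hf' : IsFace (inst L M) G (ι z') (ι p') (ι q'))
    (h1' : 2 * w.1 = p'.1 + q'.1) (h2' : 2 * w.2 = p'.2 + q'.2) :
    (p = p' ∧ q = q') ∨ (p = q' ∧ q = p') := by
  by_contra hc
  have hne : s(ι p, ι q) ≠ s(ι p', ι q') := by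
    intro he
    apply hc
    rcases Sym2.eq_iff.1 he with ⟨e1, e2⟩ | ⟨e1, e2⟩
    · exact Or.inl ⟨ι_inj e1, ι_inj e2⟩
    · exact Or.inr ⟨ι_inj e1, ι_inj e2⟩
  exact Set.disjoint_left.1 (hpl.cross _ _ _ _ hf.bc hf'.bc hne) (mid_in h1 h2) (mid_in h1' h2')

theorem uses_two (hpl : IsPlane (inst L M) G) {w z1 z2 z3 : ℤ × ℤ} (h1 : Uses L M G z1 w)
    (h2 : Uses L M G z2 w) (h3 : Uses L M G z3 w) : z1 = z2 ∨ z1 = z3 ∨ z2 = z3 := by
  obtain ⟨p, q, hf1, a1, a2⟩ := h1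
  have key : ∀ z, Uses L M G z w → IsFace (inst L M) G (ι p) (ι q) (ι z) := by
    rintro z ⟨p', q', hf, b1, b2⟩
    rcases uses_edge hpl hf1 a1 a2 hf b1 b2 with ⟨rfl, rfl⟩ | ⟨rfl, rfl⟩
    · exact hf.rot
    · exact hf.rot.swap
  have k1 := key z1 ⟨p, q, hf1, a1, a2⟩
  have k2 := key z2 h2
  have k3 := key z3 h3
  have same : ∀ z z', IsFace (inst L M) G (ι p) (ι q) (ι z) →
      IsFace (inst L M) G (ι p) (ι q) (ι z') →
      ((0 < orient (ι p) (ι q) (ι z) ∧ 0 < orient (ι p) (ι q) (ι z')) ∨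
       (orient (ι p) (ι q) (ι z) < 0 ∧ orient (ι p) (ι q) (ι z') < 0)) → z = z' := by
    intro z z' h h' hs
    rcases hs with ⟨s1, s2⟩ | ⟨s1, s2⟩
    · exact ι_inj (face_unique hpl h h' s1 s2)
    · exact ι_inj (face_unique hpl h.swap h'.swap (by rw [orient_swap']; linarith)
        (by rw [orient_swap']; linarith))
  rcases lt_or_gt_of_ne k1.ne with s1 | s1 <;> rcases lt_or_gt_of_ne k2.ne with s2 | s2 <;>
  rcases lt_or_gt_of_ne k3.ne with s3 | s3
  · exact Or.inl (same _ _ k1 k2 (Or.inr ⟨s1, s2⟩))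
  · exact Or.inl (same _ _ k1 k2 (Or.inr ⟨s1, s2⟩))
  · exact Or.inr (Or.inl (same _ _ k1 k3 (Or.inr ⟨s1, s3⟩)))
  · exact Or.inr (Or.inr (same _ _ k2 k3 (Or.inl ⟨s2, s3⟩)))
  · exact Or.inr (Or.inr (same _ _ k2 k3 (Or.inr ⟨s2, s3⟩)))
  · exact Or.inr (Or.inl (same _ _ k1 k3 (Or.inl ⟨s1, s3⟩)))
  · exact Or.inl (same _ _ k1 k2 (Or.inl ⟨s1, s2⟩))
  · exact Or.inl (same _ _ k1 k2 (Or.inl ⟨s1, s2⟩))

theorem card_le_of_uses (hpl : IsPlane (inst L M) G) (Z W : Finset (ℤ × ℤ))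
    (h : ∀ z ∈ Z, ∃ w ∈ W, ∃ w' ∈ W, w ≠ w' ∧ Uses L M G z w ∧ Uses L M G z w') :
    Z.card ≤ W.card := by
  classical
  have := Finset.card_mul_le_card_mul (s := Z) (t := W) (fun z w => Uses L M G z w) (m := 2)
    (n := 2) ?_ ?_
  · omega
  · intro z hz
    obtain ⟨w, hw, w', hw', hne, h1, h2⟩ := h z hz
    have : ({w, w'} : Finset (ℤ × ℤ)) ⊆ W.bipartiteAbove (fun z w => Uses L M G z w) z := by
      intro x hx
      rw [Finset.mem_bipartiteAbove]
      rw [Finset.mem_insert, Finset.mem_singleton] at hx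
      rcases hx with rfl | rfl
      · exact ⟨hw, h1⟩
      · exact ⟨hw', h2⟩
    have h3 := Finset.card_le_card this
    rw [Finset.card_pair hne] at h3
    exact h3
  · intro w hw
    by_contra hc
    push Not at hc
    obtain ⟨a, ha, b, hb, c, hc', hab, hac, hbc⟩ := Finset.two_lt_card.1 hc
    rw [Finset.mem_bipartiteBelow] at ha hb hc'
    rcases uses_two hpl ha.2 hb.2 hc'.2 with h1 | h1 | h1
    · exact hab h1
    · exact hac h1
    · exact hbc h1

end Pool.Agent.AreaTri
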