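import Pool.Agent.AreaTri.Star

/-!
Completeness core: disjoint stars of odd points extend to a triangulation all of whose triangles
have doubled area at least 4.
-/

namespace Pool.Agent.AreaTri

/-- the point with coordinates `c` with respect to origin `z` and basis `u, e` -/
def cpt (z u e c : ℤ × ℤ) : ℤ × ℤ :=
  (z.1 + c.1 * u.1 + c.2 * e.1, z.2 + c.1 * u.2 + c.2 * e.2)

/-- the eight segments of a star, in coordinates -/
def edL : Finset ((ℤ × ℤ) × (ℤ × ℤ)) :=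
  {((0, 0), (1, 0)), ((0, 0), (1, 1)), ((0, 0), (-1, 0)), ((0, 0), (1, -1)),
   ((1, 0), (1, 1)), ((1, 1), (-1, 0)), ((-1, 0), (1, -1)), ((1, -1), (1, 0))}

/-- the star data of the odd points `Z` of the point set `P` -/
structure Stars (P Z : Finset (ℤ × ℤ)) (bb ee : ℤ × ℤ → ℤ × ℤ) : Prop where
  sub : ∀ z ∈ Z, z ∈ P
  even : ∀ p ∈ P, p ∉ Z → p.1 % 2 = 0 ∧ p.2 % 2 = 0
  odd : ∀ z ∈ Z, z.1 % 2 = 1 ∨ z.2 % 2 = 1
  vert : ∀ z ∈ Z, ∀ c : ℤ × ℤ, (c = (1, 0) ∨ c = (1, 1) ∨ c = (-1, 0) ∨ c = (1, -1)) →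
    cpt z (bb z - z) (ee z) c ∈ P
  b_even : ∀ z ∈ Z, (bb z).1 % 2 = 0 ∧ (bb z).2 % 2 = 0
  e4 : ∀ z ∈ Z, (ee z).1 % 4 = 0 ∧ (ee z).2 % 4 = 0
  wp : ∀ z ∈ Z, ∀ w ∈ P, 2 * w.1 = 2 * (bb z).1 + (ee z).1 → 2 * w.2 = 2 * (bb z).2 + (ee z).2 →
    False
  wm : ∀ z ∈ Z, ∀ w ∈ P, 2 * w.1 = 2 * (bb z).1 - (ee z).1 → 2 * w.2 = 2 * (bb z).2 - (ee z).2 →
    False
  det : ∀ z ∈ Z, idet (bb z - z) (ee z) = 4
  sep : ∀ z ∈ Z, ∀ z' ∈ Z, z ≠ z' → ∃ α β γ : ℤ,
    (∀ c ∈ ({(1, 0), (1, 1), (-1, 0), (1, -1)} : Finset (ℤ × ℤ)),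
      α * (cpt z (bb z - z) (ee z) c).1 + β * (cpt z (bb z - z) (ee z) c).2 ≤ γ) ∧
    (∀ c ∈ ({(1, 0), (1, 1), (-1, 0), (1, -1)} : Finset (ℤ × ℤ)),
      γ ≤ α * (cpt z' (bb z' - z') (ee z') c).1 + β * (cpt z' (bb z' - z') (ee z') c).2) ∧
    α * z.1 + β * z.2 < γ ∧ γ < α * z'.1 + β * z'.2

theorem cpt_zero (z u e : ℤ × ℤ) : cpt z u e (0, 0) = z := by
  unfold cpt; simp

/-- first coordinate -/
noncomputable def cA (z e : ℤ × ℤ) (x : Pt) : ℝ := ((x.1 - z.1) * e.2 - (x.2 - z.2) * e.1) / 4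

/-- second coordinate -/
noncomputable def cB (z u : ℤ × ℤ) (x : Pt) : ℝ := (u.1 * (x.2 - z.2) - u.2 * (x.1 - z.1)) / 4

theorem cA_cpt {z u e : ℤ × ℤ} (h : idet u e = 4) (c : ℤ × ℤ) : cA z e (ι (cpt z u e c)) = c.1 := by
  have h' : (u.1 : ℝ) * e.2 - u.2 * e.1 = 4 := by unfold idet at h; exact_mod_cast h
  unfold cA cpt ι
  push_cast
  linear_combination (c.1 / 4) * h'

theorem cB_cpt {z u e : ℤ × ℤ} (h : idet u e = 4) (c : ℤ × ℤ) : cB z u (ι (cpt z u e c)) = c.2 := by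
  have h' : (u.1 : ℝ) * e.2 - u.2 * e.1 = 4 := by unfold idet at h; exact_mod_cast h
  unfold cB cpt ι
  push_cast
  linear_combination (c.2 / 4) * h'

theorem cA_on {z e : ℤ × ℤ} {t : ℝ} {p q x : Pt} (h : On t p q x) :
    cA z e x = (1 - t) * cA z e p + t * cA z e q := by
  unfold cA; rw [h.1, h.2]; ring

theorem cB_on {z u : ℤ × ℤ} {t : ℝ} {p q x : Pt} (h : On t p q x) :
    cB z u x = (1 - t) * cB z u p + t * cB z u q := by
  unfold cB; rw [h.1, h.2]; ring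

/-- a vector from its coordinates -/
theorem of_coord {z u e : ℤ × ℤ} (h : idet u e = 4) (x : Pt) :
    x.1 = z.1 + cA z e x * u.1 + cB z u x * e.1 ∧ x.2 = z.2 + cA z e x * u.2 + cB z u x * e.2 := by
  have h' : (u.1 : ℝ) * e.2 - u.2 * e.1 = 4 := by unfold idet at h; exact_mod_cast h
  unfold cA cB
  constructor
  · linear_combination ((-1) / 4 * (x.1 - z.1)) * h'
  · linear_combination ((-1) / 4 * (x.2 - z.2)) * h'

/-- for even points, the first coordinate is an integer and the second a half-integer -/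
theorem coord_even {z u e s : ℤ × ℤ} (he : e.1 % 4 = 0 ∧ e.2 % 4 = 0)
    (hs : (s.1 - z.1) % 2 = u.1 % 2 ∧ (s.2 - z.2) % 2 = u.2 % 2) :
    (∃ a : ℤ, cA z e (ι s) = a) ∧ ∃ b : ℤ, cB z u (ι s) = b / 2 := by
  constructor
  · obtain ⟨e1, h1⟩ : ∃ k, e.1 = 4 * k := ⟨e.1 / 4, by omega⟩
    obtain ⟨e2, h2⟩ : ∃ k, e.2 = 4 * k := ⟨e.2 / 4, by omega⟩
    refine ⟨(s.1 - z.1) * e2 - (s.2 - z.2) * e1, ?_⟩
    unfold cA ι
    rw [h1, h2]
    push_cast; ring
  · obtain ⟨f1, h1⟩ : ∃ k, s.1 - z.1 = u.1 + 2 * k := ⟨(s.1 - z.1 - u.1) / 2, by omega⟩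
    obtain ⟨f2, h2⟩ : ∃ k, s.2 - z.2 = u.2 + 2 * k := ⟨(s.2 - z.2 - u.2) / 2, by omega⟩
    refine ⟨u.1 * f2 - u.2 * f1, ?_⟩
    have h1' : (s.1 : ℝ) - z.1 = u.1 + 2 * f1 := by exact_mod_cast h1
    have h2' : (s.2 : ℝ) - z.2 = u.2 + 2 * f2 := by exact_mod_cast h2
    unfold cB ι
    simp only
    rw [h1', h2']
    push_cast; ring

section
variable {P Z : Finset (ℤ × ℤ)} {bb ee : ℤ × ℤ → ℤ × ℤ}

theorem mem_edL {d : (ℤ × ℤ) × (ℤ × ℤ)} (h : d ∈ edL) :
    d = ((0, 0), (1, 0)) ∨ d = ((0, 0), (1, 1)) ∨ d = ((0, 0), (-1, 0)) ∨ d = ((0, 0), (1, -1)) ∨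
    d = ((1, 0), (1, 1)) ∨ d = ((1, 1), (-1, 0)) ∨ d = ((-1, 0), (1, -1)) ∨
    d = ((1, -1), (1, 0)) := by
  simpa [edL] using h

/-- end points of star segments belong to `P` -/
theorem ed_mem (hS : Stars P Z bb ee) {z : ℤ × ℤ} (hz : z ∈ Z) {d : (ℤ × ℤ) × (ℤ × ℤ)}
    (hd : d ∈ edL) : cpt z (bb z - z) (ee z) d.1 ∈ P ∧ cpt z (bb z - z) (ee z) d.2 ∈ P := by
  have h0 : cpt z (bb z - z) (ee z) (0, 0) ∈ P := by rw [cpt_zero]; exact hS.sub z hz
  have h1 := hS.vert z hz (1, 0) (by simp)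
  have h2 := hS.vert z hz (1, 1) (by simp)
  have h3 := hS.vert z hz (-1, 0) (by simp)
  have h4 := hS.vert z hz (1, -1) (by simp)
  rcases mem_edL hd with rfl | rfl | rfl | rfl | rfl | rfl | rfl | rfl <;>
    exact ⟨by assumption, by assumption⟩

theorem idet_be (hS : Stars P Z bb ee) {z : ℤ × ℤ} (hz : z ∈ Z) :
    idet (bb z - z) (ee z) = 4 := hS.det z hz

/-- parity of `s - z` for an even point `s` -/
theorem par_even (hS : Stars P Z bb ee) {z s : ℤ × ℤ} (hz : z ∈ Z)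
    (hs : s.1 % 2 = 0 ∧ s.2 % 2 = 0) :
    (s.1 - z.1) % 2 = (bb z - z).1 % 2 ∧ (s.2 - z.2) % 2 = (bb z - z).2 % 2 := by
  have := hS.b_even z hz
  rw [Prod.fst_sub, Prod.snd_sub]
  omega

/-- an even point of `P` with small coordinates is a vertex of the star -/
theorem even_small (hS : Stars P Z bb ee) {z s : ℤ × ℤ} (hz : z ∈ Z) (hsP : s ∈ P)
    (hs : s.1 % 2 = 0 ∧ s.2 % 2 = 0)
    (h1 : -1 ≤ cA z (ee z) (ι s)) (h2 : cA z (ee z) (ι s) ≤ 1)
    (h3 : 2 * |cB z (bb z - z) (ι s)| ≤ 1 + cA z (ee z) (ι s)) :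
    s = cpt z (bb z - z) (ee z) (1, 0) ∨ s = cpt z (bb z - z) (ee z) (1, 1) ∨
    s = cpt z (bb z - z) (ee z) (-1, 0) ∨ s = cpt z (bb z - z) (ee z) (1, -1) := by
  have hdet := hS.det z hz
  have he := hS.e4 z hz
  have hb := hS.b_even z hz
  obtain ⟨⟨a, ha⟩, ⟨b, hb'⟩⟩ := coord_even (z := z) (u := bb z - z) (e := ee z) (s := s) he
    (par_even hS hz hs)
  rw [ha] at h1 h2 h3
  rw [hb'] at h3
  obtain ⟨c1, c2⟩ := of_coord (z := z) (u := bb z - z) (e := ee z) hdet (ι s)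
  rw [ha, hb'] at c1 c2
  have a1 : (-1 : ℤ) ≤ a := by exact_mod_cast h1
  have a2 : a ≤ 1 := by exact_mod_cast h2
  have hb2 : |b| ≤ 1 + a := by
    have : 2 * |(b : ℝ) / 2| = |(b : ℝ)| := by
      rw [abs_div]; norm_num; ring
    rw [this] at h3
    exact_mod_cast h3
  have i1 : 2 * s.1 = 2 * z.1 + 2 * a * (bb z - z).1 + b * (ee z).1 := by
    have : (2 : ℝ) * (ι s).1 = 2 * z.1 + 2 * a * (bb z - z).1 + b * (ee z).1 := by
      rw [c1]; ring
    simp only [ι] at this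
    exact_mod_cast this
  have i2 : 2 * s.2 = 2 * z.2 + 2 * a * (bb z - z).2 + b * (ee z).2 := by
    have : (2 : ℝ) * (ι s).2 = 2 * z.2 + 2 * a * (bb z - z).2 + b * (ee z).2 := by
      rw [c2]; ring
    simp only [ι] at this
    exact_mod_cast this
  rw [Prod.fst_sub] at i1
  rw [Prod.snd_sub] at i2
  have hzo := hS.odd z hz
  rw [abs_le] at hb2
  have ha3 : a = -1 ∨ a = 0 ∨ a = 1 := by omega
  rcases ha3 with rfl | rfl | rfl
  · have hb0 : b = 0 := by omega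
    subst hb0
    right; right; left
    apply Prod.ext
    · unfold cpt; simp only [Prod.fst_sub]; linarith
    · unfold cpt; simp only [Prod.snd_sub]; linarith
  · -- a = 0
    exfalso
    have hb3 : b = -1 ∨ b = 0 ∨ b = 1 := by omega
    rcases hb3 with rfl | rfl | rfl
    · omega
    · omega
    · omega
  · have hb3 : b = -2 ∨ b = -1 ∨ b = 0 ∨ b = 1 ∨ b = 2 := by omega
    rcases hb3 with rfl | rfl | rfl | rfl | rfl
    · right; right; right
      apply Prod.ext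
      · unfold cpt; simp only [Prod.fst_sub]; linarith
      · unfold cpt; simp only [Prod.snd_sub]; linarith
    · exact (hS.wm z hz s hsP (by linarith) (by linarith)).elim
    · left
      apply Prod.ext
      · unfold cpt; simp only [Prod.fst_sub]; linarith
      · unfold cpt; simp only [Prod.snd_sub]; linarith
    · exact (hS.wp z hz s hsP (by linarith) (by linarith)).elim
    · right; left
      apply Prod.ext
      · unfold cpt; simp only [Prod.fst_sub]; linarith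
      · unfold cpt; simp only [Prod.snd_sub]; linarith

/-- the closed triangle of the star -/
def InStar (z u e : ℤ × ℤ) (x : Pt) : Prop :=
  -1 ≤ cA z e x ∧ cA z e x ≤ 1 ∧ 2 * |cB z u x| ≤ 1 + cA z e x

theorem lin_ι (α β : ℤ) (p : ℤ × ℤ) :
    lin α β (ι p) = ((α * p.1 + β * p.2 : ℤ) : ℝ) := by
  unfold lin ι; push_cast; ring

theorem inStar_lin {z u e : ℤ × ℤ} (h : idet u e = 4) {x : Pt} (hx : InStar z u e x) (α β : ℝ) :
    ∃ w1 w2 w3 : ℝ, 0 ≤ w1 ∧ 0 ≤ w2 ∧ 0 ≤ w3 ∧ w1 + w2 + w3 = 1 ∧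
      lin α β x = w1 * lin α β (ι (cpt z u e (1, 1))) + w2 * lin α β (ι (cpt z u e (1, -1))) +
        w3 * lin α β (ι (cpt z u e (-1, 0))) := by
  obtain ⟨h1, h2, h3⟩ := hx
  have h4 := abs_le.1 (show |cB z u x| ≤ (1 + cA z e x) / 2 by linarith)
  obtain ⟨c1, c2⟩ := of_coord (z := z) (u := u) (e := e) h x
  refine ⟨((1 + cA z e x) / 2 + cB z u x) / 2, ((1 + cA z e x) / 2 - cB z u x) / 2,
    (1 - cA z e x) / 2, by linarith, by linarith, by linarith, by ring, ?_⟩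
  have e1 : lin α β x = α * (z.1 + cA z e x * u.1 + cB z u x * e.1) +
      β * (z.2 + cA z e x * u.2 + cB z u x * e.2) := by
    rw [← c1, ← c2]; rfl
  rw [e1]
  unfold lin ι cpt
  push_cast
  ring

theorem lin_le_of_inStar (hS : Stars P Z bb ee) {z : ℤ × ℤ} (hz : z ∈ Z) {α β γ : ℤ}
    (h : ∀ c ∈ ({(1, 0), (1, 1), (-1, 0), (1, -1)} : Finset (ℤ × ℤ)),
      α * (cpt z (bb z - z) (ee z) c).1 + β * (cpt z (bb z - z) (ee z) c).2 ≤ γ) {x : Pt}
    (hx : InStar z (bb z - z) (ee z) x) : lin α β x ≤ γ := by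
  obtain ⟨w1, w2, w3, h1, h2, h3, h4, h5⟩ := inStar_lin (hS.det z hz) hx α β
  have q : ∀ c ∈ ({(1, 0), (1, 1), (-1, 0), (1, -1)} : Finset (ℤ × ℤ)),
      lin α β (ι (cpt z (bb z - z) (ee z) c)) ≤ γ := by
    intro c hc; rw [lin_ι]; exact_mod_cast h c hc
  have q1 := mul_le_mul_of_nonneg_left (q (1, 1) (by simp)) h1
  have q2 := mul_le_mul_of_nonneg_left (q (1, -1) (by simp)) h2
  have q3 := mul_le_mul_of_nonneg_left (q (-1, 0) (by simp)) h3
  have q4 : w1 * (γ : ℝ) + w2 * γ + w3 * γ = γ := by rw [← add_mul, ← add_mul, h4, one_mul]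
  rw [h5]; linarith

theorem le_lin_of_inStar (hS : Stars P Z bb ee) {z : ℤ × ℤ} (hz : z ∈ Z) {α β γ : ℤ}
    (h : ∀ c ∈ ({(1, 0), (1, 1), (-1, 0), (1, -1)} : Finset (ℤ × ℤ)),
      γ ≤ α * (cpt z (bb z - z) (ee z) c).1 + β * (cpt z (bb z - z) (ee z) c).2) {x : Pt}
    (hx : InStar z (bb z - z) (ee z) x) : γ ≤ lin α β x := by
  obtain ⟨w1, w2, w3, h1, h2, h3, h4, h5⟩ := inStar_lin (hS.det z hz) hx α β
  have q : ∀ c ∈ ({(1, 0), (1, 1), (-1, 0), (1, -1)} : Finset (ℤ × ℤ)),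
      (γ : ℝ) ≤ lin α β (ι (cpt z (bb z - z) (ee z) c)) := by
    intro c hc; rw [lin_ι]; exact_mod_cast h c hc
  have q1 := mul_le_mul_of_nonneg_left (q (1, 1) (by simp)) h1
  have q2 := mul_le_mul_of_nonneg_left (q (1, -1) (by simp)) h2
  have q3 := mul_le_mul_of_nonneg_left (q (-1, 0) (by simp)) h3
  have q4 : w1 * (γ : ℝ) + w2 * γ + w3 * γ = γ := by rw [← add_mul, ← add_mul, h4, one_mul]
  rw [h5]; linarith

/-- points of star segments lie in the star triangle -/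
theorem inStar_edge (hS : Stars P Z bb ee) {z : ℤ × ℤ} (hz : z ∈ Z) {d : (ℤ × ℤ) × (ℤ × ℤ)}
    (hd : d ∈ edL) {t : ℝ} (h0 : 0 ≤ t) (h1 : t ≤ 1) {x : Pt}
    (hx : On t (ι (cpt z (bb z - z) (ee z) d.1)) (ι (cpt z (bb z - z) (ee z) d.2)) x) :
    InStar z (bb z - z) (ee z) x := by
  have hA := cA_on (z := z) (e := ee z) hx
  have hB := cB_on (z := z) (u := bb z - z) hx
  rw [cA_cpt (hS.det z hz), cA_cpt (hS.det z hz)] at hA
  rw [cB_cpt (hS.det z hz), cB_cpt (hS.det z hz)] at hB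
  unfold InStar
  rw [hA, hB]
  rcases mem_edL hd with rfl | rfl | rfl | rfl | rfl | rfl | rfl | rfl <;>
    push_cast <;> refine ⟨by linarith, by linarith, ?_⟩ <;>
    (rw [show ∀ a b : ℝ, (2 * |a| ≤ b) = (|a| ≤ b / 2) from fun a b => by
        apply propext; constructor <;> intro h <;> linarith, abs_le]; constructor <;> linarith)

/-- an extra point does not lie in the star of another one -/
theorem extra_not_inStar (hS : Stars P Z bb ee) {z z' : ℤ × ℤ} (hz : z ∈ Z) (hz' : z' ∈ Z)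
    (hne : z ≠ z') : ¬ InStar z (bb z - z) (ee z) (ι z') := by
  intro h
  obtain ⟨α, β, γ, h1, _, _, h4⟩ := hS.sep z hz z' hz' hne
  have := lin_le_of_inStar hS hz h1 h
  rw [lin_ι] at this
  have : α * z'.1 + β * z'.2 ≤ γ := by exact_mod_cast this
  linarith

/-- points of `P` in the star triangle -/
theorem inStar_P (hS : Stars P Z bb ee) {z s : ℤ × ℤ} (hz : z ∈ Z) (hs : s ∈ P)
    (h : InStar z (bb z - z) (ee z) (ι s)) :
    s = z ∨ s = cpt z (bb z - z) (ee z) (1, 0) ∨ s = cpt z (bb z - z) (ee z) (1, 1) ∨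
    s = cpt z (bb z - z) (ee z) (-1, 0) ∨ s = cpt z (bb z - z) (ee z) (1, -1) := by
  by_cases hsZ : s ∈ Z
  · left
    by_contra hne
    exact extra_not_inStar hS hz hsZ (Ne.symm hne) h
  · right
    exact even_small hS hz hs (hS.even s hs hsZ) h.1 h.2.1 h.2.2

theorem inStar_P' (hS : Stars P Z bb ee) {z s : ℤ × ℤ} (hz : z ∈ Z) (hs : s ∈ P)
    (h : InStar z (bb z - z) (ee z) (ι s)) :
    ∃ c : ℤ × ℤ, s = cpt z (bb z - z) (ee z) c ∧
      (c = (0, 0) ∨ c = (1, 0) ∨ c = (1, 1) ∨ c = (-1, 0) ∨ c = (1, -1)) := by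
  rcases inStar_P hS hz hs h with h | h | h | h | h
  · exact ⟨(0, 0), by rw [cpt_zero]; exact h, Or.inl rfl⟩
  · exact ⟨(1, 0), h, by simp⟩
  · exact ⟨(1, 1), h, by simp⟩
  · exact ⟨(-1, 0), h, by simp⟩
  · exact ⟨(1, -1), h, by simp⟩

/-- star segments contain no point of `P` in their interior -/
theorem edge_free (hS : Stars P Z bb ee) {z s : ℤ × ℤ} (hz : z ∈ Z) (hs : s ∈ P)
    {d : (ℤ × ℤ) × (ℤ × ℤ)} (hd : d ∈ edL) :
    ι s ∉ openSegment ℝ (ι (cpt z (bb z - z) (ee z) d.1)) (ι (cpt z (bb z - z) (ee z) d.2)) := by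
  intro h
  obtain ⟨t, ht0, ht1, ht⟩ := mem_oseg_on.1 h
  have hin := inStar_edge hS hz hd ht0.le ht1.le ht
  obtain ⟨c, hc, hc'⟩ := inStar_P' hS hz hs hin
  have hA := cA_on (z := z) (e := ee z) ht
  have hB := cB_on (z := z) (u := bb z - z) ht
  rw [hc, cA_cpt (hS.det z hz), cA_cpt (hS.det z hz), cA_cpt (hS.det z hz)] at hA
  rw [hc, cB_cpt (hS.det z hz), cB_cpt (hS.det z hz), cB_cpt (hS.det z hz)] at hB
  rcases mem_edL hd with rfl | rfl | rfl | rfl | rfl | rfl | rfl | rfl <;>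
    rcases hc' with rfl | rfl | rfl | rfl | rfl <;> push_cast at hA hB <;> linarith

/-- two segments of one star -/
theorem same_star (hS : Stars P Z bb ee) {z : ℤ × ℤ} (hz : z ∈ Z)
    {d d' : (ℤ × ℤ) × (ℤ × ℤ)} (hd : d ∈ edL) (hd' : d' ∈ edL) {x : Pt}
    (hx : x ∈ openSegment ℝ (ι (cpt z (bb z - z) (ee z) d.1)) (ι (cpt z (bb z - z) (ee z) d.2)))
    (hx' : x ∈ openSegment ℝ (ι (cpt z (bb z - z) (ee z) d'.1))
      (ι (cpt z (bb z - z) (ee z) d'.2))) : d = d' := by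
  obtain ⟨t, ht0, ht1, ht⟩ := mem_oseg_on.1 hx
  obtain ⟨t', ht0', ht1', ht'⟩ := mem_oseg_on.1 hx'
  have hA := cA_on (z := z) (e := ee z) ht
  have hB := cB_on (z := z) (u := bb z - z) ht
  have hA' := cA_on (z := z) (e := ee z) ht'
  have hB' := cB_on (z := z) (u := bb z - z) ht'
  rw [cA_cpt (hS.det z hz), cA_cpt (hS.det z hz)] at hA hA'
  rw [cB_cpt (hS.det z hz), cB_cpt (hS.det z hz)] at hB hB'
  rcases mem_edL hd with rfl | rfl | rfl | rfl | rfl | rfl | rfl | rfl <;>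
    rcases mem_edL hd' with rfl | rfl | rfl | rfl | rfl | rfl | rfl | rfl <;>
    first
      | rfl
      | (exfalso; push_cast at hA hB hA' hB'; linarith)

theorem lin_collinear {α β γ : ℝ} {p q r : Pt} (hαβ : α ≠ 0 ∨ β ≠ 0) (hp : lin α β p = γ)
    (hq : lin α β q = γ) (hr : lin α β r = γ) : orient p q r = 0 := by
  unfold lin at hp hq hr
  have e1 : α * (q.1 - p.1) = -(β * (q.2 - p.2)) := by linarith
  have e2 : α * (r.1 - p.1) = -(β * (r.2 - p.2)) := by linarith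
  unfold orient
  rcases hαβ with h | h
  · have : α * ((q.1 - p.1) * (r.2 - p.2) - (q.2 - p.2) * (r.1 - p.1)) = 0 := by
      linear_combination (r.2 - p.2) * e1 - (q.2 - p.2) * e2
    rcases mul_eq_zero.1 this with h' | h'
    · exact absurd h' h
    · exact h'
  · have : β * ((q.1 - p.1) * (r.2 - p.2) - (q.2 - p.2) * (r.1 - p.1)) = 0 := by
      linear_combination (q.1 - p.1) * e2 - (r.1 - p.1) * e1
    rcases mul_eq_zero.1 this with h' | h'
    · exact absurd h' h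
    · exact h'

theorem end_eq {α β γ : ℝ} {p q x : Pt} (hx : x ∈ openSegment ℝ p q) (hp : lin α β p ≤ γ)
    (hq : lin α β q ≤ γ) (h : lin α β x = γ) : lin α β p = γ ∧ lin α β q = γ := by
  obtain ⟨t, ht0, ht1, hx1, hx2⟩ := mem_oseg.1 hx
  have e : lin α β x = (1 - t) * lin α β p + t * lin α β q := by
    unfold lin; rw [hx1, hx2]; ring
  rw [h] at e
  have h1 : (1 - t) * lin α β p ≤ (1 - t) * γ := mul_le_mul_of_nonneg_left hp (by linarith)
  have h2 : t * lin α β q ≤ t * γ := mul_le_mul_of_nonneg_left hq ht0.le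
  constructor
  · have : (1 - t) * (γ - lin α β p) = 0 := by linarith
    rcases mul_eq_zero.1 this with h' | h'
    · linarith
    · linarith
  · have : t * (γ - lin α β q) = 0 := by linarith
    rcases mul_eq_zero.1 this with h' | h'
    · linarith
    · linarith

theorem cpt_inj {z u e c c' : ℤ × ℤ} (h : idet u e = 4) (he : cpt z u e c = cpt z u e c') :
    c = c' := by
  have h1 := cA_cpt (z := z) h c
  have h2 := cA_cpt (z := z) h c'
  have h3 := cB_cpt (z := z) h c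
  have h4 := cB_cpt (z := z) h c'
  rw [he] at h1 h3
  apply Prod.ext
  · have : (c.1 : ℝ) = c'.1 := by rw [← h1, ← h2]
    exact_mod_cast this
  · have : (c.2 : ℝ) = c'.2 := by rw [← h3, ← h4]
    exact_mod_cast this

theorem edL_ne : ∀ d ∈ edL, d.1 ≠ d.2 := by decide

theorem ed_ne (hS : Stars P Z bb ee) {z : ℤ × ℤ} (hz : z ∈ Z) {d : (ℤ × ℤ) × (ℤ × ℤ)}
    (hd : d ∈ edL) :
    ι (cpt z (bb z - z) (ee z) d.1) ≠ ι (cpt z (bb z - z) (ee z) d.2) := fun h =>
  edL_ne d hd (cpt_inj (hS.det z hz) (ι_inj h))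

/-- segments of different stars -/
theorem diff_star (hS : Stars P Z bb ee) {z z' : ℤ × ℤ} (hz : z ∈ Z) (hz' : z' ∈ Z)
    (hne : z ≠ z') {d d' : (ℤ × ℤ) × (ℤ × ℤ)} (hd : d ∈ edL) (hd' : d' ∈ edL) {x : Pt}
    (hx : x ∈ openSegment ℝ (ι (cpt z (bb z - z) (ee z) d.1)) (ι (cpt z (bb z - z) (ee z) d.2)))
    (hx' : x ∈ openSegment ℝ (ι (cpt z' (bb z' - z') (ee z') d'.1))
      (ι (cpt z' (bb z' - z') (ee z') d'.2))) :
    s(ι (cpt z (bb z - z) (ee z) d.1), ι (cpt z (bb z - z) (ee z) d.2)) =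
    s(ι (cpt z' (bb z' - z') (ee z') d'.1), ι (cpt z' (bb z' - z') (ee z') d'.2)) := by
  obtain ⟨α, β, γ, h1, h2, h3, h4⟩ := hS.sep z hz z' hz' hne
  have hαβ : (α : ℝ) ≠ 0 ∨ (β : ℝ) ≠ 0 := by
    by_contra hc
    push Not at hc
    have ha : α = 0 := by exact_mod_cast hc.1
    have hb : β = 0 := by exact_mod_cast hc.2
    rw [ha, hb] at h3 h4
    simp at h3 h4
    omega
  obtain ⟨t, ht0, ht1, ht⟩ := mem_oseg_on.1 hx
  obtain ⟨t', ht0', ht1', ht'⟩ := mem_oseg_on.1 hx'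
  have i1 := inStar_edge hS hz hd ht0.le ht1.le ht
  have i2 := inStar_edge hS hz' hd' ht0'.le ht1'.le ht'
  have l1 := lin_le_of_inStar hS hz h1 i1
  have l2 := le_lin_of_inStar hS hz' h2 i2
  have hl : lin α β x = γ := le_antisymm l1 l2
  have p1 := lin_le_of_inStar hS hz h1 (inStar_edge hS hz hd le_rfl zero_le_one On.zero)
  have p2 := lin_le_of_inStar hS hz h1 (inStar_edge hS hz hd zero_le_one le_rfl On.one)
  have p3 := le_lin_of_inStar hS hz' h2 (inStar_edge hS hz' hd' le_rfl zero_le_one On.zero)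
  have p4 := le_lin_of_inStar hS hz' h2 (inStar_edge hS hz' hd' zero_le_one le_rfl On.one)
  obtain ⟨e1, e2⟩ := end_eq hx p1 p2 hl
  have neg : ∀ y : Pt, lin (-(α : ℝ)) (-(β : ℝ)) y = - lin α β y := by
    intro y; unfold lin; ring
  obtain ⟨e3, e4⟩ := end_eq (α := -(α : ℝ)) (β := -(β : ℝ)) (γ := -(γ : ℝ)) hx'
    (by rw [neg]; linarith) (by rw [neg]; linarith) (by rw [neg, hl])
  rw [neg, neg_inj] at e3 e4
  obtain ⟨m1, m2⟩ := ed_mem hS hz hd
  obtain ⟨m3, m4⟩ := ed_mem hS hz' hd'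
  have mem : ∀ {s}, s ∈ P → ι s ∈ P.image ι := fun h => Finset.mem_image_of_mem _ h
  refine (overlap_eq (S := P.image ι) (mem m1) (mem m2) (mem m3) (mem m4) ?_ ?_ hx hx'
    (ed_ne hS hz hd) (lin_collinear hαβ e1 e2 e3) (lin_collinear hαβ e1 e2 e4)).symm
  · intro y hy
    obtain ⟨s, hs, rfl⟩ := Finset.mem_image.1 hy
    exact edge_free hS hz hs hd
  · intro y hy
    obtain ⟨s, hs, rfl⟩ := Finset.mem_image.1 hy
    exact edge_free hS hz' hs hd'

/-- the graph of all star segments -/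
def starGraph (hS : Stars P Z bb ee) : SimpleGraph Pt where
  Adj p q := ∃ z ∈ Z, ∃ d ∈ edL,
    (p = ι (cpt z (bb z - z) (ee z) d.1) ∧ q = ι (cpt z (bb z - z) (ee z) d.2)) ∨
    (q = ι (cpt z (bb z - z) (ee z) d.1) ∧ p = ι (cpt z (bb z - z) (ee z) d.2))
  symm := ⟨by
    rintro p q ⟨z, hz, d, hd, h⟩
    exact ⟨z, hz, d, hd, h.symm⟩⟩
  loopless := ⟨by
    rintro p ⟨z, hz, d, hd, h⟩
    apply ed_ne hS hz hd
    rcases h with ⟨h1, h2⟩ | ⟨h1, h2⟩
    · rw [← h1, ← h2]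
    · rw [← h1, ← h2]⟩

theorem starGraph_plane (hS : Stars P Z bb ee) : IsPlane (P.image ι) (starGraph hS) := by
  refine ⟨?_, ?_, ?_⟩
  · rintro p q ⟨z, hz, d, hd, h⟩
    obtain ⟨m1, m2⟩ := ed_mem hS hz hd
    rcases h with ⟨rfl, rfl⟩ | ⟨rfl, rfl⟩
    · exact Finset.mem_image_of_mem _ m1
    · exact Finset.mem_image_of_mem _ m2
  · rintro p q ⟨z, hz, d, hd, h⟩ r hr
    obtain ⟨s, hs, rfl⟩ := Finset.mem_image.1 hr
    rcases h with ⟨rfl, rfl⟩ | ⟨rfl, rfl⟩
    · exact edge_free hS hz hs hd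
    · rw [openSegment_symm]; exact edge_free hS hz hs hd
  · rintro p q r s ⟨z, hz, d, hd, h⟩ ⟨z', hz', d', hd', h'⟩ hne
    have key : ∀ x, x ∈ openSegment ℝ (ι (cpt z (bb z - z) (ee z) d.1))
        (ι (cpt z (bb z - z) (ee z) d.2)) →
        x ∈ openSegment ℝ (ι (cpt z' (bb z' - z') (ee z') d'.1))
        (ι (cpt z' (bb z' - z') (ee z') d'.2)) →
        s(ι (cpt z (bb z - z) (ee z) d.1), ι (cpt z (bb z - z) (ee z) d.2)) =
        s(ι (cpt z' (bb z' - z') (ee z') d'.1), ι (cpt z' (bb z' - z') (ee z') d'.2)) := by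
      intro x hx hx'
      by_cases hzz : z = z'
      · subst hzz
        rw [same_star hS hz hd hd' hx hx']
      · exact diff_star hS hz hz' hzz hd hd' hx hx'
    rw [Set.disjoint_left]
    intro x hx hx'
    apply hne
    rcases h with ⟨rfl, rfl⟩ | ⟨rfl, rfl⟩ <;> rcases h' with ⟨rfl, rfl⟩ | ⟨rfl, rfl⟩
    · exact key x hx hx'
    · rw [key x hx (oseg_symm.1 hx'), Sym2.eq_swap]
    · rw [Sym2.eq_swap, key x (oseg_symm.1 hx) hx']
    · rw [Sym2.eq_swap, key x (oseg_symm.1 hx) (oseg_symm.1 hx'), Sym2.eq_swap]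

theorem exists_triangulation (S : Finset Pt) {G₀ : SimpleGraph Pt} (h : IsPlane S G₀) :
    ∃ G, G₀ ≤ G ∧ IsTriangulation S G := by
  classical
  have hfin : {G : SimpleGraph Pt | IsPlane S G}.Finite := by
    apply Set.Finite.of_finite_image (f := fun G : SimpleGraph Pt =>
      (S ×ˢ S).filter (fun e => G.Adj e.1 e.2))
    · apply Set.Finite.subset ((S ×ˢ S).powerset.finite_toSet)
      rintro F ⟨G, _, rfl⟩
      exact Finset.mem_coe.2 (Finset.mem_powerset.2 (Finset.filter_subset _ _))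
    · intro G hG G' hG' he
      ext p q
      have h1 : ∀ G : SimpleGraph Pt, IsPlane S G → (G.Adj p q ↔
          (p, q) ∈ (S ×ˢ S).filter (fun e => G.Adj e.1 e.2)) := by
        intro G hG
        rw [Finset.mem_filter, Finset.mem_product]
        constructor
        · intro h; exact ⟨⟨hG.mem _ _ h, hG.mem _ _ h.symm⟩, h⟩
        · intro h; exact h.2
      rw [h1 G hG, h1 G' hG']
      simp only at he
      rw [he]
  obtain ⟨G, hle, hmax⟩ := hfin.exists_le_maximal (show G₀ ∈ {G | IsPlane S G} from h)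
  exact ⟨G, hle, hmax⟩

theorem orient_cpt {z u e c : ℤ × ℤ} (x : Pt) :
    orient (ι z) (ι (cpt z u e c)) x = 4 * (c.1 * cB z u x - c.2 * cA z e x) := by
  unfold orient ι cpt cA cB
  push_cast
  ring

theorem orient_cpt' {z u e c : ℤ × ℤ} (x : Pt) :
    orient (ι z) x (ι (cpt z u e c)) = - (4 * (c.1 * cB z u x - c.2 * cA z e x)) := by
  rw [orient_swap, orient_cpt]

/-- the four consecutive pairs of star vertices -/
def consL : Finset ((ℤ × ℤ) × (ℤ × ℤ)) :=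
  {((1, 0), (1, 1)), ((1, 1), (-1, 0)), ((-1, 0), (1, -1)), ((1, -1), (1, 0))}

theorem star_face (hS : Stars P Z bb ee) {G : SimpleGraph Pt} (hle : starGraph hS ≤ G)
    {z : ℤ × ℤ} (hz : z ∈ Z) {d : (ℤ × ℤ) × (ℤ × ℤ)} (hd : d ∈ consL) :
    IsFace (P.image ι) G (ι z) (ι (cpt z (bb z - z) (ee z) d.1))
      (ι (cpt z (bb z - z) (ee z) d.2)) ∧
    0 < orient (ι z) (ι (cpt z (bb z - z) (ee z) d.1)) (ι (cpt z (bb z - z) (ee z) d.2)) := by
  have hdet := hS.det z hz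
  have hspoke : ∀ c : ℤ × ℤ, ((0, 0), c) ∈ edL → G.Adj (ι z) (ι (cpt z (bb z - z) (ee z) c)) := by
    intro c hc
    apply hle
    exact ⟨z, hz, ((0, 0), c), hc, Or.inl ⟨by simp only [cpt_zero], rfl⟩⟩
  have hpos : orient (ι z) (ι (cpt z (bb z - z) (ee z) d.1))
      (ι (cpt z (bb z - z) (ee z) d.2)) = 4 := by
    rw [orient_cpt, cA_cpt hdet, cB_cpt hdet]
    simp only [consL, Finset.mem_insert, Finset.mem_singleton] at hd
    rcases hd with rfl | rfl | rfl | rfl <;> norm_num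
  have hed : d ∈ edL ∧ ((0, 0), d.1) ∈ edL ∧ ((0, 0), d.2) ∈ edL := by
    simp only [consL, Finset.mem_insert, Finset.mem_singleton] at hd
    rcases hd with rfl | rfl | rfl | rfl <;> decide
  refine ⟨⟨hspoke _ hed.2.1, hle ⟨z, hz, d, hed.1, Or.inl ⟨rfl, rfl⟩⟩, (hspoke _ hed.2.2).symm, ?_,
    ?_⟩, ?_⟩
  · rw [hpos]; norm_num
  · intro p hp hph
    obtain ⟨s, hs, rfl⟩ := Finset.mem_image.1 hp
    obtain ⟨lam, μ, h1, h2, h3, h4, h5⟩ := mem_tri.1 hph
    have hA : cA z (ee z) (ι s) = lam * d.1.1 + μ * d.2.1 := by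
      have e1 := cA_cpt (z := z) hdet d.1
      have e2 := cA_cpt (z := z) hdet d.2
      rw [← e1, ← e2]
      unfold cA
      rw [h4, h5]
      unfold ι
      simp only
      ring
    have hB : cB z (bb z - z) (ι s) = lam * d.1.2 + μ * d.2.2 := by
      have e1 := cB_cpt (z := z) hdet d.1
      have e2 := cB_cpt (z := z) hdet d.2
      rw [← e1, ← e2]
      unfold cB
      rw [h4, h5]
      unfold ι
      simp only
      ring
    have hin : InStar z (bb z - z) (ee z) (ι s) := by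
      unfold InStar
      rw [hA, hB]
      simp only [consL, Finset.mem_insert, Finset.mem_singleton] at hd
      rcases hd with rfl | rfl | rfl | rfl <;>
        push_cast <;> refine ⟨by linarith, by linarith, ?_⟩ <;>
        (rw [show ∀ a b : ℝ, (2 * |a| ≤ b) = (|a| ≤ b / 2) from fun a b => by
            apply propext; constructor <;> intro h <;> linarith, abs_le]
         constructor <;> linarith)
    obtain ⟨c, hc, hc'⟩ := inStar_P' hS hz hs hin
    rw [hc, cA_cpt hdet] at hA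
    rw [hc, cB_cpt hdet] at hB
    rw [hc]
    by_cases q0 : c = (0, 0)
    · left; rw [q0, cpt_zero]
    by_cases q1 : c = d.1
    · right; left; rw [q1]
    by_cases q2 : c = d.2
    · right; right; rw [q2]
    exfalso
    simp only [consL, Finset.mem_insert, Finset.mem_singleton] at hd
    rcases hd with rfl | rfl | rfl | rfl <;>
      rcases hc' with rfl | rfl | rfl | rfl | rfl <;>
      first
        | (exact q0 rfl)
        | (exact q1 rfl)
        | (exact q2 rfl)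
        | (push_cast at hA hB; linarith)
  · rw [hpos]; norm_num

/-- all neighbours of an extra point are vertices of its star -/
theorem star_nbr (hS : Stars P Z bb ee) {G : SimpleGraph Pt} (hle : starGraph hS ≤ G)
    (hpl : IsPlane (P.image ι) G) {z : ℤ × ℤ} (hz : z ∈ Z) {x : Pt} (hx : G.Adj (ι z) x) :
    ∃ c : ℤ × ℤ, (c = (1, 0) ∨ c = (1, 1) ∨ c = (-1, 0) ∨ c = (1, -1)) ∧
      x = ι (cpt z (bb z - z) (ee z) c) := by
  have hdet := hS.det z hz
  set A := cA z (ee z) x with hA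
  set B := cB z (bb z - z) x with hB
  have f := fun d hd => star_face hS hle hz (d := d) hd
  have inside : ∀ d ∈ consL, 0 < orient (ι z) (ι (cpt z (bb z - z) (ee z) d.1)) x →
      0 < orient (ι z) x (ι (cpt z (bb z - z) (ee z) d.2)) → False := by
    intro d hd h1 h2
    exact no_between hpl (f d hd).1 (f d hd).2 hx h1 h2
  -- on a ray
  have ray : ∀ d ∈ consL, orient (ι z) (ι (cpt z (bb z - z) (ee z) d.1)) x = 0 →
      0 < orient (ι z) x (ι (cpt z (bb z - z) (ee z) d.2)) →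
      ι (cpt z (bb z - z) (ee z) d.1) = x := by
    intro d hd h1 h2
    have hf := (f d hd).1
    have hpos := (f d hd).2
    -- use a point to the right of both
    refine same_dir hpl (b := (ι z) - (ι (cpt z (bb z - z) (ee z) d.2) - ι z)) hf.ab hx ?_ ?_ h1
    · have : orient (ι z) ((ι z) - (ι (cpt z (bb z - z) (ee z) d.2) - ι z))
          (ι (cpt z (bb z - z) (ee z) d.1)) =
          orient (ι z) (ι (cpt z (bb z - z) (ee z) d.1)) (ι (cpt z (bb z - z) (ee z) d.2)) := by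
        unfold orient
        simp only [Prod.fst_sub, Prod.snd_sub]
        ring
      rw [this]; exact hpos
    · have : orient (ι z) ((ι z) - (ι (cpt z (bb z - z) (ee z) d.2) - ι z)) x =
          orient (ι z) x (ι (cpt z (bb z - z) (ee z) d.2)) := by
        unfold orient
        simp only [Prod.fst_sub, Prod.snd_sub]
        ring
      rw [this]; exact h2
  have o1 : ∀ c : ℤ × ℤ, orient (ι z) (ι (cpt z (bb z - z) (ee z) c)) x = 4 * (c.1 * B - c.2 * A) :=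
    fun c => orient_cpt x
  have o2 : ∀ c : ℤ × ℤ, orient (ι z) x (ι (cpt z (bb z - z) (ee z) c)) =
      -(4 * (c.1 * B - c.2 * A)) := fun c => orient_cpt' x
  rcases lt_trichotomy B 0 with hB0 | hB0 | hB0
  · rcases lt_trichotomy (A + B) 0 with h | h | h
    · exfalso
      apply inside ((-1, 0), (1, -1)) (by decide)
      · rw [o1]; push_cast; linarith
      · rw [o2]; push_cast; linarith
    · refine ⟨(1, -1), by simp, ?_⟩
      refine (ray ((1, -1), (1, 0)) (by decide) ?_ ?_).symm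
      · rw [o1]; push_cast; linarith
      · rw [o2]; push_cast; linarith
    · exfalso
      apply inside ((1, -1), (1, 0)) (by decide)
      · rw [o1]; push_cast; linarith
      · rw [o2]; push_cast; linarith
  · rcases lt_trichotomy A 0 with h | h | h
    · refine ⟨(-1, 0), by simp, ?_⟩
      refine (ray ((-1, 0), (1, -1)) (by decide) ?_ ?_).symm
      · rw [o1]; push_cast; linarith
      · rw [o2]; push_cast; linarith
    · exfalso
      obtain ⟨c1, c2⟩ := of_coord (z := z) (u := bb z - z) (e := ee z) hdet x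
      rw [← hA, ← hB, h, hB0] at c1 c2
      apply hx.ne
      unfold ι
      apply Prod.ext
      · rw [c1]; simp
      · rw [c2]; simp
    · refine ⟨(1, 0), by simp, ?_⟩
      refine (ray ((1, 0), (1, 1)) (by decide) ?_ ?_).symm
      · rw [o1]; push_cast; linarith
      · rw [o2]; push_cast; linarith
  · rcases lt_trichotomy (A - B) 0 with h | h | h
    · exfalso
      apply inside ((1, 1), (-1, 0)) (by decide)
      · rw [o1]; push_cast; linarith
      · rw [o2]; push_cast; linarith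
    · refine ⟨(1, 1), by simp, ?_⟩
      refine (ray ((1, 1), (-1, 0)) (by decide) ?_ ?_).symm
      · rw [o1]; push_cast; linarith
      · rw [o2]; push_cast; linarith
    · exfalso
      apply inside ((1, 0), (1, 1)) (by decide)
      · rw [o1]; push_cast; linarith
      · rw [o2]; push_cast; linarith

/-- Completeness core. -/
theorem stars_complete (hS : Stars P Z bb ee) :
    ∃ G, IsTriangulation (P.image ι) G ∧
      ∀ x y w, IsFace (P.image ι) G x y w → 4 ≤ |orient x y w| := by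
  obtain ⟨G, hle, hG⟩ := exists_triangulation _ (starGraph_plane hS)
  refine ⟨G, hG, ?_⟩
  have hpl := hG.1
  -- a face at an extra point
  have hex : ∀ z ∈ Z, ∀ y w, IsFace (P.image ι) G (ι z) y w → 4 ≤ |orient (ι z) y w| := by
    intro z hz y w hf
    have hdet := hS.det z hz
    obtain ⟨c, hc, rfl⟩ := star_nbr hS hle hpl hz hf.ab
    obtain ⟨c', hc', rfl⟩ := star_nbr hS hle hpl hz hf.ca.symm
    have hne := hf.ne
    rw [orient_cpt, cA_cpt hdet, cB_cpt hdet] at hne ⊢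
    rcases hc with rfl | rfl | rfl | rfl <;> rcases hc' with rfl | rfl | rfl | rfl <;>
      first
        | (norm_num; done)
        | (exfalso; apply hne; norm_num)
  intro x y w hf
  have hxP := hpl.mem _ _ hf.ab
  have hyP := hpl.mem _ _ hf.bc
  have hwP := hpl.mem _ _ hf.ca
  obtain ⟨x', hx', rfl⟩ := Finset.mem_image.1 hxP
  obtain ⟨y', hy', rfl⟩ := Finset.mem_image.1 hyP
  obtain ⟨w', hw', rfl⟩ := Finset.mem_image.1 hwP
  by_cases hxZ : x' ∈ Z
  · exact hex x' hxZ _ _ hf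
  by_cases hyZ : y' ∈ Z
  · have := hex y' hyZ _ _ hf.rot
    rwa [orient_cyc] at this
  by_cases hwZ : w' ∈ Z
  · have := hex w' hwZ _ _ hf.rot.rot
    rwa [orient_cyc, orient_cyc] at this
  -- all even
  have p1 := hS.even x' hx' hxZ
  have p2 := hS.even y' hy' hyZ
  have p3 := hS.even w' hw' hwZ
  have hne := hf.ne
  rw [orient_ι] at hne ⊢
  have hne' : idet (y' - x') (w' - x') ≠ 0 := by
    intro h; apply hne; rw [h]; simp
  obtain ⟨a1, h1⟩ : ∃ k, y'.1 - x'.1 = 2 * k := ⟨(y'.1 - x'.1) / 2, by omega⟩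
  obtain ⟨a2, h2⟩ : ∃ k, y'.2 - x'.2 = 2 * k := ⟨(y'.2 - x'.2) / 2, by omega⟩
  obtain ⟨b1, h3⟩ : ∃ k, w'.1 - x'.1 = 2 * k := ⟨(w'.1 - x'.1) / 2, by omega⟩
  obtain ⟨b2, h4⟩ : ∃ k, w'.2 - x'.2 = 2 * k := ⟨(w'.2 - x'.2) / 2, by omega⟩
  have e : idet (y' - x') (w' - x') = 4 * (a1 * b2 - a2 * b1) := by
    unfold idet
    rw [Prod.fst_sub, Prod.snd_sub, Prod.fst_sub, Prod.snd_sub, h1, h2, h3, h4]
    ring
  rw [e] at hne' ⊢
  have h5 : a1 * b2 - a2 * b1 ≠ 0 := by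
    intro h; apply hne'; rw [h]; ring
  have h6 : 1 ≤ |a1 * b2 - a2 * b1| := Int.one_le_abs h5
  have h7 : (4 : ℤ) ≤ |4 * (a1 * b2 - a2 * b1)| := by
    rw [abs_mul]; norm_num; linarith
  exact_mod_cast h7

end

end Pool.Agent.AreaTri
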