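import Pool.Agent.AreaTri.Apex

/-!
Counting triangles of a triangulation of a box set: a set of points of a box which contains
exactly the even points of the boundary of the box and has as many points as there are even points
in the box.
-/

namespace Pool.Agent.AreaTri

variable {S : Finset Pt} {G : SimpleGraph Pt}

/-- linear functional -/
def lin (α β : ℝ) (p : Pt) : ℝ := α * p.1 + β * p.2

theorem lin_orient (α β : ℝ) (v p : Pt) :
    orient v (v.1 + β, v.2 - α) p = lin α β p - lin α β v := by
  unfold orient lin; ring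

theorem mid_exists (hG : IsTriangulation S G) (α β : ℝ) {v w : Pt} (hv : v ∈ S) (hw : w ∈ S)
    (hvw : lin α β v < lin α β w)
    (hleft : ∀ q ∈ S, lin α β v < lin α β q → ∃ p ∈ S, 0 < orient v q p)
    (hinj : ∀ p ∈ S, lin α β p = lin α β v → p = v) :
    ∃ q c, IsFace S G v q c ∧ 0 < orient v q c ∧ lin α β v < lin α β q ∧
      lin α β c < lin α β v := by
  classical
  obtain ⟨d, hd, hd'⟩ := wedge hG (a := v) (b := (v.1 + β, v.2 - α)) hv hw
    (by rw [lin_orient]; linarith)
  rw [lin_orient] at hd'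
  obtain ⟨q, hqN, hmax, -⟩ := exists_max_angle
    (S.filter (fun d => G.Adj v d ∧ lin α β v < lin α β d))
    ⟨d, Finset.mem_filter.2 ⟨hG.1.mem _ _ hd.symm, hd, by linarith⟩⟩ v (v.1 + β, v.2 - α)
    (fun p hp => by rw [lin_orient]; linarith [(Finset.mem_filter.1 hp).2.2])
  obtain ⟨hqS, hvq, hq⟩ := Finset.mem_filter.1 hqN
  obtain ⟨p₀, hp₀, hp₀'⟩ := hleft q hqS hq
  obtain ⟨c, hc, hcpos, -⟩ := apex hG hvq hp₀ hp₀'
  refine ⟨q, c, hc, hcpos, hq, ?_⟩
  have hcS : c ∈ S := hG.1.mem _ _ hc.ca
  by_contra hcon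
  push Not at hcon
  rcases eq_or_lt_of_le hcon with h | h
  · exact hc.ca.ne (hinj c hcS h.symm)
  · have := hmax c (Finset.mem_filter.2 ⟨hcS, hc.ca.symm, h⟩)
    linarith

theorem mid_unique (hpl : IsPlane S G) (α β : ℝ) {v q c q' c' : Pt} (hf : IsFace S G v q c)
    (hpos : 0 < orient v q c) (hq : lin α β v < lin α β q) (hc : lin α β c < lin α β v)
    (hf' : IsFace S G v q' c') (hpos' : 0 < orient v q' c') (hq' : lin α β v < lin α β q')
    (hc' : lin α β c' < lin α β v) : q = q' := by
  have key : ∀ q c q' : Pt, IsFace S G v q c → 0 < orient v q c → lin α β v < lin α β q →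
      lin α β c < lin α β v → G.Adj v q' → lin α β v < lin α β q' → 0 < orient v q q' →
      False := by
    intro q c q' hf hpos hq hc had hq' h
    refine no_between hpl hf hpos had h ?_
    have id : (lin α β q - lin α β v) * orient v q' c =
        (lin α β q' - lin α β v) * orient v q c - (lin α β c - lin α β v) * orient v q q' := by
      unfold orient lin; ring
    have h1 : 0 < (lin α β q' - lin α β v) * orient v q c := mul_pos (by linarith) hpos
    have h2 : (lin α β c - lin α β v) * orient v q q' < 0 :=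
      mul_neg_of_neg_of_pos (by linarith) h
    have h3 : 0 < (lin α β q - lin α β v) * orient v q' c := by rw [id]; linarith
    by_contra hcon
    push Not at hcon
    have := mul_nonpos_of_nonneg_of_nonpos (show 0 ≤ lin α β q - lin α β v by linarith) hcon
    linarith
  rcases lt_trichotomy (orient v q q') 0 with h | h | h
  · exact (key q' c' q hf' hpos' hq' hc' hf.ab hq (by rw [orient_swap]; linarith)).elim
  · exact same_dir hpl (b := (v.1 + β, v.2 - α)) hf.ab hf'.ab (by rw [lin_orient]; linarith)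
      (by rw [lin_orient]; linarith) h
  · exact (key q c q' hf hpos hq hc hf'.ab hq' h).elim

/-- third vertex of the triangle to the left of `a b` -/
noncomputable def third (S : Finset Pt) (G : SimpleGraph Pt) (a b : Pt) : Pt :=
  open Classical in
  if h : ∃ c, IsFace S G a b c ∧ 0 < orient a b c then h.choose else a

open Classical in
/-- directed edges with a triangle on the left -/
noncomputable def darts (S : Finset Pt) (G : SimpleGraph Pt) : Finset (Pt × Pt) :=
  (S ×ˢ S).filter (fun e => ∃ c, IsFace S G e.1 e.2 c ∧ 0 < orient e.1 e.2 c)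

theorem mem_darts (hpl : IsPlane S G) {e : Pt × Pt} : e ∈ darts S G ↔
    ∃ c, IsFace S G e.1 e.2 c ∧ 0 < orient e.1 e.2 c := by
  classical
  simp only [darts, Finset.mem_filter, Finset.mem_product]
  constructor
  · exact fun h => h.2
  · rintro ⟨c, h, h'⟩
    exact ⟨⟨hpl.mem _ _ h.ab, hpl.mem _ _ h.ab.symm⟩, c, h, h'⟩

theorem third_spec (hpl : IsPlane S G) {e : Pt × Pt} (he : e ∈ darts S G) :
    IsFace S G e.1 e.2 (third S G e.1 e.2) ∧ 0 < orient e.1 e.2 (third S G e.1 e.2) := by
  have h := (mem_darts hpl).1 he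
  unfold third
  rw [dif_pos h]
  exact h.choose_spec

theorem third_eq (hpl : IsPlane S G) {a b c : Pt} (h : IsFace S G a b c)
    (h' : 0 < orient a b c) : third S G a b = c := by
  have hm : (a, b) ∈ darts S G := (mem_darts hpl).2 ⟨c, h, h'⟩
  have hs := third_spec hpl hm
  exact face_unique hpl hs.1 h hs.2 h'

/-- next directed edge around the triangle -/
noncomputable def nxt (S : Finset Pt) (G : SimpleGraph Pt) (e : Pt × Pt) : Pt × Pt :=
  (e.2, third S G e.1 e.2)

theorem nxt_mem (hpl : IsPlane S G) {e : Pt × Pt} (he : e ∈ darts S G) :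
    nxt S G e ∈ darts S G := by
  have hs := third_spec hpl he
  rw [mem_darts hpl]
  exact ⟨e.1, hs.1.rot, by rw [nxt]; simp only; rw [orient_cyc]; exact hs.2⟩

theorem nxt2 (hpl : IsPlane S G) {e : Pt × Pt} (he : e ∈ darts S G) :
    nxt S G (nxt S G e) = (third S G e.1 e.2, e.1) := by
  have hs := third_spec hpl he
  have := third_eq hpl hs.1.rot (by rw [orient_cyc]; exact hs.2)
  unfold nxt
  simp only
  rw [this]

theorem nxt3 (hpl : IsPlane S G) {e : Pt × Pt} (he : e ∈ darts S G) :
    nxt S G (nxt S G (nxt S G e)) = e := by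
  have hs := third_spec hpl he
  rw [nxt2 hpl he]
  have := third_eq hpl hs.1.rot.rot (by rw [orient_cyc, orient_cyc]; exact hs.2)
  unfold nxt
  simp only
  rw [this]

theorem sum_nxt (hpl : IsPlane S G) (g : Pt × Pt → ℝ) :
    ∑ e ∈ darts S G, g (nxt S G e) = ∑ e ∈ darts S G, g e := by
  refine Finset.sum_nbij' (nxt S G) (fun e => nxt S G (nxt S G e)) ?_ ?_ ?_ ?_ ?_
  · intro e he; exact nxt_mem hpl he
  · intro e he; exact nxt_mem hpl (nxt_mem hpl he)
  · intro e he; exact nxt3 hpl he
  · intro e he; exact nxt3 hpl he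
  · intro e he; rfl

theorem sum_three (hpl : IsPlane S G) (g : Pt × Pt → ℝ) :
    ∑ e ∈ darts S G, (g e + g (nxt S G e) + g (nxt S G (nxt S G e))) =
      3 * ∑ e ∈ darts S G, g e := by
  rw [Finset.sum_add_distrib, Finset.sum_add_distrib, sum_nxt hpl g,
    sum_nxt hpl (fun e => g (nxt S G e)), sum_nxt hpl g]
  ring

/-- cross product of the position vectors -/
def cr (e : Pt × Pt) : ℝ := e.1.1 * e.2.2 - e.1.2 * e.2.1

theorem sum_orient (hpl : IsPlane S G) :
    ∑ e ∈ darts S G, orient e.1 e.2 (third S G e.1 e.2) = 3 * ∑ e ∈ darts S G, cr e := by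
  rw [← sum_three hpl cr]
  apply Finset.sum_congr rfl
  intro e he
  rw [nxt2 hpl he]
  unfold cr nxt orient
  ring

/-- `S` lies in the box `[0,2a] × [0,2b]`, has integral coordinates, contains exactly the even
points of the boundary, and has `(a+1)(b+1)` elements. -/
structure BoxSet (a b : ℕ) (S : Finset Pt) : Prop where
  ha : 1 ≤ a
  hb : 1 ≤ b
  box : ∀ p ∈ S, 0 ≤ p.1 ∧ p.1 ≤ 2 * a ∧ 0 ≤ p.2 ∧ p.2 ≤ 2 * b
  int1 : ∀ p ∈ S, ∃ i : ℤ, p.1 = i
  int2 : ∀ p ∈ S, ∃ j : ℤ, p.2 = j
  bdx : ∀ p ∈ S, (p.1 = 0 ∨ p.1 = 2 * a) → ∃ k : ℕ, k ≤ b ∧ p.2 = 2 * k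
  bdy : ∀ p ∈ S, (p.2 = 0 ∨ p.2 = 2 * b) → ∃ k : ℕ, k ≤ a ∧ p.1 = 2 * k
  memx : ∀ k : ℕ, k ≤ b → ((0 : ℝ), (2 * k : ℝ)) ∈ S ∧ ((2 * a : ℝ), (2 * k : ℝ)) ∈ S
  memy : ∀ k : ℕ, k ≤ a → ((2 * k : ℝ), (0 : ℝ)) ∈ S ∧ ((2 * k : ℝ), (2 * b : ℝ)) ∈ S
  card : S.card = (a + 1) * (b + 1)

/-- a segment with all of `S` on one side is always present -/
theorem side_adj (hG : IsTriangulation S G) {p q : Pt} (hp : p ∈ S) (hq : q ∈ S) (hpq : p ≠ q)
    (hf : ∀ r ∈ S, r ∉ openSegment ℝ p q) (hside : ∀ r ∈ S, 0 ≤ orient p q r) : G.Adj p q := by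
  apply adj_of_free hG hp hq hpq hf
  intro r s z hrs hz hz'
  obtain ⟨t, ht0, ht1, ht⟩ := mem_oseg_on.1 hz
  obtain ⟨u, hu0, hu1, hu⟩ := mem_oseg_on.1 hz'
  have e1 := ht.orient p q
  have e2 := hu.orient p q
  simp only [orient_self, orient_self', mul_zero, add_zero] at e2
  rw [e2] at e1
  have hr := hside r (hG.1.mem _ _ hrs)
  have hs := hside s (hG.1.mem _ _ hrs.symm)
  have h1 : 0 ≤ (1 - t) * orient p q r := mul_nonneg (by linarith) hr
  have h2 : 0 ≤ t * orient p q s := mul_nonneg ht0.le hs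
  have hr0 : orient p q r = 0 := by
    have : (1 - t) * orient p q r = 0 := by linarith
    rcases mul_eq_zero.1 this with h | h
    · linarith
    · exact h
  have hs0 : orient p q s = 0 := by
    have : t * orient p q s = 0 := by linarith
    rcases mul_eq_zero.1 this with h | h
    · linarith
    · exact h
  exact overlap_eq hp hq (hG.1.mem _ _ hrs) (hG.1.mem _ _ hrs.symm) hf (hG.1.free _ _ hrs) hz' hz
    hpq hr0 hs0

theorem boundary_cases {A B : ℝ} {p q : Pt} (hp : 0 ≤ p.1 ∧ p.1 ≤ A ∧ 0 ≤ p.2 ∧ p.2 ≤ B)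
    (hq : 0 ≤ q.1 ∧ q.1 ≤ A ∧ 0 ≤ q.2 ∧ q.2 ≤ B) (hpq : p ≠ q)
    (h00 : 0 ≤ orient p q (0, 0)) (hA0 : 0 ≤ orient p q (A, 0)) (h0B : 0 ≤ orient p q (0, B))
    (hAB : 0 ≤ orient p q (A, B)) :
    (p.2 = 0 ∧ q.2 = 0) ∨ (p.1 = 0 ∧ q.1 = 0) ∨ (p.1 = A ∧ q.1 = A ∧ p.2 < q.2) ∨
      (p.2 = B ∧ q.2 = B ∧ q.1 < p.1) := by
  obtain ⟨p1, p2⟩ := p
  obtain ⟨q1, q2⟩ := q
  unfold orient at h00 hA0 h0B hAB
  simp only at *
  obtain ⟨a1, a2, a3, a4⟩ := hp
  obtain ⟨b1, b2, b3, b4⟩ := hq
  rcases lt_trichotomy (q1 - p1) 0 with h | h | h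
  · rcases le_or_gt (q2 - p2) 0 with h' | h'
    · -- top
      right; right; right
      have e1 : 0 ≤ (p1 - q1) * (B - p2) := mul_nonneg (by linarith) (by linarith)
      have e2 : 0 ≤ (p2 - q2) * p1 := mul_nonneg (by linarith) a1
      have e3 : (p1 - q1) * (B - p2) = 0 := by nlinarith
      have e4 : (p2 - q2) * p1 = 0 := by nlinarith
      have f1 : B - p2 = 0 := by
        rcases mul_eq_zero.1 e3 with h1 | h1
        · linarith
        · exact h1
      have f2 : p2 - q2 = 0 := by
        rcases mul_eq_zero.1 e4 with h1 | h1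
        · exact h1
        · linarith
      exact ⟨by linarith, by linarith, by linarith⟩
    · exfalso
      have e1 : 0 ≤ (p1 - q1) * (B - p2) := mul_nonneg (by linarith) (by linarith)
      have e2 : 0 ≤ (q2 - p2) * (A - p1) := mul_nonneg (by linarith) (by linarith)
      have e3 : (p1 - q1) * (B - p2) = 0 := by nlinarith
      rcases mul_eq_zero.1 e3 with h1 | h1
      · linarith
      · linarith
  · rcases lt_trichotomy (q2 - p2) 0 with h' | h' | h'
    · right; left
      have e1 : 0 ≤ (p2 - q2) * p1 := mul_nonneg (by linarith) a1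
      have e2 : (p2 - q2) * p1 = 0 := by nlinarith
      have f : p1 = 0 := by
        rcases mul_eq_zero.1 e2 with h1 | h1
        · linarith
        · exact h1
      exact ⟨f, by linarith⟩
    · exfalso
      exact hpq (Prod.ext (by simp only; linarith) (by simp only; linarith))
    · right; right; left
      have e1 : 0 ≤ (q2 - p2) * (A - p1) := mul_nonneg (by linarith) (by linarith)
      have e2 : (q2 - p2) * (A - p1) = 0 := by nlinarith
      have f : A - p1 = 0 := by
        rcases mul_eq_zero.1 e2 with h1 | h1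
        · linarith
        · exact h1
      exact ⟨by linarith, by linarith, by linarith⟩
  · rcases le_or_gt 0 (q2 - p2) with h' | h'
    · left
      have e1 : 0 ≤ (q1 - p1) * p2 := mul_nonneg (by linarith) a3
      have e2 : 0 ≤ (q2 - p2) * (A - p1) := mul_nonneg (by linarith) (by linarith)
      have e3 : (q1 - p1) * p2 = 0 := by nlinarith
      have e4 : (q2 - p2) * (A - p1) = 0 := by nlinarith
      have f1 : p2 = 0 := by
        rcases mul_eq_zero.1 e3 with h1 | h1
        · linarith
        · exact h1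
      have f2 : q2 - p2 = 0 := by
        rcases mul_eq_zero.1 e4 with h1 | h1
        · exact h1
        · linarith
      exact ⟨f1, by linarith⟩
    · exfalso
      have e1 : 0 ≤ (q1 - p1) * p2 := mul_nonneg (by linarith) a3
      have e2 : 0 ≤ (p2 - q2) * p1 := mul_nonneg (by linarith) a1
      have e3 : (q1 - p1) * p2 = 0 := by nlinarith
      have f1 : p2 = 0 := by
        rcases mul_eq_zero.1 e3 with h1 | h1
        · linarith
        · exact h1
      linarith

theorem sum_cr {a b : ℕ} (hS : BoxSet a b S) (hG : IsTriangulation S G) :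
    ∑ e ∈ darts S G, cr e = 8 * a * b := by
  classical
  have hpl := hG.1
  have ha : (1 : ℝ) ≤ a := by exact_mod_cast hS.ha
  have hb : (1 : ℝ) ≤ b := by exact_mod_cast hS.hb
  rw [← Finset.sum_filter_add_sum_filter_not (darts S G) (fun e => e.swap ∈ darts S G)]
  have hI : ∑ e ∈ (darts S G).filter (fun e => e.swap ∈ darts S G), cr e = 0 := by
    have h1 : ∑ e ∈ (darts S G).filter (fun e => e.swap ∈ darts S G), cr e =
        ∑ e ∈ (darts S G).filter (fun e => e.swap ∈ darts S G), (- cr e) := by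
      refine Finset.sum_nbij' Prod.swap Prod.swap ?_ ?_ ?_ ?_ ?_
      · intro e he
        rw [Finset.mem_filter] at he ⊢
        exact ⟨he.2, by simpa using he.1⟩
      · intro e he
        rw [Finset.mem_filter] at he ⊢
        exact ⟨he.2, by simpa using he.1⟩
      · intro e _; simp
      · intro e _; simp
      · intro e _; unfold cr; simp only [Prod.fst_swap, Prod.snd_swap]; ring
    rw [Finset.sum_neg_distrib] at h1
    linarith
  rw [hI, zero_add]
  set Bd := (darts S G).filter (fun e => ¬ e.swap ∈ darts S G) with hBd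
  -- on a boundary dart, all of `S` is weakly to the left
  have hside : ∀ e ∈ Bd, ∀ r ∈ S, 0 ≤ orient e.1 e.2 r := by
    intro e he r hr
    rw [hBd, Finset.mem_filter] at he
    obtain ⟨c, hc, -⟩ := (mem_darts hpl).1 he.1
    by_contra hcon
    push Not at hcon
    obtain ⟨c', hc', hpos, -⟩ := apex hG hc.ab.symm hr (by rw [orient_swap']; linarith)
    exact he.2 ((mem_darts hpl).2 ⟨c', hc', hpos⟩)
  set B1 : Finset (Pt × Pt) := (Finset.range b).image
    (fun k : ℕ => ((((2 * a : ℝ)), ((2 * k : ℝ))), (((2 * a : ℝ)), ((2 * k + 2 : ℝ))))) with hB1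
  set B2 : Finset (Pt × Pt) := (Finset.range a).image
    (fun k : ℕ => (((2 * k + 2 : ℝ), (2 * b : ℝ)), ((2 * k : ℝ), (2 * b : ℝ)))) with hB2
  have corner00 : ((0 : ℝ), (0 : ℝ)) ∈ S := by simpa using (hS.memx 0 (by omega)).1
  have cornerA0 : ((2 * a : ℝ), (0 : ℝ)) ∈ S := by simpa using (hS.memx 0 (by omega)).2
  have corner0B : ((0 : ℝ), (2 * b : ℝ)) ∈ S := (hS.memx b le_rfl).1
  have cornerAB : ((2 * a : ℝ), (2 * b : ℝ)) ∈ S := (hS.memx b le_rfl).2
  have mk : ∀ p q : Pt, p ∈ S → q ∈ S → p ≠ q → (∀ r ∈ S, r ∉ openSegment ℝ p q) →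
      (∀ r ∈ S, 0 ≤ orient p q r) → (∃ r ∈ S, 0 < orient p q r) → (p, q) ∈ Bd := by
    intro p q hp hq hpq hf hs ⟨r, hr, hr'⟩
    have hadj := side_adj hG hp hq hpq hf hs
    obtain ⟨c, hc, hpos, -⟩ := apex hG hadj hr hr'
    rw [hBd, Finset.mem_filter]
    refine ⟨(mem_darts hpl).2 ⟨c, hc, hpos⟩, ?_⟩
    intro h
    obtain ⟨c', hc', hpos'⟩ := (mem_darts hpl).1 h
    simp only [Prod.swap] at hc' hpos'
    have := hs c' (hpl.mem _ _ hc'.ca)
    rw [orient_swap'] at hpos'
    linarith
  have hsub1 : B1 ⊆ Bd := by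
    intro e he
    rw [hB1, Finset.mem_image] at he
    obtain ⟨k, hk, rfl⟩ := he
    rw [Finset.mem_range] at hk
    have h2 := (hS.memx (k + 1) (by omega)).2
    have e2 : (2 * ((k + 1 : ℕ) : ℝ)) = 2 * k + 2 := by push_cast; ring
    rw [e2] at h2
    have hside' : ∀ r : Pt, orient (2 * (a : ℝ), 2 * (k : ℝ)) (2 * (a : ℝ), 2 * (k : ℝ) + 2) r =
        2 * (2 * a - r.1) := by
      intro r; unfold orient; simp only; ring
    apply mk
    · exact (hS.memx k (by omega)).2
    · exact h2
    · intro h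
      have := congrArg Prod.snd h
      simp at this
    · intro r hr hro
      obtain ⟨t, ht0, ht1, hx, hy⟩ := mem_oseg.1 hro
      simp only at hx hy
      obtain ⟨k', _, hk'⟩ := hS.bdx r hr (Or.inr (by rw [hx]; ring))
      rw [hk'] at hy
      have h1 : (k : ℝ) < k' := by linarith
      have h2 : (k' : ℝ) < k + 1 := by linarith
      have h1' : k < k' := by exact_mod_cast h1
      have h2' : k' < k + 1 := by exact_mod_cast h2
      omega
    · intro r hr
      rw [hside']
      linarith [(hS.box r hr).2.1]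
    · exact ⟨_, corner00, by rw [hside']; simp only; linarith⟩
  have hsub2 : B2 ⊆ Bd := by
    intro e he
    rw [hB2, Finset.mem_image] at he
    obtain ⟨k, hk, rfl⟩ := he
    rw [Finset.mem_range] at hk
    have h2 := (hS.memy (k + 1) (by omega)).2
    have e2 : (2 * ((k + 1 : ℕ) : ℝ)) = 2 * k + 2 := by push_cast; ring
    rw [e2] at h2
    have hside' : ∀ r : Pt, orient (2 * (k : ℝ) + 2, 2 * (b : ℝ)) (2 * (k : ℝ), 2 * (b : ℝ)) r =
        2 * (2 * b - r.2) := by
      intro r; unfold orient; simp only; ring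
    apply mk
    · exact h2
    · exact (hS.memy k (by omega)).2
    · intro h
      have := congrArg Prod.fst h
      simp at this
    · intro r hr hro
      obtain ⟨t, ht0, ht1, hx, hy⟩ := mem_oseg.1 hro
      simp only at hx hy
      obtain ⟨k', _, hk'⟩ := hS.bdy r hr (Or.inr (by rw [hy]; ring))
      rw [hk'] at hx
      have h1 : (k : ℝ) < k' := by linarith
      have h2 : (k' : ℝ) < k + 1 := by linarith
      have h1' : k < k' := by exact_mod_cast h1
      have h2' : k' < k + 1 := by exact_mod_cast h2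
      omega
    · intro r hr
      rw [hside']
      linarith [(hS.box r hr).2.2.2]
    · exact ⟨_, corner00, by rw [hside']; simp only; linarith⟩
  have hzero : ∀ e ∈ Bd, e ∉ B1 ∪ B2 → cr e = 0 := by
    intro e he hne
    have hs := hside e he
    have heD : e ∈ darts S G := (Finset.mem_filter.1 he).1
    obtain ⟨c, hc, hcpos⟩ := (mem_darts hpl).1 heD
    have h1S : e.1 ∈ S := hpl.mem _ _ hc.ab
    have h2S : e.2 ∈ S := hpl.mem _ _ hc.ab.symm
    have hfr := hpl.free _ _ hc.ab
    rcases boundary_cases (A := 2 * a) (B := 2 * b) (hS.box _ h1S) (hS.box _ h2S) hc.ab.ne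
      (hs _ corner00) (hs _ cornerA0) (hs _ corner0B) (hs _ cornerAB) with h | h | h | h
    · unfold cr; rw [h.1, h.2]; ring
    · unfold cr; rw [h.1, h.2]; ring
    · exfalso
      apply hne
      rw [Finset.mem_union]; left
      obtain ⟨k, hkb, hk⟩ := hS.bdx _ h1S (Or.inr h.1)
      obtain ⟨k', hkb', hk'⟩ := hS.bdx _ h2S (Or.inr h.2.1)
      have hlt : k < k' := by
        have := h.2.2
        rw [hk, hk'] at this
        have h3 : (k : ℝ) < k' := by linarith
        exact_mod_cast h3
      have hle : k' ≤ k + 1 := by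
        by_contra hcon
        push Not at hcon
        have hmem := (hS.memx (k + 1) (by omega)).2
        apply hfr _ hmem
        have hd : (0 : ℝ) < k' - k := by
          have : (k : ℝ) < k' := by exact_mod_cast hlt
          linarith
        have hd' : (1 : ℝ) < k' - k := by
          have : ((k + 1 : ℕ) : ℝ) < k' := by exact_mod_cast hcon
          push_cast at this
          linarith
        refine mem_oseg.2 ⟨1 / (k' - k), by positivity, ?_, ?_, ?_⟩
        · rw [div_lt_one hd]; exact hd'
        · rw [h.1, h.2.1]; ring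
        · rw [hk, hk']; push_cast; field_simp
      have hkk : k' = k + 1 := by omega
      rw [hB1, Finset.mem_image]
      refine ⟨k, by rw [Finset.mem_range]; omega, ?_⟩
      apply Prod.ext
      · apply Prod.ext
        · simp only; rw [h.1]
        · simp only; rw [hk]
      · apply Prod.ext
        · simp only; rw [h.2.1]
        · simp only; rw [hk', hkk]; push_cast; ring
    · exfalso
      apply hne
      rw [Finset.mem_union]; right
      obtain ⟨k, hkb, hk⟩ := hS.bdy _ h1S (Or.inr h.1)
      obtain ⟨k', hkb', hk'⟩ := hS.bdy _ h2S (Or.inr h.2.1)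
      have hlt : k' < k := by
        have := h.2.2
        rw [hk, hk'] at this
        have h3 : (k' : ℝ) < k := by linarith
        exact_mod_cast h3
      have hle : k ≤ k' + 1 := by
        by_contra hcon
        push Not at hcon
        have hmem := (hS.memy (k' + 1) (by omega)).2
        apply hfr _ hmem
        rw [openSegment_symm]
        have hd : (0 : ℝ) < k - k' := by
          have : (k' : ℝ) < k := by exact_mod_cast hlt
          linarith
        have hd' : (1 : ℝ) < k - k' := by
          have : ((k' + 1 : ℕ) : ℝ) < k := by exact_mod_cast hcon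
          push_cast at this
          linarith
        refine mem_oseg.2 ⟨1 / (k - k'), by positivity, ?_, ?_, ?_⟩
        · rw [div_lt_one hd]; exact hd'
        · rw [hk, hk']; push_cast; field_simp
        · rw [h.1, h.2.1]; ring
      have hkk : k = k' + 1 := by omega
      rw [hB2, Finset.mem_image]
      refine ⟨k', by rw [Finset.mem_range]; omega, ?_⟩
      apply Prod.ext
      · apply Prod.ext
        · simp only; rw [hk, hkk]; push_cast; ring
        · simp only; rw [h.1]
      · apply Prod.ext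
        · simp only; rw [hk']
        · simp only; rw [h.2.1]
  rw [← Finset.sum_subset (Finset.union_subset hsub1 hsub2) hzero]
  rw [Finset.sum_union, hB1, hB2, Finset.sum_image, Finset.sum_image]
  · have e1 : ∀ k ∈ Finset.range b, cr (((2 * a : ℝ), (2 * k : ℝ)), ((2 * a : ℝ),
        (2 * k + 2 : ℝ))) = 4 * a := by
      intro k _; unfold cr; simp only; ring
    have e2 : ∀ k ∈ Finset.range a, cr (((2 * k + 2 : ℝ), (2 * b : ℝ)), ((2 * k : ℝ),
        (2 * b : ℝ))) = 4 * b := by
      intro k _; unfold cr; simp only; ring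
    rw [Finset.sum_congr rfl e1, Finset.sum_congr rfl e2]
    simp only [Finset.sum_const, Finset.card_range, nsmul_eq_mul]
    ring
  · intro x _ y _ hxy
    have := congrArg (fun e : Pt × Pt => e.2.1) hxy
    simp only at this
    have h : (x : ℝ) = y := by linarith
    exact_mod_cast h
  · intro x _ y _ hxy
    have := congrArg (fun e : Pt × Pt => e.1.2) hxy
    simp only at this
    have h : (x : ℝ) = y := by linarith
    exact_mod_cast h
  · rw [Finset.disjoint_left]
    intro e h1 h2
    rw [hB1, Finset.mem_image] at h1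
    rw [hB2, Finset.mem_image] at h2
    obtain ⟨k, _, rfl⟩ := h1
    obtain ⟨k', _, hk'⟩ := h2
    have g1 := congrArg (fun e : Pt × Pt => e.1.1) hk'
    have g2 := congrArg (fun e : Pt × Pt => e.2.1) hk'
    simp only at g1 g2
    linarith

theorem int_lt_imp {x y : ℝ} (hx : ∃ i : ℤ, x = i) (hy : ∃ i : ℤ, y = i) (h : x < y) :
    x + 1 ≤ y := by
  obtain ⟨i, rfl⟩ := hx
  obtain ⟨j, rfl⟩ := hy
  have : i < j := by exact_mod_cast h
  have : i + 1 ≤ j := this
  exact_mod_cast this

theorem card_good1 {a b : ℕ} (hS : BoxSet a b S) :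
    (S.filter (fun v : Pt => 0 < v.1 ∧ v.2 < 2 * (b : ℝ))).card = a * b := by
  classical
  have h1 := Finset.card_filter_add_card_filter_not (s := S)
    (fun v : Pt => 0 < v.1 ∧ v.2 < 2 * (b : ℝ))
  have ha : (1 : ℝ) ≤ a := by exact_mod_cast hS.ha
  have hb : (1 : ℝ) ≤ b := by exact_mod_cast hS.hb
  have h2 : S.filter (fun v : Pt => ¬ (0 < v.1 ∧ v.2 < 2 * (b : ℝ))) =
      (Finset.range (b + 1)).image (fun k : ℕ => ((0 : ℝ), (2 * k : ℝ))) ∪
      (Finset.range a).image (fun k : ℕ => ((2 * (k + 1) : ℝ), (2 * b : ℝ))) := by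
    ext v
    rw [Finset.mem_filter, Finset.mem_union, Finset.mem_image, Finset.mem_image]
    constructor
    · rintro ⟨hv, hn⟩
      have hbx := hS.box v hv
      by_cases h0 : v.1 = 0
      · left
        obtain ⟨k, hk, hk'⟩ := hS.bdx v hv (Or.inl h0)
        exact ⟨k, by rw [Finset.mem_range]; omega, Prod.ext h0.symm hk'.symm⟩
      · right
        have hpos : 0 < v.1 := lt_of_le_of_ne hbx.1 (Ne.symm h0)
        have h2 : v.2 = 2 * b := by
          by_contra hc
          exact hn ⟨hpos, lt_of_le_of_ne hbx.2.2.2 hc⟩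
        obtain ⟨k, hk, hk'⟩ := hS.bdy v hv (Or.inr h2)
        have hk0 : k ≠ 0 := by rintro rfl; simp at hk'; exact h0 hk'
        refine ⟨k - 1, by rw [Finset.mem_range]; omega, Prod.ext ?_ h2.symm⟩
        have : ((k - 1 : ℕ) : ℝ) = k - 1 := by
          rw [Nat.cast_sub (by omega)]; simp
        simp only; rw [this, hk']; ring
    · rintro (⟨k, hk, rfl⟩ | ⟨k, hk, rfl⟩)
      · rw [Finset.mem_range] at hk
        exact ⟨(hS.memx k (by omega)).1, by simp⟩
      · rw [Finset.mem_range] at hk
        refine ⟨?_, by simp⟩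
        have := (hS.memy (k + 1) (by omega)).2
        push_cast at this
        exact this
  have h3 : (S.filter (fun v : Pt => ¬ (0 < v.1 ∧ v.2 < 2 * (b : ℝ)))).card = (b + 1) + a := by
    rw [h2, Finset.card_union_of_disjoint, Finset.card_image_of_injective,
      Finset.card_image_of_injective, Finset.card_range, Finset.card_range]
    · intro x y hxy
      have := congrArg Prod.fst hxy
      simp only at this
      have h : (x : ℝ) = y := by linarith
      exact_mod_cast h
    · intro x y hxy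
      have := congrArg Prod.snd hxy
      simp only at this
      have h : (x : ℝ) = y := by linarith
      exact_mod_cast h
    · rw [Finset.disjoint_left]
      intro e h1 h2
      rw [Finset.mem_image] at h1 h2
      obtain ⟨k, _, rfl⟩ := h1
      obtain ⟨k', _, hk'⟩ := h2
      have := congrArg Prod.fst hk'
      simp only at this
      have h4 : (0 : ℝ) ≤ k' := Nat.cast_nonneg _
      linarith
  rw [h3, hS.card] at h1
  have : (a + 1) * (b + 1) = a * b + (b + 1 + a) := by ring
  omega

theorem card_good2 {a b : ℕ} (hS : BoxSet a b S) :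
    (S.filter (fun v : Pt => v.1 < 2 * (a : ℝ) ∧ 0 < v.2)).card = a * b := by
  classical
  have h1 := Finset.card_filter_add_card_filter_not (s := S)
    (fun v : Pt => v.1 < 2 * (a : ℝ) ∧ 0 < v.2)
  have ha : (1 : ℝ) ≤ a := by exact_mod_cast hS.ha
  have hb : (1 : ℝ) ≤ b := by exact_mod_cast hS.hb
  have h2 : S.filter (fun v : Pt => ¬ (v.1 < 2 * (a : ℝ) ∧ 0 < v.2)) =
      (Finset.range (b + 1)).image (fun k : ℕ => ((2 * a : ℝ), (2 * k : ℝ))) ∪
      (Finset.range a).image (fun k : ℕ => ((2 * k : ℝ), (0 : ℝ))) := by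
    ext v
    rw [Finset.mem_filter, Finset.mem_union, Finset.mem_image, Finset.mem_image]
    constructor
    · rintro ⟨hv, hn⟩
      have hbx := hS.box v hv
      by_cases h0 : v.1 = 2 * a
      · left
        obtain ⟨k, hk, hk'⟩ := hS.bdx v hv (Or.inr h0)
        exact ⟨k, by rw [Finset.mem_range]; omega, Prod.ext h0.symm hk'.symm⟩
      · right
        have hpos : v.1 < 2 * a := lt_of_le_of_ne hbx.2.1 h0
        have h2 : v.2 = 0 := by
          by_contra hc
          exact hn ⟨hpos, lt_of_le_of_ne hbx.2.2.1 (Ne.symm hc)⟩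
        obtain ⟨k, hk, hk'⟩ := hS.bdy v hv (Or.inl h2)
        have hk0 : k ≠ a := by rintro rfl; exact h0 hk'
        exact ⟨k, by rw [Finset.mem_range]; omega, Prod.ext hk'.symm h2.symm⟩
    · rintro (⟨k, hk, rfl⟩ | ⟨k, hk, rfl⟩)
      · rw [Finset.mem_range] at hk
        exact ⟨(hS.memx k (by omega)).2, by simp⟩
      · rw [Finset.mem_range] at hk
        exact ⟨(hS.memy k (by omega)).1, by simp⟩
  have h3 : (S.filter (fun v : Pt => ¬ (v.1 < 2 * (a : ℝ) ∧ 0 < v.2))).card = (b + 1) + a := by
    rw [h2, Finset.card_union_of_disjoint, Finset.card_image_of_injective,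
      Finset.card_image_of_injective, Finset.card_range, Finset.card_range]
    · intro x y hxy
      have := congrArg Prod.fst hxy
      simp only at this
      have h : (x : ℝ) = y := by linarith
      exact_mod_cast h
    · intro x y hxy
      have := congrArg Prod.snd hxy
      simp only at this
      have h : (x : ℝ) = y := by linarith
      exact_mod_cast h
    · rw [Finset.disjoint_left]
      intro e h1 h2
      rw [Finset.mem_image] at h1 h2
      obtain ⟨k, _, rfl⟩ := h1
      obtain ⟨k', hk1, hk'⟩ := h2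
      rw [Finset.mem_range] at hk1
      have := congrArg Prod.fst hk'
      simp only at this
      have h4 : (k' : ℝ) < a := by exact_mod_cast hk1
      linarith
  rw [h3, hS.card] at h1
  have : (a + 1) * (b + 1) = a * b + (b + 1 + a) := by ring
  omega

/-- the lexicographic order, realised by a linear functional -/
theorem lex_of {a b : ℕ} (hS : BoxSet a b S) {p q : Pt} (hp : p ∈ S) (hq : q ∈ S) :
    lin (2 * b + 1) 1 p < lin (2 * b + 1) 1 q ↔ (p.1 < q.1 ∨ (p.1 = q.1 ∧ p.2 < q.2)) := by
  have h1 := hS.box p hp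
  have h2 := hS.box q hq
  have hb : (0 : ℝ) ≤ b := Nat.cast_nonneg _
  unfold lin
  constructor
  · intro h
    rcases lt_trichotomy p.1 q.1 with h3 | h3 | h3
    · exact Or.inl h3
    · right; refine ⟨h3, ?_⟩
      rw [h3] at h
      linarith
    · exfalso
      have := int_lt_imp (hS.int1 q hq) (hS.int1 p hp) h3
      nlinarith
  · rintro (h | ⟨h, h'⟩)
    · have := int_lt_imp (hS.int1 p hp) (hS.int1 q hq) h
      nlinarith
    · rw [h]; linarith

theorem lex_inj {a b : ℕ} (hS : BoxSet a b S) {p q : Pt} (hp : p ∈ S) (hq : q ∈ S)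
    (h : lin (2 * b + 1) 1 p = lin (2 * b + 1) 1 q) : p = q := by
  by_contra hne
  have h1 : ¬ (p.1 < q.1 ∨ (p.1 = q.1 ∧ p.2 < q.2)) := by
    rw [← lex_of hS hp hq]; linarith
  have h2 : ¬ (q.1 < p.1 ∨ (q.1 = p.1 ∧ q.2 < p.2)) := by
    rw [← lex_of hS hq hp]; linarith
  push Not at h1 h2
  have e1 : p.1 = q.1 := le_antisymm h2.1 h1.1
  exact hne (Prod.ext e1 (le_antisymm (h2.2 e1.symm) (h1.2 e1)))

/-- the triangle's first vertex is the middle one, type + -/
def Mid (S : Finset Pt) (G : SimpleGraph Pt) (β : ℝ) (e : Pt × Pt) : Prop :=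
  lin β 1 (third S G e.1 e.2) < lin β 1 e.1 ∧ lin β 1 e.1 < lin β 1 e.2

def Mid' (S : Finset Pt) (G : SimpleGraph Pt) (β : ℝ) (e : Pt × Pt) : Prop :=
  lin β 1 e.2 < lin β 1 e.1 ∧ lin β 1 e.1 < lin β 1 (third S G e.1 e.2)

open Classical in
theorem card_mid {a b : ℕ} (hS : BoxSet a b S) (hG : IsTriangulation S G) :
    ((darts S G).filter (Mid S G (2 * b + 1))).card = a * b := by
  rw [← card_good1 hS]
  have hpl := hG.1
  have ha : (1 : ℝ) ≤ a := by exact_mod_cast hS.ha
  have hb : (1 : ℝ) ≤ b := by exact_mod_cast hS.hb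
  have corner00 : ((0 : ℝ), (0 : ℝ)) ∈ S := by simpa using (hS.memx 0 (by omega)).1
  have cornerA0 : ((2 * a : ℝ), (0 : ℝ)) ∈ S := by simpa using (hS.memx 0 (by omega)).2
  have corner0B : ((0 : ℝ), (2 * b : ℝ)) ∈ S := (hS.memx b le_rfl).1
  have cornerAB : ((2 * a : ℝ), (2 * b : ℝ)) ∈ S := (hS.memx b le_rfl).2
  refine Finset.card_bij (fun e _ => e.1) ?_ ?_ ?_
  · intro e he
    obtain ⟨heD, hm1, hm2⟩ := Finset.mem_filter.1 he
    obtain ⟨hf, hpos⟩ := third_spec hpl heD
    have hvS : e.1 ∈ S := hpl.mem _ _ hf.ab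
    have hqS : e.2 ∈ S := hpl.mem _ _ hf.ab.symm
    have hcS : third S G e.1 e.2 ∈ S := hpl.mem _ _ hf.ca
    rw [lex_of hS hcS hvS] at hm1
    rw [lex_of hS hvS hqS] at hm2
    refine Finset.mem_filter.2 ⟨hvS, ?_, ?_⟩
    · -- v.1 > 0
      by_contra hcon
      have hv0 : e.1.1 = 0 := le_antisymm (not_lt.1 hcon) (hS.box _ hvS).1
      have hc0 := (hS.box _ hcS).1
      have hq0 := (hS.box _ hqS).1
      rcases hm1 with h | ⟨h, h'⟩
      · linarith
      · unfold orient at hpos
        rw [h, hv0] at hpos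
        have : (e.2.1 - 0) * ((third S G e.1 e.2).2 - e.1.2) ≤ 0 :=
          mul_nonpos_of_nonneg_of_nonpos (by linarith) (by linarith)
        linarith
    · by_contra hcon
      have hv0 : e.1.2 = 2 * b := le_antisymm (hS.box _ hvS).2.2.2 (not_lt.1 hcon)
      have hc0 := (hS.box _ hcS).2.2.2
      have hq0 := (hS.box _ hqS).2.2.2
      unfold orient at hpos
      have h1 : 0 ≤ e.2.1 - e.1.1 := by
        rcases hm2 with h | ⟨h, _⟩ <;> linarith
      have h2 : 0 ≤ e.1.1 - (third S G e.1 e.2).1 := by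
        rcases hm1 with h | ⟨h, _⟩ <;> linarith
      have h3 : 0 ≤ (e.2.1 - e.1.1) * (e.1.2 - (third S G e.1 e.2).2) :=
        mul_nonneg h1 (by linarith)
      have h4 : 0 ≤ (e.1.2 - e.2.2) * (e.1.1 - (third S G e.1 e.2).1) :=
        mul_nonneg (by linarith) h2
      linarith
  · intro e he e' he' h
    obtain ⟨heD, hm1, hm2⟩ := Finset.mem_filter.1 he
    obtain ⟨heD', hm1', hm2'⟩ := Finset.mem_filter.1 he'
    obtain ⟨hf, hpos⟩ := third_spec hpl heD
    obtain ⟨hf', hpos'⟩ := third_spec hpl heD'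
    have hq : e.2 = e'.2 := by
      rw [← h] at hf' hpos' hm1' hm2'
      exact mid_unique hpl _ _ hf hpos hm2 hm1 hf' hpos' hm2' hm1'
    exact Prod.ext h hq
  · intro v hv
    obtain ⟨hvS, hv1, hv2⟩ := Finset.mem_filter.1 hv
    have hvb := hS.box v hvS
    obtain ⟨q, c, hf, hpos, hq, hc⟩ := mid_exists hG (2 * b + 1) 1 hvS cornerAB
      (by
        rw [lex_of hS hvS cornerAB]
        rcases eq_or_lt_of_le hvb.2.1 with h | h
        · right; exact ⟨h, hv2⟩
        · left; exact h)
      (by
        intro q hq hlt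
        rw [lex_of hS hvS hq] at hlt
        rcases le_or_gt v.2 q.2 with h | h
        · refine ⟨_, corner0B, ?_⟩
          unfold orient
          simp only
          rcases hlt with h' | ⟨h', h''⟩
          · have e1 : 0 < (q.1 - v.1) * (2 * b - v.2) := mul_pos (by linarith) (by linarith)
            have e2 : 0 ≤ (q.2 - v.2) * v.1 := mul_nonneg (by linarith) hv1.le
            linarith
          · have e1 : 0 ≤ (q.1 - v.1) * (2 * b - v.2) := mul_nonneg (by linarith) (by linarith)
            have e2 : 0 < (q.2 - v.2) * v.1 := mul_pos (by linarith) hv1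
            linarith
        · have h' : v.1 < q.1 := by
            rcases hlt with h' | ⟨h', h''⟩
            · exact h'
            · linarith
          refine ⟨_, cornerAB, ?_⟩
          unfold orient
          simp only
          have e1 : 0 < (q.1 - v.1) * (2 * b - v.2) := mul_pos (by linarith) (by linarith)
          have e2 : 0 ≤ (v.2 - q.2) * (2 * a - v.1) := mul_nonneg (by linarith) (by linarith)
          linarith)
      (by intro p hp h; exact lex_inj hS hp hvS h)
    have hD : (v, q) ∈ darts S G := (mem_darts hpl).2 ⟨c, hf, hpos⟩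
    refine ⟨(v, q), Finset.mem_filter.2 ⟨hD, ?_⟩, rfl⟩
    unfold Mid
    simp only
    rw [third_eq hpl hf hpos]
    exact ⟨hc, hq⟩

open Classical in
theorem card_mid' {a b : ℕ} (hS : BoxSet a b S) (hG : IsTriangulation S G) :
    ((darts S G).filter (Mid' S G (2 * b + 1))).card = a * b := by
  rw [← card_good2 hS]
  have hpl := hG.1
  have ha : (1 : ℝ) ≤ a := by exact_mod_cast hS.ha
  have hb : (1 : ℝ) ≤ b := by exact_mod_cast hS.hb
  have corner00 : ((0 : ℝ), (0 : ℝ)) ∈ S := by simpa using (hS.memx 0 (by omega)).1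
  have cornerA0 : ((2 * a : ℝ), (0 : ℝ)) ∈ S := by simpa using (hS.memx 0 (by omega)).2
  have hneg : ∀ p : Pt, lin (-(2 * (b : ℝ) + 1)) (-1) p = - lin (2 * b + 1) 1 p := by
    intro p; unfold lin; ring
  refine Finset.card_bij (fun e _ => e.1) ?_ ?_ ?_
  · intro e he
    obtain ⟨heD, hm1, hm2⟩ := Finset.mem_filter.1 he
    obtain ⟨hf, hpos⟩ := third_spec hpl heD
    have hvS : e.1 ∈ S := hpl.mem _ _ hf.ab
    have hqS : e.2 ∈ S := hpl.mem _ _ hf.ab.symm
    have hcS : third S G e.1 e.2 ∈ S := hpl.mem _ _ hf.ca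
    rw [lex_of hS hqS hvS] at hm1
    rw [lex_of hS hvS hcS] at hm2
    refine Finset.mem_filter.2 ⟨hvS, ?_, ?_⟩
    · by_contra hcon
      have hv0 : e.1.1 = 2 * a := le_antisymm (hS.box _ hvS).2.1 (not_lt.1 hcon)
      have hc0 := (hS.box _ hcS).2.1
      have hq0 := (hS.box _ hqS).2.1
      rcases hm2 with h | ⟨h, h'⟩
      · linarith
      · unfold orient at hpos
        rw [← h, hv0] at hpos
        have : (e.2.1 - 2 * a) * ((third S G e.1 e.2).2 - e.1.2) ≤ 0 :=
          mul_nonpos_of_nonpos_of_nonneg (by linarith) (by linarith)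
        linarith
    · by_contra hcon
      have hv0 : e.1.2 = 0 := le_antisymm (not_lt.1 hcon) (hS.box _ hvS).2.2.1
      have hc0 := (hS.box _ hcS).2.2.1
      have hq0 := (hS.box _ hqS).2.2.1
      unfold orient at hpos
      have h1 : 0 ≤ e.1.1 - e.2.1 := by
        rcases hm1 with h | ⟨h, _⟩ <;> linarith
      have h2 : 0 ≤ (third S G e.1 e.2).1 - e.1.1 := by
        rcases hm2 with h | ⟨h, _⟩ <;> linarith
      have h3 : 0 ≤ (e.1.1 - e.2.1) * ((third S G e.1 e.2).2 - e.1.2) :=
        mul_nonneg h1 (by linarith)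
      have h4 : 0 ≤ (e.2.2 - e.1.2) * ((third S G e.1 e.2).1 - e.1.1) :=
        mul_nonneg (by linarith) h2
      linarith
  · intro e he e' he' h
    obtain ⟨heD, hm1, hm2⟩ := Finset.mem_filter.1 he
    obtain ⟨heD', hm1', hm2'⟩ := Finset.mem_filter.1 he'
    obtain ⟨hf, hpos⟩ := third_spec hpl heD
    obtain ⟨hf', hpos'⟩ := third_spec hpl heD'
    have hq : e.2 = e'.2 := by
      rw [← h] at hf' hpos' hm1' hm2'
      exact mid_unique hpl (-(2 * (b : ℝ) + 1)) (-1) hf hpos (by rw [hneg, hneg]; linarith)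
        (by rw [hneg, hneg]; linarith) hf' hpos' (by rw [hneg, hneg]; linarith)
        (by rw [hneg, hneg]; linarith)
    exact Prod.ext h hq
  · intro v hv
    obtain ⟨hvS, hv1, hv2⟩ := Finset.mem_filter.1 hv
    have hvb := hS.box v hvS
    obtain ⟨q, c, hf, hpos, hq, hc⟩ := mid_exists hG (-(2 * (b : ℝ) + 1)) (-1) hvS corner00
      (by
        have : lin (2 * b + 1) 1 ((0 : ℝ), (0 : ℝ)) < lin (2 * b + 1) 1 v := by
          rw [lex_of hS corner00 hvS]
          rcases eq_or_lt_of_le hvb.1 with h | h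
          · right; exact ⟨h, hv2⟩
          · left; exact h
        rw [hneg, hneg]; linarith)
      (by
        intro q hq hlt
        have hlt : lin (2 * b + 1) 1 q < lin (2 * b + 1) 1 v := by
          rw [hneg, hneg] at hlt; linarith
        rw [lex_of hS hq hvS] at hlt
        rcases le_or_gt q.2 v.2 with h | h
        · refine ⟨_, cornerA0, ?_⟩
          unfold orient
          simp only
          rcases hlt with h' | ⟨h', h''⟩
          · have e1 : 0 < (v.1 - q.1) * v.2 := mul_pos (by linarith) hv2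
            have e2 : 0 ≤ (v.2 - q.2) * (2 * a - v.1) := mul_nonneg (by linarith) (by linarith)
            linarith
          · have e1 : 0 ≤ (v.1 - q.1) * v.2 := mul_nonneg (by linarith) hv2.le
            have e2 : 0 < (v.2 - q.2) * (2 * a - v.1) := mul_pos (by linarith) (by linarith)
            linarith
        · have h' : q.1 < v.1 := by
            rcases hlt with h' | ⟨h', h''⟩
            · exact h'
            · linarith
          refine ⟨_, corner00, ?_⟩
          unfold orient
          simp only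
          have e1 : 0 < (v.1 - q.1) * v.2 := mul_pos (by linarith) hv2
          have e2 : 0 ≤ (q.2 - v.2) * v.1 := mul_nonneg (by linarith) hvb.1
          linarith)
      (by
        intro p hp h
        rw [hneg, hneg] at h
        exact lex_inj hS hp hvS (by linarith))
    have hD : (v, q) ∈ darts S G := (mem_darts hpl).2 ⟨c, hf, hpos⟩
    refine ⟨(v, q), Finset.mem_filter.2 ⟨hD, ?_⟩, rfl⟩
    unfold Mid'
    simp only
    rw [third_eq hpl hf hpos]
    rw [hneg, hneg] at hq hc
    exact ⟨by linarith, by linarith⟩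

theorem card_darts {a b : ℕ} (hS : BoxSet a b S) (hG : IsTriangulation S G) :
    ((darts S G).card : ℝ) = 6 * a * b := by
  classical
  have hpl := hG.1
  set β : ℝ := 2 * b + 1 with hβ
  set m : Pt × Pt → ℝ := fun e => if Mid S G β e ∨ Mid' S G β e then 1 else 0 with hm
  have h1 : ∀ e ∈ darts S G, m e + m (nxt S G e) + m (nxt S G (nxt S G e)) = 1 := by
    intro e he
    obtain ⟨hf, hpos⟩ := third_spec hpl he
    have hvS : e.1 ∈ S := hpl.mem _ _ hf.ab
    have hqS : e.2 ∈ S := hpl.mem _ _ hf.ab.symm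
    have hcS : third S G e.1 e.2 ∈ S := hpl.mem _ _ hf.ca
    have t1 := third_eq hpl hf.rot (by rw [orient_cyc]; exact hpos)
    have t2 := third_eq hpl hf.rot.rot (by rw [orient_cyc, orient_cyc]; exact hpos)
    have n1 : lin β 1 e.1 ≠ lin β 1 e.2 := fun h => hf.ab.ne (lex_inj hS hvS hqS h)
    have n2 : lin β 1 e.2 ≠ lin β 1 (third S G e.1 e.2) := fun h => hf.bc.ne (lex_inj hS hqS hcS h)
    have n3 : lin β 1 (third S G e.1 e.2) ≠ lin β 1 e.1 := fun h => hf.ca.ne (lex_inj hS hcS hvS h)
    rw [nxt2 hpl he, hm]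
    simp only [Mid, Mid', nxt, t1, t2]
    rcases lt_or_gt_of_ne n1 with h1 | h1 <;> rcases lt_or_gt_of_ne n2 with h2 | h2 <;>
      rcases lt_or_gt_of_ne n3 with h3 | h3
    all_goals first
      | (exfalso; linarith)
      | (simp [h1, h2, h3, h1.not_gt, h2.not_gt, h3.not_gt])
  have h2 : ∑ e ∈ darts S G, (m e + m (nxt S G e) + m (nxt S G (nxt S G e))) =
      (darts S G).card := by
    rw [Finset.sum_congr rfl h1]; simp
  rw [sum_three hpl m] at h2
  have h3 : ∑ e ∈ darts S G, m e = (((darts S G).filter (fun e => Mid S G β e ∨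
      Mid' S G β e)).card : ℝ) := by
    rw [hm, Finset.sum_boole]
  rw [Finset.filter_or, Finset.card_union_of_disjoint, card_mid hS hG, card_mid' hS hG] at h3
  · rw [← h2, h3]; push_cast; ring
  · rw [Finset.disjoint_left]
    intro e h4 h5
    have h4 := (Finset.mem_filter.1 h4).2
    have h5 := (Finset.mem_filter.1 h5).2
    exact absurd (h4.2.trans h5.1) (lt_irrefl _)

theorem IsFace.swap {a b c : Pt} (h : IsFace S G a b c) : IsFace S G b a c := by
  refine ⟨h.ab.symm, h.ca.symm, h.bc.symm, ?_, ?_⟩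
  · rw [orient_swap']; exact neg_ne_zero.2 h.ne
  · intro p hp hph
    have e : ({b, a, c} : Set Pt) = {a, b, c} := by
      ext x; simp only [Set.mem_insert_iff, Set.mem_singleton_iff]; tauto
    rw [e] at hph
    have := h.empty p hp hph
    tauto

/-- In a triangulation of a box set, if all triangles have doubled area at least 4, or all have
doubled area at most 4, then all have doubled area exactly 4. -/
theorem tight {a b : ℕ} (hS : BoxSet a b S) (hG : IsTriangulation S G)
    (h : (∀ x y z, IsFace S G x y z → 4 ≤ |orient x y z|) ∨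
      (∀ x y z, IsFace S G x y z → |orient x y z| ≤ 4)) :
    ∀ x y z, IsFace S G x y z → |orient x y z| = 4 := by
  have hpl := hG.1
  have hsum : ∑ e ∈ darts S G, (orient e.1 e.2 (third S G e.1 e.2) - 4) = 0 := by
    rw [Finset.sum_sub_distrib, sum_orient hpl, sum_cr hS hG]
    simp only [Finset.sum_const, nsmul_eq_mul]
    rw [card_darts hS hG]; ring
  have hall : ∀ e ∈ darts S G, orient e.1 e.2 (third S G e.1 e.2) - 4 = 0 := by
    rcases h with h | h
    · apply (Finset.sum_eq_zero_iff_of_nonneg ?_).1 hsum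
      intro e he
      obtain ⟨hf, hpos⟩ := third_spec hpl he
      have := h _ _ _ hf
      rw [abs_of_pos hpos] at this
      linarith
    · have hsum' : ∑ e ∈ darts S G, (-(orient e.1 e.2 (third S G e.1 e.2) - 4)) = 0 := by
        rw [Finset.sum_neg_distrib, hsum, neg_zero]
      have := (Finset.sum_eq_zero_iff_of_nonneg ?_).1 hsum'
      · intro e he; have := this e he; linarith
      · intro e he
        obtain ⟨hf, hpos⟩ := third_spec hpl he
        have := h _ _ _ hf
        rw [abs_of_pos hpos] at this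
        linarith
  have key : ∀ x y z, IsFace S G x y z → 0 < orient x y z → orient x y z = 4 := by
    intro x y z hf hpos
    have := hall (x, y) ((mem_darts hpl).2 ⟨z, hf, hpos⟩)
    simp only at this
    rw [third_eq hpl hf hpos] at this
    linarith
  intro x y z hf
  rcases lt_or_gt_of_ne hf.ne with h1 | h1
  · have := key y x z hf.swap (by rw [orient_swap']; linarith)
    rw [orient_swap'] at this
    rw [abs_of_neg h1]; exact this
  · rw [abs_of_pos h1]; exact key x y z hf h1

end Pool.Agent.AreaTri
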