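import Pool.Agent.AreaTri.PolyMap
import Pool.Agent.PolyTime.Decode

/-!
NP-hardness of max-min area and of min-max area triangulation.
-/

namespace Pool.Agent.AreaTri

open FP

theorem reduces_maxMin {L : Set (List Bool)} (hL : L ∈ NPC.NP) : NPC.Reduces L MaxMinArea := by
  obtain ⟨f, hf, h⟩ := np_threeSat hL
  refine FP.reduces (fun x => enc (areaMap (f x))) (FP.Poly.encode (poly_areaMap.comp hf)) ?_
  intro x
  rw [h, areaMap_maxMin]

theorem reduces_minMax {L : Set (List Bool)} (hL : L ∈ NPC.NP) : NPC.Reduces L MinMaxArea := by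
  obtain ⟨f, hf, h⟩ := np_threeSat hL
  refine FP.reduces (fun x => enc (areaMap (f x))) (FP.Poly.encode (poly_areaMap.comp hf)) ?_
  intro x
  rw [h, areaMap_minMax]

end Pool.Agent.AreaTri
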