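import Mathlib

/-!
Macro layouts for the reduction from 3SAT to equal-area triangulation (problem MP_f9630a_lc).
A layout consists of four finite sets of positions in the integer plane.
-/

namespace Pool.Agent.AreaTri

/-- Red nodes `R`, and three kinds of blue nodes: `H` (served along their row), `V` (served along
their column), `T` (served along their column, or from the right along their row). -/
structure Layout where
  R : Finset (ℤ × ℤ)
  H : Finset (ℤ × ℤ)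
  V : Finset (ℤ × ℤ)
  T : Finset (ℤ × ℤ)

namespace Layout

def nodes (L : Layout) : Finset (ℤ × ℤ) := L.R ∪ L.H ∪ L.V ∪ L.T

/-- Well-formed layouts, with size parameter `M`. -/
structure WF (L : Layout) (M : ℤ) : Prop where
  one_le : 1 ≤ M
  bd : ∀ p ∈ L.nodes, M ≤ p.1 ∧ p.1 ≤ 2 * M ∧ M ≤ p.2 ∧ p.2 ≤ 2 * M
  dRH : Disjoint L.R L.H
  dRV : Disjoint L.R L.V
  dRT : Disjoint L.R L.T
  dHV : Disjoint L.H L.V
  dHT : Disjoint L.H L.T
  dVT : Disjoint L.V L.T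
  /-- a `V` node has a private row -/
  rowV : ∀ v ∈ L.V, ∀ p ∈ L.nodes, p.2 = v.2 → p = v
  /-- an `H` node has a private column -/
  colH : ∀ h ∈ L.H, ∀ p ∈ L.nodes, p.1 = h.1 → p = h
  /-- a `T` node shares its row and its column only with red nodes -/
  rowT : ∀ t ∈ L.T, ∀ p ∈ L.nodes, p.2 = t.2 → p = t ∨ p ∈ L.R
  colT : ∀ t ∈ L.T, ∀ p ∈ L.nodes, p.1 = t.1 → p = t ∨ p ∈ L.R
  card : L.R.card = L.H.card + L.V.card + L.T.card

/-- What soundness extracts from a tight triangulation: each red node `r` serves one blue node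
`srv r` on its row or column, with capacity bounds, and two straight slivers do not cross. -/
structure Service (L : Layout) (srv : ℤ × ℤ → ℤ × ℤ) : Prop where
  mem : ∀ r ∈ L.R,
    (srv r ∈ L.H ∧ (srv r).2 = r.2) ∨ (srv r ∈ L.V ∧ (srv r).1 = r.1) ∨
      (srv r ∈ L.T ∧ ((srv r).1 = r.1 ∨ (srv r).2 = r.2))
  capT : ∀ r ∈ L.R, ∀ r' ∈ L.R, srv r ∈ L.T → srv r = srv r' → r = r'
  capH : ∀ y : ℤ, (L.R.filter (fun r => srv r ∈ L.H ∧ r.2 = y)).card ≤
    (L.H.filter (fun h => h.2 = y)).card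
  capV : ∀ x : ℤ, (L.R.filter (fun r => srv r ∈ L.V ∧ r.1 = x)).card ≤
    (L.V.filter (fun v => v.1 = x)).card
  /-- `r` serves `h = srv r`, the only `H` node of its row; `r'` serves `v = srv r'`, the only
  `V` node of its column; then the two slivers do not cross properly. -/
  cross : ∀ r ∈ L.R, ∀ r' ∈ L.R, srv r ∈ L.H → srv r' ∈ L.V →
    (∀ h ∈ L.H, h.2 = (srv r).2 → h = srv r) →
    (∀ v ∈ L.V, v.1 = (srv r').1 → v = srv r') →
    ¬ (((srv r).1 < (srv r').1 ∧ (srv r').1 < r.1 ∨ r.1 < (srv r').1 ∧ (srv r').1 < (srv r).1) ∧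
       ((srv r').2 < (srv r).2 ∧ (srv r).2 < r'.2 ∨ r'.2 < (srv r).2 ∧ (srv r).2 < (srv r').2))

/-- red node `r` serves `srv r` along the row -/
def IsRow (L : Layout) (srv : ℤ × ℤ → ℤ × ℤ) (r : ℤ × ℤ) : Prop :=
  (srv r).2 = r.2 ∧ (srv r ∈ L.H ∨ (srv r ∈ L.T ∧ (srv r).1 < r.1))

/-- red node `r` serves `srv r` along the column -/
def IsCol (L : Layout) (srv : ℤ × ℤ → ℤ × ℤ) (r : ℤ × ℤ) : Prop :=
  (srv r).1 = r.1 ∧ (srv r ∈ L.V ∨ srv r ∈ L.T)

/-- What completeness needs. A pair `(r, b)`, `b = srv r`, occupies the interval between `b` and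
`2 r - b` on its line. -/
structure Matching (L : Layout) (srv : ℤ × ℤ → ℤ × ℤ) : Prop where
  inj : ∀ r ∈ L.R, ∀ r' ∈ L.R, srv r = srv r' → r = r'
  kind : ∀ r ∈ L.R, L.IsRow srv r ∨ L.IsCol srv r
  noncross : ∀ r ∈ L.R, ∀ r' ∈ L.R, L.IsRow srv r → L.IsCol srv r' →
    ¬ (min (srv r).1 (2 * r.1 - (srv r).1) ≤ (srv r').1 ∧
       (srv r').1 ≤ max (srv r).1 (2 * r.1 - (srv r).1) ∧
       min (srv r').2 (2 * r'.2 - (srv r').2) ≤ (srv r).2 ∧
       (srv r).2 ≤ max (srv r').2 (2 * r'.2 - (srv r').2))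
  rowOrder : ∀ r ∈ L.R, ∀ r' ∈ L.R, L.IsRow srv r → L.IsRow srv r' → (srv r).2 = (srv r').2 →
    (srv r).1 < (srv r').1 → 2 * r.1 - (srv r).1 ≤ 2 * r'.1 - (srv r').1
  colOrder : ∀ r ∈ L.R, ∀ r' ∈ L.R, L.IsCol srv r → L.IsCol srv r' → (srv r).1 = (srv r').1 →
    (srv r).2 < (srv r').2 → 2 * r.2 - (srv r).2 ≤ 2 * r'.2 - (srv r').2

end Layout

end Pool.Agent.AreaTri
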