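import Pool.Agent.AreaTri.Star
import Pool.Agent.AreaTri.Arith
import Pool.Agent.AreaTri.LayoutDef

/-!
The point set of a layout.
-/

namespace Pool.Agent.AreaTri

/-- the four kinds of nodes -/
inductive Kind | R | H | V | T
  deriving DecidableEq, Fintype

def Layout.get (L : Layout) : Kind → Finset (ℤ × ℤ)
  | .R => L.R
  | .H => L.H
  | .V => L.V
  | .T => L.T

/-- offsets of the extra points of a node -/
def zoff : Kind → Finset (ℤ × ℤ)
  | .R => {(1, 1)}
  | .H => {(10, -1)}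
  | .V => {(-1, 10)}
  | .T => {(-4, -1), (-5, 1), (-1, 4)}

/-- offsets of the missing even points of a node -/
def woff : Kind → Finset (ℤ × ℤ)
  | .R => ∅
  | .H => {(8, 0), (12, 0)}
  | .V => {(0, 8), (0, 12)}
  | .T => {(0, 0), (-4, 0), (-8, 0), (0, 4)}

def cP (M : ℤ) : ℤ := 1000 * M

def cN (M : ℤ) : ℤ := 1000 * M * cP M

/-- base point of a node -/
def base (M : ℤ) (n : ℤ × ℤ) : ℤ × ℤ := (2 * (cN M * cP M) * (n.1 + 1), 2 * cN M * (n.2 + 1))

/-- the extra points -/
def zset (L : Layout) (M : ℤ) : Finset (ℤ × ℤ) :=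
  Finset.univ.biUnion (fun k => (L.get k ×ˢ zoff k).image (fun x => base M x.1 + x.2))

/-- the missing even points -/
def wset (L : Layout) (M : ℤ) : Finset (ℤ × ℤ) :=
  Finset.univ.biUnion (fun k => (L.get k ×ˢ woff k).image (fun x => base M x.1 + x.2))

/-- even points of the box `[0,2a] × [0,2b]` -/
def evenBox (a b : ℕ) : Finset (ℤ × ℤ) :=
  (Finset.range (a + 1) ×ˢ Finset.range (b + 1)).image (fun x => (2 * (x.1 : ℤ), 2 * (x.2 : ℤ)))

def boxA (M : ℤ) : ℕ := (cN M * cP M * (3 * M + 3)).toNat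

def boxB (M : ℤ) : ℕ := (cN M * (3 * M + 3)).toNat

/-- the point set of a layout -/
def pts (L : Layout) (M : ℤ) : Finset (ℤ × ℤ) :=
  (evenBox (boxA M) (boxB M) \ wset L M) ∪ zset L M

/-- the point set of a layout, as points of the plane -/
noncomputable def inst (L : Layout) (M : ℤ) : Finset Pt := (pts L M).image ι

theorem mem_zset {L : Layout} {M : ℤ} {z : ℤ × ℤ} :
    z ∈ zset L M ↔ ∃ k, ∃ n ∈ L.get k, ∃ o ∈ zoff k, z = base M n + o := by
  unfold zset
  rw [Finset.mem_biUnion]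
  constructor
  · rintro ⟨k, -, h⟩
    obtain ⟨x, hx, rfl⟩ := Finset.mem_image.1 h
    have := Finset.mem_product.1 hx
    exact ⟨k, x.1, this.1, x.2, this.2, rfl⟩
  · rintro ⟨k, n, hn, o, ho, rfl⟩
    exact ⟨k, Finset.mem_univ _, Finset.mem_image.2 ⟨(n, o), Finset.mem_product.2 ⟨hn, ho⟩, rfl⟩⟩

theorem mem_wset {L : Layout} {M : ℤ} {z : ℤ × ℤ} :
    z ∈ wset L M ↔ ∃ k, ∃ n ∈ L.get k, ∃ o ∈ woff k, z = base M n + o := by
  unfold wset
  rw [Finset.mem_biUnion]
  constructor
  · rintro ⟨k, -, h⟩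
    obtain ⟨x, hx, rfl⟩ := Finset.mem_image.1 h
    have := Finset.mem_product.1 hx
    exact ⟨k, x.1, this.1, x.2, this.2, rfl⟩
  · rintro ⟨k, n, hn, o, ho, rfl⟩
    exact ⟨k, Finset.mem_univ _, Finset.mem_image.2 ⟨(n, o), Finset.mem_product.2 ⟨hn, ho⟩, rfl⟩⟩

theorem mem_evenBox {a b : ℕ} {p : ℤ × ℤ} :
    p ∈ evenBox a b ↔ ∃ x y : ℤ, 0 ≤ x ∧ x ≤ a ∧ 0 ≤ y ∧ y ≤ b ∧ p = (2 * x, 2 * y) := by
  unfold evenBox
  simp only [Finset.mem_image, Finset.mem_product, Finset.mem_range, Prod.exists]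
  constructor
  · rintro ⟨x, y, ⟨h1, h2⟩, h3⟩
    exact ⟨x, y, by omega, by omega, by omega, by omega, h3.symm⟩
  · rintro ⟨x, y, h1, h2, h3, h4, h5⟩
    refine ⟨x.toNat, y.toNat, ⟨by omega, by omega⟩, ?_⟩
    rw [h5, Int.toNat_of_nonneg h1, Int.toNat_of_nonneg h3]

theorem card_evenBox (a b : ℕ) : (evenBox a b).card = (a + 1) * (b + 1) := by
  unfold evenBox
  rw [Finset.card_image_of_injective, Finset.card_product, Finset.card_range, Finset.card_range]
  intro x y h
  have h1 := congrArg Prod.fst h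
  have h2 := congrArg Prod.snd h
  simp only at h1 h2
  exact Prod.ext (by omega) (by omega)

theorem get_sub {L : Layout} {k : Kind} {n : ℤ × ℤ} (h : n ∈ L.get k) : n ∈ L.nodes := by
  unfold Layout.nodes
  simp only [Finset.mem_union]
  cases k <;> simp only [Layout.get] at h <;> tauto

theorem kind_unique {L : Layout} {M : ℤ} (hL : L.WF M) {k k' : Kind} {n : ℤ × ℤ}
    (h : n ∈ L.get k) (h' : n ∈ L.get k') : k = k' := by
  have d1 := hL.dRH
  have d2 := hL.dRV
  have d3 := hL.dRT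
  have d4 := hL.dHV
  have d5 := hL.dHT
  have d6 := hL.dVT
  rw [Finset.disjoint_left] at d1 d2 d3 d4 d5 d6
  cases k <;> cases k' <;> simp only [Layout.get] at h h' <;> first
    | rfl
    | exact (d1 h h').elim
    | exact (d1 h' h).elim
    | exact (d2 h h').elim
    | exact (d2 h' h).elim
    | exact (d3 h h').elim
    | exact (d3 h' h).elim
    | exact (d4 h h').elim
    | exact (d4 h' h).elim
    | exact (d5 h h').elim
    | exact (d5 h' h).elim
    | exact (d6 h h').elim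
    | exact (d6 h' h).elim

theorem zoff_bd : ∀ k, ∀ o ∈ zoff k, |o.1| ≤ 12 ∧ |o.2| ≤ 12 := by decide

theorem woff_bd : ∀ k, ∀ o ∈ woff k, |o.1| ≤ 12 ∧ |o.2| ≤ 12 := by decide

theorem woff_even : ∀ k, ∀ o ∈ woff k, o.1 % 2 = 0 ∧ o.2 % 2 = 0 := by decide

theorem zoff_odd : ∀ k, ∀ o ∈ zoff k, o.1 % 2 = 1 ∨ o.2 % 2 = 1 := by decide

theorem cP_ge {M : ℤ} (hM : 1 ≤ M) : 1000 ≤ cP M := by unfold cP; linarith

theorem cN_ge {M : ℤ} (hM : 1 ≤ M) : 1000000 ≤ cN M := by
  have := cP_ge hM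
  unfold cN; nlinarith

theorem cNP_ge {M : ℤ} (hM : 1 ≤ M) : cN M ≤ cN M * cP M := by
  have := cP_ge hM
  have := cN_ge hM
  nlinarith

theorem cN_dvd {M : ℤ} : ∃ t, cN M = 4 * t := by
  refine ⟨250 * M * cP M, ?_⟩
  unfold cN; ring

/-- nodes and small offsets can be read off -/
theorem decode {M : ℤ} (hM : 1 ≤ M) {n n' o o' : ℤ × ℤ} (h1 : |o.1| ≤ 100 ∧ |o.2| ≤ 100)
    (h2 : |o'.1| ≤ 100 ∧ |o'.2| ≤ 100) (h : base M n + o = base M n' + o') : n = n' ∧ o = o' := by
  have e1 := congrArg Prod.fst h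
  have e2 := congrArg Prod.snd h
  simp only [base, Prod.fst_add, Prod.snd_add] at e1 e2
  have hN := cN_ge hM
  have hNP := cNP_ge hM
  have f1 : n.1 - n'.1 = 0 := by
    apply big_zero (N := 2 * (cN M * cP M)) (g := o'.1 - o.1)
    · linarith
    · have := abs_sub o'.1 o.1
      linarith [h1.1, h2.1]
  have f2 : n.2 - n'.2 = 0 := by
    apply big_zero (N := 2 * cN M) (g := o'.2 - o.2)
    · linarith
    · have := abs_sub o'.2 o.2
      linarith [h1.2, h2.2]
  have g1 : n.1 = n'.1 := by linarith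
  have g2 : n.2 = n'.2 := by linarith
  refine ⟨Prod.ext g1 g2, Prod.ext ?_ ?_⟩
  · rw [g1] at e1; linarith
  · rw [g2] at e2; linarith

/-- strictly inside the box -/
def inBox (M : ℤ) (p : ℤ × ℤ) : Prop :=
  0 < p.1 ∧ p.1 < 2 * (boxA M : ℤ) ∧ 0 < p.2 ∧ p.2 < 2 * (boxB M : ℤ)

theorem boxA_eq {M : ℤ} (hM : 1 ≤ M) : (boxA M : ℤ) = cN M * cP M * (3 * M + 3) := by
  unfold boxA
  rw [Int.toNat_of_nonneg]
  have := cN_ge hM
  have := cNP_ge hM
  nlinarith

theorem boxB_eq {M : ℤ} (hM : 1 ≤ M) : (boxB M : ℤ) = cN M * (3 * M + 3) := by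
  unfold boxB
  rw [Int.toNat_of_nonneg]
  have := cN_ge hM
  nlinarith

theorem inBox_of {L : Layout} {M : ℤ} (hL : L.WF M) {k : Kind} {n o : ℤ × ℤ} (hn : n ∈ L.get k)
    (ho : |o.1| ≤ 100 ∧ |o.2| ≤ 100) : inBox M (base M n + o) := by
  have hM := hL.one_le
  have hN := cN_ge hM
  have hNP := cNP_ge hM
  obtain ⟨b1, b2, b3, b4⟩ := hL.bd n (get_sub hn)
  unfold inBox
  rw [boxA_eq hM, boxB_eq hM]
  simp only [base, Prod.fst_add, Prod.snd_add]
  obtain ⟨h1, h2⟩ := ho
  rw [abs_le] at h1 h2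
  have k1 : cN M * cP M * (M + 1) ≤ cN M * cP M * (n.1 + 1) :=
    mul_le_mul_of_nonneg_left (by linarith) (by linarith)
  have k2 : cN M * cP M * (n.1 + 1) ≤ cN M * cP M * (2 * M + 1) :=
    mul_le_mul_of_nonneg_left (by linarith) (by linarith)
  have k3 : cN M * (M + 1) ≤ cN M * (n.2 + 1) :=
    mul_le_mul_of_nonneg_left (by linarith) (by linarith)
  have k4 : cN M * (n.2 + 1) ≤ cN M * (2 * M + 1) :=
    mul_le_mul_of_nonneg_left (by linarith) (by linarith)
  have k5 : cN M * cP M * 1 ≤ cN M * cP M * M :=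
    mul_le_mul_of_nonneg_left hM (by linarith)
  have k6 : cN M * 1 ≤ cN M * M :=
    mul_le_mul_of_nonneg_left hM (by linarith)
  refine ⟨?_, ?_, ?_, ?_⟩ <;> linarith

theorem zset_inBox {L : Layout} {M : ℤ} (hL : L.WF M) {z : ℤ × ℤ} (hz : z ∈ zset L M) :
    inBox M z := by
  rw [mem_zset] at hz
  obtain ⟨k, n, hn, o, ho, rfl⟩ := hz
  have := zoff_bd k o ho
  exact inBox_of hL hn ⟨by linarith [this.1], by linarith [this.2]⟩

theorem wset_inBox {L : Layout} {M : ℤ} (hL : L.WF M) {z : ℤ × ℤ} (hz : z ∈ wset L M) :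
    inBox M z := by
  rw [mem_wset] at hz
  obtain ⟨k, n, hn, o, ho, rfl⟩ := hz
  have := woff_bd k o ho
  exact inBox_of hL hn ⟨by linarith [this.1], by linarith [this.2]⟩

theorem zset_odd {L : Layout} {M : ℤ} {z : ℤ × ℤ} (hz : z ∈ zset L M) :
    z.1 % 2 = 1 ∨ z.2 % 2 = 1 := by
  rw [mem_zset] at hz
  obtain ⟨k, n, hn, o, ho, rfl⟩ := hz
  have := zoff_odd k o ho
  simp only [base, Prod.fst_add, Prod.snd_add]
  rw [mul_assoc 2, mul_assoc 2]
  rcases this with h | h
  · left; omega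
  · right; omega

theorem wset_even {L : Layout} {M : ℤ} {z : ℤ × ℤ} (hz : z ∈ wset L M) :
    z.1 % 2 = 0 ∧ z.2 % 2 = 0 := by
  rw [mem_wset] at hz
  obtain ⟨k, n, hn, o, ho, rfl⟩ := hz
  have := woff_even k o ho
  simp only [base, Prod.fst_add, Prod.snd_add]
  rw [mul_assoc 2, mul_assoc 2]
  omega

theorem wset_sub {L : Layout} {M : ℤ} (hL : L.WF M) : wset L M ⊆ evenBox (boxA M) (boxB M) := by
  intro z hz
  obtain ⟨h1, h2⟩ := wset_even hz
  obtain ⟨h3, h4, h5, h6⟩ := wset_inBox hL hz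
  rw [mem_evenBox]
  exact ⟨z.1 / 2, z.2 / 2, by omega, by omega, by omega, by omega, Prod.ext (by simp only; omega)
    (by simp only; omega)⟩

theorem card_off {L : Layout} {M : ℤ} (hM : 1 ≤ M)
    (hd : ∀ k k' n, n ∈ L.get k → n ∈ L.get k' → k = k') (off : Kind → Finset (ℤ × ℤ))
    (hb : ∀ k, ∀ o ∈ off k, |o.1| ≤ 12 ∧ |o.2| ≤ 12) :
    (Finset.univ.biUnion (fun k => (L.get k ×ˢ off k).image (fun x => base M x.1 + x.2))).card =
      ∑ k, (L.get k).card * (off k).card := by
  rw [Finset.card_biUnion]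
  · apply Finset.sum_congr rfl
    intro k _
    rw [Finset.card_image_of_injOn, Finset.card_product]
    intro x hx y hy hxy
    have hx' := Finset.mem_product.1 (Finset.mem_coe.1 hx)
    have hy' := Finset.mem_product.1 (Finset.mem_coe.1 hy)
    have b1 := hb k _ hx'.2
    have b2 := hb k _ hy'.2
    obtain ⟨e1, e2⟩ := decode hM ⟨by linarith [b1.1], by linarith [b1.2]⟩
      ⟨by linarith [b2.1], by linarith [b2.2]⟩ hxy
    exact Prod.ext e1 e2
  · intro k _ k' _ hkk
    simp only [Function.onFun]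
    rw [Finset.disjoint_left]
    intro p hp hp'
    rw [Finset.mem_image] at hp hp'
    obtain ⟨x, hx, rfl⟩ := hp
    obtain ⟨y, hy, hxy⟩ := hp'
    have hx' := Finset.mem_product.1 hx
    have hy' := Finset.mem_product.1 hy
    have b1 := hb k _ hx'.2
    have b2 := hb k' _ hy'.2
    obtain ⟨e1, e2⟩ := decode hM ⟨by linarith [b2.1], by linarith [b2.2]⟩
      ⟨by linarith [b1.1], by linarith [b1.2]⟩ hxy
    apply hkk
    have h1 := hx'.1
    have h2 := hy'.1
    rw [e1] at h2
    exact hd k k' _ h1 h2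

theorem card_zw {L : Layout} {M : ℤ} (hL : L.WF M) : (zset L M).card = (wset L M).card := by
  have hd : ∀ k k' n, n ∈ L.get k → n ∈ L.get k' → k = k' := fun k k' n h h' =>
    kind_unique hL h h'
  unfold zset wset
  rw [card_off hL.one_le hd zoff zoff_bd, card_off hL.one_le hd woff woff_bd]
  have e : (Finset.univ : Finset Kind) = {Kind.R, Kind.H, Kind.V, Kind.T} := rfl
  have hc := hL.card
  have z1 : (zoff .R).card = 1 := rfl
  have z2 : (zoff .H).card = 1 := rfl
  have z3 : (zoff .V).card = 1 := rfl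
  have z4 : (zoff .T).card = 3 := by decide
  have w1 : (woff .R).card = 0 := rfl
  have w2 : (woff .H).card = 2 := by decide
  have w3 : (woff .V).card = 2 := by decide
  have w4 : (woff .T).card = 4 := by decide
  rw [e, Finset.sum_insert (by decide), Finset.sum_insert (by decide),
    Finset.sum_insert (by decide), Finset.sum_singleton, Finset.sum_insert (by decide),
    Finset.sum_insert (by decide), Finset.sum_insert (by decide), Finset.sum_singleton,
    z1, z2, z3, z4, w1, w2, w3, w4]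
  simp only [Layout.get]
  omega

theorem disj_zset {L : Layout} {M : ℤ} :
    Disjoint (evenBox (boxA M) (boxB M) \ wset L M) (zset L M) := by
  rw [Finset.disjoint_left]
  intro p hp hz
  have := zset_odd hz
  rw [Finset.mem_sdiff, mem_evenBox] at hp
  obtain ⟨⟨x, y, _, _, _, _, rfl⟩, _⟩ := hp
  simp only at this
  omega

theorem card_pts {L : Layout} {M : ℤ} (hL : L.WF M) :
    (pts L M).card = (boxA M + 1) * (boxB M + 1) := by
  unfold pts
  rw [Finset.card_union_of_disjoint disj_zset, Finset.card_sdiff_of_subset (wset_sub hL),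
    card_evenBox, card_zw hL]
  have := Finset.card_le_card (wset_sub hL)
  rw [card_evenBox] at this
  omega

theorem mem_pts {L : Layout} {M : ℤ} {p : ℤ × ℤ} :
    p ∈ pts L M ↔ (p ∈ evenBox (boxA M) (boxB M) ∧ p ∉ wset L M) ∨ p ∈ zset L M := by
  unfold pts
  rw [Finset.mem_union, Finset.mem_sdiff]

theorem mem_inst {L : Layout} {M : ℤ} {p : ℤ × ℤ} : ι p ∈ inst L M ↔ p ∈ pts L M := by
  unfold inst
  rw [Finset.mem_image]
  constructor
  · rintro ⟨q, hq, h⟩
    rw [ι_inj h] at hq; exact hq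
  · intro h; exact ⟨p, h, rfl⟩

theorem boxSet_inst {L : Layout} {M : ℤ} (hL : L.WF M) : BoxSet (boxA M) (boxB M) (inst L M) := by
  have hM := hL.one_le
  have hN := cN_ge hM
  have hNP := cNP_ge hM
  have hA := boxA_eq hM
  have hB := boxB_eq hM
  have hA1 : 1 ≤ boxA M := by
    have : (1 : ℤ) ≤ boxA M := by
      rw [hA]
      have : cN M * cP M * 1 ≤ cN M * cP M * (3 * M + 3) :=
        mul_le_mul_of_nonneg_left (by linarith) (by linarith)
      linarith
    exact_mod_cast this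
  have hB1 : 1 ≤ boxB M := by
    have : (1 : ℤ) ≤ boxB M := by
      rw [hB]
      have : cN M * 1 ≤ cN M * (3 * M + 3) :=
        mul_le_mul_of_nonneg_left (by linarith) (by linarith)
      linarith
    exact_mod_cast this
  -- every point is in the box, and is even on the boundary
  have hbox : ∀ p ∈ pts L M, (p ∈ evenBox (boxA M) (boxB M)) ∨ inBox M p := by
    intro p hp
    rcases mem_pts.1 hp with h | h
    · exact Or.inl h.1
    · exact Or.inr (zset_inBox hL h)
  have hbd : ∀ x y : ℤ, 0 ≤ x → x ≤ boxA M → 0 ≤ y → y ≤ boxB M →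
      (x = 0 ∨ x = boxA M ∨ y = 0 ∨ y = boxB M) → ι (2 * x, 2 * y) ∈ inst L M := by
    intro x y h1 h2 h3 h4 h5
    rw [mem_inst, mem_pts]
    left
    refine ⟨mem_evenBox.2 ⟨x, y, h1, h2, h3, h4, rfl⟩, ?_⟩
    intro hw
    obtain ⟨k1, k2, k3, k4⟩ := wset_inBox hL hw
    simp only at k1 k2 k3 k4
    omega
  refine ⟨hA1, hB1, ?_, ?_, ?_, ?_, ?_, ?_, ?_, ?_⟩
  · intro p hp
    unfold inst at hp
    obtain ⟨q, hq, rfl⟩ := Finset.mem_image.1 hp
    rcases hbox q hq with h | h
    · obtain ⟨x, y, h1, h2, h3, h4, rfl⟩ := mem_evenBox.1 h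
      unfold ι
      simp only
      refine ⟨?_, ?_, ?_, ?_⟩
      · exact_mod_cast (by omega : (0 : ℤ) ≤ 2 * x)
      · exact_mod_cast (by omega : 2 * x ≤ 2 * (boxA M : ℤ))
      · exact_mod_cast (by omega : (0 : ℤ) ≤ 2 * y)
      · exact_mod_cast (by omega : 2 * y ≤ 2 * (boxB M : ℤ))
    · obtain ⟨k1, k2, k3, k4⟩ := h
      unfold ι
      simp only
      refine ⟨?_, ?_, ?_, ?_⟩
      · exact_mod_cast k1.le
      · exact_mod_cast k2.le
      · exact_mod_cast k3.le
      · exact_mod_cast k4.le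
  · intro p hp
    unfold inst at hp
    obtain ⟨q, hq, rfl⟩ := Finset.mem_image.1 hp
    exact ⟨q.1, rfl⟩
  · intro p hp
    unfold inst at hp
    obtain ⟨q, hq, rfl⟩ := Finset.mem_image.1 hp
    exact ⟨q.2, rfl⟩
  · intro p hp h
    unfold inst at hp
    obtain ⟨q, hq, rfl⟩ := Finset.mem_image.1 hp
    have h' : q.1 = 0 ∨ q.1 = 2 * boxA M := by
      unfold ι at h
      simp only at h
      rcases h with h | h
      · left; exact_mod_cast h
      · right; exact_mod_cast h
    rcases hbox q hq with hh | hh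
    · obtain ⟨x, y, h1, h2, h3, h4, rfl⟩ := mem_evenBox.1 hh
      refine ⟨y.toNat, by omega, ?_⟩
      unfold ι
      simp only
      have : ((y.toNat : ℤ) : ℝ) = y := by rw [Int.toNat_of_nonneg h3]
      push_cast at this ⊢
      rw [this]
    · obtain ⟨k1, k2, k3, k4⟩ := hh
      omega
  · intro p hp h
    unfold inst at hp
    obtain ⟨q, hq, rfl⟩ := Finset.mem_image.1 hp
    have h' : q.2 = 0 ∨ q.2 = 2 * boxB M := by
      unfold ι at h
      simp only at h
      rcases h with h | h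
      · left; exact_mod_cast h
      · right; exact_mod_cast h
    rcases hbox q hq with hh | hh
    · obtain ⟨x, y, h1, h2, h3, h4, rfl⟩ := mem_evenBox.1 hh
      refine ⟨x.toNat, by omega, ?_⟩
      unfold ι
      simp only
      have : ((x.toNat : ℤ) : ℝ) = x := by rw [Int.toNat_of_nonneg h1]
      push_cast at this ⊢
      rw [this]
    · obtain ⟨k1, k2, k3, k4⟩ := hh
      omega
  · intro k hk
    constructor
    · have := hbd 0 k le_rfl (by omega) (by omega) (by omega) (by simp)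
      unfold ι at this
      simpa using this
    · have := hbd (boxA M) k (by omega) (by omega) (by omega) (by omega) (by simp)
      unfold ι at this
      simpa using this
  · intro k hk
    constructor
    · have := hbd k 0 (by omega) (by omega) (by omega) (by omega) (by simp)
      unfold ι at this
      simpa using this
    · have := hbd k (boxB M) (by omega) (by omega) (by omega) (by omega) (by simp)
      unfold ι at this
      simpa using this
  · unfold inst
    rw [Finset.card_image_of_injective _ ι_inj, card_pts hL]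

end Pool.Agent.AreaTri
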