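import Pool.Agent.AreaTri.ListInst
import Pool.Agent.PolyTime.Interface

/-!
The decision problems of max-min area and min-max area triangulation.
-/

namespace Pool.Agent.AreaTri

open FP

/-- the finite set of points of the plane with the given rational coordinates -/
noncomputable def toPts (l : List (ℚ × ℚ)) : Finset Pt :=
  (l.map (fun p => (((p.1 : ℝ), (p.2 : ℝ)) : Pt))).toFinset

/-- area of the triangle `a b c` -/
noncomputable def area (a b c : Pt) : ℝ := |orient a b c| / 2

/-- Decision version of max-min area triangulation: the (binary) encodings of pairs of a list of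
rational points, not all collinear, and a rational number `A`, such that some triangulation of the
set of these points has only triangles of area at least `A`. -/
def MaxMinArea : Set (List Bool) :=
  {x | ∃ (l : List (ℚ × ℚ)) (A : ℚ), x = enc (l, A) ∧ ¬ Collinear ℝ (toPts l : Set Pt) ∧
    ∃ G, IsTriangulation (toPts l) G ∧ ∀ a b c, IsFace (toPts l) G a b c → (A : ℝ) ≤ area a b c}

/-- Decision version of min-max area triangulation: the (binary) encodings of pairs of a list of
rational points, not all collinear, and a rational number `A`, such that some triangulation of the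
set of these points has only triangles of area at most `A`. -/
def MinMaxArea : Set (List Bool) :=
  {x | ∃ (l : List (ℚ × ℚ)) (A : ℚ), x = enc (l, A) ∧ ¬ Collinear ℝ (toPts l : Set Pt) ∧
    ∃ G, IsTriangulation (toPts l) G ∧ ∀ a b c, IsFace (toPts l) G a b c → area a b c ≤ (A : ℝ)}

theorem mem_maxMin {l : List (ℚ × ℚ)} {A : ℚ} : enc (l, A) ∈ MaxMinArea ↔
    (¬ Collinear ℝ (toPts l : Set Pt) ∧
    ∃ G, IsTriangulation (toPts l) G ∧
      ∀ a b c, IsFace (toPts l) G a b c → (A : ℝ) ≤ area a b c) := by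
  constructor
  · rintro ⟨l', A', h, h'⟩
    have := Code.inj h
    obtain ⟨rfl, rfl⟩ := Prod.mk.inj this
    exact h'
  · intro h
    exact ⟨l, A, rfl, h⟩

theorem mem_minMax {l : List (ℚ × ℚ)} {A : ℚ} : enc (l, A) ∈ MinMaxArea ↔
    (¬ Collinear ℝ (toPts l : Set Pt) ∧
    ∃ G, IsTriangulation (toPts l) G ∧
      ∀ a b c, IsFace (toPts l) G a b c → area a b c ≤ (A : ℝ)) := by
  constructor
  · rintro ⟨l', A', h, h'⟩
    have := Code.inj h
    obtain ⟨rfl, rfl⟩ := Prod.mk.inj this
    exact h'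
  · intro h
    exact ⟨l, A, rfl, h⟩

/-- the instance of a layout given by lists -/
def instOf (M : ℤ) (R H V T : List (ℤ × ℤ)) : List (ℚ × ℚ) × ℚ :=
  ((ptsList M R H V T).map (fun p => (((p.1 : ℚ), (p.2 : ℚ)) : ℚ × ℚ)), 2)

theorem toPts_instOf (M : ℤ) (R H V T : List (ℤ × ℤ)) :
    toPts (instOf M R H V T).1 = inst (mkLayout R H V T) M := by
  ext p
  unfold toPts instOf inst
  rw [List.mem_toFinset, Finset.mem_image, List.map_map, List.mem_map]
  constructor
  · rintro ⟨q, hq, rfl⟩
    refine ⟨q, mem_ptsList.1 hq, ?_⟩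
    unfold ι
    simp
  · rintro ⟨q, hq, rfl⟩
    refine ⟨q, mem_ptsList.2 hq, ?_⟩
    unfold ι
    simp

theorem orient_of_collinear {s : Set Pt} (h : Collinear ℝ s) {a b c : Pt} (ha : a ∈ s)
    (hb : b ∈ s) (hc : c ∈ s) : orient a b c = 0 := by
  obtain ⟨v, hv⟩ := (collinear_iff_of_mem ha).1 h
  obtain ⟨r, hr⟩ := hv b hb
  obtain ⟨t, ht⟩ := hv c hc
  rw [hr, ht]
  unfold orient
  simp only [vadd_eq_add, Prod.fst_add, Prod.snd_add, Prod.smul_fst, Prod.smul_snd, smul_eq_mul]
  ring

theorem not_collinear_inst {L : Layout} {M : ℤ} (hL : L.WF M) :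
    ¬ Collinear ℝ (inst L M : Set Pt) := by
  intro h
  have hS := boxSet_inst hL
  have ha : (1 : ℝ) ≤ boxA M := by exact_mod_cast hS.ha
  have hb : (1 : ℝ) ≤ boxB M := by exact_mod_cast hS.hb
  have corner00 : ((0 : ℝ), (0 : ℝ)) ∈ inst L M := by simpa using (hS.memx 0 (by omega)).1
  have cornerA0 : ((2 * boxA M : ℝ), (0 : ℝ)) ∈ inst L M := by
    simpa using (hS.memx 0 (by omega)).2
  have corner0B : ((0 : ℝ), (2 * boxB M : ℝ)) ∈ inst L M := (hS.memx (boxB M) le_rfl).1
  have h0 := orient_of_collinear h (Finset.mem_coe.2 corner00) (Finset.mem_coe.2 cornerA0)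
    (Finset.mem_coe.2 corner0B)
  unfold orient at h0
  simp only at h0
  have h1 : (0 : ℝ) < (2 * boxA M) * (2 * boxB M) := by positivity
  linarith

theorem maxMin_iff {L : Layout} {M : ℤ} (hL : L.WF M) :
    (∃ G, IsTriangulation (inst L M) G ∧
      ∀ a b c, IsFace (inst L M) G a b c → ((2 : ℚ) : ℝ) ≤ area a b c) ↔
    ∃ G, IsTriangulation (inst L M) G ∧ ∀ a b c, IsFace (inst L M) G a b c → |orient a b c| = 4 := by
  constructor
  · rintro ⟨G, hG, h⟩
    refine ⟨G, hG, tight (boxSet_inst hL) hG (Or.inl ?_)⟩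
    intro x y z hf
    have := h x y z hf
    unfold area at this
    push_cast at this
    linarith
  · rintro ⟨G, hG, h⟩
    refine ⟨G, hG, ?_⟩
    intro a b c hf
    unfold area
    rw [h a b c hf]
    norm_num

theorem minMax_iff {L : Layout} {M : ℤ} (hL : L.WF M) :
    (∃ G, IsTriangulation (inst L M) G ∧
      ∀ a b c, IsFace (inst L M) G a b c → area a b c ≤ ((2 : ℚ) : ℝ)) ↔
    ∃ G, IsTriangulation (inst L M) G ∧ ∀ a b c, IsFace (inst L M) G a b c → |orient a b c| = 4 := by
  constructor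
  · rintro ⟨G, hG, h⟩
    refine ⟨G, hG, tight (boxSet_inst hL) hG (Or.inr ?_)⟩
    intro x y z hf
    have := h x y z hf
    unfold area at this
    push_cast at this
    linarith
  · rintro ⟨G, hG, h⟩
    refine ⟨G, hG, ?_⟩
    intro a b c hf
    unfold area
    rw [h a b c hf]
    norm_num

/-- tight triangulations and layouts -/
theorem tight_of_matching {L : Layout} {M : ℤ} (hL : L.WF M) {srv : ℤ × ℤ → ℤ × ℤ}
    (h : L.Matching srv) :
    ∃ G, IsTriangulation (inst L M) G ∧ ∀ a b c, IsFace (inst L M) G a b c → |orient a b c| = 4 := by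
  obtain ⟨G, hG, h4⟩ := layout_complete hL h
  exact ⟨G, hG, tight (boxSet_inst hL) hG (Or.inl h4)⟩

theorem instOf_mem_maxMin {M : ℤ} {R H V T : List (ℤ × ℤ)} (hL : (mkLayout R H V T).WF M) :
    enc (instOf M R H V T) ∈ MaxMinArea ↔
    ∃ G, IsTriangulation (inst (mkLayout R H V T) M) G ∧
      ∀ a b c, IsFace (inst (mkLayout R H V T) M) G a b c → |orient a b c| = 4 := by
  have e : instOf M R H V T = ((instOf M R H V T).1, (2 : ℚ)) := rfl
  rw [e, mem_maxMin, toPts_instOf, maxMin_iff hL]
  exact ⟨fun h => h.2, fun h => ⟨not_collinear_inst hL, h⟩⟩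

theorem instOf_mem_minMax {M : ℤ} {R H V T : List (ℤ × ℤ)} (hL : (mkLayout R H V T).WF M) :
    enc (instOf M R H V T) ∈ MinMaxArea ↔
    ∃ G, IsTriangulation (inst (mkLayout R H V T) M) G ∧
      ∀ a b c, IsFace (inst (mkLayout R H V T) M) G a b c → |orient a b c| = 4 := by
  have e : instOf M R H V T = ((instOf M R H V T).1, (2 : ℚ)) := rfl
  rw [e, mem_minMax, toPts_instOf, minMax_iff hL]
  exact ⟨fun h => h.2, fun h => ⟨not_collinear_inst hL, h⟩⟩

end Pool.Agent.AreaTri
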