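import Pool.Agent.AreaTri.Service

/-!
Soundness: a tight triangulation of the point set of a layout gives a service function.
-/

namespace Pool.Agent.AreaTri

variable {G : SimpleGraph Pt} {L : Layout} {M : ℤ}

theorem red_inj {M : ℤ} (hM : 1 ≤ M) {r r' o : ℤ × ℤ} (ho : |o.1| ≤ 100 ∧ |o.2| ≤ 100)
    (h : base M r + o = base M r' + o) : r = r' := (decode hM ho ho h).1

theorem cap_row (hL : L.WF M) (hG : IsTriangulation (inst L M) G)
    (h4 : ∀ x y z, IsFace (inst L M) G x y z → |orient x y z| = 4) (srv : ℤ × ℤ → ℤ × ℤ)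
    (hsrv : ∀ r ∈ L.R, Srv L M G r (srv r)) (y : ℤ) :
    (L.R.filter (fun r => srv r ∈ L.H ∧ r.2 = y)).card ≤ (L.H.filter (fun h => h.2 = y)).card := by
  classical
  have hM := hL.one_le
  set Rs := L.R.filter (fun r => srv r ∈ L.H ∧ r.2 = y) with hRs
  set Hs := L.H.filter (fun h => h.2 = y) with hHs
  set W' := (Hs ×ˢ woff .H).image (fun x => base M x.1 + x.2) with hW'
  have hcW : W'.card ≤ Hs.card * 2 := by
    refine le_trans Finset.card_image_le ?_
    rw [Finset.card_product]
    have : (woff .H).card = 2 := by decide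
    rw [this]
  have hcZ : (Rs.image (fun r => base M r + (1, 1)) ∪ Hs.image (fun h => base M h + (10, -1))).card =
      Rs.card + Hs.card := by
    rw [Finset.card_union_of_disjoint, Finset.card_image_of_injOn, Finset.card_image_of_injOn]
    · intro x _ y _ h; exact red_inj hM (by norm_num) h
    · intro x _ y _ h; exact red_inj hM (by norm_num) h
    · rw [Finset.disjoint_left]
      intro p hp hp'
      obtain ⟨x, _, rfl⟩ := Finset.mem_image.1 hp
      obtain ⟨x', _, h⟩ := Finset.mem_image.1 hp'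
      have := (decode hM (by norm_num) (by norm_num) h).2
      simp at this
  have hmemW : ∀ n ∈ Hs, ∀ o ∈ woff .H, base M n + o ∈ W' := fun n hn o ho =>
    Finset.mem_image.2 ⟨(n, o), Finset.mem_product.2 ⟨hn, ho⟩, rfl⟩
  have := card_le_of_uses hG.1
    (Rs.image (fun r => base M r + (1, 1)) ∪ Hs.image (fun h => base M h + (10, -1))) W' (by
      intro z hz
      rcases Finset.mem_union.1 hz with hz | hz
      · obtain ⟨r, hr, rfl⟩ := Finset.mem_image.1 hz
        obtain ⟨hrR, hrH, hry⟩ := Finset.mem_filter.1 hr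
        have hs := hsrv r hrR
        obtain ⟨o1, ho1, o2, ho2, hne, u1, u2⟩ := hs.uses hL (k := .H) hrH
        obtain ⟨k1, hk1, _, hc⟩ := hs
        have hk : k1 = .H := kind_unique hL hk1 (k' := .H) hrH
        have hrow : (srv r).2 = r.2 := by
          rcases hc with ⟨_, e⟩ | ⟨e, _⟩ | ⟨e, _⟩
          · exact e
          · rw [hk] at e; exact absurd e (by decide)
          · rw [hk] at e; exact absurd e (by decide)
        have hm : srv r ∈ Hs := Finset.mem_filter.2 ⟨hrH, by rw [hrow]; exact hry⟩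
        exact ⟨_, hmemW _ hm _ ho1, _, hmemW _ hm _ ho2, hne, u1, u2⟩
      · obtain ⟨h, hh, rfl⟩ := Finset.mem_image.1 hz
        obtain ⟨hhH, hhy⟩ := Finset.mem_filter.1 hh
        obtain ⟨n1, hn1, o1, ho1, o2, ho2, hne, u1, u2, hc⟩ := own_uses hL hG h4 (k0 := .H)
          (n0 := h) (o0 := (10, -1)) hhH (by simp [zoff]) (by decide)
        have hrow : n1.2 = h.2 := by
          rcases hc with ⟨_, e⟩ | ⟨e, _⟩ | ⟨e, _⟩
          · exact e
          · exact absurd e (by decide)
          · exact absurd e (by decide)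
        have hm : n1 ∈ Hs := Finset.mem_filter.2 ⟨hn1, by rw [hrow]; exact hhy⟩
        exact ⟨_, hmemW _ hm _ ho1, _, hmemW _ hm _ ho2, hne, u1, u2⟩)
  rw [hcZ] at this
  omega

theorem cap_col (hL : L.WF M) (hG : IsTriangulation (inst L M) G)
    (h4 : ∀ x y z, IsFace (inst L M) G x y z → |orient x y z| = 4) (srv : ℤ × ℤ → ℤ × ℤ)
    (hsrv : ∀ r ∈ L.R, Srv L M G r (srv r)) (x : ℤ) :
    (L.R.filter (fun r => srv r ∈ L.V ∧ r.1 = x)).card ≤ (L.V.filter (fun v => v.1 = x)).card := by
  classical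
  have hM := hL.one_le
  set Rs := L.R.filter (fun r => srv r ∈ L.V ∧ r.1 = x) with hRs
  set Hs := L.V.filter (fun v => v.1 = x) with hHs
  set W' := (Hs ×ˢ woff .V).image (fun x => base M x.1 + x.2) with hW'
  have hcW : W'.card ≤ Hs.card * 2 := by
    refine le_trans Finset.card_image_le ?_
    rw [Finset.card_product]
    have : (woff .V).card = 2 := by decide
    rw [this]
  have hcZ : (Rs.image (fun r => base M r + (1, 1)) ∪ Hs.image (fun h => base M h + (-1, 10))).card =
      Rs.card + Hs.card := by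
    rw [Finset.card_union_of_disjoint, Finset.card_image_of_injOn, Finset.card_image_of_injOn]
    · intro x _ y _ h; exact red_inj hM (by norm_num) h
    · intro x _ y _ h; exact red_inj hM (by norm_num) h
    · rw [Finset.disjoint_left]
      intro p hp hp'
      obtain ⟨x, _, rfl⟩ := Finset.mem_image.1 hp
      obtain ⟨x', _, h⟩ := Finset.mem_image.1 hp'
      have := (decode hM (by norm_num) (by norm_num) h).2
      simp at this
  have hmemW : ∀ n ∈ Hs, ∀ o ∈ woff .V, base M n + o ∈ W' := fun n hn o ho =>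
    Finset.mem_image.2 ⟨(n, o), Finset.mem_product.2 ⟨hn, ho⟩, rfl⟩
  have := card_le_of_uses hG.1
    (Rs.image (fun r => base M r + (1, 1)) ∪ Hs.image (fun h => base M h + (-1, 10))) W' (by
      intro z hz
      rcases Finset.mem_union.1 hz with hz | hz
      · obtain ⟨r, hr, rfl⟩ := Finset.mem_image.1 hz
        obtain ⟨hrR, hrH, hry⟩ := Finset.mem_filter.1 hr
        have hs := hsrv r hrR
        obtain ⟨o1, ho1, o2, ho2, hne, u1, u2⟩ := hs.uses hL (k := .V) hrH
        obtain ⟨k1, hk1, _, hc⟩ := hs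
        have hk : k1 = .V := kind_unique hL hk1 (k' := .V) hrH
        have hrow : (srv r).1 = r.1 := by
          rcases hc with ⟨e, _⟩ | ⟨_, e⟩ | ⟨e, _⟩
          · rw [hk] at e; exact absurd e (by decide)
          · exact e
          · rw [hk] at e; exact absurd e (by decide)
        have hm : srv r ∈ Hs := Finset.mem_filter.2 ⟨hrH, by rw [hrow]; exact hry⟩
        exact ⟨_, hmemW _ hm _ ho1, _, hmemW _ hm _ ho2, hne, u1, u2⟩
      · obtain ⟨h, hh, rfl⟩ := Finset.mem_image.1 hz
        obtain ⟨hhH, hhy⟩ := Finset.mem_filter.1 hh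
        obtain ⟨n1, hn1, o1, ho1, o2, ho2, hne, u1, u2, hc⟩ := own_uses hL hG h4 (k0 := .V)
          (n0 := h) (o0 := (-1, 10)) hhH (by simp [zoff]) (by decide)
        have hrow : n1.1 = h.1 := by
          rcases hc with ⟨e, _⟩ | ⟨_, e⟩ | ⟨e, _⟩
          · exact absurd e (by decide)
          · exact e
          · exact absurd e (by decide)
        have hm : n1 ∈ Hs := Finset.mem_filter.2 ⟨hn1, by rw [hrow]; exact hhy⟩
        exact ⟨_, hmemW _ hm _ ho1, _, hmemW _ hm _ ho2, hne, u1, u2⟩)
  rw [hcZ] at this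
  omega

theorem cap_T (hL : L.WF M) (hG : IsTriangulation (inst L M) G)
    (h4 : ∀ x y z, IsFace (inst L M) G x y z → |orient x y z| = 4) {r r' t : ℤ × ℤ}
    (ht : t ∈ L.T) (h1 : Srv L M G r t) (h2 : Srv L M G r' t) : r = r' := by
  classical
  have hM := hL.one_le
  by_contra hne
  set W' := (woff .T).image (fun o => base M t + o) with hW'
  have hcW : W'.card ≤ 4 := by
    refine le_trans Finset.card_image_le ?_
    have : (woff .T).card = 4 := by decide
    rw [this]
  have hcZ : ((zoff .T).image (fun o => base M t + o) ∪ {base M r + (1, 1), base M r' + (1, 1)}).card =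
      5 := by
    rw [Finset.card_union_of_disjoint, Finset.card_image_of_injective, Finset.card_pair]
    · have : (zoff .T).card = 3 := by decide
      rw [this]
    · intro h; exact hne (red_inj hM (by norm_num) h)
    · intro x y h; exact add_left_cancel h
    · rw [Finset.disjoint_left]
      intro p hp hp'
      obtain ⟨o, ho, rfl⟩ := Finset.mem_image.1 hp
      have hb := zoff_bd .T o ho
      have hne1 : ∀ o ∈ zoff .T, o ≠ (1, 1) := by decide
      rw [Finset.mem_insert, Finset.mem_singleton] at hp'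
      rcases hp' with h | h
      · exact hne1 o ho (decode hM ⟨by linarith [hb.1], by linarith [hb.2]⟩ (by norm_num) h).2
      · exact hne1 o ho (decode hM ⟨by linarith [hb.1], by linarith [hb.2]⟩ (by norm_num) h).2
  have hmemW : ∀ o ∈ woff .T, base M t + o ∈ W' := fun o ho => Finset.mem_image_of_mem _ ho
  have := card_le_of_uses hG.1
    ((zoff .T).image (fun o => base M t + o) ∪ {base M r + (1, 1), base M r' + (1, 1)}) W' (by
      intro z hz
      rcases Finset.mem_union.1 hz with hz | hz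
      · obtain ⟨o, ho, rfl⟩ := Finset.mem_image.1 hz
        obtain ⟨n1, hn1, o1, ho1, o2, ho2, hne, u1, u2, hc⟩ := own_uses hL hG h4 (k0 := .T)
          (n0 := t) ht ho (by decide)
        have hrow : n1 = t := by
          rcases hc with ⟨e, _⟩ | ⟨e, _⟩ | ⟨_, e⟩
          · exact absurd e (by decide)
          · exact absurd e (by decide)
          · exact e
        subst hrow
        exact ⟨_, hmemW _ ho1, _, hmemW _ ho2, hne, u1, u2⟩
      · rw [Finset.mem_insert, Finset.mem_singleton] at hz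
        rcases hz with rfl | rfl
        · obtain ⟨o1, ho1, o2, ho2, hne, u1, u2⟩ := h1.uses hL (k := .T) ht
          exact ⟨_, hmemW _ ho1, _, hmemW _ ho2, hne, u1, u2⟩
        · obtain ⟨o1, ho1, o2, ho2, hne, u1, u2⟩ := h2.uses hL (k := .T) ht
          exact ⟨_, hmemW _ ho1, _, hmemW _ ho2, hne, u1, u2⟩)
  rw [hcZ] at this
  omega

theorem exists_longH (hL : L.WF M) (hG : IsTriangulation (inst L M) G)
    (h4 : ∀ x y z, IsFace (inst L M) G x y z → |orient x y z| = 4) {h r : ℤ × ℤ}
    (hr : r ∈ L.R) (hs : Srv L M G r h) (hh : h ∈ L.H)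
    (hsingle : ∀ h' ∈ L.H, h'.2 = h.2 → h' = h) : h.2 = r.2 ∧
    G.Adj (ι (base M h + (6, 0)))
      (ι (2 * (base M r).1 - (base M h).1 - 8, 2 * (base M r).2 - (base M h).2 + 2)) := by
  obtain ⟨k1, hn1, ⟨u, α, v, A, B, σ, ρ, hs, o1, ho1, o2, ho2, hw1, hw2⟩, hc⟩ := hs
  have hk : k1 = .H := kind_unique hL hn1 (k' := .H) hh
  subst hk
  have hrow : h.2 = r.2 := by
    rcases hc with ⟨_, e⟩ | ⟨e, _⟩ | ⟨e, _⟩
    · exact e
    · exact absurd e (by decide)
    · exact absurd e (by decide)
  refine ⟨hrow, ?_⟩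
  have hne := hs.ne
  simp only [woff, Finset.mem_insert, Finset.mem_singleton] at ho1 ho2
  rcases ho1 with rfl | rfl <;> rcases ho2 with rfl | rfl
  · exact absurd (hw1.trans hw2.symm) hne
  · exact longH hL hG h4 hh hrow hsingle hs (red_mem hr) hw1 hw2
  · exact longH hL hG h4 hh hrow hsingle hs.symm (red_mem hr) hw2 hw1
  · exact absurd (hw1.trans hw2.symm) hne

theorem exists_longV (hL : L.WF M) (hG : IsTriangulation (inst L M) G)
    (h4 : ∀ x y z, IsFace (inst L M) G x y z → |orient x y z| = 4) {h r : ℤ × ℤ}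
    (hr : r ∈ L.R) (hs : Srv L M G r h) (hh : h ∈ L.V)
    (hsingle : ∀ h' ∈ L.V, h'.1 = h.1 → h' = h) : h.1 = r.1 ∧
    G.Adj (ι (base M h + (0, 6)))
      (ι (2 * (base M r).1 - (base M h).1 + 2, 2 * (base M r).2 - (base M h).2 - 8)) := by
  obtain ⟨k1, hn1, ⟨u, α, v, A, B, σ, ρ, hs, o1, ho1, o2, ho2, hw1, hw2⟩, hc⟩ := hs
  have hk : k1 = .V := kind_unique hL hn1 (k' := .V) hh
  subst hk
  have hrow : h.1 = r.1 := by
    rcases hc with ⟨e, _⟩ | ⟨_, e⟩ | ⟨e, _⟩
    · exact absurd e (by decide)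
    · exact e
    · exact absurd e (by decide)
  refine ⟨hrow, ?_⟩
  have hne := hs.ne
  simp only [woff, Finset.mem_insert, Finset.mem_singleton] at ho1 ho2
  rcases ho1 with rfl | rfl <;> rcases ho2 with rfl | rfl
  · exact absurd (hw1.trans hw2.symm) hne
  · exact longV hL hG h4 hh hrow hsingle hs (red_mem hr) hw1 hw2
  · exact longV hL hG h4 hh hrow hsingle hs.symm (red_mem hr) hw2 hw1
  · exact absurd (hw1.trans hw2.symm) hne

theorem base_lt1 {M : ℤ} (hM : 1 ≤ M) {n n' : ℤ × ℤ} (h : n.1 < n'.1) :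
    (base M n).1 + 1000 < (base M n').1 := by
  have hN := cN_ge hM
  have hNP := cNP_ge hM
  unfold base
  simp only
  have : cN M * cP M * (n.1 + 1 + 1) ≤ cN M * cP M * (n'.1 + 1) :=
    mul_le_mul_of_nonneg_left (by linarith) (by linarith)
  linarith

theorem base_lt2 {M : ℤ} (hM : 1 ≤ M) {n n' : ℤ × ℤ} (h : n.2 < n'.2) :
    (base M n).2 + 1000 < (base M n').2 := by
  have hN := cN_ge hM
  unfold base
  simp only
  have : cN M * (n.2 + 1 + 1) ≤ cN M * (n'.2 + 1) :=
    mul_le_mul_of_nonneg_left (by linarith) (by linarith)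
  linarith

theorem no_cross (hL : L.WF M) (hG : IsTriangulation (inst L M) G)
    (h4 : ∀ x y z, IsFace (inst L M) G x y z → |orient x y z| = 4) {h r v r' : ℤ × ℤ}
    (hr : r ∈ L.R) (hr' : r' ∈ L.R) (hs : Srv L M G r h) (hs' : Srv L M G r' v) (hh : h ∈ L.H)
    (hv : v ∈ L.V) (hsingle : ∀ h' ∈ L.H, h'.2 = h.2 → h' = h)
    (hsingle' : ∀ h' ∈ L.V, h'.1 = v.1 → h' = v)
    (c1 : h.1 < v.1 ∧ v.1 < r.1 ∨ r.1 < v.1 ∧ v.1 < h.1)
    (c2 : v.2 < h.2 ∧ h.2 < r'.2 ∨ r'.2 < h.2 ∧ h.2 < v.2) : False := by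
  have hM := hL.one_le
  obtain ⟨e1, a1⟩ := exists_longH hL hG h4 hr hs hh hsingle
  obtain ⟨e2, a2⟩ := exists_longV hL hG h4 hr' hs' hv hsingle'
  have f1 : (base M r).2 = (base M h).2 := by unfold base; simp only; rw [e1]
  have f2 : (base M r').1 = (base M v).1 := by unfold base; simp only; rw [e2]
  rw [f1] at a1
  rw [f2] at a2
  unfold ι at a1 a2
  simp only [Prod.fst_add, Prod.snd_add] at a1 a2
  push_cast at a1 a2
  have g1 : (2 : ℝ) * ((base M h).2 : ℝ) - ((base M h).2 : ℝ) + 2 = ((base M h).2 : ℝ) + 2 := by ring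
  have g2 : (2 : ℝ) * ((base M v).1 : ℝ) - ((base M v).1 : ℝ) + 2 = ((base M v).1 : ℝ) + 2 := by ring
  rw [g1] at a1
  rw [g2] at a2
  simp only [add_zero] at a1 a2
  have q : ∀ {x y : ℤ}, x < y → (x : ℝ) < y := fun h => by exact_mod_cast h
  refine cross_hv ?_ ?_ hG.1 a1 a2
  · rcases c1 with ⟨l1, l2⟩ | ⟨l1, l2⟩
    · have k1 := base_lt1 hM l1
      have k2 := base_lt1 hM l2
      left
      constructor
      · have := q (show (base M h).1 + 6 < (base M v).1 by linarith)
        push_cast at this; exact this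
      · have := q (show (base M v).1 + 2 < 2 * (base M r).1 - (base M h).1 - 8 by linarith)
        push_cast at this; exact this
    · have k1 := base_lt1 hM l1
      have k2 := base_lt1 hM l2
      right
      constructor
      · have := q (show 2 * (base M r).1 - (base M h).1 - 8 < (base M v).1 by linarith)
        push_cast at this; exact this
      · have := q (show (base M v).1 + 2 < (base M h).1 + 6 by linarith)
        push_cast at this; exact this
  · rcases c2 with ⟨l1, l2⟩ | ⟨l1, l2⟩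
    · have k1 := base_lt2 hM l1
      have k2 := base_lt2 hM l2
      left
      constructor
      · have := q (show (base M v).2 + 6 < (base M h).2 by linarith)
        push_cast at this; exact this
      · have := q (show (base M h).2 + 2 < 2 * (base M r').2 - (base M v).2 - 8 by linarith)
        push_cast at this; exact this
    · have k1 := base_lt2 hM l1
      have k2 := base_lt2 hM l2
      right
      constructor
      · have := q (show 2 * (base M r').2 - (base M v).2 - 8 < (base M h).2 by linarith)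
        push_cast at this; exact this
      · have := q (show (base M h).2 + 2 < (base M v).2 + 6 by linarith)
        push_cast at this; exact this

/-- Soundness. -/
theorem layout_sound (hL : L.WF M) (hG : IsTriangulation (inst L M) G)
    (h4 : ∀ x y z, IsFace (inst L M) G x y z → |orient x y z| = 4) :
    ∃ srv, L.Service srv := by
  classical
  have hex : ∀ r, r ∈ L.R → ∃ n, Srv L M G r n := fun r hr => exists_srv hL hG h4 hr
  choose! srv hsrv using hex
  refine ⟨srv, ?_, ?_, cap_row hL hG h4 srv hsrv, cap_col hL hG h4 srv hsrv, ?_⟩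
  · intro r hr
    obtain ⟨k1, hk1, _, hc⟩ := hsrv r hr
    rcases hc with ⟨rfl, e⟩ | ⟨rfl, e⟩ | ⟨rfl, e⟩
    · exact Or.inl ⟨hk1, e⟩
    · exact Or.inr (Or.inl ⟨hk1, e⟩)
    · exact Or.inr (Or.inr ⟨hk1, e⟩)
  · intro r hr r' hr' ht he
    have h2 := hsrv r' hr'
    rw [← he] at h2
    exact cap_T hL hG h4 ht (hsrv r hr) h2
  · intro r hr r' hr' hh hv hs hs' ⟨c1, c2⟩
    exact no_cross hL hG h4 hr hr' (hsrv r hr) (hsrv r' hr') hh hv hs hs' c1 c2

end Pool.Agent.AreaTri
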