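import Pool.Agent.AreaTri.Complete
import Pool.Agent.AreaTri.Sound

/-!
Completeness: a matching of a layout gives a tight triangulation.
-/

namespace Pool.Agent.AreaTri

variable {L : Layout} {M : ℤ} {srv : ℤ × ℤ → ℤ × ℤ}

/-- the value of a functional at the four vertices of the star `(z, b, e)` -/
def VLe (α β γ : ℤ) (z b e : ℤ × ℤ) : Prop :=
  α * b.1 + β * b.2 ≤ γ ∧ α * (b.1 + e.1) + β * (b.2 + e.2) ≤ γ ∧
  α * (b.1 - e.1) + β * (b.2 - e.2) ≤ γ ∧ α * (2 * z.1 - b.1) + β * (2 * z.2 - b.2) ≤ γ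

def VGe (α β γ : ℤ) (z b e : ℤ × ℤ) : Prop :=
  γ ≤ α * b.1 + β * b.2 ∧ γ ≤ α * (b.1 + e.1) + β * (b.2 + e.2) ∧
  γ ≤ α * (b.1 - e.1) + β * (b.2 - e.2) ∧ γ ≤ α * (2 * z.1 - b.1) + β * (2 * z.2 - b.2)

/-- separation of two stars by a line -/
def Sep (z b e z' b' e' : ℤ × ℤ) : Prop :=
  ∃ α β γ : ℤ, VLe α β γ z b e ∧ VGe α β γ z' b' e' ∧ α * z.1 + β * z.2 < γ ∧
    γ < α * z'.1 + β * z'.2

theorem Sep.symm {z b e z' b' e' : ℤ × ℤ} (h : Sep z b e z' b' e') : Sep z' b' e' z b e := by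
  obtain ⟨α, β, γ, ⟨a1, a2, a3, a4⟩, ⟨b1, b2, b3, b4⟩, h3, h4⟩ := h
  refine ⟨-α, -β, -γ, ⟨?_, ?_, ?_, ?_⟩, ⟨?_, ?_, ?_, ?_⟩, ?_, ?_⟩ <;> linarith

/-- bounding box of a star -/
structure BB (z b e : ℤ × ℤ) (x1 x2 y1 y2 : ℤ) : Prop where
  fb : x1 ≤ b.1 ∧ b.1 ≤ x2 ∧ y1 ≤ b.2 ∧ b.2 ≤ y2
  fp : x1 ≤ b.1 + e.1 ∧ b.1 + e.1 ≤ x2 ∧ y1 ≤ b.2 + e.2 ∧ b.2 + e.2 ≤ y2
  fm : x1 ≤ b.1 - e.1 ∧ b.1 - e.1 ≤ x2 ∧ y1 ≤ b.2 - e.2 ∧ b.2 - e.2 ≤ y2
  fa : x1 ≤ 2 * z.1 - b.1 ∧ 2 * z.1 - b.1 ≤ x2 ∧ y1 ≤ 2 * z.2 - b.2 ∧ 2 * z.2 - b.2 ≤ y2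
  fz : x1 < z.1 ∧ z.1 < x2 ∧ y1 < z.2 ∧ z.2 < y2

theorem BB.sep {z b e z' b' e' : ℤ × ℤ} {x1 x2 y1 y2 x1' x2' y1' y2' : ℤ}
    (h : BB z b e x1 x2 y1 y2) (h' : BB z' b' e' x1' x2' y1' y2')
    (hc : x2 ≤ x1' ∨ x2' ≤ x1 ∨ y2 ≤ y1' ∨ y2' ≤ y1) : Sep z b e z' b' e' := by
  obtain ⟨⟨a1, a2, a3, a4⟩, ⟨a5, a6, a7, a8⟩, ⟨a9, a10, a11, a12⟩, ⟨a13, a14, a15, a16⟩,
    ⟨a17, a18, a19, a20⟩⟩ := h
  obtain ⟨⟨b1, b2, b3, b4⟩, ⟨b5, b6, b7, b8⟩, ⟨b9, b10, b11, b12⟩, ⟨b13, b14, b15, b16⟩,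
    ⟨b17, b18, b19, b20⟩⟩ := h'
  rcases hc with hc | hc | hc | hc
  · refine ⟨1, 0, x2, ⟨?_, ?_, ?_, ?_⟩, ⟨?_, ?_, ?_, ?_⟩, ?_, ?_⟩ <;> linarith
  · refine ⟨-1, 0, -x1, ⟨?_, ?_, ?_, ?_⟩, ⟨?_, ?_, ?_, ?_⟩, ?_, ?_⟩ <;> linarith
  · refine ⟨0, 1, y2, ⟨?_, ?_, ?_, ?_⟩, ⟨?_, ?_, ?_, ?_⟩, ?_, ?_⟩ <;> linarith
  · refine ⟨0, -1, -y1, ⟨?_, ?_, ?_, ?_⟩, ⟨?_, ?_, ?_, ?_⟩, ?_, ?_⟩ <;> linarith

/-- the `T` node `n` is served along its row -/
def RowMode (L : Layout) (srv : ℤ × ℤ → ℤ × ℤ) (n : ℤ × ℤ) : Prop :=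
  ∃ r ∈ L.R, srv r = n ∧ L.IsRow srv r

/-- stars of the dedicated extra points: offset of the extra point, offset of the middle of the
base, half of the base -/
def locT : Kind → Bool → Finset ((ℤ × ℤ) × (ℤ × ℤ) × (ℤ × ℤ))
  | .R, _ => ∅
  | .H, _ => {((10, -1), (10, 0), (-4, 0))}
  | .V, _ => {((-1, 10), (0, 10), (0, 4))}
  | .T, false => {((-4, -1), (-6, 0), (-4, 0)), ((-5, 1), (-6, 0), (4, 0)), ((-1, 4), (0, 2), (0, 4))}
  | .T, true => {((-4, -1), (-2, 0), (-4, 0)), ((-5, 1), (-4, 2), (-8, -4)),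
      ((-1, 4), (-4, 2), (8, 4))}

/-- the three types of stars -/
inductive Sh (L : Layout) (M : ℤ) (srv : ℤ × ℤ → ℤ × ℤ) : ℤ × ℤ → ℤ × ℤ → ℤ × ℤ → Prop
  | loc (k : Kind) (m : Bool) (n oz ob e : ℤ × ℤ) (hn : n ∈ L.get k)
      (hm : k = .T → (m = true ↔ RowMode L srv n)) (ho : (oz, ob, e) ∈ locT k m) :
      Sh L M srv (base M n + oz) (base M n + ob) e
  | row (r : ℤ × ℤ) (q : ℤ) (hr : r ∈ L.R) (h2 : (srv r).2 = r.2)
      (hq : (srv r ∈ L.H ∧ q = 10) ∨ (srv r ∈ L.T ∧ (srv r).1 < r.1 ∧ q = -2)) :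
      Sh L M srv (base M r + (1, 1)) (base M (srv r) + (q, 0)) (4, 0)
  | col (r : ℤ × ℤ) (q : ℤ) (hr : r ∈ L.R) (h1 : (srv r).1 = r.1)
      (hq : (srv r ∈ L.V ∧ q = 10) ∨ (srv r ∈ L.T ∧ q = 2)) :
      Sh L M srv (base M r + (1, 1)) (base M (srv r) + (0, q)) (0, -4)

theorem locT_bb : ∀ k m, ∀ t ∈ locT k m,
    BB t.1 t.2.1 t.2.2 (-13) (if k = .V then 0 else 15) (-13) (if k = .H then 0 else 15) := by
  intro k m t ht
  have : (∀ k m, ∀ t ∈ locT k m,
    ((-13 ≤ t.2.1.1 ∧ t.2.1.1 ≤ (if k = .V then 0 else 15) ∧ -13 ≤ t.2.1.2 ∧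
      t.2.1.2 ≤ (if k = .H then 0 else 15)) ∧
    (-13 ≤ t.2.1.1 + t.2.2.1 ∧ t.2.1.1 + t.2.2.1 ≤ (if k = .V then 0 else 15) ∧
      -13 ≤ t.2.1.2 + t.2.2.2 ∧ t.2.1.2 + t.2.2.2 ≤ (if k = .H then 0 else 15)) ∧
    (-13 ≤ t.2.1.1 - t.2.2.1 ∧ t.2.1.1 - t.2.2.1 ≤ (if k = .V then 0 else 15) ∧
      -13 ≤ t.2.1.2 - t.2.2.2 ∧ t.2.1.2 - t.2.2.2 ≤ (if k = .H then 0 else 15)) ∧
    (-13 ≤ 2 * t.1.1 - t.2.1.1 ∧ 2 * t.1.1 - t.2.1.1 ≤ (if k = .V then 0 else 15) ∧
      -13 ≤ 2 * t.1.2 - t.2.1.2 ∧ 2 * t.1.2 - t.2.1.2 ≤ (if k = .H then 0 else 15)) ∧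
    (-13 < t.1.1 ∧ t.1.1 < (if k = .V then 0 else 15) ∧ -13 < t.1.2 ∧
      t.1.2 < (if k = .H then 0 else 15)))) := by decide
  obtain ⟨h1, h2, h3, h4, h5⟩ := this k m t ht
  exact ⟨h1, h2, h3, h4, h5⟩

theorem locT_det : ∀ k m, ∀ t ∈ locT k m, idet (t.2.1 - t.1) t.2.2 = 4 ∧
    t.2.2.1 % 4 = 0 ∧ t.2.2.2 % 4 = 0 ∧ t.2.1.1 % 2 = 0 ∧ t.2.1.2 % 2 = 0 := by decide

theorem locT_w : ∀ k m, ∀ t ∈ locT k m,
    (t.2.1.1 + t.2.2.1 / 2, t.2.1.2 + t.2.2.2 / 2) ∈ woff k ∧
    (t.2.1.1 - t.2.2.1 / 2, t.2.1.2 - t.2.2.2 / 2) ∈ woff k := by decide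

theorem locT_v : ∀ k m, ∀ t ∈ locT k m, ∀ k', t.2.1 ∉ woff k' ∧ t.2.1 + t.2.2 ∉ woff k' ∧
    t.2.1 - t.2.2 ∉ woff k' ∧ (2 * t.1.1 - t.2.1.1, 2 * t.1.2 - t.2.1.2) ∉ woff k' := by decide

theorem base_sub1 {M : ℤ} (n n' : ℤ × ℤ) :
    (base M n).1 - (base M n').1 = 2 * (cN M * cP M) * (n.1 - n'.1) := by
  unfold base; simp only; ring

theorem bb_loc {k : Kind} {m : Bool} {n oz ob e : ℤ × ℤ} (ho : (oz, ob, e) ∈ locT k m) :
    BB (base M n + oz) (base M n + ob) e ((base M n).1 - 13)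
      ((base M n).1 + (if k = .V then 0 else 15)) ((base M n).2 - 13)
      ((base M n).2 + (if k = .H then 0 else 15)) := by
  obtain ⟨h1, h2, h3, h4, h5⟩ := locT_bb k m _ ho
  simp only at h1 h2 h3 h4 h5
  refine ⟨?_, ?_, ?_, ?_, ?_⟩ <;> simp only [Prod.fst_add, Prod.snd_add] <;>
    refine ⟨?_, ?_, ?_, ?_⟩ <;> linarith

/-- monotonicity of base points in macro coordinates -/
theorem base_mono1 {M : ℤ} (hM : 1 ≤ M) (x y : ℤ) (h : x ≤ y) :
    2 * (cN M * cP M) * (x + 1) ≤ 2 * (cN M * cP M) * (y + 1) := by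
  have hN := cN_ge hM
  have hNP := cNP_ge hM
  exact mul_le_mul_of_nonneg_left (by linarith) (by linarith)

theorem base_mono2 {M : ℤ} (hM : 1 ≤ M) (x y : ℤ) (h : x ≤ y) :
    2 * cN M * (x + 1) ≤ 2 * cN M * (y + 1) := by
  have hN := cN_ge hM
  exact mul_le_mul_of_nonneg_left (by linarith) (by linarith)

theorem bb_row (hM : 1 ≤ M) {r s : ℤ × ℤ} {q : ℤ} (h2 : s.2 = r.2) (hq : q = 10 ∨ q = -2) :
    BB (base M r + (1, 1)) (base M s + (q, 0)) (4, 0)
      (2 * (cN M * cP M) * (min s.1 (2 * r.1 - s.1) + 1) - 20)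
      (2 * (cN M * cP M) * (max s.1 (2 * r.1 - s.1) + 1) + 20)
      (base M r).2 ((base M r).2 + 2) := by
  have l1 := base_mono1 hM _ _ (min_le_left s.1 (2 * r.1 - s.1))
  have l2 := base_mono1 hM _ _ (min_le_right s.1 (2 * r.1 - s.1))
  have l3 := base_mono1 hM _ _ (le_max_left s.1 (2 * r.1 - s.1))
  have l4 := base_mono1 hM _ _ (le_max_right s.1 (2 * r.1 - s.1))
  have e : (base M s).2 = (base M r).2 := by unfold base; simp only; rw [h2]
  have e1 : 2 * (cN M * cP M) * (2 * r.1 - s.1 + 1) = 2 * (base M r).1 - (base M s).1 := by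
    unfold base; simp only; ring
  have e2 : 2 * (cN M * cP M) * (s.1 + 1) = (base M s).1 := rfl
  rw [e1] at l2 l4
  rw [e2] at l1 l3
  refine ⟨?_, ?_, ?_, ?_, ?_⟩ <;> simp only [Prod.fst_add, Prod.snd_add] <;>
    rcases hq with rfl | rfl <;> refine ⟨?_, ?_, ?_, ?_⟩ <;> linarith

theorem bb_col (hM : 1 ≤ M) {r s : ℤ × ℤ} {q : ℤ} (h1 : s.1 = r.1) (hq : q = 10 ∨ q = 2) :
    BB (base M r + (1, 1)) (base M s + (0, q)) (0, -4)
      (base M r).1 ((base M r).1 + 2)
      (2 * cN M * (min s.2 (2 * r.2 - s.2) + 1) - 20)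
      (2 * cN M * (max s.2 (2 * r.2 - s.2) + 1) + 20) := by
  have l1 := base_mono2 hM _ _ (min_le_left s.2 (2 * r.2 - s.2))
  have l2 := base_mono2 hM _ _ (min_le_right s.2 (2 * r.2 - s.2))
  have l3 := base_mono2 hM _ _ (le_max_left s.2 (2 * r.2 - s.2))
  have l4 := base_mono2 hM _ _ (le_max_right s.2 (2 * r.2 - s.2))
  have e : (base M s).1 = (base M r).1 := by unfold base; simp only; rw [h1]
  have e1 : 2 * cN M * (2 * r.2 - s.2 + 1) = 2 * (base M r).2 - (base M s).2 := by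
    unfold base; simp only; ring
  have e2 : 2 * cN M * (s.2 + 1) = (base M s).2 := rfl
  rw [e1] at l2 l4
  rw [e2] at l1 l3
  refine ⟨?_, ?_, ?_, ?_, ?_⟩ <;> simp only [Prod.fst_add, Prod.snd_add] <;>
    rcases hq with rfl | rfl <;> refine ⟨?_, ?_, ?_, ?_⟩ <;> linarith

theorem row_q {r : ℤ × ℤ} {q : ℤ}
    (hq : (srv r ∈ L.H ∧ q = 10) ∨ (srv r ∈ L.T ∧ (srv r).1 < r.1 ∧ q = -2)) :
    q = 10 ∨ q = -2 := by
  rcases hq with ⟨_, h⟩ | ⟨_, _, h⟩
  · exact Or.inl h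
  · exact Or.inr h

theorem col_q {r : ℤ × ℤ} {q : ℤ}
    (hq : (srv r ∈ L.V ∧ q = 10) ∨ (srv r ∈ L.T ∧ q = 2)) : q = 10 ∨ q = 2 := by
  rcases hq with ⟨_, h⟩ | ⟨_, h⟩
  · exact Or.inl h
  · exact Or.inr h

theorem row_isRow {r : ℤ × ℤ} {q : ℤ} (h2 : (srv r).2 = r.2)
    (hq : (srv r ∈ L.H ∧ q = 10) ∨ (srv r ∈ L.T ∧ (srv r).1 < r.1 ∧ q = -2)) :
    L.IsRow srv r := by
  refine ⟨h2, ?_⟩
  rcases hq with ⟨h, _⟩ | ⟨h, h', _⟩
  · exact Or.inl h
  · exact Or.inr ⟨h, h'⟩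

theorem col_isCol {r : ℤ × ℤ} {q : ℤ} (h1 : (srv r).1 = r.1)
    (hq : (srv r ∈ L.V ∧ q = 10) ∨ (srv r ∈ L.T ∧ q = 2)) : L.IsCol srv r := by
  refine ⟨h1, ?_⟩
  rcases hq with ⟨h, _⟩ | ⟨h, _⟩
  · exact Or.inl h
  · exact Or.inr h

theorem sep_shift {n z b e z' b' e' : ℤ × ℤ} (h : Sep z b e z' b' e') :
    Sep (n + z) (n + b) e (n + z') (n + b') e' := by
  obtain ⟨α, β, γ, ⟨a1, a2, a3, a4⟩, ⟨b1, b2, b3, b4⟩, h3, h4⟩ := h
  refine ⟨α, β, γ + α * n.1 + β * n.2, ⟨?_, ?_, ?_, ?_⟩, ⟨?_, ?_, ?_, ?_⟩, ?_, ?_⟩ <;>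
    simp only [Prod.fst_add, Prod.snd_add] <;> linarith

/-- stars of one node -/
theorem sep_same : ∀ k m, ∀ t ∈ locT k m, ∀ t' ∈ locT k m, t.1 ≠ t'.1 →
    Sep t.1 t.2.1 t.2.2 t'.1 t'.2.1 t'.2.2 := by
  have key : ∀ k m, ∀ t ∈ locT k m, ∀ t' ∈ locT k m, t.1 ≠ t'.1 →
      ∃ c ∈ ({(0, 1, 0), (0, -1, 0), (1, 0, -2), (-1, 0, 2), (-3, 5, 18), (3, -5, -18),
        (-1, 2, 8), (1, -2, -8)} : Finset (ℤ × ℤ × ℤ)),
      (c.1 * t.2.1.1 + c.2.1 * t.2.1.2 ≤ c.2.2 ∧
        c.1 * (t.2.1.1 + t.2.2.1) + c.2.1 * (t.2.1.2 + t.2.2.2) ≤ c.2.2 ∧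
        c.1 * (t.2.1.1 - t.2.2.1) + c.2.1 * (t.2.1.2 - t.2.2.2) ≤ c.2.2 ∧
        c.1 * (2 * t.1.1 - t.2.1.1) + c.2.1 * (2 * t.1.2 - t.2.1.2) ≤ c.2.2) ∧
      (c.2.2 ≤ c.1 * t'.2.1.1 + c.2.1 * t'.2.1.2 ∧
        c.2.2 ≤ c.1 * (t'.2.1.1 + t'.2.2.1) + c.2.1 * (t'.2.1.2 + t'.2.2.2) ∧
        c.2.2 ≤ c.1 * (t'.2.1.1 - t'.2.2.1) + c.2.1 * (t'.2.1.2 - t'.2.2.2) ∧
        c.2.2 ≤ c.1 * (2 * t'.1.1 - t'.2.1.1) + c.2.1 * (2 * t'.1.2 - t'.2.1.2)) ∧
      c.1 * t.1.1 + c.2.1 * t.1.2 < c.2.2 ∧ c.2.2 < c.1 * t'.1.1 + c.2.1 * t'.1.2 := by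
    decide
  intro k m t ht t' ht' hne
  obtain ⟨c, _, h1, h2, h3, h4⟩ := key k m t ht t' ht' hne
  exact ⟨c.1, c.2.1, c.2.2, h1, h2, h3, h4⟩

theorem sep_loc_loc (hL : L.WF M) {k k' : Kind} {m m' : Bool} {n n' oz oz' ob ob' e e' : ℤ × ℤ}
    (hn : n ∈ L.get k) (hn' : n' ∈ L.get k') (hm : k = .T → (m = true ↔ RowMode L srv n))
    (hm' : k' = .T → (m' = true ↔ RowMode L srv n')) (ho : (oz, ob, e) ∈ locT k m)
    (ho' : (oz', ob', e') ∈ locT k' m') (hne : base M n + oz ≠ base M n' + oz') :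
    Sep (base M n + oz) (base M n + ob) e (base M n' + oz') (base M n' + ob') e' := by
  have hM := hL.one_le
  by_cases hnn : n = n'
  · subst hnn
    have hk := kind_unique hL hn hn'
    subst hk
    apply sep_shift
    have hmm : locT k m = locT k m' := by
      cases k with
      | T =>
        have h1 := hm rfl
        have h2 := hm' rfl
        have : m = m' := by
          rw [Bool.eq_iff_iff, h1, h2]
        rw [this]
      | _ => cases m <;> cases m' <;> rfl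
    rw [← hmm] at ho'
    exact sep_same k m _ ho _ ho' (by
      intro h
      simp only at h
      exact hne (by rw [h]))
  · have h1 := bb_loc (M := M) (n := n) ho
    have h2 := bb_loc (M := M) (n := n') ho'
    have c1 : (if k = .V then (0 : ℤ) else 15) ≤ 15 := by split_ifs <;> norm_num
    have c2 : (if k = .H then (0 : ℤ) else 15) ≤ 15 := by split_ifs <;> norm_num
    have c3 : (if k' = .V then (0 : ℤ) else 15) ≤ 15 := by split_ifs <;> norm_num
    have c4 : (if k' = .H then (0 : ℤ) else 15) ≤ 15 := by split_ifs <;> norm_num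
    apply h1.sep h2
    have : n.1 ≠ n'.1 ∨ n.2 ≠ n'.2 := by
      by_contra hc
      push Not at hc
      exact hnn (Prod.ext hc.1 hc.2)
    rcases this with h | h
    · rcases lt_or_gt_of_ne h with h | h
      · have := base_lt1 hM h; left; linarith
      · have := base_lt1 hM h; right; left; linarith
    · rcases lt_or_gt_of_ne h with h | h
      · have := base_lt2 hM h; right; right; left; linarith
      · have := base_lt2 hM h; right; right; right; linarith

theorem sep_loc_row (hL : L.WF M) {k : Kind} {m : Bool} {n oz ob e r : ℤ × ℤ} {q : ℤ}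
    (hn : n ∈ L.get k) (hm : k = .T → (m = true ↔ RowMode L srv n))
    (ho : (oz, ob, e) ∈ locT k m) (hr : r ∈ L.R) (h2 : (srv r).2 = r.2)
    (hq : (srv r ∈ L.H ∧ q = 10) ∨ (srv r ∈ L.T ∧ (srv r).1 < r.1 ∧ q = -2)) :
    Sep (base M n + oz) (base M n + ob) e (base M r + (1, 1)) (base M (srv r) + (q, 0)) (4, 0) := by
  have hM := hL.one_le
  have hb := bb_loc (M := M) (n := n) ho
  have hb' := bb_row hM (s := srv r) h2 (row_q hq)
  have c2 : (if k = .H then (0 : ℤ) else 15) ≤ 15 := by split_ifs <;> norm_num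
  rcases lt_trichotomy n.2 r.2 with h | h | h
  · have := base_lt2 hM h
    exact hb.sep hb' (Or.inr (Or.inr (Or.inl (by linarith))))
  · have hbase : (base M n).2 = (base M r).2 := by unfold base; simp only; rw [h]
    cases k with
    | R => simp [locT] at ho
    | H =>
      apply hb.sep hb'
      right; right; left
      rw [if_pos rfl, hbase]; linarith
    | V =>
      have := hL.rowV n hn r (get_sub (k := .R) hr) h.symm
      subst this
      exact absurd (kind_unique hL (k := .R) hr hn) (by decide)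
    | T =>
      have hsn : srv r = n := by
        have hnodes : srv r ∈ L.nodes := by
          rcases hq with ⟨h', _⟩ | ⟨h', _⟩
          · exact get_sub (k := .H) h'
          · exact get_sub (k := .T) h'
        rcases hL.rowT n hn (srv r) hnodes (by rw [h2, h]) with h' | h'
        · exact h'
        · exfalso
          rcases hq with ⟨h'', _⟩ | ⟨h'', _⟩
          · exact absurd (kind_unique hL (k := .R) (k' := .H) h' h'') (by decide)
          · exact absurd (kind_unique hL (k := .R) (k' := .T) h' h'') (by decide)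
      have hq' : srv r ∈ L.T ∧ (srv r).1 < r.1 ∧ q = -2 := by
        rcases hq with ⟨h', _⟩ | h'
        · rw [hsn] at h'
          exact absurd (kind_unique hL (k := .H) h' hn) (by decide)
        · exact h'
      obtain ⟨q1, q2, q3⟩ := hq'
      have hmt : m = true := (hm rfl).2 ⟨r, hr, hsn, h2, Or.inr ⟨q1, q2⟩⟩
      subst hmt
      subst q3
      rw [hsn] at q2 ⊢
      have hlt := base_lt1 hM q2
      simp only [locT, Finset.mem_insert, Finset.mem_singleton, Prod.mk.injEq] at ho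
      rcases ho with ⟨rfl, rfl, rfl⟩ | ⟨rfl, rfl, rfl⟩ | ⟨rfl, rfl, rfl⟩
      · refine ⟨0, 1, (base M n).2, ⟨?_, ?_, ?_, ?_⟩, ⟨?_, ?_, ?_, ?_⟩, ?_, ?_⟩ <;>
          simp only [Prod.fst_add, Prod.snd_add] <;> linarith
      · refine ⟨3, -5, 3 * (base M n).1 - 5 * (base M n).2 - 18, ⟨?_, ?_, ?_, ?_⟩,
          ⟨?_, ?_, ?_, ?_⟩, ?_, ?_⟩ <;> simp only [Prod.fst_add, Prod.snd_add] <;> linarith
      · refine ⟨1, -2, (base M n).1 - 2 * (base M n).2 - 8, ⟨?_, ?_, ?_, ?_⟩,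
          ⟨?_, ?_, ?_, ?_⟩, ?_, ?_⟩ <;> simp only [Prod.fst_add, Prod.snd_add] <;> linarith
  · have := base_lt2 hM h
    exact hb.sep hb' (Or.inr (Or.inr (Or.inr (by linarith))))

theorem sep_loc_col (hL : L.WF M) (hmat : L.Matching srv) {k : Kind} {m : Bool}
    {n oz ob e r : ℤ × ℤ} {q : ℤ} (hn : n ∈ L.get k)
    (hm : k = .T → (m = true ↔ RowMode L srv n))
    (ho : (oz, ob, e) ∈ locT k m) (hr : r ∈ L.R) (h1 : (srv r).1 = r.1)
    (hq : (srv r ∈ L.V ∧ q = 10) ∨ (srv r ∈ L.T ∧ q = 2)) :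
    Sep (base M n + oz) (base M n + ob) e (base M r + (1, 1)) (base M (srv r) + (0, q)) (0, -4) := by
  have hM := hL.one_le
  have hb := bb_loc (M := M) (n := n) ho
  have hb' := bb_col hM (s := srv r) h1 (col_q hq)
  have c2 : (if k = .V then (0 : ℤ) else 15) ≤ 15 := by split_ifs <;> norm_num
  rcases lt_trichotomy n.1 r.1 with h | h | h
  · have := base_lt1 hM h
    exact hb.sep hb' (Or.inl (by linarith))
  · have hbase : (base M n).1 = (base M r).1 := by unfold base; simp only; rw [h]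
    cases k with
    | R => simp [locT] at ho
    | V =>
      apply hb.sep hb'
      left
      rw [if_pos rfl, hbase]; linarith
    | H =>
      have := hL.colH n hn r (get_sub (k := .R) hr) h.symm
      subst this
      exact absurd (kind_unique hL (k := .R) hr hn) (by decide)
    | T =>
      have hsn : srv r = n := by
        have hnodes : srv r ∈ L.nodes := by
          rcases hq with ⟨h', _⟩ | ⟨h', _⟩
          · exact get_sub (k := .V) h'
          · exact get_sub (k := .T) h'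
        rcases hL.colT n hn (srv r) hnodes (by rw [h1, h]) with h' | h'
        · exact h'
        · exfalso
          rcases hq with ⟨h'', _⟩ | ⟨h'', _⟩
          · exact absurd (kind_unique hL (k := .R) (k' := .V) h' h'') (by decide)
          · exact absurd (kind_unique hL (k := .R) (k' := .T) h' h'') (by decide)
      have hq' : srv r ∈ L.T ∧ q = 2 := by
        rcases hq with ⟨h', _⟩ | h'
        · rw [hsn] at h'
          exact absurd (kind_unique hL (k := .V) h' hn) (by decide)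
        · exact h'
      obtain ⟨q1, q3⟩ := hq'
      have hmt : m = false := by
        by_contra hc
        have hmt : m = true := by
          cases m
          · exact absurd rfl hc
          · rfl
        obtain ⟨r', hr', hs', hrow'⟩ := (hm rfl).1 hmt
        have : r' = r := hmat.inj r' hr' r hr (by rw [hs', hsn])
        subst this
        rcases hrow'.2 with h' | ⟨_, h'⟩
        · rw [hsn] at h'
          exact absurd (kind_unique hL (k := .H) h' hn) (by decide)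
        · linarith
      subst hmt
      subst q3
      rw [hsn]
      simp only [locT, Finset.mem_insert, Finset.mem_singleton, Prod.mk.injEq] at ho
      rcases ho with ⟨rfl, rfl, rfl⟩ | ⟨rfl, rfl, rfl⟩ | ⟨rfl, rfl, rfl⟩ <;>
        (refine ⟨1, 0, (base M n).1, ⟨?_, ?_, ?_, ?_⟩, ⟨?_, ?_, ?_, ?_⟩, ?_, ?_⟩ <;>
          simp only [Prod.fst_add, Prod.snd_add] <;> linarith)
  · have := base_lt1 hM h
    exact hb.sep hb' (Or.inr (Or.inl (by linarith)))

/-- two slivers in one row -/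
theorem sep_row_aux {X1 X2 A1 A2 R1 R2 Y : ℤ} (hX : X1 + 1000 < X2) (hA : A1 ≤ A2)
    (h1 : A1 = 2 * R1 - X1 - 8) (h2 : A2 = 2 * R2 - X2 - 8) :
    Sep (R1 + 1, Y + 1) (X1 + 10, Y) (4, 0) (R2 + 1, Y + 1) (X2 + 10, Y) (4, 0) := by
  refine ⟨2, -(A1 - X1 - 14), 2 * (X1 + 14) - (A1 - X1 - 14) * Y, ⟨?_, ?_, ?_, ?_⟩,
    ⟨?_, ?_, ?_, ?_⟩, ?_, ?_⟩ <;> simp only <;> linarith

theorem sep_col_aux {X1 X2 A1 A2 R1 R2 Y : ℤ} (hX : X1 + 1000 < X2) (hA : A1 ≤ A2)
    (h1 : A1 = 2 * R1 - X1 - 8) (h2 : A2 = 2 * R2 - X2 - 8) :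
    Sep (Y + 1, R1 + 1) (Y, X1 + 10) (0, -4) (Y + 1, R2 + 1) (Y, X2 + 10) (0, -4) := by
  refine ⟨-(A1 - X1 - 14), 2, 2 * (X1 + 14) - (A1 - X1 - 14) * Y, ⟨?_, ?_, ?_, ?_⟩,
    ⟨?_, ?_, ?_, ?_⟩, ?_, ?_⟩ <;> simp only <;> linarith

theorem sep_row_lt (hL : L.WF M) (hmat : L.Matching srv) {r r' : ℤ × ℤ} (hr : r ∈ L.R)
    (hr' : r' ∈ L.R) (h2 : (srv r).2 = r.2) (h2' : (srv r').2 = r'.2) (hH : srv r ∈ L.H)
    (hH' : srv r' ∈ L.H) (hrow : r.2 = r'.2) (hlt : (srv r).1 < (srv r').1) :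
    Sep (base M r + (1, 1)) (base M (srv r) + (10, 0)) (4, 0) (base M r' + (1, 1))
      (base M (srv r') + (10, 0)) (4, 0) := by
  have hM := hL.one_le
  have ho := hmat.rowOrder r hr r' hr' ⟨h2, Or.inl hH⟩ ⟨h2', Or.inl hH'⟩ (by rw [h2, h2', hrow]) hlt
  have hX := base_lt1 hM hlt
  have e1 : (base M (srv r)).2 = (base M r).2 := by unfold base; simp only; rw [h2]
  have e2 : (base M (srv r')).2 = (base M r).2 := by unfold base; simp only; rw [h2', hrow]
  have e3 : (base M r').2 = (base M r).2 := by unfold base; simp only; rw [hrow]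
  have hA := base_mono1 hM _ _ ho
  have g1 : 2 * (cN M * cP M) * (2 * r.1 - (srv r).1 + 1) =
      2 * (base M r).1 - (base M (srv r)).1 := by
    unfold base; simp only; ring
  have g2 : 2 * (cN M * cP M) * (2 * r'.1 - (srv r').1 + 1) =
      2 * (base M r').1 - (base M (srv r')).1 := by
    unfold base; simp only; ring
  rw [g1, g2] at hA
  have := sep_row_aux (X1 := (base M (srv r)).1) (X2 := (base M (srv r')).1)
    (A1 := 2 * (base M r).1 - (base M (srv r)).1 - 8)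
    (A2 := 2 * (base M r').1 - (base M (srv r')).1 - 8) (R1 := (base M r).1)
    (R2 := (base M r').1) (Y := (base M r).2) hX (by linarith) rfl rfl
  have f1 : base M r + ((1, 1) : ℤ × ℤ) = ((base M r).1 + 1, (base M r).2 + 1) := rfl
  have f2 : base M (srv r) + ((10, 0) : ℤ × ℤ) = ((base M (srv r)).1 + 10, (base M r).2) := by
    apply Prod.ext
    · rfl
    · simp only [Prod.snd_add]; rw [e1]; ring
  have f3 : base M r' + ((1, 1) : ℤ × ℤ) = ((base M r').1 + 1, (base M r).2 + 1) := by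
    apply Prod.ext
    · rfl
    · simp only [Prod.snd_add]; rw [e3]
  have f4 : base M (srv r') + ((10, 0) : ℤ × ℤ) = ((base M (srv r')).1 + 10, (base M r).2) := by
    apply Prod.ext
    · rfl
    · simp only [Prod.snd_add]; rw [e2]; ring
  rw [f1, f2, f3, f4]
  exact this

theorem sep_col_lt (hL : L.WF M) (hmat : L.Matching srv) {r r' : ℤ × ℤ} (hr : r ∈ L.R)
    (hr' : r' ∈ L.R) (h2 : (srv r).1 = r.1) (h2' : (srv r').1 = r'.1) (hH : srv r ∈ L.V)
    (hH' : srv r' ∈ L.V) (hrow : r.1 = r'.1) (hlt : (srv r).2 < (srv r').2) :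
    Sep (base M r + (1, 1)) (base M (srv r) + (0, 10)) (0, -4) (base M r' + (1, 1))
      (base M (srv r') + (0, 10)) (0, -4) := by
  have hM := hL.one_le
  have ho := hmat.colOrder r hr r' hr' ⟨h2, Or.inl hH⟩ ⟨h2', Or.inl hH'⟩ (by rw [h2, h2', hrow]) hlt
  have hX := base_lt2 hM hlt
  have e1 : (base M (srv r)).1 = (base M r).1 := by unfold base; simp only; rw [h2]
  have e2 : (base M (srv r')).1 = (base M r).1 := by unfold base; simp only; rw [h2', hrow]
  have e3 : (base M r').1 = (base M r).1 := by unfold base; simp only; rw [hrow]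
  have hA := base_mono2 hM _ _ ho
  have g1 : 2 * cN M * (2 * r.2 - (srv r).2 + 1) =
      2 * (base M r).2 - (base M (srv r)).2 := by
    unfold base; simp only; ring
  have g2 : 2 * cN M * (2 * r'.2 - (srv r').2 + 1) =
      2 * (base M r').2 - (base M (srv r')).2 := by
    unfold base; simp only; ring
  rw [g1, g2] at hA
  have := sep_col_aux (X1 := (base M (srv r)).2) (X2 := (base M (srv r')).2)
    (A1 := 2 * (base M r).2 - (base M (srv r)).2 - 8)
    (A2 := 2 * (base M r').2 - (base M (srv r')).2 - 8) (R1 := (base M r).2)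
    (R2 := (base M r').2) (Y := (base M r).1) hX (by linarith) rfl rfl
  have f1 : base M r + ((1, 1) : ℤ × ℤ) = ((base M r).1 + 1, (base M r).2 + 1) := rfl
  have f2 : base M (srv r) + ((0, 10) : ℤ × ℤ) = ((base M r).1, (base M (srv r)).2 + 10) := by
    apply Prod.ext
    · simp only [Prod.fst_add]; rw [e1]; ring
    · rfl
  have f3 : base M r' + ((1, 1) : ℤ × ℤ) = ((base M r).1 + 1, (base M r').2 + 1) := by
    apply Prod.ext
    · simp only [Prod.fst_add]; rw [e3]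
    · rfl
  have f4 : base M (srv r') + ((0, 10) : ℤ × ℤ) = ((base M r).1, (base M (srv r')).2 + 10) := by
    apply Prod.ext
    · simp only [Prod.fst_add]; rw [e2]; ring
    · rfl
  rw [f1, f2, f3, f4]
  exact this

theorem sep_row_row (hL : L.WF M) (hmat : L.Matching srv) {r r' : ℤ × ℤ} {q q' : ℤ}
    (hr : r ∈ L.R) (hr' : r' ∈ L.R) (h2 : (srv r).2 = r.2) (h2' : (srv r').2 = r'.2)
    (hq : (srv r ∈ L.H ∧ q = 10) ∨ (srv r ∈ L.T ∧ (srv r).1 < r.1 ∧ q = -2))
    (hq' : (srv r' ∈ L.H ∧ q' = 10) ∨ (srv r' ∈ L.T ∧ (srv r').1 < r'.1 ∧ q' = -2))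
    (hne : r ≠ r') :
    Sep (base M r + (1, 1)) (base M (srv r) + (q, 0)) (4, 0) (base M r' + (1, 1))
      (base M (srv r') + (q', 0)) (4, 0) := by
  have hM := hL.one_le
  have hb := bb_row hM (s := srv r) h2 (row_q hq)
  have hb' := bb_row hM (s := srv r') h2' (row_q hq')
  rcases lt_trichotomy r.2 r'.2 with h | h | h
  · have := base_lt2 hM h
    exact hb.sep hb' (Or.inr (Or.inr (Or.inl (by linarith))))
  · have hsne : srv r ≠ srv r' := fun he => hne (hmat.inj r hr r' hr' he)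
    have notT : ∀ a b : ℤ × ℤ, a ∈ L.T → (b ∈ L.H ∨ b ∈ L.T) → b.2 = a.2 → b = a := by
      intro a b ha hb he
      have hbn : b ∈ L.nodes := by
        rcases hb with h | h
        · exact get_sub (k := .H) h
        · exact get_sub (k := .T) h
      rcases hL.rowT a ha b hbn he with h | h
      · exact h
      · exfalso
        rcases hb with h' | h'
        · exact absurd (kind_unique hL (k := .R) (k' := .H) h h') (by decide)
        · exact absurd (kind_unique hL (k := .R) (k' := .T) h h') (by decide)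
    have k1 : srv r ∈ L.H ∨ srv r ∈ L.T := by
      rcases hq with ⟨h, _⟩ | ⟨h, _⟩
      · exact Or.inl h
      · exact Or.inr h
    have k2 : srv r' ∈ L.H ∨ srv r' ∈ L.T := by
      rcases hq' with ⟨h, _⟩ | ⟨h, _⟩
      · exact Or.inl h
      · exact Or.inr h
    have H1 : srv r ∈ L.H ∧ q = 10 := by
      rcases hq with h' | ⟨h', _⟩
      · exact h'
      · exact absurd (notT _ _ h' k2 (by rw [h2', h2, h])).symm hsne
    have H2 : srv r' ∈ L.H ∧ q' = 10 := by
      rcases hq' with h' | ⟨h', _⟩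
      · exact h'
      · exact absurd (notT _ _ h' k1 (by rw [h2', h2, h])) hsne
    obtain ⟨H1, rfl⟩ := H1
    obtain ⟨H2, rfl⟩ := H2
    have hx : (srv r).1 ≠ (srv r').1 := by
      intro hx
      exact hsne (Prod.ext hx (by rw [h2, h2', h]))
    rcases lt_or_gt_of_ne hx with hx | hx
    · exact sep_row_lt hL hmat hr hr' h2 h2' H1 H2 h hx
    · exact (sep_row_lt hL hmat hr' hr h2' h2 H2 H1 h.symm hx).symm
  · have := base_lt2 hM h
    exact hb.sep hb' (Or.inr (Or.inr (Or.inr (by linarith))))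

theorem sep_col_col (hL : L.WF M) (hmat : L.Matching srv) {r r' : ℤ × ℤ} {q q' : ℤ}
    (hr : r ∈ L.R) (hr' : r' ∈ L.R) (h2 : (srv r).1 = r.1) (h2' : (srv r').1 = r'.1)
    (hq : (srv r ∈ L.V ∧ q = 10) ∨ (srv r ∈ L.T ∧ q = 2))
    (hq' : (srv r' ∈ L.V ∧ q' = 10) ∨ (srv r' ∈ L.T ∧ q' = 2))
    (hne : r ≠ r') :
    Sep (base M r + (1, 1)) (base M (srv r) + (0, q)) (0, -4) (base M r' + (1, 1))
      (base M (srv r') + (0, q')) (0, -4) := by
  have hM := hL.one_le
  have hb := bb_col hM (s := srv r) h2 (col_q hq)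
  have hb' := bb_col hM (s := srv r') h2' (col_q hq')
  rcases lt_trichotomy r.1 r'.1 with h | h | h
  · have := base_lt1 hM h
    exact hb.sep hb' (Or.inl (by linarith))
  · have hsne : srv r ≠ srv r' := fun he => hne (hmat.inj r hr r' hr' he)
    have notT : ∀ a b : ℤ × ℤ, a ∈ L.T → (b ∈ L.V ∨ b ∈ L.T) → b.1 = a.1 → b = a := by
      intro a b ha hb he
      have hbn : b ∈ L.nodes := by
        rcases hb with h | h
        · exact get_sub (k := .V) h
        · exact get_sub (k := .T) h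
      rcases hL.colT a ha b hbn he with h | h
      · exact h
      · exfalso
        rcases hb with h' | h'
        · exact absurd (kind_unique hL (k := .R) (k' := .V) h h') (by decide)
        · exact absurd (kind_unique hL (k := .R) (k' := .T) h h') (by decide)
    have k1 : srv r ∈ L.V ∨ srv r ∈ L.T := by
      rcases hq with ⟨h, _⟩ | ⟨h, _⟩
      · exact Or.inl h
      · exact Or.inr h
    have k2 : srv r' ∈ L.V ∨ srv r' ∈ L.T := by
      rcases hq' with ⟨h, _⟩ | ⟨h, _⟩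
      · exact Or.inl h
      · exact Or.inr h
    have H1 : srv r ∈ L.V ∧ q = 10 := by
      rcases hq with h' | ⟨h', _⟩
      · exact h'
      · exact absurd (notT _ _ h' k2 (by rw [h2', h2, h])).symm hsne
    have H2 : srv r' ∈ L.V ∧ q' = 10 := by
      rcases hq' with h' | ⟨h', _⟩
      · exact h'
      · exact absurd (notT _ _ h' k1 (by rw [h2', h2, h])) hsne
    obtain ⟨H1, rfl⟩ := H1
    obtain ⟨H2, rfl⟩ := H2
    have hx : (srv r).2 ≠ (srv r').2 := by
      intro hx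
      exact hsne (Prod.ext (by rw [h2, h2', h]) hx)
    rcases lt_or_gt_of_ne hx with hx | hx
    · exact sep_col_lt hL hmat hr hr' h2 h2' H1 H2 h hx
    · exact (sep_col_lt hL hmat hr' hr h2' h2 H2 H1 h.symm hx).symm
  · have := base_lt1 hM h
    exact hb.sep hb' (Or.inr (Or.inl (by linarith)))

theorem sep_row_col (hL : L.WF M) (hmat : L.Matching srv) {r r' : ℤ × ℤ} {q q' : ℤ}
    (hr : r ∈ L.R) (hr' : r' ∈ L.R) (h2 : (srv r).2 = r.2) (h1' : (srv r').1 = r'.1)
    (hq : (srv r ∈ L.H ∧ q = 10) ∨ (srv r ∈ L.T ∧ (srv r).1 < r.1 ∧ q = -2))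
    (hq' : (srv r' ∈ L.V ∧ q' = 10) ∨ (srv r' ∈ L.T ∧ q' = 2)) :
    Sep (base M r + (1, 1)) (base M (srv r) + (q, 0)) (4, 0) (base M r' + (1, 1))
      (base M (srv r') + (0, q')) (0, -4) := by
  have hM := hL.one_le
  have hN := cN_ge hM
  have hNP := cNP_ge hM
  have hb := bb_row hM (s := srv r) h2 (row_q hq)
  have hb' := bb_col hM (s := srv r') h1' (col_q hq')
  have hnc := hmat.noncross r hr r' hr' (row_isRow h2 hq) (col_isCol h1' hq')
  apply hb.sep hb'
  have e1 : (base M r').1 = 2 * (cN M * cP M) * (r'.1 + 1) := rfl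
  have e2 : (base M r).2 = 2 * cN M * (r.2 + 1) := rfl
  have hcase : ((srv r').1 < min (srv r).1 (2 * r.1 - (srv r).1)) ∨
      (max (srv r).1 (2 * r.1 - (srv r).1) < (srv r').1) ∨
      ((srv r).2 < min (srv r').2 (2 * r'.2 - (srv r').2)) ∨
      (max (srv r').2 (2 * r'.2 - (srv r').2) < (srv r).2) := by
    by_contra hc
    push Not at hc
    exact hnc ⟨hc.1, hc.2.1, hc.2.2.1, hc.2.2.2⟩
  rcases hcase with h | h | h | h
  · right; left
    rw [h1'] at h
    have := base_mono1 hM (r'.1 + 1) _ h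
    rw [e1]; linarith
  · left
    rw [h1'] at h
    have := base_mono1 hM (max (srv r).1 (2 * r.1 - (srv r).1) + 1) _ h
    rw [e1]; linarith
  · right; right; left
    rw [h2] at h
    have := base_mono2 hM (r.2 + 1) _ h
    rw [e2]; linarith
  · right; right; right
    rw [h2] at h
    have := base_mono2 hM (max (srv r').2 (2 * r'.2 - (srv r').2) + 1) _ h
    rw [e2]; linarith

theorem sh_sep (hL : L.WF M) (hmat : L.Matching srv) {z b e z' b' e' : ℤ × ℤ}
    (h : Sh L M srv z b e) (h' : Sh L M srv z' b' e') (hne : z ≠ z') :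
    Sep z b e z' b' e' := by
  cases h with
  | loc k m n oz ob _ hn hm ho =>
    cases h' with
    | loc k' m' n' oz' ob' _ hn' hm' ho' => exact sep_loc_loc hL hn hn' hm hm' ho ho' hne
    | row r q hr h2 hq => exact sep_loc_row hL hn hm ho hr h2 hq
    | col r q hr h1 hq => exact sep_loc_col hL hmat hn hm ho hr h1 hq
  | row r q hr h2 hq =>
    cases h' with
    | loc k' m' n' oz' ob' _ hn' hm' ho' => exact (sep_loc_row hL hn' hm' ho' hr h2 hq).symm
    | row r' q' hr' h2' hq' =>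
      exact sep_row_row hL hmat hr hr' h2 h2' hq hq' (fun he => hne (by rw [he]))
    | col r' q' hr' h1' hq' => exact sep_row_col hL hmat hr hr' h2 h1' hq hq'
  | col r q hr h1 hq =>
    cases h' with
    | loc k' m' n' oz' ob' _ hn' hm' ho' => exact (sep_loc_col hL hmat hn' hm' ho' hr h1 hq).symm
    | row r' q' hr' h2' hq' => exact (sep_row_col hL hmat hr' hr h2' h1 hq' hq).symm
    | col r' q' hr' h1' hq' =>
      exact sep_col_col hL hmat hr hr' h1 h1' hq hq' (fun he => hne (by rw [he]))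

theorem cpt_b (z b e : ℤ × ℤ) : cpt z (b - z) e (1, 0) = b := by
  unfold cpt; apply Prod.ext <;> simp

theorem cpt_p (z b e : ℤ × ℤ) : cpt z (b - z) e (1, 1) = (b.1 + e.1, b.2 + e.2) := by
  unfold cpt; apply Prod.ext <;> simp

theorem cpt_m (z b e : ℤ × ℤ) : cpt z (b - z) e (1, -1) = (b.1 - e.1, b.2 - e.2) := by
  unfold cpt; apply Prod.ext <;> simp <;> ring

theorem cpt_a (z b e : ℤ × ℤ) : cpt z (b - z) e (-1, 0) = (2 * z.1 - b.1, 2 * z.2 - b.2) := by
  unfold cpt; apply Prod.ext <;> simp <;> ring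

theorem wset_not_pts {w : ℤ × ℤ} (hw : w ∈ wset L M) : w ∉ pts L M := by
  intro h
  rcases mem_pts.1 h with h | h
  · exact h.2 hw
  · have h1 := zset_odd h
    have h2 := wset_even hw
    omega

theorem mem_pts_of {p : ℤ × ℤ} (he : p.1 % 2 = 0 ∧ p.2 % 2 = 0) (hb : inBox M p)
    (hw : p ∉ wset L M) : p ∈ pts L M := by
  obtain ⟨h1, h2, h3, h4⟩ := hb
  apply mem_pts.2
  left
  exact ⟨mem_evenBox.2 ⟨p.1 / 2, p.2 / 2, by omega, by omega, by omega, by omega,
    Prod.ext (by simp only; omega) (by simp only; omega)⟩, hw⟩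

theorem base_even (n : ℤ × ℤ) : (base M n).1 % 2 = 0 ∧ (base M n).2 % 2 = 0 := by
  unfold base
  simp only
  rw [mul_assoc 2, mul_assoc 2]
  omega

/-- a point near a node which is not a missing point -/
theorem near_mem (hL : L.WF M) {n o : ℤ × ℤ} (hn : n ∈ L.nodes) (ho : |o.1| ≤ 100 ∧ |o.2| ≤ 100)
    (he : o.1 % 2 = 0 ∧ o.2 % 2 = 0) (hw : ∀ k, o ∉ woff k) : base M n + o ∈ pts L M := by
  have hk : ∃ k, n ∈ L.get k := by
    unfold Layout.nodes at hn
    simp only [Finset.mem_union] at hn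
    rcases hn with ((h | h) | h) | h
    · exact ⟨.R, h⟩
    · exact ⟨.H, h⟩
    · exact ⟨.V, h⟩
    · exact ⟨.T, h⟩
  obtain ⟨k, hk⟩ := hk
  apply mem_pts_of _ (inBox_of hL hk ho)
  · intro h
    obtain ⟨k', n', hn', o', ho', he'⟩ := mem_wset.1 h
    have hb := woff_bd k' o' ho'
    have := (decode hL.one_le ho ⟨by linarith [hb.1], by linarith [hb.2]⟩ he').2
    subst this
    exact hw k' ho'
  · have := base_even (M := M) n
    simp only [Prod.fst_add, Prod.snd_add]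
    omega

theorem woff_ne2 : ∀ k, ∀ o ∈ woff k, o.2 ≠ 2 ∧ o.1 ≠ 2 := by decide

/-- the apex of a row sliver -/
theorem apex_row_mem (hL : L.WF M) {r s : ℤ × ℤ} {q : ℤ} (hr : r ∈ L.nodes) (hs : s ∈ L.nodes)
    (h2 : s.2 = r.2) (hq : q = 10 ∨ q = -2) :
    (2 * ((base M r).1 + 1) - ((base M s).1 + q), 2 * ((base M r).2 + 1) - ((base M s).2 + 0)) ∈
      pts L M := by
  have hM := hL.one_le
  have hN := cN_ge hM
  have hNP := cNP_ge hM
  have e : (base M s).2 = (base M r).2 := by unfold base; simp only; rw [h2]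
  obtain ⟨r1, r2, r3, r4⟩ := hL.bd r hr
  obtain ⟨s1, s2, s3, s4⟩ := hL.bd s hs
  have e1 : 2 * (base M r).1 - (base M s).1 = 2 * (cN M * cP M) * (2 * r.1 - s.1 + 1) := by
    unfold base; simp only; ring
  have l1 := base_mono1 hM 0 (2 * r.1 - s.1) (by linarith)
  have l2 := base_mono1 hM (2 * r.1 - s.1) (3 * M) (by linarith)
  have m1 := base_mono2 hM M r.2 r3
  have m2 := base_mono2 hM r.2 (2 * M) r4
  have e2 : (base M r).2 = 2 * cN M * (r.2 + 1) := rfl
  have k1 : cN M * cP M * 1 ≤ cN M * cP M * M := mul_le_mul_of_nonneg_left hM (by linarith)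
  have k2 : cN M * 1 ≤ cN M * M := mul_le_mul_of_nonneg_left hM (by linarith)
  apply mem_pts_of
  · have h3 := base_even (M := M) r
    have h4 := base_even (M := M) s
    simp only
    rcases hq with rfl | rfl <;> omega
  · unfold inBox
    rw [boxA_eq hM, boxB_eq hM]
    simp only
    refine ⟨?_, ?_, ?_, ?_⟩
    · rcases hq with rfl | rfl <;> linarith
    · rcases hq with rfl | rfl <;> linarith
    · linarith
    · linarith
  · intro hw
    obtain ⟨k', n', hn', o', ho', he'⟩ := mem_wset.1 hw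
    have hb := (woff_bd k' o' ho').2
    have h5 := congrArg Prod.snd he'
    simp only [Prod.snd_add] at h5
    have h6 : (base M n').2 = 2 * cN M * (n'.2 + 1) := rfl
    have h7 : r.2 - n'.2 = 0 := by
      apply big_zero (N := 2 * cN M) (g := o'.2 - 2)
      · linarith
      · rw [abs_le] at hb
        rw [abs_lt]; constructor <;> linarith
    have h8 : r.2 = n'.2 := by linarith
    rw [h8] at e2
    exact (woff_ne2 k' o' ho').1 (by linarith)

/-- the apex of a column sliver -/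
theorem apex_col_mem (hL : L.WF M) {r s : ℤ × ℤ} {q : ℤ} (hr : r ∈ L.nodes) (hs : s ∈ L.nodes)
    (h1 : s.1 = r.1) (hq : q = 10 ∨ q = 2) :
    (2 * ((base M r).1 + 1) - ((base M s).1 + 0), 2 * ((base M r).2 + 1) - ((base M s).2 + q)) ∈
      pts L M := by
  have hM := hL.one_le
  have hN := cN_ge hM
  have hNP := cNP_ge hM
  have e : (base M s).1 = (base M r).1 := by unfold base; simp only; rw [h1]
  obtain ⟨r1, r2, r3, r4⟩ := hL.bd r hr
  obtain ⟨s1, s2, s3, s4⟩ := hL.bd s hs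
  have e1 : 2 * (base M r).2 - (base M s).2 = 2 * cN M * (2 * r.2 - s.2 + 1) := by
    unfold base; simp only; ring
  have l1 := base_mono2 hM 0 (2 * r.2 - s.2) (by linarith)
  have l2 := base_mono2 hM (2 * r.2 - s.2) (3 * M) (by linarith)
  have m1 := base_mono1 hM M r.1 r1
  have m2 := base_mono1 hM r.1 (2 * M) r2
  have e2 : (base M r).1 = 2 * (cN M * cP M) * (r.1 + 1) := rfl
  have k1 : cN M * cP M * 1 ≤ cN M * cP M * M := mul_le_mul_of_nonneg_left hM (by linarith)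
  have k2 : cN M * 1 ≤ cN M * M := mul_le_mul_of_nonneg_left hM (by linarith)
  apply mem_pts_of
  · have h3 := base_even (M := M) r
    have h4 := base_even (M := M) s
    simp only
    rcases hq with rfl | rfl <;> omega
  · unfold inBox
    rw [boxA_eq hM, boxB_eq hM]
    simp only
    refine ⟨?_, ?_, ?_, ?_⟩
    · linarith
    · linarith
    · rcases hq with rfl | rfl <;> linarith
    · rcases hq with rfl | rfl <;> linarith
  · intro hw
    obtain ⟨k', n', hn', o', ho', he'⟩ := mem_wset.1 hw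
    have hb := (woff_bd k' o' ho').1
    have h5 := congrArg Prod.fst he'
    simp only [Prod.fst_add] at h5
    have h6 : (base M n').1 = 2 * (cN M * cP M) * (n'.1 + 1) := rfl
    have h7 : r.1 - n'.1 = 0 := by
      apply big_zero (N := 2 * (cN M * cP M)) (g := o'.1 - 2)
      · linarith
      · rw [abs_le] at hb
        rw [abs_lt]; constructor <;> linarith
    have h8 : r.1 = n'.1 := by linarith
    rw [h8] at e2
    exact (woff_ne2 k' o' ho').2 (by linarith)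

/-- what the completeness core needs for one star -/
structure ShOK (L : Layout) (M : ℤ) (z b e : ℤ × ℤ) : Prop where
  det : idet (b - z) e = 4
  e4 : e.1 % 4 = 0 ∧ e.2 % 4 = 0
  be : b.1 % 2 = 0 ∧ b.2 % 2 = 0
  vb : b ∈ pts L M
  vp : (b.1 + e.1, b.2 + e.2) ∈ pts L M
  vm : (b.1 - e.1, b.2 - e.2) ∈ pts L M
  va : (2 * z.1 - b.1, 2 * z.2 - b.2) ∈ pts L M
  wp : (b.1 + e.1 / 2, b.2 + e.2 / 2) ∈ wset L M
  wm : (b.1 - e.1 / 2, b.2 - e.2 / 2) ∈ wset L M

theorem loc_bd : ∀ k m, ∀ t ∈ locT k m, (|t.2.1.1| ≤ 100 ∧ |t.2.1.2| ≤ 100) ∧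
    (|t.2.1.1 + t.2.2.1| ≤ 100 ∧ |t.2.1.2 + t.2.2.2| ≤ 100) ∧
    (|t.2.1.1 - t.2.2.1| ≤ 100 ∧ |t.2.1.2 - t.2.2.2| ≤ 100) ∧
    (|2 * t.1.1 - t.2.1.1| ≤ 100 ∧ |2 * t.1.2 - t.2.1.2| ≤ 100) := by decide

theorem shOK_loc (hL : L.WF M) {k : Kind} {m : Bool} {n oz ob e : ℤ × ℤ} (hn : n ∈ L.get k)
    (ho : (oz, ob, e) ∈ locT k m) : ShOK L M (base M n + oz) (base M n + ob) e := by
  obtain ⟨d1, d2, d3, d4, d5⟩ := locT_det k m _ ho
  obtain ⟨w1, w2⟩ := locT_w k m _ ho
  obtain ⟨b1, b2, b3, b4⟩ := loc_bd k m _ ho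
  have hv := locT_v k m _ ho
  have hnn := get_sub hn
  have hbe := base_even (M := M) n
  simp only at d1 d2 d3 d4 d5 w1 w2 b1 b2 b3 b4 hv
  refine ⟨?_, ⟨d2, d3⟩, ?_, ?_, ?_, ?_, ?_, ?_, ?_⟩
  · have : base M n + ob - (base M n + oz) = ob - oz := by abel
    rw [this]; exact d1
  · simp only [Prod.fst_add, Prod.snd_add]; omega
  · exact near_mem hL hnn b1 ⟨d4, d5⟩ (fun k' => (hv k').1)
  · have := near_mem hL hnn (o := (ob.1 + e.1, ob.2 + e.2)) b2 (by simp only; omega)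
      (fun k' => (hv k').2.1)
    have e' : base M n + ((ob.1 + e.1, ob.2 + e.2) : ℤ × ℤ) =
        ((base M n + ob).1 + e.1, (base M n + ob).2 + e.2) := by
      apply Prod.ext
      · simp only [Prod.fst_add]; ring
      · simp only [Prod.snd_add]; ring
    rw [e'] at this; exact this
  · have := near_mem hL hnn (o := (ob.1 - e.1, ob.2 - e.2)) b3 (by simp only; omega)
      (fun k' => (hv k').2.2.1)
    have e' : base M n + ((ob.1 - e.1, ob.2 - e.2) : ℤ × ℤ) =
        ((base M n + ob).1 - e.1, (base M n + ob).2 - e.2) := by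
      apply Prod.ext
      · simp only [Prod.fst_add]; ring
      · simp only [Prod.snd_add]; ring
    rw [e'] at this; exact this
  · have := near_mem hL hnn (o := (2 * oz.1 - ob.1, 2 * oz.2 - ob.2)) b4 (by simp only; omega)
      (fun k' => (hv k').2.2.2)
    have e' : base M n + ((2 * oz.1 - ob.1, 2 * oz.2 - ob.2) : ℤ × ℤ) =
        (2 * (base M n + oz).1 - (base M n + ob).1, 2 * (base M n + oz).2 - (base M n + ob).2) := by
      apply Prod.ext
      · simp only [Prod.fst_add]; ring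
      · simp only [Prod.snd_add]; ring
    rw [e'] at this; exact this
  · refine mem_wset.2 ⟨k, n, hn, _, w1, ?_⟩
    apply Prod.ext
    · simp only [Prod.fst_add]; ring
    · simp only [Prod.snd_add]; ring
  · refine mem_wset.2 ⟨k, n, hn, _, w2, ?_⟩
    apply Prod.ext
    · simp only [Prod.fst_add]; ring
    · simp only [Prod.snd_add]; ring

theorem off_row : ∀ q ∈ ({10, -2} : Finset ℤ), ∀ k, ((q, 0) : ℤ × ℤ) ∉ woff k ∧
    ((q + 4, 0) : ℤ × ℤ) ∉ woff k ∧ ((q - 4, 0) : ℤ × ℤ) ∉ woff k := by decide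

theorem off_col : ∀ q ∈ ({10, 2} : Finset ℤ), ∀ k, ((0, q) : ℤ × ℤ) ∉ woff k ∧
    ((0, q + 4) : ℤ × ℤ) ∉ woff k ∧ ((0, q - 4) : ℤ × ℤ) ∉ woff k := by decide

theorem shOK_row (hL : L.WF M) {r : ℤ × ℤ} {q : ℤ} (hr : r ∈ L.R) (h2 : (srv r).2 = r.2)
    (hq : (srv r ∈ L.H ∧ q = 10) ∨ (srv r ∈ L.T ∧ (srv r).1 < r.1 ∧ q = -2)) :
    ShOK L M (base M r + (1, 1)) (base M (srv r) + (q, 0)) (4, 0) := by
  have hq2 := row_q hq
  have hqm : q ∈ ({10, -2} : Finset ℤ) := by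
    rcases hq2 with rfl | rfl <;> decide
  have hoff := off_row q hqm
  have hsn : srv r ∈ L.nodes := by
    rcases hq with ⟨h, _⟩ | ⟨h, _⟩
    · exact get_sub (k := .H) h
    · exact get_sub (k := .T) h
  have hrn : r ∈ L.nodes := get_sub (k := .R) hr
  have e : (base M (srv r)).2 = (base M r).2 := by unfold base; simp only; rw [h2]
  have hbe := base_even (M := M) (srv r)
  have hw : ∀ o : ℤ × ℤ, (o = (q + 2, 0) ∨ o = (q - 2, 0)) → base M (srv r) + o ∈ wset L M := by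
    intro o ho
    rcases hq with ⟨h, rfl⟩ | ⟨h, _, rfl⟩
    · refine mem_wset.2 ⟨.H, srv r, h, o, ?_, rfl⟩
      rcases ho with rfl | rfl <;> decide
    · refine mem_wset.2 ⟨.T, srv r, h, o, ?_, rfl⟩
      rcases ho with rfl | rfl <;> decide
  refine ⟨?_, by decide, ?_, ?_, ?_, ?_, ?_, ?_, ?_⟩
  · unfold idet
    simp only [Prod.fst_sub, Prod.snd_sub, Prod.fst_add, Prod.snd_add]
    rw [e]; ring
  · simp only [Prod.fst_add, Prod.snd_add]
    rcases hq2 with rfl | rfl <;> omega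
  · refine near_mem hL hsn ?_ ?_ (fun k => (hoff k).1)
    · rcases hq2 with rfl | rfl <;> decide
    · rcases hq2 with rfl | rfl <;> decide
  · have := near_mem hL hsn (o := (q + 4, 0)) (by rcases hq2 with rfl | rfl <;> decide)
      (by rcases hq2 with rfl | rfl <;> decide) (fun k => (hoff k).2.1)
    have e' : base M (srv r) + ((q + 4, 0) : ℤ × ℤ) = ((base M (srv r) + (q, 0)).1 + (4, 0).1,
        (base M (srv r) + (q, 0)).2 + (4, 0).2) := by
      apply Prod.ext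
      · simp only [Prod.fst_add]; ring
      · simp only [Prod.snd_add]; ring
    rw [e'] at this; exact this
  · have := near_mem hL hsn (o := (q - 4, 0)) (by rcases hq2 with rfl | rfl <;> decide)
      (by rcases hq2 with rfl | rfl <;> decide) (fun k => (hoff k).2.2)
    have e' : base M (srv r) + ((q - 4, 0) : ℤ × ℤ) = ((base M (srv r) + (q, 0)).1 - (4, 0).1,
        (base M (srv r) + (q, 0)).2 - (4, 0).2) := by
      apply Prod.ext
      · simp only [Prod.fst_add]; ring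
      · simp only [Prod.snd_add]; ring
    rw [e'] at this; exact this
  · exact apex_row_mem hL hrn hsn h2 hq2
  · have := hw (q + 2, 0) (Or.inl rfl)
    have e' : base M (srv r) + ((q + 2, 0) : ℤ × ℤ) = ((base M (srv r) + (q, 0)).1 + (4, 0).1 / 2,
        (base M (srv r) + (q, 0)).2 + (4, 0).2 / 2) := by
      apply Prod.ext
      · simp only [Prod.fst_add]; norm_num; ring
      · simp only [Prod.snd_add]; norm_num
    rw [e'] at this; exact this
  · have := hw (q - 2, 0) (Or.inr rfl)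
    have e' : base M (srv r) + ((q - 2, 0) : ℤ × ℤ) = ((base M (srv r) + (q, 0)).1 - (4, 0).1 / 2,
        (base M (srv r) + (q, 0)).2 - (4, 0).2 / 2) := by
      apply Prod.ext
      · simp only [Prod.fst_add]; norm_num; ring
      · simp only [Prod.snd_add]; norm_num
    rw [e'] at this; exact this

theorem shOK_col (hL : L.WF M) {r : ℤ × ℤ} {q : ℤ} (hr : r ∈ L.R) (h1 : (srv r).1 = r.1)
    (hq : (srv r ∈ L.V ∧ q = 10) ∨ (srv r ∈ L.T ∧ q = 2)) :
    ShOK L M (base M r + (1, 1)) (base M (srv r) + (0, q)) (0, -4) := by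
  have hq2 := col_q hq
  have hqm : q ∈ ({10, 2} : Finset ℤ) := by
    rcases hq2 with rfl | rfl <;> decide
  have hoff := off_col q hqm
  have hsn : srv r ∈ L.nodes := by
    rcases hq with ⟨h, _⟩ | ⟨h, _⟩
    · exact get_sub (k := .V) h
    · exact get_sub (k := .T) h
  have hrn : r ∈ L.nodes := get_sub (k := .R) hr
  have e : (base M (srv r)).1 = (base M r).1 := by unfold base; simp only; rw [h1]
  have hbe := base_even (M := M) (srv r)
  have hw : ∀ o : ℤ × ℤ, (o = (0, q + 2) ∨ o = (0, q - 2)) → base M (srv r) + o ∈ wset L M := by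
    intro o ho
    rcases hq with ⟨h, rfl⟩ | ⟨h, rfl⟩
    · refine mem_wset.2 ⟨.V, srv r, h, o, ?_, rfl⟩
      rcases ho with rfl | rfl <;> decide
    · refine mem_wset.2 ⟨.T, srv r, h, o, ?_, rfl⟩
      rcases ho with rfl | rfl <;> decide
  refine ⟨?_, by decide, ?_, ?_, ?_, ?_, ?_, ?_, ?_⟩
  · unfold idet
    simp only [Prod.fst_sub, Prod.snd_sub, Prod.fst_add, Prod.snd_add]
    rw [e]; ring
  · simp only [Prod.fst_add, Prod.snd_add]
    rcases hq2 with rfl | rfl <;> omega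
  · refine near_mem hL hsn ?_ ?_ (fun k => (hoff k).1)
    · rcases hq2 with rfl | rfl <;> decide
    · rcases hq2 with rfl | rfl <;> decide
  · have := near_mem hL hsn (o := (0, q - 4)) (by rcases hq2 with rfl | rfl <;> decide)
      (by rcases hq2 with rfl | rfl <;> decide) (fun k => (hoff k).2.2)
    have e' : base M (srv r) + ((0, q - 4) : ℤ × ℤ) = ((base M (srv r) + (0, q)).1 + (0, -4).1,
        (base M (srv r) + (0, q)).2 + (0, -4).2) := by
      apply Prod.ext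
      · simp only [Prod.fst_add]; ring
      · simp only [Prod.snd_add]; ring
    rw [e'] at this; exact this
  · have := near_mem hL hsn (o := (0, q + 4)) (by rcases hq2 with rfl | rfl <;> decide)
      (by rcases hq2 with rfl | rfl <;> decide) (fun k => (hoff k).2.1)
    have e' : base M (srv r) + ((0, q + 4) : ℤ × ℤ) = ((base M (srv r) + (0, q)).1 - (0, -4).1,
        (base M (srv r) + (0, q)).2 - (0, -4).2) := by
      apply Prod.ext
      · simp only [Prod.fst_add]; ring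
      · simp only [Prod.snd_add]; ring
    rw [e'] at this; exact this
  · exact apex_col_mem hL hrn hsn h1 hq2
  · have := hw (0, q - 2) (Or.inr rfl)
    have e' : base M (srv r) + ((0, q - 2) : ℤ × ℤ) = ((base M (srv r) + (0, q)).1 + (0, -4).1 / 2,
        (base M (srv r) + (0, q)).2 + (0, -4).2 / 2) := by
      apply Prod.ext
      · simp only [Prod.fst_add]; norm_num
      · simp only [Prod.snd_add]; norm_num; ring
    rw [e'] at this; exact this
  · have := hw (0, q + 2) (Or.inl rfl)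
    have e' : base M (srv r) + ((0, q + 2) : ℤ × ℤ) = ((base M (srv r) + (0, q)).1 - (0, -4).1 / 2,
        (base M (srv r) + (0, q)).2 - (0, -4).2 / 2) := by
      apply Prod.ext
      · simp only [Prod.fst_add]; norm_num
      · simp only [Prod.snd_add]; norm_num; ring
    rw [e'] at this; exact this

theorem sh_ok (hL : L.WF M) {z b e : ℤ × ℤ} (h : Sh L M srv z b e) : ShOK L M z b e := by
  cases h with
  | loc k m n oz ob _ hn hm ho => exact shOK_loc hL hn ho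
  | row r q hr h2 hq => exact shOK_row hL hr h2 hq
  | col r q hr h1 hq => exact shOK_col hL hr h1 hq

theorem sh_exists (hmat : L.Matching srv) {z : ℤ × ℤ} (hz : z ∈ zset L M) :
    ∃ b e, Sh L M srv z b e := by
  classical
  obtain ⟨k, n, hn, o, ho, rfl⟩ := mem_zset.1 hz
  cases k with
  | R =>
    simp only [zoff, Finset.mem_singleton] at ho
    subst ho
    rcases hmat.kind n hn with ⟨h1, h2⟩ | ⟨h1, h2⟩
    · rcases h2 with h2 | ⟨h2, h3⟩
      · exact ⟨_, _, Sh.row n 10 hn h1 (Or.inl ⟨h2, rfl⟩)⟩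
      · exact ⟨_, _, Sh.row n (-2) hn h1 (Or.inr ⟨h2, h3, rfl⟩)⟩
    · rcases h2 with h2 | h2
      · exact ⟨_, _, Sh.col n 10 hn h1 (Or.inl ⟨h2, rfl⟩)⟩
      · exact ⟨_, _, Sh.col n 2 hn h1 (Or.inr ⟨h2, rfl⟩)⟩
  | H =>
    simp only [zoff, Finset.mem_singleton] at ho
    subst ho
    exact ⟨_, _, Sh.loc .H false n (10, -1) (10, 0) (-4, 0) hn (fun h => absurd h (by decide))
      (by simp [locT])⟩
  | V =>
    simp only [zoff, Finset.mem_singleton] at ho
    subst ho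
    exact ⟨_, _, Sh.loc .V false n (-1, 10) (0, 10) (0, 4) hn (fun h => absurd h (by decide))
      (by simp [locT])⟩
  | T =>
    have hex : ∀ m, ∃ ob e, (o, ob, e) ∈ locT .T m := by
      have : ∀ m, ∀ o ∈ zoff .T, ∃ t ∈ locT .T m, t.1 = o := by decide
      intro m
      obtain ⟨t, ht, rfl⟩ := this m o ho
      exact ⟨t.2.1, t.2.2, ht⟩
    by_cases hm : RowMode L srv n
    · obtain ⟨ob, e, h⟩ := hex true
      exact ⟨_, _, Sh.loc .T true n o ob e hn (fun _ => ⟨fun _ => hm, fun _ => rfl⟩) h⟩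
    · obtain ⟨ob, e, h⟩ := hex false
      exact ⟨_, _, Sh.loc .T false n o ob e hn
        (fun _ => ⟨fun h => absurd h (by decide), fun h => absurd h hm⟩) h⟩

/-- Completeness. -/
theorem layout_complete (hL : L.WF M) (hmat : L.Matching srv) :
    ∃ G, IsTriangulation (inst L M) G ∧
      ∀ x y w, IsFace (inst L M) G x y w → 4 ≤ |orient x y w| := by
  classical
  have hex : ∀ z, z ∈ zset L M → ∃ b e, Sh L M srv z b e := fun z hz => sh_exists hmat hz
  choose! bb ee hsh using hex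
  have hS : Stars (pts L M) (zset L M) bb ee := by
    refine ⟨?_, ?_, ?_, ?_, ?_, ?_, ?_, ?_, ?_, ?_⟩
    · intro z hz; exact mem_pts.2 (Or.inr hz)
    · intro p hp hn
      rcases mem_pts.1 hp with h | h
      · obtain ⟨x, y, _, _, _, _, rfl⟩ := mem_evenBox.1 h.1
        simp only; omega
      · exact absurd h hn
    · intro z hz; exact zset_odd hz
    · intro z hz c hc
      have ok := sh_ok hL (hsh z hz)
      rcases hc with rfl | rfl | rfl | rfl
      · rw [cpt_b]; exact ok.vb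
      · rw [cpt_p]; exact ok.vp
      · rw [cpt_a]; exact ok.va
      · rw [cpt_m]; exact ok.vm
    · intro z hz; exact (sh_ok hL (hsh z hz)).be
    · intro z hz; exact (sh_ok hL (hsh z hz)).e4
    · intro z hz w hw h1 h2
      have ok := sh_ok hL (hsh z hz)
      have h4 := ok.e4
      have : w = ((bb z).1 + (ee z).1 / 2, (bb z).2 + (ee z).2 / 2) := by
        apply Prod.ext
        · simp only; omega
        · simp only; omega
      rw [this] at hw
      exact wset_not_pts ok.wp hw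
    · intro z hz w hw h1 h2
      have ok := sh_ok hL (hsh z hz)
      have h4 := ok.e4
      have : w = ((bb z).1 - (ee z).1 / 2, (bb z).2 - (ee z).2 / 2) := by
        apply Prod.ext
        · simp only; omega
        · simp only; omega
      rw [this] at hw
      exact wset_not_pts ok.wm hw
    · intro z hz; exact (sh_ok hL (hsh z hz)).det
    · intro z hz z' hz' hne
      obtain ⟨α, β, γ, ⟨a1, a2, a3, a4⟩, ⟨b1, b2, b3, b4⟩, h3, h4⟩ :=
        sh_sep hL hmat (hsh z hz) (hsh z' hz') hne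
      refine ⟨α, β, γ, ?_, ?_, h3, h4⟩
      · intro c hc
        simp only [Finset.mem_insert, Finset.mem_singleton] at hc
        rcases hc with rfl | rfl | rfl | rfl
        · rw [cpt_b]; exact a1
        · rw [cpt_p]; exact a2
        · rw [cpt_a]; exact a4
        · rw [cpt_m]; exact a3
      · intro c hc
        simp only [Finset.mem_insert, Finset.mem_singleton] at hc
        rcases hc with rfl | rfl | rfl | rfl
        · rw [cpt_b]; exact b1
        · rw [cpt_p]; exact b2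
        · rw [cpt_a]; exact b4
        · rw [cpt_m]; exact b3
  exact stars_complete hS

end Pool.Agent.AreaTri
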