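import Pool.Agent.AreaTri.LayComp

/-!
The point set of a layout as an explicit list.
-/

namespace Pool.Agent.AreaTri

/-- layout given by four lists -/
def mkLayout (R H V T : List (ℤ × ℤ)) : Layout :=
  ⟨R.toFinset, H.toFinset, V.toFinset, T.toFinset⟩

/-- even points of the box `[0,2a] × [0,2b]` -/
def evenList (a b : ℕ) : List (ℤ × ℤ) :=
  (List.range (a + 1)).flatMap (fun x : ℕ => (List.range (b + 1)).map
    (fun y : ℕ => ((2 * (x : ℤ), 2 * (y : ℤ)) : ℤ × ℤ)))

/-- shift of the base point of the node `n` by `o` -/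
def shift (M : ℤ) (o n : ℤ × ℤ) : ℤ × ℤ :=
  (2 * (cN M * cP M) * (n.1 + 1) + o.1, 2 * cN M * (n.2 + 1) + o.2)

/-- extra points -/
def zList (M : ℤ) (R H V T : List (ℤ × ℤ)) : List (ℤ × ℤ) :=
  R.map (shift M (1, 1)) ++ H.map (shift M (10, -1)) ++ V.map (shift M (-1, 10)) ++
  T.map (shift M (-4, -1)) ++ T.map (shift M (-5, 1)) ++ T.map (shift M (-1, 4))

/-- missing points -/
def wList (M : ℤ) (H V T : List (ℤ × ℤ)) : List (ℤ × ℤ) :=
  H.map (shift M (8, 0)) ++ H.map (shift M (12, 0)) ++ V.map (shift M (0, 8)) ++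
  V.map (shift M (0, 12)) ++ T.map (shift M (0, 0)) ++ T.map (shift M (-4, 0)) ++
  T.map (shift M (-8, 0)) ++ T.map (shift M (0, 4))

/-- all points -/
def ptsList (M : ℤ) (R H V T : List (ℤ × ℤ)) : List (ℤ × ℤ) :=
  (evenList (boxA M) (boxB M)).filter (fun p => decide (p ∉ wList M H V T)) ++ zList M R H V T

theorem shift_eq (M : ℤ) (o n : ℤ × ℤ) : shift M o n = base M n + o := rfl

theorem mem_evenList {a b : ℕ} {p : ℤ × ℤ} : p ∈ evenList a b ↔ p ∈ evenBox a b := by
  unfold evenList evenBox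
  simp only [List.mem_flatMap, List.mem_range, List.mem_map, Finset.mem_image, Finset.mem_product,
    Finset.mem_range]
  constructor
  · rintro ⟨x, hx, y, hy, rfl⟩
    exact ⟨(x, y), ⟨hx, hy⟩, rfl⟩
  · rintro ⟨⟨x, y⟩, ⟨hx, hy⟩, rfl⟩
    exact ⟨x, hx, y, hy, rfl⟩

theorem mem_zList {M : ℤ} {R H V T : List (ℤ × ℤ)} {p : ℤ × ℤ} :
    p ∈ zList M R H V T ↔ p ∈ zset (mkLayout R H V T) M := by
  unfold zList
  rw [mem_zset]
  simp only [List.mem_append, List.mem_map, shift_eq]
  constructor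
  · rintro (((((⟨n, hn, rfl⟩ | ⟨n, hn, rfl⟩) | ⟨n, hn, rfl⟩) | ⟨n, hn, rfl⟩) | ⟨n, hn, rfl⟩) |
      ⟨n, hn, rfl⟩)
    · exact ⟨.R, n, by simpa [mkLayout, Layout.get] using hn, _, by simp [zoff], rfl⟩
    · exact ⟨.H, n, by simpa [mkLayout, Layout.get] using hn, _, by simp [zoff], rfl⟩
    · exact ⟨.V, n, by simpa [mkLayout, Layout.get] using hn, _, by simp [zoff], rfl⟩
    · exact ⟨.T, n, by simpa [mkLayout, Layout.get] using hn, _, by simp [zoff], rfl⟩
    · exact ⟨.T, n, by simpa [mkLayout, Layout.get] using hn, _, by simp [zoff], rfl⟩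
    · exact ⟨.T, n, by simpa [mkLayout, Layout.get] using hn, _, by simp [zoff], rfl⟩
  · rintro ⟨k, n, hn, o, ho, rfl⟩
    cases k with
    | R =>
      have hn' : n ∈ R := by simpa [mkLayout, Layout.get] using hn
      simp only [zoff, Finset.mem_singleton] at ho
      subst ho
      exact Or.inl (Or.inl (Or.inl (Or.inl (Or.inl ⟨n, hn', rfl⟩))))
    | H =>
      have hn' : n ∈ H := by simpa [mkLayout, Layout.get] using hn
      simp only [zoff, Finset.mem_singleton] at ho
      subst ho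
      exact Or.inl (Or.inl (Or.inl (Or.inl (Or.inr ⟨n, hn', rfl⟩))))
    | V =>
      have hn' : n ∈ V := by simpa [mkLayout, Layout.get] using hn
      simp only [zoff, Finset.mem_singleton] at ho
      subst ho
      exact Or.inl (Or.inl (Or.inl (Or.inr ⟨n, hn', rfl⟩)))
    | T =>
      have hn' : n ∈ T := by simpa [mkLayout, Layout.get] using hn
      simp only [zoff, Finset.mem_insert, Finset.mem_singleton] at ho
      rcases ho with rfl | rfl | rfl
      · exact Or.inl (Or.inl (Or.inr ⟨n, hn', rfl⟩))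
      · exact Or.inl (Or.inr ⟨n, hn', rfl⟩)
      · exact Or.inr ⟨n, hn', rfl⟩

theorem mem_wList {M : ℤ} {R H V T : List (ℤ × ℤ)} {p : ℤ × ℤ} :
    p ∈ wList M H V T ↔ p ∈ wset (mkLayout R H V T) M := by
  unfold wList
  rw [mem_wset]
  simp only [List.mem_append, List.mem_map, shift_eq]
  constructor
  · rintro (((((((⟨n, hn, rfl⟩ | ⟨n, hn, rfl⟩) | ⟨n, hn, rfl⟩) | ⟨n, hn, rfl⟩) | ⟨n, hn, rfl⟩) |
      ⟨n, hn, rfl⟩) | ⟨n, hn, rfl⟩) | ⟨n, hn, rfl⟩)
    · exact ⟨.H, n, by simpa [mkLayout, Layout.get] using hn, _, by simp [woff], rfl⟩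
    · exact ⟨.H, n, by simpa [mkLayout, Layout.get] using hn, _, by simp [woff], rfl⟩
    · exact ⟨.V, n, by simpa [mkLayout, Layout.get] using hn, _, by simp [woff], rfl⟩
    · exact ⟨.V, n, by simpa [mkLayout, Layout.get] using hn, _, by simp [woff], rfl⟩
    · exact ⟨.T, n, by simpa [mkLayout, Layout.get] using hn, _, by simp [woff], rfl⟩
    · exact ⟨.T, n, by simpa [mkLayout, Layout.get] using hn, _, by simp [woff], rfl⟩
    · exact ⟨.T, n, by simpa [mkLayout, Layout.get] using hn, _, by simp [woff], rfl⟩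
    · exact ⟨.T, n, by simpa [mkLayout, Layout.get] using hn, _, by simp [woff], rfl⟩
  · rintro ⟨k, n, hn, o, ho, rfl⟩
    cases k with
    | R => simp [woff] at ho
    | H =>
      have hn' : n ∈ H := by simpa [mkLayout, Layout.get] using hn
      simp only [woff, Finset.mem_insert, Finset.mem_singleton] at ho
      rcases ho with rfl | rfl
      · exact Or.inl (Or.inl (Or.inl (Or.inl (Or.inl (Or.inl (Or.inl ⟨n, hn', rfl⟩))))))
      · exact Or.inl (Or.inl (Or.inl (Or.inl (Or.inl (Or.inl (Or.inr ⟨n, hn', rfl⟩))))))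
    | V =>
      have hn' : n ∈ V := by simpa [mkLayout, Layout.get] using hn
      simp only [woff, Finset.mem_insert, Finset.mem_singleton] at ho
      rcases ho with rfl | rfl
      · exact Or.inl (Or.inl (Or.inl (Or.inl (Or.inl (Or.inr ⟨n, hn', rfl⟩)))))
      · exact Or.inl (Or.inl (Or.inl (Or.inl (Or.inr ⟨n, hn', rfl⟩))))
    | T =>
      have hn' : n ∈ T := by simpa [mkLayout, Layout.get] using hn
      simp only [woff, Finset.mem_insert, Finset.mem_singleton] at ho
      rcases ho with rfl | rfl | rfl | rfl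
      · exact Or.inl (Or.inl (Or.inl (Or.inr ⟨n, hn', rfl⟩)))
      · exact Or.inl (Or.inl (Or.inr ⟨n, hn', rfl⟩))
      · exact Or.inl (Or.inr ⟨n, hn', rfl⟩)
      · exact Or.inr ⟨n, hn', rfl⟩

theorem mem_ptsList {M : ℤ} {R H V T : List (ℤ × ℤ)} {p : ℤ × ℤ} :
    p ∈ ptsList M R H V T ↔ p ∈ pts (mkLayout R H V T) M := by
  unfold ptsList
  rw [mem_pts, List.mem_append, List.mem_filter, mem_evenList, mem_zList, decide_eq_true_eq,
    mem_wList (R := R)]

end Pool.Agent.AreaTri
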