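import Pool.Agent.AreaTri.Inst

/-!
Local structure of a tight triangulation of the point set of a layout.
-/

namespace Pool.Agent.AreaTri

variable {G : SimpleGraph Pt} {L : Layout} {M : ℤ}

theorem box_left {a b : ℕ} {S : Finset Pt} (hS : BoxSet a b S) {z : Pt}
    (hz : 0 < z.1 ∧ z.1 < 2 * a ∧ 0 < z.2 ∧ z.2 < 2 * b) {q : Pt} (hq : q ≠ z) :
    ∃ p ∈ S, 0 < orient z q p := by
  have corner00 : ((0 : ℝ), (0 : ℝ)) ∈ S := by simpa using (hS.memx 0 (by omega)).1
  have cornerA0 : ((2 * a : ℝ), (0 : ℝ)) ∈ S := by simpa using (hS.memx 0 (by omega)).2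
  have corner0B : ((0 : ℝ), (2 * b : ℝ)) ∈ S := (hS.memx b le_rfl).1
  have cornerAB : ((2 * a : ℝ), (2 * b : ℝ)) ∈ S := (hS.memx b le_rfl).2
  obtain ⟨h1, h2, h3, h4⟩ := hz
  rcases lt_trichotomy (q.1 - z.1) 0 with h | h | h
  · rcases le_or_gt 0 (q.2 - z.2) with h' | h'
    · refine ⟨_, corner00, ?_⟩
      unfold orient
      simp only
      have e1 : 0 < (z.1 - q.1) * z.2 := mul_pos (by linarith) h3
      have e2 : 0 ≤ (q.2 - z.2) * z.1 := mul_nonneg h' h1.le
      linarith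
    · refine ⟨_, cornerA0, ?_⟩
      unfold orient
      simp only
      have e1 : 0 < (z.1 - q.1) * z.2 := mul_pos (by linarith) h3
      have e2 : 0 < (z.2 - q.2) * (2 * a - z.1) := mul_pos (by linarith) (by linarith)
      linarith
  · rcases lt_trichotomy (q.2 - z.2) 0 with h' | h' | h'
    · refine ⟨_, cornerA0, ?_⟩
      unfold orient
      simp only
      rw [h]
      have e2 : 0 < (z.2 - q.2) * (2 * a - z.1) := mul_pos (by linarith) (by linarith)
      linarith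
    · exfalso
      exact hq (Prod.ext (by linarith) (by linarith))
    · refine ⟨_, corner00, ?_⟩
      unfold orient
      simp only
      rw [h]
      have e2 : 0 < (q.2 - z.2) * z.1 := mul_pos (by linarith) h1
      linarith
  · rcases le_or_gt 0 (q.2 - z.2) with h' | h'
    · refine ⟨_, corner0B, ?_⟩
      unfold orient
      simp only
      have e1 : 0 < (q.1 - z.1) * (2 * b - z.2) := mul_pos (by linarith) (by linarith)
      have e2 : 0 ≤ (q.2 - z.2) * z.1 := mul_nonneg h' h1.le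
      linarith
    · refine ⟨_, cornerAB, ?_⟩
      unfold orient
      simp only
      have e1 : 0 < (q.1 - z.1) * (2 * b - z.2) := mul_pos (by linarith) (by linarith)
      have e2 : 0 < (z.2 - q.2) * (2 * a - z.1) := mul_pos (by linarith) (by linarith)
      linarith

theorem inst_int {p : Pt} (hp : p ∈ inst L M) : ∃ q, p = ι q := by
  unfold inst at hp
  obtain ⟨q, hq, rfl⟩ := Finset.mem_image.1 hp
  exact ⟨q, rfl⟩

theorem inst_left (hL : L.WF M) {z : ℤ × ℤ} (hz : inBox M z) {q : Pt} (hq : q ≠ ι z) :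
    ∃ p ∈ inst L M, 0 < orient (ι z) q p := by
  apply box_left (boxSet_inst hL) _ hq
  obtain ⟨h1, h2, h3, h4⟩ := hz
  unfold ι
  simp only
  refine ⟨?_, ?_, ?_, ?_⟩
  · exact_mod_cast h1
  · exact_mod_cast h2
  · exact_mod_cast h3
  · exact_mod_cast h4

def zall : Finset (ℤ × ℤ) := {(1, 1), (10, -1), (-1, 10), (-4, -1), (-5, 1), (-1, 4)}

theorem zoff_zall : ∀ k, ∀ o ∈ zoff k, o ∈ zall := by decide

theorem iso3_off : ∀ o ∈ zall, ∀ o' ∈ zall, ∀ o'' ∈ zall, idet (o' - o) (o'' - o) ≠ 4 ∧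
    |idet (o' - o) (o'' - o)| ≤ 1000 := by decide

theorem iso3 (hM : 1 ≤ M) {n n' n'' o o' o'' : ℤ × ℤ} (ho : o ∈ zall) (ho' : o' ∈ zall)
    (ho'' : o'' ∈ zall) :
    idet (base M n' + o' - (base M n + o)) (base M n'' + o'' - (base M n + o)) ≠ 4 := by
  intro h
  obtain ⟨h1, h2⟩ := iso3_off o ho o' ho' o'' ho''
  have hN := cN_ge hM
  obtain ⟨K, hK⟩ : ∃ K, idet (base M n' + o' - (base M n + o)) (base M n'' + o'' - (base M n + o)) =
      2 * cN M * K + idet (o' - o) (o'' - o) := by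
    refine ⟨(2 * (cN M * cP M) * (n'.1 - n.1) + (o'.1 - o.1)) * (n''.2 - n.2) +
      (cP M * (n'.1 - n.1)) * (o''.2 - o.2) -
      ((2 * (cN M * cP M) * (n''.1 - n.1) + (o''.1 - o.1)) * (n'.2 - n.2) +
      (cP M * (n''.1 - n.1)) * (o'.2 - o.2)), ?_⟩
    unfold idet base
    simp only [Prod.fst_add, Prod.snd_add, Prod.fst_sub, Prod.snd_sub]
    ring
  have hK0 : K = 0 := by
    apply big_zero (N := 2 * cN M) (g := 4 - idet (o' - o) (o'' - o)) (by linarith)
    rw [abs_le] at h2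
    rw [abs_lt]
    constructor <;> linarith
  rw [hK0] at hK
  apply h1
  linarith

theorem iso_even {n n' o o' : ℤ × ℤ} (ho : o ∈ zall) (ho' : o' ∈ zall) (x y : ℤ) :
    idet (base M n' + o' - (base M n + o)) ((2 * x, 2 * y) - (base M n + o)) ≠ 4 := by
  intro h
  obtain ⟨t, ht⟩ := cN_dvd (M := M)
  obtain ⟨K, hK⟩ : ∃ K, idet (base M n' + o' - (base M n + o)) ((2 * x, 2 * y) - (base M n + o)) =
      8 * K + ((o'.1 - o.1) * (2 * y - o.2) - (o'.2 - o.2) * (2 * x - o.1)) := by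
    refine ⟨(t * cP M * (n'.1 - n.1)) * (2 * y - o.2 - 8 * t * (n.2 + 1)) -
      (o'.1 - o.1) * (t * (n.2 + 1)) -
      ((t * (n'.2 - n.2)) * (2 * x - o.1 - 8 * (t * cP M) * (n.1 + 1)) -
      (o'.2 - o.2) * (t * cP M * (n.1 + 1))), ?_⟩
    unfold idet base
    rw [ht]
    simp only [Prod.fst_add, Prod.snd_add, Prod.fst_sub, Prod.snd_sub]
    ring
  rw [hK] at h
  unfold zall at ho ho'
  simp only [Finset.mem_insert, Finset.mem_singleton] at ho ho'
  rcases ho with rfl | rfl | rfl | rfl | rfl | rfl <;>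
  rcases ho' with rfl | rfl | rfl | rfl | rfl | rfl <;>
  simp only at h <;> omega

/-- neighbours of an extra point are even points -/
theorem nbr_even (hL : L.WF M) (hG : IsTriangulation (inst L M) G)
    (h4 : ∀ x y z, IsFace (inst L M) G x y z → |orient x y z| = 4) {z v : ℤ × ℤ}
    (hz : z ∈ zset L M) (hadj : G.Adj (ι z) (ι (z + v))) :
    v.1 % 2 = z.1 % 2 ∧ v.2 % 2 = z.2 % 2 := by
  have hM := hL.one_le
  have hmem : z + v ∈ pts L M := mem_inst.1 (hG.1.mem _ _ hadj.symm)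
  rcases mem_pts.1 hmem with h | h
  · obtain ⟨⟨x, y, _, _, _, _, he⟩, _⟩ := (⟨mem_evenBox.1 h.1, h.2⟩ : _ ∧ _)
    have e1 := congrArg Prod.fst he
    have e2 := congrArg Prod.snd he
    simp only [Prod.fst_add, Prod.snd_add] at e1 e2
    omega
  · exfalso
    obtain ⟨v', hf, hd⟩ := next_ccw hG (fun p hp => inst_int hp) h4 hadj
      (inst_left hL (zset_inBox hL hz) hadj.ne.symm)
    have hp : z + v' ∈ pts L M := mem_inst.1 (hG.1.mem _ _ hf.ca)
    obtain ⟨k, n, hn, o, ho, hzo⟩ := mem_zset.1 hz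
    obtain ⟨k', n', hn', o', ho', hzo'⟩ := mem_zset.1 h
    have e1 : v = base M n' + o' - (base M n + o) := by rw [← hzo, ← hzo']; abel
    rcases mem_pts.1 hp with h' | h'
    · obtain ⟨x, y, _, _, _, _, he⟩ := mem_evenBox.1 h'.1
      have e2 : v' = (2 * x, 2 * y) - (base M n + o) := by rw [← hzo, ← he]; abel
      rw [e1, e2] at hd
      exact iso_even (zoff_zall k o ho) (zoff_zall k' o' ho') x y hd
    · obtain ⟨k'', n'', hn'', o'', ho'', hzo''⟩ := mem_zset.1 h'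
      have e2 : v' = base M n'' + o'' - (base M n + o) := by rw [← hzo, ← hzo'']; abel
      rw [e1, e2] at hd
      exact iso3 hM (zoff_zall k o ho) (zoff_zall k' o' ho') (zoff_zall k'' o'' ho'') hd

/-- full description of the star of an extra point -/
structure SD (L : Layout) (M : ℤ) (G : SimpleGraph Pt) (z u α v A B : ℤ × ℤ) (σ ρ : ℤ) : Prop where
  star : Star (inst L M) G z u α v
  hσ : σ = 1 ∨ σ = -1
  hρ : ρ = 1 ∨ ρ = -1
  a1 : 2 * A.1 = α.1 + σ * u.1
  a2 : 2 * A.2 = α.2 + σ * u.2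
  b1 : 2 * B.1 = v.1 + ρ * u.1
  b2 : 2 * B.2 = v.2 + ρ * u.2
  pa : A.1 % 2 = z.1 % 2 ∧ A.2 % 2 = z.2 % 2
  pb : B.1 % 2 = z.1 % 2 ∧ B.2 % 2 = z.2 % 2
  pu : u.1 % 2 = z.1 % 2 ∧ u.2 % 2 = z.2 % 2
  wA : z + A ∈ wset L M
  wB : z + B ∈ wset L M

theorem mid_mem (hG : IsTriangulation (inst L M) G) {p q w : ℤ × ℤ}
    (hpq : G.Adj (ι p) (ι q)) (h1 : 2 * w.1 = p.1 + q.1) (h2 : 2 * w.2 = p.2 + q.2)
    (hw : w.1 % 2 = 0 ∧ w.2 % 2 = 0) (hL : L.WF M) : w ∈ wset L M := by
  have hin : ι w ∈ openSegment ℝ (ι p) (ι q) := by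
    refine mem_oseg.2 ⟨1 / 2, by norm_num, by norm_num, ?_, ?_⟩
    · unfold ι
      simp only
      have : (2 : ℝ) * w.1 = p.1 + q.1 := by exact_mod_cast h1
      linarith
    · unfold ι
      simp only
      have : (2 : ℝ) * w.2 = p.2 + q.2 := by exact_mod_cast h2
      linarith
  have hnot : w ∉ pts L M := fun h => hG.1.free _ _ hpq _ (mem_inst.2 h) hin
  have hbx : ∀ r : ℤ × ℤ, ι r ∈ inst L M →
      0 ≤ r.1 ∧ r.1 ≤ 2 * (boxA M : ℤ) ∧ 0 ≤ r.2 ∧ r.2 ≤ 2 * (boxB M : ℤ) := by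
    intro r hr
    have := (boxSet_inst hL).box _ hr
    unfold ι at this
    simp only at this
    obtain ⟨t1, t2, t3, t4⟩ := this
    exact ⟨by exact_mod_cast t1, by exact_mod_cast t2, by exact_mod_cast t3, by exact_mod_cast t4⟩
  have b1 := hbx p (hG.1.mem _ _ hpq)
  have b2 := hbx q (hG.1.mem _ _ hpq.symm)
  have he : w ∈ evenBox (boxA M) (boxB M) := by
    rw [mem_evenBox]
    exact ⟨w.1 / 2, w.2 / 2, by omega, by omega, by omega, by omega,
      Prod.ext (by simp only; omega) (by simp only; omega)⟩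
  by_contra hc
  exact hnot (mem_pts.2 (Or.inl ⟨he, hc⟩))

theorem star_data (hL : L.WF M) (hG : IsTriangulation (inst L M) G)
    (h4 : ∀ x y z, IsFace (inst L M) G x y z → |orient x y z| = 4) {z : ℤ × ℤ}
    (hz : z ∈ zset L M) : ∃ u α v A B σ ρ, SD L M G z u α v A B σ ρ := by
  have hodd := zset_odd hz
  obtain ⟨u, α, v, hs⟩ := star_exists hG (fun p hp => inst_int hp) h4
    (mem_inst.2 (mem_pts.2 (Or.inr hz))) hodd (fun v hv => nbr_even hL hG h4 hz hv)
    (fun q hq => inst_left hL (zset_inBox hL hz) hq)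
  have pu := nbr_even hL hG h4 hz hs.f1.ab
  have pα := nbr_even hL hG h4 hz hs.f2.ab
  have pv := nbr_even hL hG h4 hz hs.f4.ab
  have uodd : u.1 % 2 = 1 ∨ u.2 % 2 = 1 := by omega
  obtain ⟨σ, hσ, A, a1, a2, a3, a4⟩ := half_choice (u := u) (α := α) uodd
    ⟨by omega, by omega⟩ (Or.inl hs.d1)
  have hd2 : idet u v = -4 := by
    have := hs.d2
    unfold idet at this ⊢
    linarith
  obtain ⟨ρ, hρ, B, b1, b2, b3, b4⟩ := half_choice (u := u) (α := v) uodd
    ⟨by omega, by omega⟩ (Or.inr hd2)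
  refine ⟨u, α, v, A, B, σ, ρ, hs, hσ, hρ, a1, a2, b1, b2, ⟨by omega, by omega⟩,
    ⟨by omega, by omega⟩, pu, ?_, ?_⟩
  · rcases hσ with rfl | rfl
    · refine mid_mem hG hs.f1.bc (w := z + A) ?_ ?_ ?_ hL
      · simp only [Prod.fst_add]; linarith
      · simp only [Prod.snd_add]; linarith
      · simp only [Prod.fst_add, Prod.snd_add]; omega
    · refine mid_mem hG hs.f2.bc (w := z + A) ?_ ?_ ?_ hL
      · simp only [Prod.fst_add, Prod.fst_neg]; linarith
      · simp only [Prod.snd_add, Prod.snd_neg]; linarith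
      · simp only [Prod.fst_add, Prod.snd_add]; omega
  · rcases hρ with rfl | rfl
    · refine mid_mem hG hs.f4.bc (w := z + B) ?_ ?_ ?_ hL
      · simp only [Prod.fst_add]; linarith
      · simp only [Prod.snd_add]; linarith
      · simp only [Prod.fst_add, Prod.snd_add]; omega
    · refine mid_mem hG hs.f3.bc (w := z + B) ?_ ?_ ?_ hL
      · simp only [Prod.fst_add, Prod.fst_neg]; linarith
      · simp only [Prod.snd_add, Prod.snd_neg]; linarith
      · simp only [Prod.fst_add, Prod.snd_add]; omega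

end Pool.Agent.AreaTri
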