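import Mathlib

/-!
Maximal families of pairwise non-crossing segments on a finite set of points of the plane.
-/

namespace Pool.Agent.AreaTri

/-- points of the plane -/
abbrev Pt := ℝ × ℝ

/-- twice the signed area of the triangle `a b c` -/
def orient (a b c : Pt) : ℝ := (b.1 - a.1) * (c.2 - a.2) - (b.2 - a.2) * (c.1 - a.1)

/-- A set of segments with endpoints in `S` (given as a simple graph on the points), whose
relative interiors contain no point of `S` and are pairwise disjoint. -/
structure IsPlane (S : Finset Pt) (G : SimpleGraph Pt) : Prop where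
  mem : ∀ p q, G.Adj p q → p ∈ S
  free : ∀ p q, G.Adj p q → ∀ r ∈ S, r ∉ openSegment ℝ p q
  cross : ∀ p q r s, G.Adj p q → G.Adj r s → s(p, q) ≠ s(r, s) →
    Disjoint (openSegment ℝ p q) (openSegment ℝ r s)

/-- A triangulation of `S`: a maximal family of pairwise non-crossing segments. -/
def IsTriangulation (S : Finset Pt) (G : SimpleGraph Pt) : Prop := Maximal (IsPlane S) G

/-- A triangle of the family `G`: three points, not collinear, pairwise joined by segments of `G`,
such that the closed triangle contains no further point of `S`. -/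
structure IsFace (S : Finset Pt) (G : SimpleGraph Pt) (a b c : Pt) : Prop where
  ab : G.Adj a b
  bc : G.Adj b c
  ca : G.Adj c a
  ne : orient a b c ≠ 0
  empty : ∀ p ∈ S, p ∈ convexHull ℝ {a, b, c} → p = a ∨ p = b ∨ p = c

/-! ### basic facts -/

theorem mem_oseg {a b z : Pt} : z ∈ openSegment ℝ a b ↔
    ∃ t : ℝ, 0 < t ∧ t < 1 ∧ z.1 = a.1 + t * (b.1 - a.1) ∧ z.2 = a.2 + t * (b.2 - a.2) := by
  constructor
  · rintro ⟨s, t, hs, ht, hst, rfl⟩
    refine ⟨t, ht, by linarith, ?_, ?_⟩
    · have : s = 1 - t := by linarith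
      subst this
      simp only [Prod.fst_add, Prod.smul_fst, smul_eq_mul]; ring
    · have : s = 1 - t := by linarith
      subst this
      simp only [Prod.snd_add, Prod.smul_snd, smul_eq_mul]; ring
  · rintro ⟨t, h0, h1, hx, hy⟩
    refine ⟨1 - t, t, by linarith, h0, by ring, ?_⟩
    apply Prod.ext
    · simp only [Prod.fst_add, Prod.smul_fst, smul_eq_mul]; rw [hx]; ring
    · simp only [Prod.snd_add, Prod.smul_snd, smul_eq_mul]; rw [hy]; ring

theorem oseg_symm {a b z : Pt} : z ∈ openSegment ℝ a b ↔ z ∈ openSegment ℝ b a := by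
  rw [openSegment_symm]

theorem mem_tri {a b c z : Pt} : z ∈ convexHull ℝ {a, b, c} ↔
    ∃ s t : ℝ, 0 ≤ s ∧ 0 ≤ t ∧ s + t ≤ 1 ∧ z.1 = a.1 + s * (b.1 - a.1) + t * (c.1 - a.1) ∧
      z.2 = a.2 + s * (b.2 - a.2) + t * (c.2 - a.2) := by
  rw [convexHull_insert (by simp)]
  simp only [convexHull_pair, mem_convexJoin, Set.mem_singleton_iff, exists_eq_left]
  constructor
  · rintro ⟨w, hw, hz⟩
    obtain ⟨u, v, hu, hv, huv, rfl⟩ := hw
    obtain ⟨s, t, hs, ht, hst, rfl⟩ := hz
    have e1 : s = 1 - t := by linarith
    have e2 : u = 1 - v := by linarith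
    subst e1; subst e2
    refine ⟨t * (1 - v), t * v, by positivity, by positivity, by nlinarith, ?_, ?_⟩
    · simp only [Prod.fst_add, Prod.smul_fst, smul_eq_mul]; ring
    · simp only [Prod.snd_add, Prod.smul_snd, smul_eq_mul]; ring
  · rintro ⟨s, t, hs, ht, hst, hx, hy⟩
    rcases eq_or_lt_of_le (add_nonneg hs ht) with h0 | h0
    · have hs0 : s = 0 := by linarith
      have ht0 : t = 0 := by linarith
      refine ⟨b, left_mem_segment ℝ b c, ?_⟩
      have : z = a := by
        apply Prod.ext
        · rw [hx, hs0, ht0]; ring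
        · rw [hy, hs0, ht0]; ring
      rw [this]; exact left_mem_segment ℝ a b
    · refine ⟨(s / (s + t)) • b + (t / (s + t)) • c,
        ⟨s / (s + t), t / (s + t), by positivity, by positivity, by field_simp, rfl⟩, ?_⟩
      refine ⟨1 - (s + t), s + t, by linarith, h0.le, by ring, ?_⟩
      have h0' : s + t ≠ 0 := ne_of_gt h0
      apply Prod.ext
      · simp only [Prod.fst_add, Prod.smul_fst, smul_eq_mul]; rw [hx]; field_simp; ring
      · simp only [Prod.snd_add, Prod.smul_snd, smul_eq_mul]; rw [hy]; field_simp; ring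

theorem orient_cyc (a b c : Pt) : orient b c a = orient a b c := by unfold orient; ring

theorem orient_swap (a b c : Pt) : orient a c b = - orient a b c := by unfold orient; ring

theorem orient_swap' (a b c : Pt) : orient b a c = - orient a b c := by unfold orient; ring

@[simp] theorem orient_self (a b : Pt) : orient a b b = 0 := by unfold orient; ring

@[simp] theorem orient_self' (a b : Pt) : orient a b a = 0 := by unfold orient; ring

@[simp] theorem orient_self'' (a b : Pt) : orient a a b = 0 := by unfold orient; ring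

/-- coordinates of a point with respect to a nondegenerate triangle -/
theorem coord {a b c : Pt} (h : orient a b c ≠ 0) (z : Pt) :
    z.1 = a.1 + orient a z c / orient a b c * (b.1 - a.1) +
      orient a b z / orient a b c * (c.1 - a.1) ∧
    z.2 = a.2 + orient a z c / orient a b c * (b.2 - a.2) +
      orient a b z / orient a b c * (c.2 - a.2) := by
  constructor
  · field_simp; unfold orient; ring
  · field_simp; unfold orient; ring

theorem mem_tri_orient {a b c : Pt} (h : 0 < orient a b c) (z : Pt) :
    z ∈ convexHull ℝ {a, b, c} ↔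
      0 ≤ orient a z c ∧ 0 ≤ orient a b z ∧ orient a z c + orient a b z ≤ orient a b c := by
  rw [mem_tri]
  constructor
  · rintro ⟨s, t, hs, ht, hst, hx, hy⟩
    have e1 : orient a z c = s * orient a b c := by
      unfold orient; rw [hx, hy]; ring
    have e2 : orient a b z = t * orient a b c := by
      unfold orient; rw [hx, hy]; ring
    rw [e1, e2]
    refine ⟨by positivity, by positivity, ?_⟩
    nlinarith
  · rintro ⟨h1, h2, h3⟩
    obtain ⟨hx, hy⟩ := coord (ne_of_gt h) z
    refine ⟨_, _, div_nonneg h1 h.le, div_nonneg h2 h.le, ?_, hx, hy⟩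
    rw [← add_div, div_le_one h]; exact h3

/-- maximality gives an edge as soon as nothing blocks it -/
theorem adj_of_free {S : Finset Pt} {G : SimpleGraph Pt} (hG : IsTriangulation S G) {p q : Pt}
    (hp : p ∈ S) (hq : q ∈ S) (hpq : p ≠ q) (hf : ∀ r ∈ S, r ∉ openSegment ℝ p q)
    (hc : ∀ r s z, G.Adj r s → z ∈ openSegment ℝ r s → z ∈ openSegment ℝ p q →
      s(r, s) = s(p, q)) : G.Adj p q := by
  classical
  have hpl : IsPlane S (G ⊔ SimpleGraph.edge p q) := by
    refine ⟨?_, ?_, ?_⟩
    · intro u v huv
      rw [SimpleGraph.sup_adj, SimpleGraph.edge_adj] at huv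
      rcases huv with h | ⟨⟨rfl, rfl⟩ | ⟨rfl, rfl⟩, _⟩
      · exact hG.1.mem _ _ h
      · exact hp
      · exact hq
    · intro u v huv r hr
      rw [SimpleGraph.sup_adj, SimpleGraph.edge_adj] at huv
      rcases huv with h | ⟨⟨rfl, rfl⟩ | ⟨rfl, rfl⟩, _⟩
      · exact hG.1.free _ _ h r hr
      · exact hf r hr
      · rw [openSegment_symm]; exact hf r hr
    · intro u v r s huv hrs hne
      rw [SimpleGraph.sup_adj, SimpleGraph.edge_adj] at huv hrs
      have key : ∀ u v r s, G.Adj u v → s(u, v) ≠ s(r, s) → s(r, s) = s(p, q) →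
          Disjoint (openSegment ℝ u v) (openSegment ℝ r s) := by
        intro u v r s h hne e
        rw [Set.disjoint_left]
        intro z hz hz'
        apply hne
        rw [e]
        apply hc u v z h hz
        rcases Sym2.eq_iff.1 e with ⟨rfl, rfl⟩ | ⟨rfl, rfl⟩
        · exact hz'
        · exact oseg_symm.1 hz'
      rcases huv with h | ⟨h, _⟩
      · rcases hrs with h' | ⟨h', _⟩
        · exact hG.1.cross _ _ _ _ h h' hne
        · exact key _ _ _ _ h hne (Sym2.eq_iff.2 h')
      · rcases hrs with h' | ⟨h', _⟩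
        · exact (key _ _ _ _ h' (Ne.symm hne) (Sym2.eq_iff.2 h)).symm
        · exact absurd ((Sym2.eq_iff.2 h).trans (Sym2.eq_iff.2 h').symm) hne
  have hle := hG.2 hpl le_sup_left
  apply hle
  rw [SimpleGraph.sup_adj, SimpleGraph.edge_adj]
  exact Or.inr ⟨Or.inl ⟨rfl, rfl⟩, hpq⟩

end Pool.Agent.AreaTri
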