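import Pool.Agent.AreaTri.Reduce
import Pool.Agent.PolyTime.Tags

/-!
The reduction is computable in polynomial time.
-/

namespace Pool.Agent.AreaTri

open FP

theorem poly_litOf : Poly (fun p : List Clause3 × ℕ => litOf p.1 p.2) := by
  unfold litOf
  fun_prop

theorem poly_compl : Poly (fun p : List Clause3 × ℕ × ℕ => compl p.1 p.2.1 p.2.2) := by
  have h1 : Poly (fun p : List Clause3 × ℕ × ℕ => litOf p.1 p.2.1) :=
    poly_litOf.comp (f := fun p : List Clause3 × ℕ × ℕ => (p.1, p.2.1)) (by fun_prop)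
  have h2 : Poly (fun p : List Clause3 × ℕ × ℕ => litOf p.1 p.2.2) :=
    poly_litOf.comp (f := fun p : List Clause3 × ℕ × ℕ => (p.1, p.2.2)) (by fun_prop)
  unfold compl
  fun_prop

theorem poly_place : Poly (fun p : (ℕ × ℕ × ℕ) × (ℤ × ℤ × ℤ × ℤ) =>
    place p.1.1 p.1.2.1 p.1.2.2 p.2) := by
  unfold place
  fun_prop

theorem poly_cellR : Poly (fun p : (ℕ × ℕ × ℕ) × Bool => cellR p.1.1 p.1.2.1 p.1.2.2 p.2) := by
  unfold cellR
  fun_prop

theorem poly_cellH : Poly (fun p : (ℕ × ℕ × ℕ) × Bool => cellH p.1.1 p.1.2.1 p.1.2.2 p.2) := by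
  unfold cellH
  fun_prop

theorem poly_cellV : Poly (fun p : (ℕ × ℕ × ℕ) × Bool => cellV p.1.1 p.1.2.1 p.1.2.2 p.2) := by
  unfold cellV
  fun_prop

theorem poly_cellT : Poly (fun p : (ℕ × ℕ × ℕ) × Bool => cellT p.1.1 p.1.2.1 p.1.2.2 p.2) := by
  unfold cellT
  fun_prop

theorem poly_cells {cell : ℕ → ℕ → ℕ → Bool → List (ℤ × ℤ × ℤ × ℤ)}
    (h : Poly (fun p : (ℕ × ℕ × ℕ) × Bool => cell p.1.1 p.1.2.1 p.1.2.2 p.2)) :
    Poly (fun F : List Clause3 => cells cell F.length (compl F)) := by
  unfold cells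
  refine FP.Poly.flatMap (by fun_prop) (FP.Poly.flatMap (by fun_prop) (FP.Poly.map ?_ ?_))
  · have h1 : Poly (fun p : (List Clause3 × ℕ) × ℕ => compl p.1.1 p.1.2 p.2) :=
      poly_compl.comp (f := fun p : (List Clause3 × ℕ) × ℕ => (p.1.1, p.1.2, p.2)) (by fun_prop)
    exact h.comp (f := fun p : (List Clause3 × ℕ) × ℕ =>
      ((p.1.1.length, p.1.2, p.2), compl p.1.1 p.1.2 p.2)) (by fun_prop)
  · exact poly_place.comp (f := fun p : ((List Clause3 × ℕ) × ℕ) × (ℤ × ℤ × ℤ × ℤ) =>
      ((p.1.1.1.length, p.1.1.2, p.1.2), p.2)) (by fun_prop)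

theorem poly_satR : Poly (fun F : List Clause3 => satR F.length (compl F)) := poly_cells poly_cellR

theorem poly_satH : Poly (fun F : List Clause3 => satH F.length (compl F)) := poly_cells poly_cellH

theorem poly_satV : Poly (fun F : List Clause3 => satV F.length (compl F)) := poly_cells poly_cellV

theorem poly_satT : Poly (fun F : List Clause3 => satT F.length (compl F)) := poly_cells poly_cellT

/-- the size parameter of the reduction -/
def bnd (F : List Clause3) : ℤ := 1600 * (3 * (F.length : ℤ) + 4) ^ 2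

theorem poly_bnd : Poly bnd := by
  unfold bnd
  fun_prop

theorem poly_shift : Poly (fun p : ℤ × (ℤ × ℤ) × (ℤ × ℤ) => shift p.1 p.2.1 p.2.2) := by
  unfold shift cN cP
  fun_prop

theorem poly_mapShift {g : List Clause3 → List (ℤ × ℤ)} (hg : Poly g) (o : ℤ × ℤ) :
    Poly (fun F => (g F).map (shift (bnd F) o)) := by
  refine FP.Poly.map hg ?_
  have hb := poly_bnd
  exact poly_shift.comp (f := fun p : List Clause3 × (ℤ × ℤ) => (bnd p.1, o, p.2))
    (by fun_prop)

theorem poly_zList' {gR gH gV gT : List Clause3 → List (ℤ × ℤ)} (hR : Poly gR) (hH : Poly gH)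
    (hV : Poly gV) (hT : Poly gT) :
    Poly (fun F : List Clause3 => zList (bnd F) (gR F) (gH F) (gV F) (gT F)) := by
  have h1 := fun o => poly_mapShift hR o
  have h2 := fun o => poly_mapShift hH o
  have h3 := fun o => poly_mapShift hV o
  have h4 := fun o => poly_mapShift hT o
  unfold zList
  exact (((((h1 _).append (h2 _)).append (h3 _)).append (h4 _)).append (h4 _)).append (h4 _)

theorem poly_wList' {gH gV gT : List Clause3 → List (ℤ × ℤ)} (hH : Poly gH)
    (hV : Poly gV) (hT : Poly gT) :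
    Poly (fun F : List Clause3 => wList (bnd F) (gH F) (gV F) (gT F)) := by
  have h2 := fun o => poly_mapShift hH o
  have h3 := fun o => poly_mapShift hV o
  have h4 := fun o => poly_mapShift hT o
  unfold wList
  exact (((((((h2 _).append (h2 _)).append (h3 _)).append (h3 _)).append (h4 _)).append
    (h4 _)).append (h4 _)).append (h4 _)

theorem bnd_eq (F : List Clause3) : bnd F = ((1600 * (3 * F.length + 4) ^ 2 : ℕ) : ℤ) := by
  unfold bnd
  push_cast
  ring

theorem boxA_nat (m : ℕ) : boxA (m : ℤ) =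
    (1000 * m * (1000 * m)) * (1000 * m) * (3 * m + 3) := by
  unfold boxA cN cP
  have : (1000 * (m : ℤ) * (1000 * m) * (1000 * m) * (3 * m + 3)) =
    (((1000 * m * (1000 * m)) * (1000 * m) * (3 * m + 3) : ℕ) : ℤ) := by push_cast; ring
  rw [this, Int.toNat_natCast]

theorem boxB_nat (m : ℕ) : boxB (m : ℤ) = (1000 * m * (1000 * m)) * (3 * m + 3) := by
  unfold boxB cN cP
  have : (1000 * (m : ℤ) * (1000 * m) * (3 * m + 3)) =
    (((1000 * m * (1000 * m)) * (3 * m + 3) : ℕ) : ℤ) := by push_cast; ring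
  rw [this, Int.toNat_natCast]

theorem bdd_boxA : PolyBdd (fun F : List Clause3 => boxA (bnd F)) := by
  have : (fun F : List Clause3 => boxA (bnd F)) = fun F : List Clause3 =>
      (1000 * (1600 * (3 * F.length + 4) ^ 2) * (1000 * (1600 * (3 * F.length + 4) ^ 2))) *
      (1000 * (1600 * (3 * F.length + 4) ^ 2)) * (3 * (1600 * (3 * F.length + 4) ^ 2) + 3) := by
    funext F
    rw [bnd_eq, boxA_nat]
  rw [this]
  fun_prop

theorem bdd_boxB : PolyBdd (fun F : List Clause3 => boxB (bnd F)) := by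
  have : (fun F : List Clause3 => boxB (bnd F)) = fun F : List Clause3 =>
      (1000 * (1600 * (3 * F.length + 4) ^ 2) * (1000 * (1600 * (3 * F.length + 4) ^ 2))) *
      (3 * (1600 * (3 * F.length + 4) ^ 2) + 3) := by
    funext F
    rw [bnd_eq, boxB_nat]
  rw [this]
  fun_prop

theorem poly_boxA : Poly (fun F : List Clause3 => boxA (bnd F)) := by
  have h : Poly (fun M : ℤ => boxA M) := by
    unfold boxA cN cP
    fun_prop
  exact h.comp poly_bnd

theorem poly_boxB : Poly (fun F : List Clause3 => boxB (bnd F)) := by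
  have h : Poly (fun M : ℤ => boxB M) := by
    unfold boxB cN cP
    fun_prop
  exact h.comp poly_bnd

theorem poly_evenList {f g : List Clause3 → ℕ} (hf : Poly f) (hg : Poly g) (bf : PolyBdd f)
    (bg : PolyBdd g) : Poly (fun F : List Clause3 => evenList (f F) (g F)) := by
  unfold evenList
  refine FP.Poly.flatMap (FP.Poly.range (by fun_prop) (bf.add (PolyBdd.const 1)))
    (FP.Poly.map (FP.Poly.range ?_ ?_) (by fun_prop))
  · have := hg.comp (f := fun p : List Clause3 × ℕ => p.1) (by fun_prop)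
    fun_prop
  · exact (bg.add (PolyBdd.const 1)).fst

theorem poly_filterNot {g w : List Clause3 → List (ℤ × ℤ)} (hg : Poly g) (hw : Poly w) :
    Poly (fun F => (g F).filter (fun p => decide (p ∉ w F))) :=
  FP.Poly.filter hg (FP.PolyPred.dec (FP.PolyPred.not
    (FP.PolyPred.mem FP.Poly.snd' (hw.comp FP.Poly.fst'))))

theorem poly_ptsList' {gR gH gV gT : List Clause3 → List (ℤ × ℤ)} (hR : Poly gR) (hH : Poly gH)
    (hV : Poly gV) (hT : Poly gT) :
    Poly (fun F : List Clause3 => ptsList (bnd F) (gR F) (gH F) (gV F) (gT F)) :=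
  FP.Poly.append (poly_filterNot (poly_evenList poly_boxA poly_boxB bdd_boxA bdd_boxB)
    (poly_wList' hH hV hT)) (poly_zList' hR hH hV hT)

theorem poly_cast {g : List Clause3 → List (ℤ × ℤ)} (hg : Poly g) :
    Poly (fun F : List Clause3 =>
      (((g F).map (fun p => (((p.1 : ℚ), (p.2 : ℚ)) : ℚ × ℚ)), (2 : ℚ)) : List (ℚ × ℚ) × ℚ)) :=
  FP.Poly.pair (FP.Poly.map hg (by fun_prop)) (by fun_prop)

/-- The reduction is computable in polynomial time. -/
theorem poly_areaMap : Poly areaMap :=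
  poly_cast (poly_ptsList' poly_satR poly_satH poly_satV poly_satT)

end Pool.Agent.AreaTri
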