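import Pool.Agent.AreaTri.Sat.WF
import Pool.Agent.AreaTri.Sat.Sound5
import Pool.Agent.AreaTri.Sat.Comp4
import Pool.Agent.AreaTri.Sat.Lists

/-!
# The SAT layout

`satLayout m plain` encodes the instance with `m` clauses whose literals are numbered
`1, …, 3m` (clause `j` has the literals `3j+1, 3j+2, 3j+3`) and in which the literals `a < b` may
not both be selected when `plain a b = true`.

* `satLayout_wf`: the layout is well formed with size parameter `satBound m`;
* `satLayout_sound`: a service gives a selection of one literal for each clause;
* `satLayout_complete`: a selection gives a matching;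
* `satLayout_eq`: the four node sets as explicit lists.
-/

namespace Pool.Agent.AreaTri

example (m : ℕ) (plain : ℕ → ℕ → Bool) : (satLayout m plain).WF (satBound m) := satLayout_wf m plain

example {m : ℕ} {plain : ℕ → ℕ → Bool} {srv : ℤ × ℤ → ℤ × ℤ}
    (h : (satLayout m plain).Service srv) :
    ∃ pick : ℕ → ℕ, (∀ j < m, pick j < 3) ∧
      ∀ i j, i < j → j < m → plain (3 * i + pick i + 1) (3 * j + pick j + 1) = false :=
  satLayout_sound h

example {m : ℕ} {plain : ℕ → ℕ → Bool} (pick : ℕ → ℕ)
    (h : (∀ j < m, pick j < 3) ∧
      ∀ i j, i < j → j < m → plain (3 * i + pick i + 1) (3 * j + pick j + 1) = false) :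
    ∃ srv, (satLayout m plain).Matching srv :=
  satLayout_complete pick h

end Pool.Agent.AreaTri
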