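import Pool.Agent.PolyTime.ThreeSat

/-!
3-SAT as the problem of picking one literal per clause without complementary picks.
-/

namespace Pool.Agent.AreaTri

open FP

/-- the literal with number `w` (literals are numbered `1, 2, …, 3m`) -/
def litOf (F : List Clause3) (w : ℕ) : ℕ × Bool :=
  if (w - 1) % 3 = 0 then (F.getD ((w - 1) / 3) ((0, true), (0, true), (0, true))).1
  else if (w - 1) % 3 = 1 then (F.getD ((w - 1) / 3) ((0, true), (0, true), (0, true))).2.1
  else (F.getD ((w - 1) / 3) ((0, true), (0, true), (0, true))).2.2

/-- the literals with numbers `a` and `b` are complementary -/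
def compl (F : List Clause3) (a b : ℕ) : Bool :=
  decide ((litOf F a).1 = (litOf F b).1 ∧ (litOf F a).2 ≠ (litOf F b).2)

theorem litOf_eq (F : List Clause3) (j p : ℕ) (hp : p < 3) : litOf F (3 * j + p + 1) =
    if p = 0 then (F.getD j ((0, true), (0, true), (0, true))).1
    else if p = 1 then (F.getD j ((0, true), (0, true), (0, true))).2.1
    else (F.getD j ((0, true), (0, true), (0, true))).2.2 := by
  unfold litOf
  have h1 : (3 * j + p + 1 - 1) % 3 = p := by omega
  have h2 : (3 * j + p + 1 - 1) / 3 = j := by omega
  rw [h1, h2]

theorem sat_iff_pick (F : List Clause3) :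
    (∃ s : ℕ → Bool, ∀ c ∈ F, Clause3.Sat s c) ↔
    ∃ pick : ℕ → ℕ, (∀ j < F.length, pick j < 3) ∧ ∀ i j, i < j → j < F.length →
      compl F (3 * i + pick i + 1) (3 * j + pick j + 1) = false := by
  constructor
  · rintro ⟨s, hs⟩
    have hex : ∀ j, ∃ p, p < 3 ∧ (j < F.length →
        s (litOf F (3 * j + p + 1)).1 = (litOf F (3 * j + p + 1)).2) := by
      intro j
      by_cases hj : j < F.length
      · have hc := hs (F.getD j ((0, true), (0, true), (0, true))) (by
          rw [List.getD_eq_getElem _ _ hj]; exact List.getElem_mem hj)
        rcases hc with h | h | h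
        · refine ⟨0, by norm_num, fun _ => ?_⟩
          rw [litOf_eq F j 0 (by norm_num)]
          simpa using h
        · refine ⟨1, by norm_num, fun _ => ?_⟩
          rw [litOf_eq F j 1 (by norm_num)]
          simpa using h
        · refine ⟨2, by norm_num, fun _ => ?_⟩
          rw [litOf_eq F j 2 (by norm_num)]
          simpa using h
      · exact ⟨0, by norm_num, fun h => absurd h hj⟩
    choose pick hpick using hex
    refine ⟨pick, fun j _ => (hpick j).1, ?_⟩
    intro i j hij hj
    have h1 := (hpick i).2 (by omega)
    have h2 := (hpick j).2 hj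
    unfold compl
    rw [decide_eq_false_iff_not]
    rintro ⟨e1, e2⟩
    apply e2
    rw [← h1, ← h2, e1]
  · classical
    rintro ⟨pick, hp, hc⟩
    refine ⟨fun v => decide (∃ i < F.length, litOf F (3 * i + pick i + 1) = (v, true)), ?_⟩
    intro c hcF
    obtain ⟨j, hj, rfl⟩ := List.mem_iff_getElem.1 hcF
    -- the picked literal of clause `j` is satisfied
    have hsat : (decide (∃ i < F.length, litOf F (3 * i + pick i + 1) =
        ((litOf F (3 * j + pick j + 1)).1, true))) = (litOf F (3 * j + pick j + 1)).2 := by
      cases hb : (litOf F (3 * j + pick j + 1)).2 with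
      | true =>
        rw [decide_eq_true_iff]
        exact ⟨j, hj, Prod.ext rfl hb⟩
      | false =>
        rw [decide_eq_false_iff_not]
        rintro ⟨i, hi, he⟩
        have e1 : (litOf F (3 * i + pick i + 1)).1 = (litOf F (3 * j + pick j + 1)).1 := by rw [he]
        have e2 : (litOf F (3 * i + pick i + 1)).2 = true := by rw [he]
        rcases lt_trichotomy i j with h | h | h
        · have := hc i j h hj
          unfold compl at this
          rw [decide_eq_false_iff_not] at this
          apply this
          refine ⟨e1, ?_⟩
          rw [e2, hb]; decide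
        · subst h
          rw [hb] at e2
          exact absurd e2 (by decide)
        · have := hc j i h hi
          unfold compl at this
          rw [decide_eq_false_iff_not] at this
          apply this
          refine ⟨e1.symm, ?_⟩
          rw [e2, hb]; decide
    have hg : F.getD j ((0, true), (0, true), (0, true)) = F[j] := List.getD_eq_getElem _ _ hj
    have h3 := hp j hj
    have hle := litOf_eq F j (pick j) h3
    rw [hg] at hle
    unfold Clause3.Sat
    have h4 : pick j = 0 ∨ pick j = 1 ∨ pick j = 2 := by omega
    rcases h4 with h4 | h4 | h4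
    · rw [h4] at hle
      left
      have e : litOf F (3 * j + 0 + 1) = F[j].1 := by rw [hle]; simp
      rw [h4, e] at hsat
      exact hsat
    · rw [h4] at hle
      right; left
      have e : litOf F (3 * j + 1 + 1) = F[j].2.1 := by rw [hle]; simp
      rw [h4, e] at hsat
      exact hsat
    · rw [h4] at hle
      right; right
      have e : litOf F (3 * j + 2 + 1) = F[j].2.2 := by rw [hle]; simp
      rw [h4, e] at hsat
      exact hsat

end Pool.Agent.AreaTri
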