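import Pool.Agent.AreaTri.Lang
import Pool.Agent.AreaTri.SatPick
import Pool.Agent.AreaTri.Sound
import Pool.Agent.AreaTri.SatLayout

/-!
The reduction from 3SAT to max-min area and min-max area triangulation.
-/

namespace Pool.Agent.AreaTri

open FP

/-- the instance of the area problems made from a 3-CNF -/
def areaMap (F : List Clause3) : List (ℚ × ℚ) × ℚ :=
  instOf (1600 * (3 * (F.length : ℤ) + 4) ^ 2) (satR F.length (compl F)) (satH F.length (compl F))
    (satV F.length (compl F)) (satT F.length (compl F))

theorem mkLayout_sat (m : ℕ) (plain : ℕ → ℕ → Bool) :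
    mkLayout (satR m plain) (satH m plain) (satV m plain) (satT m plain) = satLayout m plain :=
  (satLayout_eq m plain).symm

theorem wf_sat (m : ℕ) (plain : ℕ → ℕ → Bool) :
    (mkLayout (satR m plain) (satH m plain) (satV m plain) (satT m plain)).WF
      (1600 * (3 * (m : ℤ) + 4) ^ 2) := by
  rw [mkLayout_sat, ← satBound_eq]
  exact satLayout_wf m plain

/-- equal-area triangulations and satisfying assignments -/
theorem tight_iff_sat (F : List Clause3) :
    (∃ G, IsTriangulation (inst (mkLayout (satR F.length (compl F)) (satH F.length (compl F))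
        (satV F.length (compl F)) (satT F.length (compl F))) (1600 * (3 * (F.length : ℤ) + 4) ^ 2)) G ∧
      ∀ a b c, IsFace (inst (mkLayout (satR F.length (compl F)) (satH F.length (compl F))
        (satV F.length (compl F)) (satT F.length (compl F))) (1600 * (3 * (F.length : ℤ) + 4) ^ 2))
        G a b c → |orient a b c| = 4) ↔
    ∃ s : ℕ → Bool, ∀ c ∈ F, Clause3.Sat s c := by
  have hwf := wf_sat F.length (compl F)
  rw [sat_iff_pick]
  constructor
  · rintro ⟨G, hG, h4⟩
    obtain ⟨srv, hsrv⟩ := layout_sound hwf hG h4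
    rw [mkLayout_sat] at hsrv
    exact satLayout_sound hsrv
  · rintro ⟨pick, h⟩
    obtain ⟨srv, hsrv⟩ := satLayout_complete pick h
    rw [← mkLayout_sat] at hsrv
    exact tight_of_matching hwf hsrv

theorem areaMap_maxMin (F : List Clause3) :
    enc (areaMap F) ∈ MaxMinArea ↔ ∃ s : ℕ → Bool, ∀ c ∈ F, Clause3.Sat s c := by
  unfold areaMap
  rw [instOf_mem_maxMin (wf_sat F.length (compl F)), tight_iff_sat]

theorem areaMap_minMax (F : List Clause3) :
    enc (areaMap F) ∈ MinMaxArea ↔ ∃ s : ℕ → Bool, ∀ c ∈ F, Clause3.Sat s c := by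
  unfold areaMap
  rw [instOf_mem_minMax (wf_sat F.length (compl F)), tight_iff_sat]

end Pool.Agent.AreaTri
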