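import Pool.Agent.AreaTri.Classify

/-!
A tight triangulation of the point set of a layout gives a service function.
-/

namespace Pool.Agent.AreaTri

variable {G : SimpleGraph Pt} {L : Layout} {M : ℤ}

theorem cross_pt {p1 p2 q1 q2 : Pt} (h1 : orient p1 p2 q1 * orient p1 p2 q2 < 0)
    (h2 : orient q1 q2 p1 * orient q1 q2 p2 < 0) :
    ∃ z, z ∈ openSegment ℝ p1 p2 ∧ z ∈ openSegment ℝ q1 q2 := by
  set a := orient q1 q2 p1 with ha
  set b := orient q1 q2 p2 with hb
  set c := orient p1 p2 q1 with hc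
  set d := orient p1 p2 q2 with hd
  have hab : a - b ≠ 0 := by
    intro h
    have : a = b := by linarith
    rw [this] at h2
    nlinarith [mul_self_nonneg b]
  have hD : a - b = d - c := by
    rw [ha, hb, hc, hd]; unfold orient; ring
  have hcd : d - c ≠ 0 := by rw [← hD]; exact hab
  have fr : ∀ x y : ℝ, x * y < 0 → 0 < x / (x - y) ∧ x / (x - y) < 1 := by
    intro x y hxy
    rcases lt_trichotomy x 0 with h | h | h
    · have hy : 0 < y := by
        by_contra hc; push Not at hc; nlinarith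
      have hd : x - y < 0 := by linarith
      exact ⟨div_pos_of_neg_of_neg h hd, by rw [div_lt_one_of_neg hd]; linarith⟩
    · rw [h, zero_mul] at hxy; exact absurd hxy (lt_irrefl _)
    · have hy : y < 0 := by
        by_contra hc; push Not at hc; nlinarith
      have hd : 0 < x - y := by linarith
      exact ⟨div_pos h hd, by rw [div_lt_one hd]; linarith⟩
  obtain ⟨f1, f2⟩ := fr a b h2
  obtain ⟨g1, g2⟩ := fr c d h1
  refine ⟨(p1.1 + a / (a - b) * (p2.1 - p1.1), p1.2 + a / (a - b) * (p2.2 - p1.2)),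
    mem_oseg.2 ⟨a / (a - b), f1, f2, rfl, rfl⟩, mem_oseg.2 ⟨c / (c - d), g1, g2, ?_, ?_⟩⟩
  · have e : c / (c - d) = - c / (a - b) := by
      rw [hD]
      rw [show c - d = -(d - c) by ring, div_neg, neg_div]
    rw [e]
    simp only
    field_simp
    rw [ha, hb, hc]; unfold orient; ring
  · have e : c / (c - d) = - c / (a - b) := by
      rw [hD]
      rw [show c - d = -(d - c) by ring, div_neg, neg_div]
    rw [e]
    simp only
    field_simp
    rw [ha, hb, hc]; unfold orient; ring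

/-- an almost horizontal and an almost vertical segment cross -/
theorem cross_hv {a b c d e f : ℝ} (h1 : (a < d ∧ d + 2 < b) ∨ (b < d ∧ d + 2 < a))
    (h2 : (e < c ∧ c + 2 < f) ∨ (f < c ∧ c + 2 < e)) (hpl : IsPlane (inst L M) G)
    (hp : G.Adj (a, c) (b, c + 2)) (hq : G.Adj (d, e) (d + 2, f)) : False := by
  have O1 : orient (a, c) (b, c + 2) (d, e) = (b - a) * (e - c) - 2 * (d - a) := by
    unfold orient; ring
  have O2 : orient (a, c) (b, c + 2) (d + 2, f) = (b - a) * (f - c) - 2 * (d + 2 - a) := by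
    unfold orient; ring
  have O3 : orient (d, e) (d + 2, f) (a, c) = 2 * (c - e) - (f - e) * (a - d) := by
    unfold orient; ring
  have O4 : orient (d, e) (d + 2, f) (b, c + 2) = 2 * (c + 2 - e) - (f - e) * (b - d) := by
    unfold orient; ring
  have s1 : orient (a, c) (b, c + 2) (d, e) * orient (a, c) (b, c + 2) (d + 2, f) < 0 ∧
      orient (d, e) (d + 2, f) (a, c) * orient (d, e) (d + 2, f) (b, c + 2) < 0 := by
    rw [O1, O2, O3, O4]
    rcases h1 with ⟨u1, u2⟩ | ⟨u1, u2⟩ <;> rcases h2 with ⟨v1, v2⟩ | ⟨v1, v2⟩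
    · have k1 : 0 < (b - a) * (c - e) := mul_pos (by linarith) (by linarith)
      have k2 : 0 < (b - a) * (f - c - 2) := mul_pos (by linarith) (by linarith)
      have k3 : 0 < (f - e) * (d - a) := mul_pos (by linarith) (by linarith)
      have k4 : 0 < (f - e) * (b - d - 2) := mul_pos (by linarith) (by linarith)
      exact ⟨mul_neg_of_neg_of_pos (by linarith) (by linarith),
        mul_neg_of_pos_of_neg (by linarith) (by linarith)⟩
    · have k1 : 0 < (b - a) * (e - c - 2) := mul_pos (by linarith) (by linarith)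
      have k2 : 0 < (b - a) * (c - f) := mul_pos (by linarith) (by linarith)
      have k3 : 0 < (e - f) * (d - a) := mul_pos (by linarith) (by linarith)
      have k4 : 0 < (e - f) * (b - d - 2) := mul_pos (by linarith) (by linarith)
      exact ⟨mul_neg_of_pos_of_neg (by linarith) (by linarith),
        mul_neg_of_neg_of_pos (by linarith) (by linarith)⟩
    · have k1 : 0 < (a - b) * (c - e) := mul_pos (by linarith) (by linarith)
      have k2 : 0 < (a - b) * (f - c - 2) := mul_pos (by linarith) (by linarith)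
      have k3 : 0 < (f - e) * (a - d - 2) := mul_pos (by linarith) (by linarith)
      have k4 : 0 < (f - e) * (d - b) := mul_pos (by linarith) (by linarith)
      exact ⟨mul_neg_of_pos_of_neg (by linarith) (by linarith),
        mul_neg_of_neg_of_pos (by linarith) (by linarith)⟩
    · have k1 : 0 < (a - b) * (e - c - 2) := mul_pos (by linarith) (by linarith)
      have k2 : 0 < (a - b) * (c - f) := mul_pos (by linarith) (by linarith)
      have k3 : 0 < (e - f) * (a - d - 2) := mul_pos (by linarith) (by linarith)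
      have k4 : 0 < (e - f) * (d - b) := mul_pos (by linarith) (by linarith)
      exact ⟨mul_neg_of_neg_of_pos (by linarith) (by linarith),
        mul_neg_of_pos_of_neg (by linarith) (by linarith)⟩
  obtain ⟨z, hz1, hz2⟩ := cross_pt s1.1 s1.2
  by_cases he : s(((a, c) : Pt), ((b, c + 2) : Pt)) = s(((d, e) : Pt), ((d + 2, f) : Pt))
  · have s := s1.1
    rcases Sym2.eq_iff.1 he with ⟨e1, _⟩ | ⟨e1, _⟩
    · rw [← e1] at s
      simp at s
    · rw [← e1] at s
      simp at s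
  · exact Set.disjoint_left.1 (hpl.cross _ _ _ _ hp hq he) hz1 hz2

theorem SD.symm {z u α v A B : ℤ × ℤ} {σ ρ : ℤ} (h : SD L M G z u α v A B σ ρ) :
    SD L M G z (-u) v α B A (-ρ) (-σ) := by
  have hs := h.star
  refine ⟨⟨hs.f3, ?_, ?_, hs.f2, ?_, ?_⟩, ?_, ?_, ?_, ?_, ?_, ?_, h.pb, h.pa, ?_, h.wB, h.wA⟩
  · rw [neg_neg]; exact hs.f4
  · rw [neg_neg]; exact hs.f1
  · have := hs.d2
    unfold idet at this ⊢
    simp only [Prod.fst_neg, Prod.snd_neg]; linarith
  · have := hs.d1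
    unfold idet at this ⊢
    simp only [Prod.fst_neg, Prod.snd_neg]; linarith
  · rcases h.hρ with h | h <;> rw [h] <;> simp
  · rcases h.hσ with h | h <;> rw [h] <;> simp
  · rw [Prod.fst_neg]; linarith [h.b1]
  · rw [Prod.snd_neg]; linarith [h.b2]
  · rw [Prod.fst_neg]; linarith [h.a1]
  · rw [Prod.snd_neg]; linarith [h.a2]
  · have := h.pu
    rw [Prod.fst_neg, Prod.snd_neg]
    omega

/-- the segment of `z` through `z + A` has end points `z + σ u` and `z + α` -/
theorem SD.faceA {z u α v A B : ℤ × ℤ} {σ ρ : ℤ} (h : SD L M G z u α v A B σ ρ) :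
    ∃ p q, IsFace (inst L M) G (ι z) (ι p) (ι q) ∧ 2 * (z + A).1 = p.1 + q.1 ∧
      2 * (z + A).2 = p.2 + q.2 ∧
      ((p = (z.1 + σ * u.1, z.2 + σ * u.2) ∧ q = z + α) ∨
       (q = (z.1 + σ * u.1, z.2 + σ * u.2) ∧ p = z + α)) := by
  have h1 := h.a1
  have h2 := h.a2
  rcases h.hσ with rfl | rfl
  · refine ⟨z + u, z + α, h.star.f1, ?_, ?_, Or.inl ⟨?_, rfl⟩⟩
    · simp only [Prod.fst_add]; linarith
    · simp only [Prod.snd_add]; linarith
    · apply Prod.ext <;> simp
  · refine ⟨z + α, z + -u, h.star.f2, ?_, ?_, Or.inr ⟨?_, rfl⟩⟩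
    · simp only [Prod.fst_add, Prod.fst_neg]; linarith
    · simp only [Prod.snd_add, Prod.snd_neg]; linarith
    · apply Prod.ext <;> simp

theorem SD.adjA {z u α v A B : ℤ × ℤ} {σ ρ : ℤ} (h : SD L M G z u α v A B σ ρ) :
    G.Adj (ι (z + α)) (ι (z.1 - σ * u.1, z.2 - σ * u.2)) := by
  rcases h.hσ with rfl | rfl
  · have e : ((z.1 - 1 * u.1, z.2 - 1 * u.2) : ℤ × ℤ) = z + -u := by
      apply Prod.ext <;> simp <;> ring
    rw [e]; exact h.star.f2.bc
  · have e : ((z.1 - -1 * u.1, z.2 - -1 * u.2) : ℤ × ℤ) = z + u := by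
      apply Prod.ext <;> simp
    rw [e]; exact h.star.f1.bc.symm

/-- a single `H` node in its row: the sliver of the red node it is served by is straight -/
theorem longH (hL : L.WF M) (hG : IsTriangulation (inst L M) G)
    (h4 : ∀ x y z, IsFace (inst L M) G x y z → |orient x y z| = 4) {h r : ℤ × ℤ}
    (hh : h ∈ L.H) (hrow : h.2 = r.2)
    (hsingle : ∀ h' ∈ L.H, h'.2 = h.2 → h' = h) {u α v A B : ℤ × ℤ} {σ ρ : ℤ}
    (hs : SD L M G (base M r + (1, 1)) u α v A B σ ρ) (hzodd : base M r + (1, 1) ∈ zset L M)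
    (hA : base M r + (1, 1) + A = base M h + (8, 0))
    (hB : base M r + (1, 1) + B = base M h + (12, 0)) :
    G.Adj (ι (base M h + (6, 0)))
      (ι (2 * (base M r).1 - (base M h).1 - 8, 2 * (base M r).2 - (base M h).2 + 2)) := by
  have hY : (base M h).2 = (base M r).2 := by unfold base; simp only; rw [hrow]
  have eA1 := congrArg Prod.fst hA
  have eA2 := congrArg Prod.snd hA
  have eB1 := congrArg Prod.fst hB
  have eB2 := congrArg Prod.snd hB
  simp only [Prod.fst_add, Prod.snd_add] at eA1 eA2 eB1 eB2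
  obtain ⟨τ, t1, t2, t3⟩ := sum_mult (zset_odd hzodd) hs.pu hs.pa hs.pb hs.detA hs.detB
  -- τ u = q - z
  have q1 : τ * u.1 = (base M h).1 - (base M r).1 + 9 := by linarith
  have q2 : τ * u.2 = -1 := by linarith
  -- the extra point of `h`
  set zh := base M h + ((10, -1) : ℤ × ℤ) with hzh
  have hzhm : zh ∈ zset L M :=
    mem_zset.2 ⟨.H, h, hh, (10, -1), by simp [zoff], rfl⟩
  obtain ⟨u', α', v', A', B', σ', ρ', hs'⟩ := star_data hL hG h4 hzhm
  obtain ⟨k1, n1, hn1, o1, ho1, o2, ho2, hw1, hw2, hc⟩ := classify hL (k0 := .H) (n0 := h)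
    (o0 := (10, -1)) hh (by simp [zoff]) hzh hs'.pu hs'.pa hs'.pb hs'.detA hs'.detB hs'.wA hs'.wB
  have hk1 : k1 = .H ∧ n1 = h := by
    rcases hc with ⟨e1, e2, _⟩ | ⟨_, _, e3⟩ | ⟨e1, e2⟩
    · subst e1; exact ⟨rfl, hsingle n1 hn1 e2⟩
    · rcases e3 with e3 | e3 <;> exact absurd e3 (by decide)
    · rcases e2 with ⟨e2, _⟩ | e2
      · exact absurd e2 (by decide)
      · subst e1
        rw [← e2] at hn1
        exact absurd (kind_unique hL (k := .H) hh hn1) (by decide)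
  obtain ⟨rfl, rfl⟩ := hk1
  -- choose the description of the star of `zh` with `zh + A' = base h + (8,0)`
  have hchoose : ∃ u' α' v' A' B' σ' ρ', SD L M G zh u' α' v' A' B' σ' ρ' ∧
      zh + A' = base M n1 + (8, 0) ∧ zh + B' = base M n1 + (12, 0) := by
    have hne := hs'.ne
    simp only [woff, Finset.mem_insert, Finset.mem_singleton] at ho1 ho2
    rcases ho1 with rfl | rfl <;> rcases ho2 with rfl | rfl
    · exact absurd (hw1.trans hw2.symm) hne
    · exact ⟨_, _, _, _, _, _, _, hs', hw1, hw2⟩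
    · exact ⟨_, _, _, _, _, _, _, hs'.symm, hw2, hw1⟩
    · exact absurd (hw1.trans hw2.symm) hne
  clear hs' hw1 hw2 ho1 ho2 hc hn1
  obtain ⟨u', α', v', A', B', σ', ρ', hs', hw1, hw2⟩ := hchoose
  have f1 := congrArg Prod.fst hw1
  have f2 := congrArg Prod.snd hw1
  have f3 := congrArg Prod.fst hw2
  have f4 := congrArg Prod.snd hw2
  rw [hzh] at f1 f2 f3 f4
  simp only [Prod.fst_add, Prod.snd_add] at f1 f2 f3 f4
  obtain ⟨τ', t1', t2', t3'⟩ := sum_mult (zset_odd hzhm) hs'.pu hs'.pa hs'.pb hs'.detA hs'.detB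
  have q1' : τ' * u'.1 = 0 := by linarith
  have q2' : τ' * u'.2 = 1 := by linarith
  have hu'1 : u'.1 = 0 := by
    rcases mul_eq_zero.1 q1' with h0 | h0
    · rw [h0] at q2'; simp at q2'
    · exact h0
  -- the common segment
  obtain ⟨p, q, hf, g1, g2, hpq⟩ := hs.faceA
  obtain ⟨p', q', hf', g1', g2', hpq'⟩ := hs'.faceA
  have hAA : base M r + (1, 1) + A = zh + A' := by rw [hA, hw1]
  rw [hAA] at g1 g2
  have hedge := uses_edge hG.1 hf g1 g2 hf' g1' g2'
  -- x-coordinates of the end points of the segment of `zh`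
  have hx' : ∀ x : ℤ × ℤ, (x = p' ∨ x = q') → x.1 = (base M n1).1 + 10 ∨
      x.1 = (base M n1).1 + 6 := by
    have ex : (zh.1 + σ' * u'.1, zh.2 + σ' * u'.2).1 = (base M n1).1 + 10 := by
      simp only; rw [hu'1, hzh]; simp
    have ea : (zh + α').1 = (base M n1).1 + 6 := by
      have h5 := hs'.a1
      rw [hu'1] at h5
      rw [hzh]
      simp only [Prod.fst_add]
      linarith
    intro x hx
    rcases hpq' with ⟨e1, e2⟩ | ⟨e1, e2⟩
    · rcases hx with rfl | rfl
      · left; rw [e1]; exact ex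
      · right; rw [e2]; exact ea
    · rcases hx with rfl | rfl
      · right; rw [e2]; exact ea
      · left; rw [e1]; exact ex
  -- so `z + σ u` has such an x-coordinate
  set z := base M r + ((1, 1) : ℤ × ℤ) with hz
  have hx : (z.1 + σ * u.1) = (base M n1).1 + 10 ∨ (z.1 + σ * u.1) = (base M n1).1 + 6 := by
    have hmem : ((z.1 + σ * u.1, z.2 + σ * u.2) : ℤ × ℤ) = p' ∨
        ((z.1 + σ * u.1, z.2 + σ * u.2) : ℤ × ℤ) = q' := by
      rcases hpq with ⟨e1, e2⟩ | ⟨e1, e2⟩ <;> rcases hedge with ⟨d1, d2⟩ | ⟨d1, d2⟩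
      · left; rw [← e1, d1]
      · right; rw [← e1, d1]
      · right; rw [← e1, d2]
      · left; rw [← e1, d2]
    exact hx' _ hmem
  -- τ = ±1
  have hτ : τ = 1 ∨ τ = -1 := by
    have : τ ∣ 1 := ⟨-u.2, by linarith⟩
    have := Int.isUnit_iff.1 (isUnit_of_dvd_one this)
    exact this
  have hz1 : z.1 = (base M r).1 + 1 := by rw [hz]; simp
  have hz2 : z.2 = (base M r).2 + 1 := by rw [hz]; simp
  have hbase : ∃ K, (base M n1).1 - (base M r).1 = 2 * K := by
    refine ⟨(cN M * cP M) * (n1.1 - r.1), ?_⟩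
    unfold base; simp only; ring
  obtain ⟨K, hK⟩ := hbase
  -- `σ u = q - z`
  have hσu : σ * u.1 = (base M n1).1 - (base M r).1 + 9 ∧ σ * u.2 = -1 := by
    rcases hs.hσ with h1 | h1 <;> rcases hτ with h2 | h2
    · have e : σ = τ := by rw [h1, h2]
      rw [e]; exact ⟨q1, q2⟩
    · exfalso
      rw [h2] at q1; rw [h1] at hx
      rcases hx with hx | hx <;> omega
    · exfalso
      rw [h2] at q1; rw [h1] at hx
      rcases hx with hx | hx <;> omega
    · have e : σ = τ := by rw [h1, h2]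
      rw [e]; exact ⟨q1, q2⟩
  have hadj := hs.adjA
  have ea1 := hs.a1
  have ea2 := hs.a2
  have e1 : z + α = base M n1 + (6, 0) := by
    apply Prod.ext
    · simp only [Prod.fst_add]; linarith [hσu.1]
    · simp only [Prod.snd_add]; linarith [hσu.2]
  have e2 : ((z.1 - σ * u.1, z.2 - σ * u.2) : ℤ × ℤ) =
      (2 * (base M r).1 - (base M n1).1 - 8, 2 * (base M r).2 - (base M n1).2 + 2) := by
    rw [hσu.1, hσu.2, hz1, hz2, hY]
    apply Prod.ext
    · simp only; ring
    · simp only; ring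
  rw [e1, e2] at hadj
  exact hadj

/-- a single `V` node in its column: the sliver of the red node it is served by is straight -/
theorem longV (hL : L.WF M) (hG : IsTriangulation (inst L M) G)
    (h4 : ∀ x y z, IsFace (inst L M) G x y z → |orient x y z| = 4) {h r : ℤ × ℤ}
    (hh : h ∈ L.V) (hrow : h.1 = r.1)
    (hsingle : ∀ h' ∈ L.V, h'.1 = h.1 → h' = h) {u α v A B : ℤ × ℤ} {σ ρ : ℤ}
    (hs : SD L M G (base M r + (1, 1)) u α v A B σ ρ) (hzodd : base M r + (1, 1) ∈ zset L M)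
    (hA : base M r + (1, 1) + A = base M h + (0, 8))
    (hB : base M r + (1, 1) + B = base M h + (0, 12)) :
    G.Adj (ι (base M h + (0, 6)))
      (ι (2 * (base M r).1 - (base M h).1 + 2, 2 * (base M r).2 - (base M h).2 - 8)) := by
  have hY : (base M h).1 = (base M r).1 := by unfold base; simp only; rw [hrow]
  have eA1 := congrArg Prod.fst hA
  have eA2 := congrArg Prod.snd hA
  have eB1 := congrArg Prod.fst hB
  have eB2 := congrArg Prod.snd hB
  simp only [Prod.fst_add, Prod.snd_add] at eA1 eA2 eB1 eB2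
  obtain ⟨τ, t1, t2, t3⟩ := sum_mult (zset_odd hzodd) hs.pu hs.pa hs.pb hs.detA hs.detB
  -- τ u = q - z
  have q1 : τ * u.1 = -1 := by linarith
  have q2 : τ * u.2 = (base M h).2 - (base M r).2 + 9 := by linarith
  -- the extra point of `h`
  set zh := base M h + ((-1, 10) : ℤ × ℤ) with hzh
  have hzhm : zh ∈ zset L M :=
    mem_zset.2 ⟨.V, h, hh, (-1, 10), by simp [zoff], rfl⟩
  obtain ⟨u', α', v', A', B', σ', ρ', hs'⟩ := star_data hL hG h4 hzhm
  obtain ⟨k1, n1, hn1, o1, ho1, o2, ho2, hw1, hw2, hc⟩ := classify hL (k0 := .V) (n0 := h)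
    (o0 := (-1, 10)) hh (by simp [zoff]) hzh hs'.pu hs'.pa hs'.pb hs'.detA hs'.detB hs'.wA hs'.wB
  have hk1 : k1 = .V ∧ n1 = h := by
    rcases hc with ⟨_, _, e3⟩ | ⟨e1, e2, _⟩ | ⟨e1, e2⟩
    · rcases e3 with e3 | e3 <;> exact absurd e3 (by decide)
    · subst e1; exact ⟨rfl, hsingle n1 hn1 e2⟩
    · rcases e2 with ⟨e2, _⟩ | e2
      · exact absurd e2 (by decide)
      · subst e1
        rw [← e2] at hn1
        exact absurd (kind_unique hL (k := .V) hh hn1) (by decide)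
  obtain ⟨rfl, rfl⟩ := hk1
  -- choose the description of the star of `zh` with `zh + A' = base h + (0,8)`
  have hchoose : ∃ u' α' v' A' B' σ' ρ', SD L M G zh u' α' v' A' B' σ' ρ' ∧
      zh + A' = base M n1 + (0, 8) ∧ zh + B' = base M n1 + (0, 12) := by
    have hne := hs'.ne
    simp only [woff, Finset.mem_insert, Finset.mem_singleton] at ho1 ho2
    rcases ho1 with rfl | rfl <;> rcases ho2 with rfl | rfl
    · exact absurd (hw1.trans hw2.symm) hne
    · exact ⟨_, _, _, _, _, _, _, hs', hw1, hw2⟩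
    · exact ⟨_, _, _, _, _, _, _, hs'.symm, hw2, hw1⟩
    · exact absurd (hw1.trans hw2.symm) hne
  clear hs' hw1 hw2 ho1 ho2 hc hn1
  obtain ⟨u', α', v', A', B', σ', ρ', hs', hw1, hw2⟩ := hchoose
  have f1 := congrArg Prod.fst hw1
  have f2 := congrArg Prod.snd hw1
  have f3 := congrArg Prod.fst hw2
  have f4 := congrArg Prod.snd hw2
  rw [hzh] at f1 f2 f3 f4
  simp only [Prod.fst_add, Prod.snd_add] at f1 f2 f3 f4
  obtain ⟨τ', t1', t2', t3'⟩ := sum_mult (zset_odd hzhm) hs'.pu hs'.pa hs'.pb hs'.detA hs'.detB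
  have q1' : τ' * u'.1 = 1 := by linarith
  have q2' : τ' * u'.2 = 0 := by linarith
  have hu'1 : u'.2 = 0 := by
    rcases mul_eq_zero.1 q2' with h0 | h0
    · rw [h0] at q1'; simp at q1'
    · exact h0
  -- the common segment
  obtain ⟨p, q, hf, g1, g2, hpq⟩ := hs.faceA
  obtain ⟨p', q', hf', g1', g2', hpq'⟩ := hs'.faceA
  have hAA : base M r + (1, 1) + A = zh + A' := by rw [hA, hw1]
  rw [hAA] at g1 g2
  have hedge := uses_edge hG.1 hf g1 g2 hf' g1' g2'
  -- y-coordinates of the end points of the segment of `zh`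
  have hx' : ∀ x : ℤ × ℤ, (x = p' ∨ x = q') → x.2 = (base M n1).2 + 10 ∨
      x.2 = (base M n1).2 + 6 := by
    have ex : (zh.1 + σ' * u'.1, zh.2 + σ' * u'.2).2 = (base M n1).2 + 10 := by
      simp only; rw [hu'1, hzh]; simp
    have ea : (zh + α').2 = (base M n1).2 + 6 := by
      have h5 := hs'.a2
      rw [hu'1] at h5
      rw [hzh]
      simp only [Prod.snd_add]
      linarith
    intro x hx
    rcases hpq' with ⟨e1, e2⟩ | ⟨e1, e2⟩
    · rcases hx with rfl | rfl
      · left; rw [e1]; exact ex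
      · right; rw [e2]; exact ea
    · rcases hx with rfl | rfl
      · right; rw [e2]; exact ea
      · left; rw [e1]; exact ex
  -- so `z + σ u` has such a y-coordinate
  set z := base M r + ((1, 1) : ℤ × ℤ) with hz
  have hx : (z.2 + σ * u.2) = (base M n1).2 + 10 ∨ (z.2 + σ * u.2) = (base M n1).2 + 6 := by
    have hmem : ((z.1 + σ * u.1, z.2 + σ * u.2) : ℤ × ℤ) = p' ∨
        ((z.1 + σ * u.1, z.2 + σ * u.2) : ℤ × ℤ) = q' := by
      rcases hpq with ⟨e1, e2⟩ | ⟨e1, e2⟩ <;> rcases hedge with ⟨d1, d2⟩ | ⟨d1, d2⟩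
      · left; rw [← e1, d1]
      · right; rw [← e1, d1]
      · right; rw [← e1, d2]
      · left; rw [← e1, d2]
    exact hx' _ hmem
  -- τ = ±1
  have hτ : τ = 1 ∨ τ = -1 := by
    have : τ ∣ 1 := ⟨-u.1, by linarith⟩
    have := Int.isUnit_iff.1 (isUnit_of_dvd_one this)
    exact this
  have hz1 : z.1 = (base M r).1 + 1 := by rw [hz]; simp
  have hz2 : z.2 = (base M r).2 + 1 := by rw [hz]; simp
  have hbase : ∃ K, (base M n1).2 - (base M r).2 = 2 * K := by
    refine ⟨cN M * (n1.2 - r.2), ?_⟩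
    unfold base; simp only; ring
  obtain ⟨K, hK⟩ := hbase
  -- `σ u = q - z`
  have hσu : σ * u.1 = -1 ∧ σ * u.2 = (base M n1).2 - (base M r).2 + 9 := by
    rcases hs.hσ with h1 | h1 <;> rcases hτ with h2 | h2
    · have e : σ = τ := by rw [h1, h2]
      rw [e]; exact ⟨q1, q2⟩
    · exfalso
      rw [h2] at q2; rw [h1] at hx
      rcases hx with hx | hx <;> omega
    · exfalso
      rw [h2] at q2; rw [h1] at hx
      rcases hx with hx | hx <;> omega
    · have e : σ = τ := by rw [h1, h2]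
      rw [e]; exact ⟨q1, q2⟩
  have hadj := hs.adjA
  have ea1 := hs.a1
  have ea2 := hs.a2
  have e1 : z + α = base M n1 + (0, 6) := by
    apply Prod.ext
    · simp only [Prod.fst_add]; linarith [hσu.1]
    · simp only [Prod.snd_add]; linarith [hσu.2]
  have e2 : ((z.1 - σ * u.1, z.2 - σ * u.2) : ℤ × ℤ) =
      (2 * (base M r).1 - (base M n1).1 + 2, 2 * (base M r).2 - (base M n1).2 - 8) := by
    rw [hσu.1, hσu.2, hz1, hz2, hY]
    apply Prod.ext
    · simp only; ring
    · simp only; ring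
  rw [e1, e2] at hadj
  exact hadj

/-- what we know about a red node `r` and the node `n` it serves -/
def Srv (L : Layout) (M : ℤ) (G : SimpleGraph Pt) (r n : ℤ × ℤ) : Prop :=
  ∃ k1, n ∈ L.get k1 ∧ (∃ u α v A B σ ρ, SD L M G (base M r + (1, 1)) u α v A B σ ρ ∧
    ∃ o1 ∈ woff k1, ∃ o2 ∈ woff k1, base M r + (1, 1) + A = base M n + o1 ∧
      base M r + (1, 1) + B = base M n + o2) ∧
    ((k1 = .H ∧ n.2 = r.2) ∨ (k1 = .V ∧ n.1 = r.1) ∨ (k1 = .T ∧ (n.1 = r.1 ∨ n.2 = r.2)))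

theorem red_mem {r : ℤ × ℤ} (hr : r ∈ L.R) : base M r + (1, 1) ∈ zset L M :=
  mem_zset.2 ⟨.R, r, hr, (1, 1), by simp [zoff], rfl⟩

theorem exists_srv (hL : L.WF M) (hG : IsTriangulation (inst L M) G)
    (h4 : ∀ x y z, IsFace (inst L M) G x y z → |orient x y z| = 4) {r : ℤ × ℤ} (hr : r ∈ L.R) :
    ∃ n, Srv L M G r n := by
  have hm := red_mem (M := M) hr
  obtain ⟨u, α, v, A, B, σ, ρ, hs⟩ := star_data hL hG h4 hm
  obtain ⟨k1, n1, hn1, o1, ho1, o2, ho2, hw1, hw2, hc⟩ := classify hL (k0 := .R) (n0 := r)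
    (o0 := (1, 1)) hr (by simp [zoff]) rfl hs.pu hs.pa hs.pb hs.detA hs.detB hs.wA hs.wB
  refine ⟨n1, k1, hn1, ⟨u, α, v, A, B, σ, ρ, hs, o1, ho1, o2, ho2, hw1, hw2⟩, ?_⟩
  rcases hc with ⟨e1, e2, _⟩ | ⟨e1, e2, _⟩ | ⟨e1, e2⟩
  · exact Or.inl ⟨e1, e2⟩
  · exact Or.inr (Or.inl ⟨e1, e2⟩)
  · rcases e2 with ⟨_, e2⟩ | e2
    · exact Or.inr (Or.inr ⟨e1, e2⟩)
    · exfalso
      subst e1
      rw [← e2] at hn1
      exact absurd (kind_unique hL (k := .R) hr hn1) (by decide)

theorem Srv.uses {r n : ℤ × ℤ} {k : Kind} (hL : L.WF M) (h : Srv L M G r n)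
    (hk : n ∈ L.get k) : ∃ o1 ∈ woff k, ∃ o2 ∈ woff k, base M n + o1 ≠ base M n + o2 ∧
      Uses L M G (base M r + (1, 1)) (base M n + o1) ∧
      Uses L M G (base M r + (1, 1)) (base M n + o2) := by
  obtain ⟨k1, hn1, ⟨u, α, v, A, B, σ, ρ, hs, o1, ho1, o2, ho2, hw1, hw2⟩, _⟩ := h
  have := kind_unique hL hk hn1
  subst this
  refine ⟨o1, ho1, o2, ho2, ?_, ?_, ?_⟩
  · rw [← hw1, ← hw2]; exact hs.ne
  · rw [← hw1]; exact hs.usesA
  · rw [← hw2]; exact hs.usesB

/-- dedicated extra points use missing points of their own node, or of their row or column -/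
theorem own_uses (hL : L.WF M) (hG : IsTriangulation (inst L M) G)
    (h4 : ∀ x y z, IsFace (inst L M) G x y z → |orient x y z| = 4) {k0 : Kind} {n0 o0 : ℤ × ℤ}
    (hn0 : n0 ∈ L.get k0) (ho0 : o0 ∈ zoff k0) (hk : k0 ≠ .R) :
    ∃ n1 ∈ L.get k0, ∃ o1 ∈ woff k0, ∃ o2 ∈ woff k0, base M n1 + o1 ≠ base M n1 + o2 ∧
      Uses L M G (base M n0 + o0) (base M n1 + o1) ∧
      Uses L M G (base M n0 + o0) (base M n1 + o2) ∧
      ((k0 = .H ∧ n1.2 = n0.2) ∨ (k0 = .V ∧ n1.1 = n0.1) ∨ (k0 = .T ∧ n1 = n0)) := by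
  have hm : base M n0 + o0 ∈ zset L M := mem_zset.2 ⟨k0, n0, hn0, o0, ho0, rfl⟩
  obtain ⟨u, α, v, A, B, σ, ρ, hs⟩ := star_data hL hG h4 hm
  obtain ⟨k1, n1, hn1, o1, ho1, o2, ho2, hw1, hw2, hc⟩ := classify hL hn0 ho0 rfl hs.pu hs.pa
    hs.pb hs.detA hs.detB hs.wA hs.wB
  have hcase : k1 = k0 ∧ ((k0 = .H ∧ n1.2 = n0.2) ∨ (k0 = .V ∧ n1.1 = n0.1) ∨
      (k0 = .T ∧ n1 = n0)) := by
    rcases hc with ⟨e1, e2, e3⟩ | ⟨e1, e2, e3⟩ | ⟨e1, e2⟩
    · rcases e3 with e3 | e3
      · exact absurd e3 hk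
      · exact ⟨by rw [e1, e3], Or.inl ⟨e3, e2⟩⟩
    · rcases e3 with e3 | e3
      · exact absurd e3 hk
      · exact ⟨by rw [e1, e3], Or.inr (Or.inl ⟨e3, e2⟩)⟩
    · rcases e2 with ⟨e2, _⟩ | e2
      · exact absurd e2 hk
      · have : k0 = .T := by
          subst e1; rw [← e2] at hn1; exact kind_unique hL hn0 hn1
        exact ⟨by rw [e1, this], Or.inr (Or.inr ⟨this, e2.symm⟩)⟩
  obtain ⟨rfl, hcase⟩ := hcase
  refine ⟨n1, hn1, o1, ho1, o2, ho2, ?_, ?_, ?_, hcase⟩
  · rw [← hw1, ← hw2]; exact hs.ne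
  · rw [← hw1]; exact hs.usesA
  · rw [← hw2]; exact hs.usesB

end Pool.Agent.AreaTri
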