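import Pool.Agent.AreaTri.Count

/-!
The star of an odd point in a triangulation with all triangles of doubled area 4.
-/

namespace Pool.Agent.AreaTri

variable {S : Finset Pt} {G : SimpleGraph Pt}

/-- integer points as points of the plane -/
def ι (p : ℤ × ℤ) : Pt := ((p.1 : ℝ), (p.2 : ℝ))

theorem ι_inj : Function.Injective ι := by
  intro p q h
  have h1 : (p.1 : ℝ) = q.1 := congrArg Prod.fst h
  have h2 : (p.2 : ℝ) = q.2 := congrArg Prod.snd h
  exact Prod.ext (by exact_mod_cast h1) (by exact_mod_cast h2)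

/-- determinant of two integer vectors -/
def idet (p q : ℤ × ℤ) : ℤ := p.1 * q.2 - p.2 * q.1

theorem orient_ι (a b c : ℤ × ℤ) :
    orient (ι a) (ι b) (ι c) = ((idet (b - a) (c - a) : ℤ) : ℝ) := by
  unfold orient ι idet
  simp only [Prod.fst_sub, Prod.snd_sub]
  push_cast
  ring

theorem orient_ι' (z u v : ℤ × ℤ) :
    orient (ι z) (ι (z + u)) (ι (z + v)) = ((idet u v : ℤ) : ℝ) := by
  rw [orient_ι]; simp

/-- the star of `z`: four triangles around `z` with vertices `z+u, z+α, z-u, z+v` -/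
structure Star (S : Finset Pt) (G : SimpleGraph Pt) (z u α v : ℤ × ℤ) : Prop where
  f1 : IsFace S G (ι z) (ι (z + u)) (ι (z + α))
  f2 : IsFace S G (ι z) (ι (z + α)) (ι (z + -u))
  f3 : IsFace S G (ι z) (ι (z + -u)) (ι (z + v))
  f4 : IsFace S G (ι z) (ι (z + v)) (ι (z + u))
  d1 : idet u α = 4
  d2 : idet v u = 4

theorem next_ccw (hG : IsTriangulation S G) (hint : ∀ p ∈ S, ∃ q, p = ι q)
    (h4 : ∀ x y z, IsFace S G x y z → |orient x y z| = 4) {z v : ℤ × ℤ}
    (hadj : G.Adj (ι z) (ι (z + v))) (hl : ∃ p ∈ S, 0 < orient (ι z) (ι (z + v)) p) :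
    ∃ v', IsFace S G (ι z) (ι (z + v)) (ι (z + v')) ∧ idet v v' = 4 := by
  obtain ⟨p, hp, hp'⟩ := hl
  obtain ⟨c, hc, hpos, -⟩ := apex hG hadj hp hp'
  obtain ⟨q, rfl⟩ := hint c (hG.1.mem _ _ hc.ca)
  refine ⟨q - z, by rw [add_sub_cancel]; exact hc, ?_⟩
  have := h4 _ _ _ hc
  rw [abs_of_pos hpos] at this
  have e : q = z + (q - z) := by abel
  rw [e, orient_ι'] at this
  exact_mod_cast this

theorem next_cw (hG : IsTriangulation S G) (hint : ∀ p ∈ S, ∃ q, p = ι q)
    (h4 : ∀ x y z, IsFace S G x y z → |orient x y z| = 4) {z v : ℤ × ℤ}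
    (hadj : G.Adj (ι z) (ι (z + v))) (hr : ∃ p ∈ S, orient (ι z) (ι (z + v)) p < 0) :
    ∃ v', IsFace S G (ι z) (ι (z + v')) (ι (z + v)) ∧ idet v' v = 4 := by
  obtain ⟨p, hp, hp'⟩ := hr
  obtain ⟨c, hc, hpos, -⟩ := apex hG hadj.symm hp (by rw [orient_swap']; linarith)
  obtain ⟨q, rfl⟩ := hint c (hG.1.mem _ _ hc.ca)
  have e : q = z + (q - z) := by abel
  refine ⟨q - z, by rw [← e]; exact hc.rot, ?_⟩
  have := h4 _ _ _ hc
  rw [abs_of_pos hpos, ← orient_cyc, e, orient_ι'] at this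
  exact_mod_cast this

theorem odd_half {k x v : ℤ} (hv : v % 2 = 1) (h : 2 * x = k * v) :
    ∃ k', k = 2 * k' ∧ x = k' * v := by
  have h2 : (k * v) % 2 = 0 := by rw [← h]; simp
  rw [Int.mul_emod, hv] at h2
  have hk : k % 2 = 0 := by
    rcases Int.emod_two_eq_zero_or_one k with h3 | h3
    · exact h3
    · rw [h3] at h2; simp at h2
  refine ⟨k / 2, by omega, ?_⟩
  have e : k = 2 * (k / 2) := by omega
  rw [e] at h
  have h5 : 2 * x = 2 * (k / 2 * v) := by rw [h]; ring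
  linarith

/-- if `v⁻, v, v⁺` are consecutive then `v⁻ + v⁺ = c v` with `c` even -/
theorem even_mult {z v p m : ℤ × ℤ} (hz : z.1 % 2 = 1 ∨ z.2 % 2 = 1)
    (hv : v.1 % 2 = z.1 % 2 ∧ v.2 % 2 = z.2 % 2) (hp : p.1 % 2 = z.1 % 2 ∧ p.2 % 2 = z.2 % 2)
    (hm : m.1 % 2 = z.1 % 2 ∧ m.2 % 2 = z.2 % 2) (h1 : idet v p = 4) (h2 : idet m v = 4) :
    ∃ k : ℤ, m.1 + p.1 = 2 * k * v.1 ∧ m.2 + p.2 = 2 * k * v.2 := by
  unfold idet at h1 h2
  have e1 : 4 * (m.1 + p.1) = idet m p * v.1 := by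
    unfold idet; linear_combination (-p.1) * h2 - m.1 * h1
  have e2 : 4 * (m.2 + p.2) = idet m p * v.2 := by
    unfold idet; linear_combination (-p.2) * h2 - m.2 * h1
  obtain ⟨s1, hs1⟩ : ∃ s, m.1 + p.1 = 2 * s := ⟨(m.1 + p.1) / 2, by omega⟩
  obtain ⟨s2, hs2⟩ : ∃ s, m.2 + p.2 = 2 * s := ⟨(m.2 + p.2) / 2, by omega⟩
  have h8 : ∃ k, idet m p = 8 * k := by
    rcases hz with h | h
    · have hodd : v.1 % 2 = 1 := by omega
      obtain ⟨k1, hk1, hk1'⟩ := odd_half (x := 4 * s1) hodd (by rw [← e1, hs1]; ring)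
      obtain ⟨k2, hk2, hk2'⟩ := odd_half (x := 2 * s1) hodd (by rw [← hk1']; ring)
      obtain ⟨k3, hk3, hk3'⟩ := odd_half (x := s1) hodd (by rw [← hk2'])
      exact ⟨k3, by rw [hk1, hk2, hk3]; ring⟩
    · have hodd : v.2 % 2 = 1 := by omega
      obtain ⟨k1, hk1, hk1'⟩ := odd_half (x := 4 * s2) hodd (by rw [← e2, hs2]; ring)
      obtain ⟨k2, hk2, hk2'⟩ := odd_half (x := 2 * s2) hodd (by rw [← hk1']; ring)
      obtain ⟨k3, hk3, hk3'⟩ := odd_half (x := s2) hodd (by rw [← hk2'])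
      exact ⟨k3, by rw [hk1, hk2, hk3]; ring⟩
  obtain ⟨k, hk⟩ := h8
  refine ⟨k, ?_, ?_⟩
  · rw [hk] at e1; linarith
  · rw [hk] at e2; linarith

theorem star_exists (hG : IsTriangulation S G) (hint : ∀ p ∈ S, ∃ q, p = ι q)
    (h4 : ∀ x y z, IsFace S G x y z → |orient x y z| = 4) {z : ℤ × ℤ} (hzS : ι z ∈ S)
    (hz : z.1 % 2 = 1 ∨ z.2 % 2 = 1)
    (hpar : ∀ v, G.Adj (ι z) (ι (z + v)) → v.1 % 2 = z.1 % 2 ∧ v.2 % 2 = z.2 % 2)
    (hin : ∀ q : Pt, q ≠ ι z → ∃ p ∈ S, 0 < orient (ι z) q p) :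
    ∃ u α v, Star S G z u α v := by
  classical
  have hpl := hG.1
  -- left and right points
  have hl : ∀ v, G.Adj (ι z) (ι (z + v)) → ∃ p ∈ S, 0 < orient (ι z) (ι (z + v)) p :=
    fun v hv => hin _ hv.ne.symm
  have hr : ∀ v, G.Adj (ι z) (ι (z + v)) → ∃ p ∈ S, orient (ι z) (ι (z + v)) p < 0 := by
    intro v hv
    obtain ⟨p, hp, hp'⟩ := hin (ι (z - v)) (by
      intro h
      apply hv.ne
      have h := ι_inj h
      have : v = 0 := by
        have : z - v = z := h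
        exact sub_eq_self.1 this
      rw [this]; simp)
    refine ⟨p, hp, ?_⟩
    have : orient (ι z) (ι (z + v)) p = - orient (ι z) (ι (z - v)) p := by
      unfold orient ι
      simp only [Prod.fst_sub, Prod.snd_sub, Prod.fst_add, Prod.snd_add]
      push_cast
      ring
    rw [this]; linarith
  -- the finite set of neighbour vectors
  set N : Finset (ℤ × ℤ) := (S.filter (fun p => G.Adj (ι z) p)).image
    (fun p => ((⌊p.1⌋ - z.1, ⌊p.2⌋ - z.2) : ℤ × ℤ)) with hN
  have memN : ∀ v, v ∈ N ↔ G.Adj (ι z) (ι (z + v)) := by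
    intro v
    rw [hN, Finset.mem_image]
    constructor
    · rintro ⟨p, hp, rfl⟩
      obtain ⟨hpS, hadj⟩ := Finset.mem_filter.1 hp
      obtain ⟨q, rfl⟩ := hint p hpS
      have : z + ((⌊(ι q).1⌋ - z.1, ⌊(ι q).2⌋ - z.2) : ℤ × ℤ) = q := by
        unfold ι
        apply Prod.ext <;> simp
      rw [this]; exact hadj
    · intro h
      refine ⟨ι (z + v), Finset.mem_filter.2 ⟨hpl.mem _ _ h.symm, h⟩, ?_⟩
      unfold ι
      apply Prod.ext <;> simp
  -- a neighbour exists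
  obtain ⟨v₀, hv₀⟩ : ∃ v, v ∈ N := by
    obtain ⟨p, hp, hp'⟩ := hin ((z.1 : ℝ) + 1, (z.2 : ℝ)) (by
      intro h
      have := congrArg Prod.fst h
      unfold ι at this
      simp at this)
    obtain ⟨d, hd, -⟩ := wedge hG hzS hp hp'
    obtain ⟨q, rfl⟩ := hint d (hpl.mem _ _ hd.symm)
    exact ⟨q - z, by rw [memN, add_sub_cancel]; exact hd⟩
  -- consecutive neighbours
  have hccw : ∀ v ∈ N, ∃ v' ∈ N, IsFace S G (ι z) (ι (z + v)) (ι (z + v')) ∧ idet v v' = 4 := by
    intro v hv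
    rw [memN] at hv
    obtain ⟨v', hf, hd⟩ := next_ccw hG hint h4 hv (hl v hv)
    exact ⟨v', by rw [memN]; exact hf.ca.symm, hf, hd⟩
  have hcw : ∀ v ∈ N, ∃ v' ∈ N, IsFace S G (ι z) (ι (z + v')) (ι (z + v)) ∧ idet v' v = 4 := by
    intro v hv
    rw [memN] at hv
    obtain ⟨v', hf, hd⟩ := next_cw hG hint h4 hv (hr v hv)
    exact ⟨v', by rw [memN]; exact hf.ab, hf, hd⟩
  have par : ∀ v ∈ N, v.1 % 2 = z.1 % 2 ∧ v.2 % 2 = z.2 % 2 := by
    intro v hv; rw [memN] at hv; exact hpar v hv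
  -- farthest neighbour
  obtain ⟨v, hvN, hvmax⟩ := N.exists_max_image (fun v => v.1 ^ 2 + v.2 ^ 2) ⟨v₀, hv₀⟩
  obtain ⟨u, huN, huf, hud⟩ := hccw v hvN
  obtain ⟨m, hmN, hmf, hmd⟩ := hcw v hvN
  have hm : m = -u := by
    obtain ⟨k, hk1, hk2⟩ := even_mult hz (par v hvN) (par u huN) (par m hmN) hud hmd
    have l1 := hvmax u huN
    have l2 := hvmax m hmN
    have hvpos : 0 < v.1 ^ 2 + v.2 ^ 2 := by
      by_contra hcon
      push Not at hcon
      have h1 : v.1 = 0 := by nlinarith [sq_nonneg v.1, sq_nonneg v.2]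
      have h2 : v.2 = 0 := by nlinarith [sq_nonneg v.1, sq_nonneg v.2]
      unfold idet at hud
      rw [h1, h2] at hud
      simp at hud
    have hne : 0 < (m.1 - u.1) ^ 2 + (m.2 - u.2) ^ 2 := by
      by_contra hcon
      push Not at hcon
      have h1 : m.1 = u.1 := by nlinarith [sq_nonneg (m.1 - u.1), sq_nonneg (m.2 - u.2)]
      have h2 : m.2 = u.2 := by nlinarith [sq_nonneg (m.1 - u.1), sq_nonneg (m.2 - u.2)]
      unfold idet at hud hmd
      rw [h1, h2] at hmd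
      nlinarith
    have hsq : (2 * k * v.1) ^ 2 + (2 * k * v.2) ^ 2 < 4 * (v.1 ^ 2 + v.2 ^ 2) := by
      rw [← hk1, ← hk2]
      nlinarith
    have hk0 : k = 0 := by
      have h5 : 4 * (k ^ 2 * (v.1 ^ 2 + v.2 ^ 2)) < 4 * (v.1 ^ 2 + v.2 ^ 2) := by
        nlinarith
      have h6 : k ^ 2 < 1 := by
        by_contra hcon
        push Not at hcon
        nlinarith
      nlinarith [sq_nonneg k, sq_nonneg (k - 1), sq_nonneg (k + 1)]
    rw [hk0] at hk1 hk2
    apply Prod.ext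
    · simp only [Prod.fst_neg]; linarith
    · simp only [Prod.snd_neg]; linarith
  rw [hm] at hmN hmf hmd
  -- the other side
  obtain ⟨w, hwN, hwf, hwd⟩ := hccw u huN
  obtain ⟨α, hαN', hαmin⟩ := (N.filter (fun α => 0 < idet u α)).exists_min_image
    (fun α => toLex (- idet u α, u.1 * α.1 + u.2 * α.2))
    ⟨w, Finset.mem_filter.2 ⟨hwN, by rw [hwd]; norm_num⟩⟩
  obtain ⟨hαN, hαpos⟩ := Finset.mem_filter.1 hαN'
  obtain ⟨p, hpN, hpf, hpd⟩ := hccw α hαN
  obtain ⟨q, hqN, hqf, hqd⟩ := hcw α hαN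
  have hαlex : ∀ β ∈ N, 0 < idet u β → idet u β ≤ idet u α ∧
      (idet u β = idet u α → u.1 * α.1 + u.2 * α.2 ≤ u.1 * β.1 + u.2 * β.2) := by
    intro β hβ hpos
    have h := hαmin β (Finset.mem_filter.2 ⟨hβ, hpos⟩)
    rw [Prod.Lex.toLex_le_toLex] at h
    rcases h with h | h
    · exact ⟨by linarith, fun he => by linarith⟩
    · exact ⟨by linarith [h.1], fun _ => h.2⟩
  -- dets of `p` and `q` are nonnegative
  have hpu : 0 ≤ idet u p := by
    by_contra hcon
    push Not at hcon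
    have hadj : G.Adj (ι z) (ι (z + -u)) := (memN _).1 hmN
    refine no_between hpl hpf ?_ hadj ?_ ?_
    · rw [orient_ι', hpd]; norm_num
    · rw [orient_ι']
      have : idet α (-u) = idet u α := by unfold idet; simp only [Prod.fst_neg, Prod.snd_neg]; ring
      rw [this]; exact_mod_cast hαpos
    · rw [orient_ι']
      have : idet (-u) p = - idet u p := by unfold idet; simp only [Prod.fst_neg, Prod.snd_neg]; ring
      rw [this]; push_cast
      have : ((idet u p : ℤ) : ℝ) < 0 := by exact_mod_cast hcon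
      linarith
  have hqu : 0 ≤ idet u q := by
    by_contra hcon
    push Not at hcon
    have hadj : G.Adj (ι z) (ι (z + u)) := (memN _).1 huN
    refine no_between hpl hqf ?_ hadj ?_ ?_
    · rw [orient_ι', hqd]; norm_num
    · rw [orient_ι']
      have : idet q u = - idet u q := by unfold idet; ring
      rw [this]; push_cast
      have : ((idet u q : ℤ) : ℝ) < 0 := by exact_mod_cast hcon
      linarith
    · rw [orient_ι']; exact_mod_cast hαpos
  have hpu' : idet u p ≤ idet u α := by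
    rcases eq_or_lt_of_le hpu with h | h
    · linarith
    · exact (hαlex p hpN h).1
  have hqu' : idet u q ≤ idet u α := by
    rcases eq_or_lt_of_le hqu with h | h
    · linarith
    · exact (hαlex q hqN h).1
  obtain ⟨k, hk1, hk2⟩ := even_mult hz (par α hαN) (par p hpN) (par q hqN) hpd hqd
  have hsum : idet u q + idet u p = 2 * k * idet u α := by
    unfold idet
    linear_combination u.1 * hk2 - u.2 * hk1
  -- excludes c = 2
  have hk0 : k = 0 := by
    have hk_nonneg : 0 ≤ k := by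
      by_contra hcon
      push Not at hcon
      nlinarith
    by_contra hne
    have hk1' : 1 ≤ k := by omega
    have hpe : idet u p = idet u α := by nlinarith
    have hid : (u.1 * u.1 + u.2 * u.2) * idet α p =
        (u.1 * α.1 + u.2 * α.2) * idet u p - idet u α * (u.1 * p.1 + u.2 * p.2) := by
      unfold idet; ring
    rw [hpd, hpe] at hid
    have hle := (hαlex p hpN (by rw [hpe]; exact hαpos)).2 hpe
    have hupos : 0 < u.1 * u.1 + u.2 * u.2 := by
      by_contra hcon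
      push Not at hcon
      have h1 : u.1 = 0 := by nlinarith [mul_self_nonneg u.1, mul_self_nonneg u.2]
      have h2 : u.2 = 0 := by nlinarith [mul_self_nonneg u.1, mul_self_nonneg u.2]
      unfold idet at hud
      rw [h1, h2] at hud
      simp at hud
    nlinarith
  rw [hk0] at hk1 hk2 hsum
  have hp0 : idet u p = 0 := by nlinarith
  have hqp : q = -p := by
    apply Prod.ext
    · simp only [Prod.fst_neg]; linarith
    · simp only [Prod.snd_neg]; linarith
  have hpe : p = -u := by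
    have hadj : G.Adj (ι z) (ι (z + -u)) := (memN _).1 hmN
    have hadj' : G.Adj (ι z) (ι (z + p)) := (memN _).1 hpN
    have := same_dir hpl (b := ι (z + α)) hadj' hadj
      (by rw [orient_ι', hpd]; norm_num)
      (by
        rw [orient_ι']
        have : idet α (-u) = idet u α := by
          unfold idet; simp only [Prod.fst_neg, Prod.snd_neg]; ring
        rw [this]; exact_mod_cast hαpos)
      (by
        rw [orient_ι']
        have : idet p (-u) = idet u p := by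
          unfold idet; simp only [Prod.fst_neg, Prod.snd_neg]; ring
        rw [this, hp0]; norm_num)
    have := ι_inj this
    exact add_left_cancel this
  have hqe : q = u := by rw [hqp, hpe]; simp
  rw [hpe] at hpf
  rw [hqe] at hqf hqd
  exact ⟨u, α, v, hqf, hpf, hmf, huf, hqd, hud⟩

/-- one of the two halves is congruent to `u` modulo 2 -/
theorem half_choice {u α : ℤ × ℤ} (hu : u.1 % 2 = 1 ∨ u.2 % 2 = 1)
    (hp : α.1 % 2 = u.1 % 2 ∧ α.2 % 2 = u.2 % 2) (hd : idet u α = 4 ∨ idet u α = -4) :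
    ∃ σ : ℤ, (σ = 1 ∨ σ = -1) ∧ ∃ A : ℤ × ℤ, 2 * A.1 = α.1 + σ * u.1 ∧ 2 * A.2 = α.2 + σ * u.2 ∧
      A.1 % 2 = u.1 % 2 ∧ A.2 % 2 = u.2 % 2 := by
  obtain ⟨x, hx⟩ : ∃ x, α.1 + u.1 = 2 * x := ⟨(α.1 + u.1) / 2, by omega⟩
  obtain ⟨y, hy⟩ : ∃ y, α.2 + u.2 = 2 * y := ⟨(α.2 + u.2) / 2, by omega⟩
  have h2 : (u.1 * y - u.2 * x) % 2 = 0 := by
    have e : 2 * (u.1 * y - u.2 * x) = idet u α := by
      unfold idet; linear_combination (-u.1) * hy + u.2 * hx
    rcases hd with h | h <;> omega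
  have hcase : (x % 2 = u.1 % 2 ∧ y % 2 = u.2 % 2) ∨ (x % 2 = 0 ∧ y % 2 = 0) := by
    have h3 : (u.1 % 2 * (y % 2) - u.2 % 2 * (x % 2)) % 2 = 0 := by
      rw [Int.sub_emod, Int.mul_emod, Int.mul_emod u.2 x] at h2
      rw [Int.sub_emod, Int.mul_emod, Int.mul_emod (u.2 % 2)]
      simpa using h2
    rcases Int.emod_two_eq_zero_or_one u.1 with a1 | a1 <;>
    rcases Int.emod_two_eq_zero_or_one u.2 with a2 | a2 <;>
    rcases Int.emod_two_eq_zero_or_one x with a3 | a3 <;>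
    rcases Int.emod_two_eq_zero_or_one y with a4 | a4 <;>
    first
      | omega
      | (exfalso; rw [a1, a2, a3, a4] at h3; norm_num at h3)
  rcases hcase with ⟨h1, h2⟩ | ⟨h1, h2⟩
  · exact ⟨1, Or.inl rfl, (x, y), by simp only; linarith, by simp only; linarith, h1, h2⟩
  · refine ⟨-1, Or.inr rfl, (x - u.1, y - u.2), by simp only; linarith, by simp only; linarith,
      ?_, ?_⟩
    · simp only; omega
    · simp only; omega

end Pool.Agent.AreaTri
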