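import Pool.Agent.AreaTri.Plane

/-!
Visibility lemmas for maximal non-crossing families of segments.
-/

namespace Pool.Agent.AreaTri

/-- `z` divides `p q` in ratio `t : 1 - t` -/
def On (t : ℝ) (p q z : Pt) : Prop :=
  z.1 = p.1 + t * (q.1 - p.1) ∧ z.2 = p.2 + t * (q.2 - p.2)

theorem mem_oseg_on {a b z : Pt} : z ∈ openSegment ℝ a b ↔ ∃ t : ℝ, 0 < t ∧ t < 1 ∧ On t a b z :=
  mem_oseg

theorem On.orient {p q z : Pt} {t : ℝ} (h : On t p q z) (a b : Pt) :
    orient a b z = (1 - t) * orient a b p + t * orient a b q := by
  unfold AreaTri.orient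
  rw [h.1, h.2]; ring

theorem On.orient' {p q z : Pt} {t : ℝ} (h : On t p q z) (a b : Pt) :
    AreaTri.orient a z b = (1 - t) * AreaTri.orient a p b + t * AreaTri.orient a q b := by
  unfold AreaTri.orient
  rw [h.1, h.2]; ring

theorem On.toward {u w z y : Pt} {τ : ℝ} (hz : z ∈ openSegment ℝ u w) (h0 : 0 ≤ τ) (h1 : τ < 1)
    (h : On τ z u y) : y ∈ openSegment ℝ u w := by
  obtain ⟨t, ht0, ht1, hx, hy⟩ := mem_oseg.1 hz
  refine mem_oseg.2 ⟨(1 - τ) * t, by nlinarith, by nlinarith, ?_, ?_⟩
  · rw [h.1, hx]; ring
  · rw [h.2, hy]; ring

theorem exists_on {p q : Pt} (hpq : p ≠ q) {r : Pt} (h : orient p q r = 0) : ∃ t, On t p q r := by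
  by_cases h1 : q.1 - p.1 = 0
  · have h2 : q.2 - p.2 ≠ 0 := by
      intro h2
      exact hpq (Prod.ext (by linarith) (by linarith))
    refine ⟨(r.2 - p.2) / (q.2 - p.2), ?_, ?_⟩
    · unfold orient at h
      rw [h1] at h
      have : r.1 - p.1 = 0 := by
        have h3 : (q.2 - p.2) * (r.1 - p.1) = 0 := by linarith
        rcases mul_eq_zero.1 h3 with h4 | h4
        · exact absurd h4 h2
        · exact h4
      rw [h1]; linarith
    · field_simp; ring
  · refine ⟨(r.1 - p.1) / (q.1 - p.1), ?_, ?_⟩
    · field_simp; ring
    · unfold orient at h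
      have : r.2 - p.2 = (r.1 - p.1) / (q.1 - p.1) * (q.2 - p.2) := by
        field_simp; linarith
      linarith

theorem On.ext {p q z z' : Pt} {t : ℝ} (h : On t p q z) (h' : On t p q z') : z = z' :=
  Prod.ext (by rw [h.1, h'.1]) (by rw [h.2, h'.2])

theorem On.zero {p q : Pt} : On 0 p q p := by constructor <;> simp

theorem On.one {p q : Pt} : On 1 p q q := by constructor <;> simp

/-- on one line, with `a ≠ b`, the parameter is unique -/
theorem On.inj {p q z : Pt} (hpq : p ≠ q) {t t' : ℝ} (h : On t p q z) (h' : On t' p q z) :
    t = t' := by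
  have e1 : (t - t') * (q.1 - p.1) = 0 := by have := h.1; have := h'.1; linarith
  have e2 : (t - t') * (q.2 - p.2) = 0 := by have := h.2; have := h'.2; linarith
  by_contra hne
  have hne' : t - t' ≠ 0 := sub_ne_zero.2 hne
  apply hpq
  rcases mul_eq_zero.1 e1 with h1 | h1
  · exact absurd h1 hne'
  · rcases mul_eq_zero.1 e2 with h2 | h2
    · exact absurd h2 hne'
    · exact Prod.ext (by linarith) (by linarith)

/-- two overlapping collinear segments which contain no point of `S` are equal -/
theorem overlap_eq {S : Finset Pt} {p q r s z : Pt} (hp : p ∈ S) (hq : q ∈ S) (hr : r ∈ S)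
    (hs : s ∈ S) (hf : ∀ x ∈ S, x ∉ openSegment ℝ p q) (hf' : ∀ x ∈ S, x ∉ openSegment ℝ r s)
    (hz : z ∈ openSegment ℝ p q) (hz' : z ∈ openSegment ℝ r s) (hpq : p ≠ q)
    (h1 : orient p q r = 0) (h2 : orient p q s = 0) : s(r, s) = s(p, q) := by
  obtain ⟨ρ, hρ⟩ := exists_on hpq h1
  obtain ⟨σ, hσ⟩ := exists_on hpq h2
  obtain ⟨ζ, h0, h1, hζ⟩ := mem_oseg_on.1 hz
  obtain ⟨t, ht0, ht1, ht⟩ := mem_oseg_on.1 hz'
  have hζ' : ζ = (1 - t) * ρ + t * σ := by
    apply On.inj hpq hζ
    constructor
    · rw [ht.1, hρ.1, hσ.1]; ring
    · rw [ht.2, hρ.2, hσ.2]; ring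
  have c1 : ρ ≤ 0 ∨ 1 ≤ ρ := by
    by_contra hc
    push Not at hc
    exact hf r hr (mem_oseg_on.2 ⟨ρ, hc.1, hc.2, hρ⟩)
  have c2 : σ ≤ 0 ∨ 1 ≤ σ := by
    by_contra hc
    push Not at hc
    exact hf s hs (mem_oseg_on.2 ⟨σ, hc.1, hc.2, hσ⟩)
  -- a point of S with parameter x strictly between ρ and σ is impossible
  have key : ∀ x : ℝ, ∀ v ∈ S, On x p q v → ¬ (ρ < x ∧ x < σ) ∧ ¬ (σ < x ∧ x < ρ) := by
    intro x v hv hx
    have gen : ∀ u : ℝ, 0 < u → u < 1 → x = (1 - u) * ρ + u * σ → False := by
      intro u hu0 hu1 hxu
      apply hf' v hv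
      refine mem_oseg_on.2 ⟨u, hu0, hu1, ?_, ?_⟩
      · rw [hx.1, hρ.1, hσ.1, hxu]; ring
      · rw [hx.2, hρ.2, hσ.2, hxu]; ring
    constructor
    · rintro ⟨ha, hb⟩
      have hd : 0 < σ - ρ := by linarith
      refine gen ((x - ρ) / (σ - ρ)) (by apply div_pos <;> linarith) ?_ ?_
      · rw [div_lt_one hd]; linarith
      · field_simp; ring
    · rintro ⟨ha, hb⟩
      have hd : 0 < ρ - σ := by linarith
      refine gen ((ρ - x) / (ρ - σ)) (by apply div_pos <;> linarith) ?_ ?_
      · rw [div_lt_one hd]; linarith
      · field_simp; ring
  have k0 := key 0 p hp On.zero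
  have k1 := key 1 q hq On.one
  rcases c1 with c1 | c1 <;> rcases c2 with c2 | c2
  · exfalso; nlinarith
  · have e1 : ρ = 0 := by
      by_contra hne
      exact k0.1 ⟨lt_of_le_of_ne c1 hne, by linarith⟩
    have e2 : σ = 1 := by
      by_contra hne
      exact k1.1 ⟨by linarith, lt_of_le_of_ne c2 (Ne.symm hne)⟩
    subst e1; subst e2
    rw [On.ext hρ On.zero, On.ext hσ On.one]
  · have e1 : σ = 0 := by
      by_contra hne
      exact k0.2 ⟨lt_of_le_of_ne c2 hne, by linarith⟩
    have e2 : ρ = 1 := by
      by_contra hne
      exact k1.2 ⟨by linarith, lt_of_le_of_ne c1 (Ne.symm hne)⟩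
    subst e1; subst e2
    rw [On.ext hσ On.zero, On.ext hρ On.one, Sym2.eq_swap]
  · exfalso; nlinarith

theorem exists_lex (C : Finset Pt) (hC : C.Nonempty) (A B : Pt → ℝ) (hB : ∀ p ∈ C, 0 < B p) :
    ∃ d ∈ C, (∀ p ∈ C, A p * B d ≤ A d * B p) ∧
      (∀ p ∈ C, A p * B d = A d * B p → B d ≤ B p) := by
  obtain ⟨d, hd, hmin⟩ := C.exists_min_image (fun p => toLex (-(A p / B p), B p)) hC
  refine ⟨d, hd, ?_, ?_⟩
  · intro p hp
    have h := hmin p hp
    have hBd := hB d hd
    have hBp := hB p hp
    rw [Prod.Lex.toLex_le_toLex] at h
    have h' : A p / B p ≤ A d / B d := by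
      rcases h with h | h
      · linarith
      · linarith [h.1]
    rwa [div_le_div_iff₀ hBp hBd] at h'
  · intro p hp he
    have h := hmin p hp
    have hBd := hB d hd
    have hBp := hB p hp
    rw [Prod.Lex.toLex_le_toLex] at h
    have h' : A p / B p = A d / B d := by
      rwa [div_eq_div_iff hBp.ne' hBd.ne']
    rcases h with h | h
    · exfalso
      have : -(A d / B d) < -(A p / B p) := h
      linarith
    · exact h.2

theorem exists_min_angle (C : Finset Pt) (hC : C.Nonempty) (a b : Pt)
    (hB : ∀ p ∈ C, 0 < orient a b p) :
    ∃ d ∈ C, (∀ p ∈ C, 0 ≤ orient a d p) ∧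
      (∀ p ∈ C, orient a d p = 0 → orient a b d ≤ orient a b p) := by
  obtain ⟨d, hd, h1, h2⟩ := exists_lex C hC
    (fun p => (b.1 - a.1) * (p.1 - a.1) + (b.2 - a.2) * (p.2 - a.2)) (fun p => orient a b p) hB
  have hN : 0 < (b.1 - a.1) ^ 2 + (b.2 - a.2) ^ 2 := by
    have h := hB d hd
    rcases eq_or_ne (b.1 - a.1) 0 with e1 | e1
    · rcases eq_or_ne (b.2 - a.2) 0 with e2 | e2
      · exfalso
        unfold orient at h
        rw [e1, e2] at h
        simp at h
      · positivity
    · positivity
  have id : ∀ p : Pt, ((b.1 - a.1) * (d.1 - a.1) + (b.2 - a.2) * (d.2 - a.2)) * orient a b p -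
      ((b.1 - a.1) * (p.1 - a.1) + (b.2 - a.2) * (p.2 - a.2)) * orient a b d =
      ((b.1 - a.1) ^ 2 + (b.2 - a.2) ^ 2) * orient a d p := by
    intro p; unfold orient; ring
  refine ⟨d, hd, ?_, ?_⟩
  · intro p hp
    have h := h1 p hp
    have h3 := id p
    by_contra hc
    push Not at hc
    nlinarith
  · intro p hp h0
    apply h2 p hp
    have h3 := id p
    rw [h0] at h3
    linarith

theorem exists_max_angle (C : Finset Pt) (hC : C.Nonempty) (a b : Pt)
    (hB : ∀ p ∈ C, 0 < orient a b p) :
    ∃ d ∈ C, (∀ p ∈ C, orient a d p ≤ 0) ∧
      (∀ p ∈ C, orient a d p = 0 → orient a b d ≤ orient a b p) := by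
  obtain ⟨d, hd, h1, h2⟩ := exists_lex C hC
    (fun p => -((b.1 - a.1) * (p.1 - a.1) + (b.2 - a.2) * (p.2 - a.2))) (fun p => orient a b p) hB
  have hN : 0 < (b.1 - a.1) ^ 2 + (b.2 - a.2) ^ 2 := by
    have h := hB d hd
    rcases eq_or_ne (b.1 - a.1) 0 with e1 | e1
    · rcases eq_or_ne (b.2 - a.2) 0 with e2 | e2
      · exfalso
        unfold orient at h
        rw [e1, e2] at h
        simp at h
      · positivity
    · positivity
  have id : ∀ p : Pt, ((b.1 - a.1) * (d.1 - a.1) + (b.2 - a.2) * (d.2 - a.2)) * orient a b p -
      ((b.1 - a.1) * (p.1 - a.1) + (b.2 - a.2) * (p.2 - a.2)) * orient a b d =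
      ((b.1 - a.1) ^ 2 + (b.2 - a.2) ^ 2) * orient a d p := by
    intro p; unfold orient; ring
  refine ⟨d, hd, ?_, ?_⟩
  · intro p hp
    have h := h1 p hp
    have h3 := id p
    by_contra hc
    push Not at hc
    nlinarith
  · intro p hp h0
    apply h2 p hp
    have h3 := id p
    rw [h0] at h3
    linarith

/-- the nearest blocking edge gives a visible neighbour -/
theorem vis {S : Finset Pt} {G : SimpleGraph Pt} (hG : IsTriangulation S G) {a r s y : Pt}
    (ha : a ∈ S) (hrs : G.Adj r s) (hy : y ∈ openSegment ℝ r s)
    (hfree : ∀ p ∈ S, p ∉ openSegment ℝ a y)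
    (hcross : ∀ p q z, G.Adj p q → z ∈ openSegment ℝ p q → z ∉ openSegment ℝ a y)
    (hD : 0 < orient a y s) :
    ∃ d, G.Adj a d ∧ 0 ≤ orient a d s ∧ 0 < orient a y d ∧
      orient a d s + orient a y d ≤ orient a y s := by
  classical
  set C := S.filter (fun p => 0 ≤ orient a p s ∧ 0 < orient a y p ∧
    orient a p s + orient a y p ≤ orient a y s) with hCdef
  have hsS : s ∈ S := hG.1.mem _ _ hrs.symm
  have hsC : s ∈ C := by
    rw [hCdef, Finset.mem_filter]
    exact ⟨hsS, by simp, hD, by simp⟩
  obtain ⟨d, hdC, hmin, hnear⟩ := exists_min_angle C ⟨s, hsC⟩ a y (by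
    intro p hp
    exact (Finset.mem_filter.1 hp).2.2.1)
  obtain ⟨hdS, hA, hB, hAB⟩ := Finset.mem_filter.1 hdC
  refine ⟨d, ?_, hA, hB, hAB⟩
  have had : a ≠ d := by
    rintro rfl
    simp at hB
  -- everything on the line `r s` has `A + B = D`
  obtain ⟨ty, hty0, hty1, hty⟩ := mem_oseg_on.1 hy
  have hr : orient a r s + orient a y r = orient a y s := by
    have e1 := hty.orient' a s
    have e2 := hty.orient a y
    have e3 : orient a y y = 0 := orient_self _ _
    have e4 : orient a s s = 0 := orient_self _ _
    rw [e3] at e2
    rw [e4] at e1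
    have : (1 - ty) * (orient a r s + orient a y r - orient a y s) = 0 := by linarith
    rcases mul_eq_zero.1 this with h | h
    · linarith
    · linarith
  have hline : ∀ z, z ∈ openSegment ℝ r s → orient a z s + orient a y z = orient a y s := by
    intro z hz
    obtain ⟨t, _, _, ht⟩ := mem_oseg_on.1 hz
    have e1 := ht.orient' a s
    have e2 := ht.orient a y
    have e4 : orient a s s = 0 := orient_self _ _
    rw [e4] at e1
    have hh : (1 - t) * (orient a r s + orient a y r) = (1 - t) * orient a y s := by rw [hr]
    linarith
  -- a point with `A + B = D` and `A, B > 0` lies in the open segment `r s`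
  have hin : ∀ z : Pt, 0 < orient a z s → 0 < orient a y z →
      orient a z s + orient a y z = orient a y s → z ∈ openSegment ℝ r s := by
    intro z hz1 hz2 hz3
    obtain ⟨hx, hy'⟩ := coord (ne_of_gt hD) z
    have hon : On (orient a y z / orient a y s) y s z := by
      have e : orient a z s / orient a y s = 1 - orient a y z / orient a y s := by
        field_simp; linarith
      rw [e] at hx hy'
      constructor
      · rw [hx]; ring
      · rw [hy']; ring
    rw [openSegment_symm]
    refine On.toward (u := s) (w := r) (z := y) (τ := orient a y z / orient a y s) ?_ ?_ ?_ hon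
    · rw [openSegment_symm]; exact hy
    · positivity
    · rw [div_lt_one hD]; linarith
  apply adj_of_free hG ha hdS had
  · intro p hp hpo
    obtain ⟨t, ht0, ht1, ht⟩ := mem_oseg_on.1 hpo
    have e1 := ht.orient' a s
    have e2 := ht.orient a y
    have e3 : orient a a s = 0 := orient_self'' _ _
    have e4 : orient a y a = 0 := orient_self' _ _
    rw [e3] at e1; rw [e4] at e2
    have hpC : p ∈ C := by
      rw [hCdef, Finset.mem_filter]
      refine ⟨hp, ?_, ?_, ?_⟩
      · rw [e1]; nlinarith
      · rw [e2]; nlinarith
      · rw [e1, e2]; nlinarith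
    have h0 : orient a d p = 0 := by
      have := ht.orient a d
      rw [this]; simp
    have := hnear p hpC h0
    rw [e2] at this
    nlinarith
  · intro u w z huw hz hz'
    obtain ⟨ζ, hζ0, hζ1, hζ⟩ := mem_oseg_on.1 hz'
    have zA : orient a z s = ζ * orient a d s := by
      have := hζ.orient' a s; simpa using this
    have zB : orient a y z = ζ * orient a y d := by
      have := hζ.orient a y; simpa using this
    have zl : orient a d z = 0 := by
      have := hζ.orient a d; simpa using this
    have hzlt : orient a z s + orient a y z < orient a y s := by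
      rw [zA, zB]; nlinarith
    -- main claim: an edge through `z` has no end strictly to the right of `a d`
    have main : ∀ u w, G.Adj u w → z ∈ openSegment ℝ u w → orient a d u < 0 → False := by
      intro u w huw hz hneg
      have huS : u ∈ S := hG.1.mem _ _ huw
      -- the edge is not `r s`
      have hne : ∀ z', z' ∈ openSegment ℝ u w → z' ∈ openSegment ℝ r s → False := by
        intro z' h1 h2
        by_cases he : s(u, w) = s(r, s)
        · have : z ∈ openSegment ℝ r s := by
            rcases Sym2.eq_iff.1 he with ⟨rfl, rfl⟩ | ⟨rfl, rfl⟩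
            · exact hz
            · rw [openSegment_symm]; exact hz
          have := hline z this
          linarith
        · exact Set.disjoint_left.1 (hG.1.cross _ _ _ _ huw hrs he) h1 h2
      have pl : orient a y s * orient a d u = orient a d s * orient a y u -
          orient a u s * orient a y d := by unfold orient; ring
      have hpl : orient a d s * orient a y u < orient a u s * orient a y d := by nlinarith
      -- a point of the segment from z to u with A + B = D, B > 0
      have exit2 : ∀ τ : ℝ, 0 < τ → τ < 1 → ∀ p, On τ z u p → 0 < orient a y p →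
          orient a p s + orient a y p = orient a y s → False := by
        intro τ h0 h1 p hp hpB hpD
        have hA' : 0 < orient a p s := by
          have e1 := hp.orient' a s
          have e2 := hp.orient a y
          have e3 := hp.orient a d
          rw [zl] at e3
          have pl2 : orient a y s * orient a d p = orient a d s * orient a y p -
            orient a p s * orient a y d := by unfold orient; ring
          have : orient a d p < 0 := by rw [e3]; nlinarith
          have : orient a d s * orient a y p < orient a p s * orient a y d := by nlinarith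
          have h5 : 0 ≤ orient a d s * orient a y p := by positivity
          by_contra hc
          push Not at hc
          nlinarith
        exact hne p (On.toward hz h0.le h1 hp) (hin p hA' hpB hpD)
      by_cases hBu : 0 < orient a y u
      · -- then `u` is outside
        have hAu : 0 < orient a u s := by
          have h5 : 0 ≤ orient a d s * orient a y u := by positivity
          by_contra hc
          push Not at hc
          nlinarith
        have hgt : orient a y s < orient a u s + orient a y u := by
          by_contra hc
          push Not at hc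
          have hC : u ∈ C := by
            rw [hCdef, Finset.mem_filter]
            exact ⟨huS, hAu.le, hBu, hc⟩
          have := hmin u hC
          linarith
        set σz := orient a z s + orient a y z with hσz
        set σu := orient a u s + orient a y u with hσu
        have hd : 0 < σu - σz := by linarith
        set τ := (orient a y s - σz) / (σu - σz) with hτ
        have hτ0 : 0 < τ := by apply div_pos <;> linarith
        have hτ1 : τ < 1 := by rw [hτ, div_lt_one hd]; linarith
        set p : Pt := (z.1 + τ * (u.1 - z.1), z.2 + τ * (u.2 - z.2)) with hp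
        have hon : On τ z u p := ⟨rfl, rfl⟩
        refine exit2 τ hτ0 hτ1 p hon ?_ ?_
        · rw [hon.orient a y, zB]
          have : 0 < ζ * orient a y d := by positivity
          have : 0 < τ * orient a y u := by positivity
          have : 0 ≤ (1 - τ) * (ζ * orient a y d) := by
            apply mul_nonneg; linarith; linarith
          linarith
        · rw [hon.orient a y, hon.orient' a s]
          have : (1 - τ) * orient a z s + τ * orient a u s +
            ((1 - τ) * orient a y z + τ * orient a y u) = σz + τ * (σu - σz) := by
            rw [hσz, hσu]; ring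
          rw [this, hτ]; field_simp; ring
      · push Not at hBu
        -- parameter where B vanishes
        have hBz : 0 < orient a y z := by rw [zB]; positivity
        have hd : 0 < orient a y z - orient a y u := by linarith
        set τ := orient a y z / (orient a y z - orient a y u) with hτ
        have hτ0 : 0 < τ := by apply div_pos <;> linarith
        have hτ1 : τ ≤ 1 := by rw [hτ, div_le_one hd]; linarith
        set p : Pt := (z.1 + τ * (u.1 - z.1), z.2 + τ * (u.2 - z.2)) with hp
        have hon : On τ z u p := ⟨rfl, rfl⟩
        have hpB : orient a y p = 0 := by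
          rw [hon.orient a y, hτ]; field_simp; ring
        have hpl' : orient a d p < 0 := by
          rw [hon.orient a d, zl]; nlinarith
        have hpA : 0 < orient a p s := by
          have pl2 : orient a y s * orient a d p = orient a d s * orient a y p -
            orient a p s * orient a y d := by unfold orient; ring
          rw [hpB] at pl2
          by_contra hc
          push Not at hc
          nlinarith
        by_cases hle : orient a p s ≤ orient a y s
        · -- p is in the segment (a, y]
          have hcoord := coord (ne_of_gt hD) p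
          rw [hpB] at hcoord
          simp only [zero_div, zero_mul, add_zero] at hcoord
          rcases eq_or_lt_of_le hle with he | hlt
          · -- p = y
            rw [he, div_self (ne_of_gt hD)] at hcoord
            have hpy : p = y := Prod.ext (by rw [hcoord.1]; ring) (by rw [hcoord.2]; ring)
            rcases eq_or_lt_of_le hτ1 with h1 | h1
            · have : p = u := by
                rw [h1] at hon
                exact On.ext hon On.one
              apply hG.1.free _ _ hrs u huS
              rw [← this, hpy]; exact hy
            · exact hne p (On.toward hz hτ0.le h1 hon) (by rw [hpy]; exact hy)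
          · have hpin : p ∈ openSegment ℝ a y := by
              refine mem_oseg_on.2 ⟨orient a p s / orient a y s, by positivity, ?_, hcoord⟩
              rw [div_lt_one hD]; exact hlt
            rcases eq_or_lt_of_le hτ1 with h1 | h1
            · have : p = u := by
                rw [h1] at hon
                exact On.ext hon On.one
              exact hfree u huS (this ▸ hpin)
            · exact hcross u w p huw (On.toward hz hτ0.le h1 hon) hpin
        · push Not at hle
          -- exit through `r s` before
          set σz := orient a z s + orient a y z with hσz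
          have hd' : 0 < orient a p s - σz := by linarith
          set τ' := (orient a y s - σz) / (orient a p s - σz) with hτ'
          have hτ'0 : 0 < τ' := by apply div_pos <;> linarith
          have hτ'1 : τ' < 1 := by rw [hτ', div_lt_one hd']; linarith
          set p' : Pt := (z.1 + (τ' * τ) * (u.1 - z.1), z.2 + (τ' * τ) * (u.2 - z.2)) with hp'
          have hon' : On (τ' * τ) z u p' := ⟨rfl, rfl⟩
          have hon2 : On τ' z p p' := by
            constructor
            · rw [hon'.1, hon.1]; ring
            · rw [hon'.2, hon.2]; ring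
          refine exit2 (τ' * τ) (by positivity) (by nlinarith) p' hon' ?_ ?_
          · rw [hon2.orient a y, hpB]
            have : 0 < (1 - τ') * orient a y z := by
              apply mul_pos; linarith; exact hBz
            linarith
          · rw [hon2.orient a y, hon2.orient' a s, hpB]
            have : (1 - τ') * orient a z s + τ' * orient a p s +
              ((1 - τ') * orient a y z + τ' * 0) = σz + τ' * (orient a p s - σz) := by
              rw [hσz]; ring
            rw [this, hτ']; field_simp; ring
    have hcomb := (mem_oseg_on.1 hz)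
    obtain ⟨t, ht0, ht1, ht⟩ := hcomb
    have e := ht.orient a d
    rw [zl] at e
    rcases lt_trichotomy (orient a d u) 0 with h | h | h
    · exact (main u w huw hz h).elim
    · have hw : orient a d w = 0 := by
        rw [h] at e
        have : t * orient a d w = 0 := by linarith
        rcases mul_eq_zero.1 this with h' | h'
        · linarith
        · exact h'
      refine overlap_eq ha hdS (hG.1.mem _ _ huw) (hG.1.mem _ _ huw.symm) ?_
        (hG.1.free _ _ huw) hz' hz had h hw
      -- freeness of `a d`
      intro p hp hpo
      obtain ⟨t, ht0, ht1, ht⟩ := mem_oseg_on.1 hpo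
      have e1 := ht.orient' a s
      have e2 := ht.orient a y
      have e3 : orient a a s = 0 := orient_self'' _ _
      have e4 : orient a y a = 0 := orient_self' _ _
      rw [e3] at e1; rw [e4] at e2
      have hpC : p ∈ C := by
        rw [hCdef, Finset.mem_filter]
        refine ⟨hp, ?_, ?_, ?_⟩
        · rw [e1]; nlinarith
        · rw [e2]; nlinarith
        · rw [e1, e2]; nlinarith
      have h0 : orient a d p = 0 := by
        have := ht.orient a d
        rw [this]; simp
      have := hnear p hpC h0
      rw [e2] at this
      nlinarith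
    · have hw : orient a d w < 0 := by
        by_contra hc
        push Not at hc
        have : 0 < (1 - t) * orient a d u := by
          apply mul_pos; linarith; exact h
        have : 0 ≤ t * orient a d w := by positivity
        linarith
      exact (main w u huw.symm (oseg_symm.1 hz) hw).elim

end Pool.Agent.AreaTri
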